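import Pool.Agent.N135.ZO.CM
import Pool.Agent.Y577.LU.L1

/-!
# The modular function is injective modulo the modular group
-/

set_option autoImplicit false

namespace Pool.Agent.N101.ZP

open UpperHalfPlane ModularForm EisensteinSeries H294ZP Pool.Agent.N135.ZO

/-- the lattice `Ω (ℤ + ℤ ω)` -/
noncomputable def mkL (ω Ω : ℂ) (hω : 0 < ω.im) (hΩ : Ω ≠ 0) : PeriodPair where
  ω₁ := Ω
  ω₂ := Ω * ω
  indep := by
    rw [LinearIndependent.pair_iff]
    intro s t h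
    have h1 : Ω * ((s : ℂ) + t * ω) = 0 := by
      simp only [Complex.real_smul] at h
      linear_combination h
    have h2 := (mul_eq_zero.1 h1).resolve_left hΩ
    have h3 := congrArg Complex.im h2
    simp at h3
    have ht : t = 0 := h3.resolve_right hω.ne'
    refine ⟨?_, ht⟩
    rw [ht] at h2
    simpa using h2

/-- the elements of the lattice -/
noncomputable def latV (ω Ω : ℂ) (hω : 0 < ω.im) (hΩ : Ω ≠ 0) :
    (Fin 2 → ℤ) ≃ (mkL ω Ω hω hΩ).lattice :=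
  Equiv.ofBijective (fun v => ⟨Ω * (v 0 * ω + v 1), PeriodPair.mem_lattice.2 ⟨v 1, v 0, by
    show (v 1 : ℂ) * Ω + v 0 * (Ω * ω) = _
    ring⟩⟩) ⟨by
    intro v w h
    have h1 : Ω * ((v 0 : ℂ) * ω + v 1) = Ω * (w 0 * ω + w 1) := congrArg Subtype.val h
    have h2 := mul_left_cancel₀ hΩ h1
    have h3 := congrArg Complex.im h2
    simp at h3
    have h4 : v 0 = w 0 := by
      rcases h3 with h3 | h3
      · exact_mod_cast h3
      · exact absurd h3 hω.ne'
    have h5 : v 1 = w 1 := by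
      rw [h4] at h2
      have := add_left_cancel h2
      exact_mod_cast this
    funext i
    fin_cases i
    · exact h4
    · exact h5, by
    intro l
    obtain ⟨m, n, h⟩ := PeriodPair.mem_lattice.1 l.2
    refine ⟨![n, m], Subtype.ext ?_⟩
    rw [← h]
    show Ω * ((n : ℂ) * ω + m) = (m : ℂ) * Ω + n * (Ω * ω)
    ring⟩

lemma G_eq {ω Ω : ℂ} (hω : 0 < ω.im) (hΩ : Ω ≠ 0) {k : ℕ} (hk : 3 ≤ k) :
    (mkL ω Ω hω hΩ).G k = (Ω ^ k)⁻¹ * (2 * riemannZeta k * E hk ⟨ω, hω⟩) := by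
  have h1 := tsum_eisSummand_eq_riemannZeta_mul_eisensteinSeries hk (⟨ω, hω⟩ : ℍ)
  have h2 : E hk (⟨ω, hω⟩ : ℍ) = (1 / 2 : ℂ) * eisensteinSeries (N := 1) 0 k ⟨ω, hω⟩ := rfl
  have h3 : 2 * riemannZeta k * E hk (⟨ω, hω⟩ : ℍ) =
      ∑' v : Fin 2 → ℤ, eisSummand k v (⟨ω, hω⟩ : ℍ) := by
    rw [h1, h2]
    ring
  rw [h3, ← tsum_mul_left]
  unfold PeriodPair.G
  rw [← (latV ω Ω hω hΩ).tsum_eq]
  refine tsum_congr fun v => ?_
  have h4 : (((latV ω Ω hω hΩ) v : (mkL ω Ω hω hΩ).lattice) : ℂ) = Ω * (v 0 * ω + v 1) := rfl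
  rw [h4, mul_pow, mul_inv]
  congr 1
  unfold eisSummand
  rw [zpow_neg, zpow_natCast]

/-- a scaling -/
theorem exists_scale {a4 a6 b4 b6 D D' : ℂ} (hD : D ≠ 0) (hD' : D' ≠ 0)
    (h4 : a4 ^ 3 * D' = b4 ^ 3 * D) (h6 : a6 ^ 2 * D' = b6 ^ 2 * D)
    (hb : b4 ≠ 0 ∨ b6 ≠ 0) (ha : a4 ≠ 0 ∨ a6 ≠ 0) : ∃ u : ℂ, u ≠ 0 ∧ a4 = u ^ 4 * b4 ∧
      a6 = u ^ 6 * b6 := by
  by_cases hb4 : b4 = 0
  · have hb6 : b6 ≠ 0 := hb.resolve_left (by simp [hb4])
    have ha4 : a4 = 0 := by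
      rw [hb4] at h4
      simpa [hD'] using h4
    have ha6 : a6 ≠ 0 := ha.resolve_left (by simp [ha4])
    obtain ⟨u, hu⟩ := IsAlgClosed.exists_pow_nat_eq (a6 / b6) (n := 6) (by norm_num)
    refine ⟨u, ?_, by rw [ha4, hb4, mul_zero], by rw [hu]; field_simp⟩
    rintro rfl
    rw [zero_pow (by norm_num)] at hu
    exact (div_ne_zero ha6 hb6) hu.symm
  · by_cases hb6 : b6 = 0
    · have ha6 : a6 = 0 := by
        rw [hb6] at h6
        simpa [hD'] using h6
      have ha4 : a4 ≠ 0 := ha.resolve_right (by simp [ha6])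
      obtain ⟨u, hu⟩ := IsAlgClosed.exists_pow_nat_eq (a4 / b4) (n := 4) (by norm_num)
      refine ⟨u, ?_, by rw [hu]; field_simp, by rw [ha6, hb6, mul_zero]⟩
      rintro rfl
      rw [zero_pow (by norm_num)] at hu
      exact (div_ne_zero ha4 hb4) hu.symm
    · have ha4 : a4 ≠ 0 := by
        rintro rfl
        rw [zero_pow (by norm_num), zero_mul] at h4
        exact (mul_ne_zero (pow_ne_zero 3 hb4) hD) h4.symm
      have ha6 : a6 ≠ 0 := by
        rintro rfl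
        rw [zero_pow (by norm_num), zero_mul] at h6
        exact (mul_ne_zero (pow_ne_zero 2 hb6) hD) h6.symm
      obtain ⟨u, hu⟩ := IsAlgClosed.exists_pow_nat_eq ((a6 / b6) / (a4 / b4)) (n := 2)
        (by norm_num)
      have hab : (a4 / b4) ^ 3 = (a6 / b6) ^ 2 := by
        have e1 : (a4 / b4) ^ 3 = D / D' := by
          rw [div_pow, div_eq_div_iff (pow_ne_zero 3 hb4) hD']
          linear_combination h4
        have e2 : (a6 / b6) ^ 2 = D / D' := by
          rw [div_pow, div_eq_div_iff (pow_ne_zero 2 hb6) hD']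
          linear_combination h6
        rw [e1, e2]
      have hx : a4 / b4 ≠ 0 := div_ne_zero ha4 hb4
      have hy : a6 / b6 ≠ 0 := div_ne_zero ha6 hb6
      refine ⟨u, ?_, ?_, ?_⟩
      · rintro rfl
        rw [zero_pow (by norm_num)] at hu
        exact (div_ne_zero hy hx) hu.symm
      · have : u ^ 4 = a4 / b4 := by
          have e : u ^ 4 = (u ^ 2) ^ 2 := by ring
          rw [e, hu, div_pow, ← hab]
          field_simp
        rw [this]
        field_simp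
      · have : u ^ 6 = a6 / b6 := by
          have e : u ^ 6 = (u ^ 2) ^ 3 := by ring
          rw [e, hu, div_pow, hab]
          field_simp
        rw [this]
        field_simp

/-- **`j` is injective modulo the modular group.** -/
theorem jj_inj {τ w : ℍ} (h : jj τ = jj w) : ∃ M : M2, M.det = 1 ∧ N135.ZO.Rel M τ w := by
  have hD := discriminant_ne_zero τ
  have hD' := discriminant_ne_zero w
  have hz4 : riemannZeta (4 : ℕ) ≠ 0 := riemannZeta_ne_zero_of_one_lt_re (by norm_num)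
  have hz6 : riemannZeta (6 : ℕ) ≠ 0 := riemannZeta_ne_zero_of_one_lt_re (by norm_num)
  have hne : ∀ v : ℍ, E₄ v ≠ 0 ∨ E₆ v ≠ 0 := by
    intro v
    by_contra hcon
    push Not at hcon
    apply discriminant_ne_zero v
    rw [discriminant_eq_E₄_cube_sub_E₆_sq v, hcon.1, hcon.2]
    norm_num
  obtain ⟨u, hu, h4, h6⟩ := exists_scale (a4 := E₄ τ) (a6 := E₆ τ) (b4 := E₄ w) (b6 := E₆ w) hD hD'
    (by rw [E4_cube, E4_cube, h]; ring) (by rw [E6_sq, E6_sq, h]; ring) (hne w) (hne τ)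
  have hui : u⁻¹ ≠ 0 := inv_ne_zero hu
  have hlat : (mkL τ 1 τ.im_pos one_ne_zero).lattice = (mkL w u⁻¹ w.im_pos hui).lattice := by
    refine Pool.Agent.Y577.LU.lat_unique _ _ ?_ ?_
    · unfold PeriodPair.g₂
      rw [G_eq τ.im_pos one_ne_zero (k := 4) (by norm_num), G_eq w.im_pos hui (k := 4) (by norm_num)]
      have e1 : E (k := 4) (by norm_num) (⟨(τ : ℂ), τ.im_pos⟩ : ℍ) = E₄ τ := rfl
      have e2 : E (k := 4) (by norm_num) (⟨(w : ℂ), w.im_pos⟩ : ℍ) = E₄ w := rfl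
      rw [e1, e2, h4, inv_pow, inv_inv]
      ring
    · unfold PeriodPair.g₃
      rw [G_eq τ.im_pos one_ne_zero (k := 6) (by norm_num), G_eq w.im_pos hui (k := 6) (by norm_num)]
      have e1 : E (k := 6) (by norm_num) (⟨(τ : ℂ), τ.im_pos⟩ : ℍ) = E₆ τ := rfl
      have e2 : E (k := 6) (by norm_num) (⟨(w : ℂ), w.im_pos⟩ : ℍ) = E₆ w := rfl
      rw [e1, e2, h6, inv_pow, inv_inv]
      ring
  have m1 : ∀ z : ℂ, z ∈ (mkL τ 1 τ.im_pos one_ne_zero).lattice ↔ ∃ m n : ℤ, (m : ℂ) + n * τ = z := by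
    intro z
    rw [PeriodPair.mem_lattice]
    constructor
    · rintro ⟨m, n, rfl⟩
      exact ⟨m, n, by show _ = (m : ℂ) * 1 + n * (1 * τ); ring⟩
    · rintro ⟨m, n, rfl⟩
      exact ⟨m, n, by show (m : ℂ) * 1 + n * (1 * τ) = _; ring⟩
  have m2 : ∀ z : ℂ, z ∈ (mkL w u⁻¹ w.im_pos hui).lattice ↔ ∃ m n : ℤ,
      u⁻¹ * ((m : ℂ) + n * w) = z := by
    intro z
    rw [PeriodPair.mem_lattice]
    constructor
    · rintro ⟨m, n, rfl⟩
      exact ⟨m, n, by show _ = (m : ℂ) * u⁻¹ + n * (u⁻¹ * w); ring⟩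
    · rintro ⟨m, n, rfl⟩
      exact ⟨m, n, by show (m : ℂ) * u⁻¹ + n * (u⁻¹ * w) = _; ring⟩
  obtain ⟨b, a, hab⟩ := (m1 (u⁻¹ * w)).1 (by rw [hlat, m2]; exact ⟨0, 1, by simp⟩)
  obtain ⟨d, c, hcd⟩ := (m1 u⁻¹).1 (by rw [hlat, m2]; exact ⟨1, 0, by simp⟩)
  obtain ⟨p, q, hpq⟩ := (m2 1).1 (by rw [← hlat, m1]; exact ⟨1, 0, by simp⟩)
  obtain ⟨r, s, hrs⟩ := (m2 (τ : ℂ)).1 (by rw [← hlat, m1]; exact ⟨0, 1, by simp⟩)
  have hrel : (w : ℂ) * (c * τ + d) = a * τ + b := by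
    linear_combination (w : ℂ) * hcd - hab
  have hind : ∀ x y : ℤ, (x : ℂ) * τ + y = 0 → x = 0 ∧ y = 0 := by
    intro x y hxy
    have h3 := congrArg Complex.im hxy
    simp at h3
    have hx : x = 0 := by
      rcases h3 with h3 | h3
      · exact_mod_cast h3
      · exact absurd h3 τ.im_pos.ne'
    refine ⟨hx, ?_⟩
    rw [hx] at hxy
    simpa using hxy
  have e1 : ((p * c + q * a : ℤ) : ℂ) * τ + ((p * d + q * b - 1 : ℤ) : ℂ) = 0 := by
    push_cast
    linear_combination (p : ℂ) * hcd + q * hab + hpq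
  have e2 : ((r * c + s * a - 1 : ℤ) : ℂ) * τ + ((r * d + s * b : ℤ) : ℂ) = 0 := by
    push_cast
    linear_combination (r : ℂ) * hcd + s * hab + hrs
  obtain ⟨e3, e4⟩ := hind _ _ e1
  obtain ⟨e5, e6⟩ := hind _ _ e2
  have hdet : (a * d - b * c) * (s * p - q * r) = 1 := by
    linear_combination (p * d + q * b) * e5 + e4 - (p * c + q * a) * e6
  have him : (w : ℂ).im * Complex.normSq (c * τ + d) = (a * d - b * c) * (τ : ℂ).im := by
    have h1 : (w : ℂ) * (c * τ + d) * (starRingEnd ℂ) (c * τ + d) =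
        (a * τ + b) * (starRingEnd ℂ) (c * τ + d) := by rw [hrel]
    rw [mul_assoc, Complex.mul_conj] at h1
    have h2 := congrArg Complex.im h1
    simp only [Complex.mul_im, Complex.ofReal_re, Complex.ofReal_im, Complex.add_re,
      Complex.add_im, Complex.intCast_re, Complex.intCast_im, Complex.mul_re, Complex.conj_re,
      Complex.conj_im] at h2
    linarith
  have hpos : 0 < a * d - b * c := by
    by_contra hcon
    push Not at hcon
    have h1 : 0 ≤ (w : ℂ).im * Complex.normSq (c * τ + d) :=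
      mul_nonneg w.im_pos.le (Complex.normSq_nonneg _)
    have h2 : ((a * d - b * c : ℤ) : ℝ) ≤ 0 := by exact_mod_cast hcon
    have h3 : ((a : ℝ) * d - b * c) * (τ : ℂ).im ≤ 0 := by
      push_cast at h2
      exact mul_nonpos_of_nonpos_of_nonneg h2 τ.im_pos.le
    have h4 : ((a : ℝ) * d - b * c) * (τ : ℂ).im = 0 := le_antisymm h3 (him ▸ h1)
    have h5 : ((a * d - b * c : ℤ) : ℝ) = 0 := by
      push_cast
      exact (mul_eq_zero.1 h4).resolve_right τ.im_pos.ne'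
    have h6 : a * d - b * c = 0 := by exact_mod_cast h5
    rw [h6, zero_mul] at hdet
    exact zero_ne_one hdet
  have hone : a * d - b * c = 1 := by
    rcases Int.isUnit_iff.1 (IsUnit.of_mul_eq_one _ hdet) with h1 | h1
    · exact h1
    · rw [h1] at hpos
      omega
  refine ⟨!![a, b; c, d], ?_, ?_⟩
  · rw [Matrix.det_fin_two_of]
    exact hone
  · simp only [N135.ZO.Rel, N135.ZO.den, N135.ZO.num, Matrix.of_apply, Matrix.cons_val', Matrix.cons_val_zero,
      Matrix.cons_val_one, Matrix.cons_val_fin_one]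
    exact hrel

end Pool.Agent.N101.ZP
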