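import Pool.Agent.N101.ZP.Fin
import Pool.Agent.N135.ZO.CM
import Pool.Agent.Y729.FW.Surj
import Pool.Agent.N101.ZP.Inj

/-!
# The modular polynomials over the field of algebraic numbers
-/

set_option autoImplicit false
set_option linter.unusedSectionVars false
set_option linter.style.haveILetI false

namespace Pool.Agent.N101.ZP

open UpperHalfPlane H294ZP Polynomial Pool.Agent.N135.ZO
open Pool.Agent.R948 (td cp)
open Pool.Agent.Y226 (ZZ ιZ PsiE map_PsiE modular_spec mP mD)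

/-- the field of algebraic numbers in `ℂ` -/
abbrev Fa : Type := algebraicClosure ℚ ℂ

instance instFa : IsAlgClosed Fa := (algebraicClosure.isAlgClosure ℚ ℂ).isAlgClosed

/-- algebraic integers -/
noncomputable def zF : ZZ →+* Fa where
  toFun z := ⟨(z : ℂ), by
    rw [mem_algebraicClosure_iff]
    exact (z.2.tower_top (A := ℚ)).isAlgebraic⟩
  map_zero' := rfl
  map_one' := rfl
  map_add' _ _ := rfl
  map_mul' _ _ := rfl

theorem zF_comp : (algebraMap Fa ℂ).comp zF = ιZ := rfl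

theorem jj_surj (z : ℂ) : ∃ τ : ℍ, jj τ = z := Pool.Agent.Y729.FW.j_surj z

/-- evaluation of polynomials in two variables -/
noncomputable def ev2 {K : Type} [Field K] [Algebra Fa K] (P : Fa[X][X]) (x y : K) : K :=
  P.eval₂ (eval₂RingHom (algebraMap Fa K) x) y

/-- the modular polynomial as a polynomial in two variables -/
noncomputable def psi (N : ℕ) : Fa[X][X] :=
  ∑ i ∈ Finset.range (mD N + 1), C ((mP N i).map zF) * X ^ i

section

variable {K L : Type} [Field K] [Algebra Fa K] [Field L] [Algebra Fa L]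

theorem ev2_psi (N : ℕ) (x y : K) :
    ev2 (psi N) x y = PsiE ((algebraMap Fa K).comp zF) (mP N) (mD N) x y := by
  rw [ev2, psi, PsiE, eval₂_finsetSum]
  refine Finset.sum_congr rfl fun i _ => ?_
  rw [eval₂_mul, eval₂_C, eval₂_pow, eval₂_X, coe_eval₂RingHom, eval₂_map]

theorem ev2_mul (P Q : Fa[X][X]) (x y : K) : ev2 (P * Q) x y = ev2 P x y * ev2 Q x y :=
  eval₂_mul _ _

theorem ev2_pow (P : Fa[X][X]) (n : ℕ) (x y : K) : ev2 (P ^ n) x y = ev2 P x y ^ n :=
  eval₂_pow _ _ _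

theorem ev2_X_sub (x y : K) : ev2 (X - C X) x y = y - x := by
  simp [ev2]

/-- the value on the diagonal -/
theorem ev2_diag (P : Fa[X][X]) (x : K) : ev2 P x x = (P.eval X).eval₂ (algebraMap Fa K) x := by
  rw [ev2, eval₂_eq_eval_map, eval₂_eq_eval_map, ← coe_mapRingHom, ← coe_mapRingHom]
  have h := hom_eval₂ P (RingHom.id _) (eval₂RingHom (algebraMap Fa K) x) X
  rw [RingHom.comp_id, coe_eval₂RingHom, eval₂_X] at h
  rw [coe_mapRingHom, coe_mapRingHom, ← eval₂_eq_eval_map, ← h, eval₂_id, eval₂_eq_eval_map]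

/-- the polynomial in many variables -/
noncomputable def mv2 {ι : Type} (P : Fa[X][X]) (a b : ι) : MvPolynomial ι Fa :=
  P.eval₂ (eval₂RingHom MvPolynomial.C (MvPolynomial.X a)) (MvPolynomial.X b)

theorem aeval_mv2 {ι : Type} (P : Fa[X][X]) (a b : ι) (p : ι → K) :
    MvPolynomial.aeval p (mv2 P a b) = ev2 P (p a) (p b) := by
  rw [mv2, ev2]
  have h := hom_eval₂ P (eval₂RingHom MvPolynomial.C (MvPolynomial.X a))
    ((MvPolynomial.aeval p : MvPolynomial ι Fa →ₐ[Fa] K) : MvPolynomial ι Fa →+* K)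
    (MvPolynomial.X b)
  rw [RingHom.coe_coe] at h
  rw [h, MvPolynomial.aeval_X]
  congr 1
  ext
  · simp
  · simp

theorem Sp.ev2 {ι : Type} {p : ι → K} {p' : ι → L} (h : Sp Fa p p') {P : Fa[X][X]} {a b : ι}
    (h0 : ZP.ev2 P (p a) (p b) = 0) : ZP.ev2 P (p' a) (p' b) = 0 := by
  have h1 := h (mv2 P a b) (by rw [aeval_mv2, h0])
  rwa [aeval_mv2] at h1

end

/-- **Transfer principle.** -/
theorem transferC {ι : Type} [Fintype ι] (fs : List (MvPolynomial ι Fa)) (g : MvPolynomial ι Fa)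
    (h : ∀ x : ι → ℂ, (∀ f ∈ fs, MvPolynomial.aeval x f = 0) → MvPolynomial.aeval x g = 0)
    {K : Type} [Field K] [Algebra Fa K] (x : ι → K)
    (hx : ∀ f ∈ fs, MvPolynomial.aeval x f = 0) : MvPolynomial.aeval x g = 0 := by
  by_contra hg
  obtain ⟨P, hP⟩ : ∃ P, P = PP.ofPt Fa x := ⟨_, rfl⟩
  have hgP : Ideal.Quotient.mk P.I g ≠ 0 := by
    rw [Ne, Ideal.Quotient.eq_zero_iff_mem, hP, PP.mem_ofPt]
    exact hg
  obtain ⟨φ, hφ⟩ := exists_point (k := Fa) hgP
  have h1 : ∀ f : MvPolynomial ι Fa, MvPolynomial.aeval (fun i => algebraMap Fa ℂ (φ (cp P.I i))) f =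
      algebraMap Fa ℂ (φ (Ideal.Quotient.mk P.I f)) := by
    intro f
    rw [← R948.aeval_cp, ← aeval_hom φ]
    exact aeval_hom (Algebra.ofId Fa ℂ) (fun i => φ (cp P.I i)) f
  have h2 := h (fun i => algebraMap Fa ℂ (φ (cp P.I i))) (fun f hf => by
    rw [h1]
    have h3 : Ideal.Quotient.mk P.I f = 0 := by
      rw [Ideal.Quotient.eq_zero_iff_mem, hP, PP.mem_ofPt]
      exact hx f hf
    rw [h3, map_zero, map_zero])
  rw [h1, map_eq_zero_iff _ (algebraMap Fa ℂ).injective] at h2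
  exact hφ h2

end Pool.Agent.N101.ZP
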