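import Pool.Agent.N101.ZP.GeoC

/-!
# Zilber–Pink and optimal subvarieties
-/

set_option autoImplicit false
set_option linter.unusedSectionVars false
set_option linter.style.haveILetI false

namespace Pool.Agent.N101.Y1

open UpperHalfPlane MvPolynomial H294ZP
open Pool.Agent.R948 (td cp tdP tdP_eq td_le_of_alg)
open Pool.Agent.N101.ZP

variable {ι κ : Type} [Fintype ι] [Fintype κ]

/-! ### the powers of the plane -/

theorem planePow_eq (M : ℕ) : planePow M =
    zeros (spanZ ℂ (planeL M) : Set (MvPolynomial (Fin M × Fin 3) ℂ)) := by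
  ext x
  constructor
  · intro hx f hf
    refine Submodule.span_induction (p := fun f _ => MvPolynomial.eval x f = 0) ?_ ?_ ?_ ?_ hf
    · rintro _ ⟨H, hH, rfl⟩
      obtain ⟨i, -, rfl⟩ := List.mem_map.1 hH
      simp only [map_sub, map_add, MvPolynomial.map_X, eval_X]
      rw [hx i, sub_self]
    · exact map_zero _
    · intro a b _ _ ha hb
      rw [map_add, ha, hb, add_zero]
    · intro a b _ hb
      rw [smul_eq_mul, map_mul, hb, mul_zero]
  · intro hx i
    have h1 := hx _ (Ideal.subset_span ⟨X (i, 0) + X (i, 1) - X (i, 2),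
      List.mem_map.2 ⟨i, List.mem_finRange i, rfl⟩, rfl⟩)
    simp only [map_sub, map_add, MvPolynomial.map_X, eval_X, sub_eq_zero] at h1
    exact h1

theorem fin_planeI (M : ℕ) (h : {A | Optimal A (planePow M)}.Finite) :
    FinI mRT ℂ (ms (Fin M × Fin 3)) (spanZ ℂ (planeL M)) := by
  have h1 : ZClosed (planePow M) := by
    rw [planePow_eq]
    exact zclosed_zeros _
  obtain ⟨B, hB, h2⟩ := fin_of_optimal h1 h
  have h3 : spanZ ℂ (planeL M) ≤ van (planePow M) := by
    intro f hf x hx
    rw [planePow_eq] at hx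
    exact hx f hf
  refine ⟨B, hB, fun Q₀ hok hQ₀ => ?_⟩
  obtain ⟨P, h4, h5, h6, h7⟩ := h2 Q₀ hok (by
    rw [← van_zeros Q₀]
    apply van_anti
    rw [planePow_eq]
    exact zeros_anti hQ₀)
  exact ⟨P, h4, h3.trans h5, h6, h7⟩

/-- the powers of the plane are subvarieties -/
theorem sub_planePow (M : ℕ) : Subvariety (planePow M) := by
  classical
  let θ : MvPolynomial (Fin M × Fin 3) ℂ →ₐ[ℂ] MvPolynomial (Fin M × Bool) ℂ :=
    aeval fun a => if a.2 = 0 then X (a.1, true) else if a.2 = 1 then X (a.1, false) else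
      X (a.1, true) + X (a.1, false)
  have hθ : ∀ (s : Fin M × Bool → ℂ) (f : MvPolynomial (Fin M × Fin 3) ℂ),
      aeval s (θ f) = aeval (fun a : Fin M × Fin 3 => if a.2 = 0 then s (a.1, true) else
        if a.2 = 1 then s (a.1, false) else s (a.1, true) + s (a.1, false)) f := by
    intro s f
    have h : (aeval s).comp θ = aeval (fun a : Fin M × Fin 3 => if a.2 = 0 then s (a.1, true) else
        if a.2 = 1 then s (a.1, false) else s (a.1, true) + s (a.1, false)) := by
      ext ⟨i, a⟩
      fin_cases a <;> simp [θ]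
    rw [← h]
    rfl
  have hker : van (planePow M) = RingHom.ker θ := by
    ext f
    rw [RingHom.mem_ker]
    constructor
    · intro hf
      refine MvPolynomial.funext fun s => ?_
      rw [map_zero]
      have h1 := hθ s f
      have h2 : (fun a : Fin M × Fin 3 => if a.2 = 0 then s (a.1, true) else
        if a.2 = 1 then s (a.1, false) else s (a.1, true) + s (a.1, false)) ∈ planePow M := by
        intro i
        simp
      exact h1.trans (hf _ h2)
    · intro hf x hx
      have h1 := hθ (fun a => if a.2 = true then x (a.1, 0) else x (a.1, 1)) f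
      rw [hf, map_zero] at h1
      have h2 : (fun a : Fin M × Fin 3 =>
          if a.2 = 0 then (fun a : Fin M × Bool => if a.2 = true then x (a.1, 0) else x (a.1, 1))
            (a.1, true) else if a.2 = 1 then
            (fun a : Fin M × Bool => if a.2 = true then x (a.1, 0) else x (a.1, 1)) (a.1, false)
            else (fun a : Fin M × Bool => if a.2 = true then x (a.1, 0) else x (a.1, 1))
              (a.1, true) + (fun a : Fin M × Bool => if a.2 = true then x (a.1, 0) else x (a.1, 1))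
              (a.1, false)) = x := by
        funext ⟨i, a⟩
        have h3 := hx i
        fin_cases a
        · simp
        · simp
        · simpa using h3
      rw [h2] at h1
      exact h1.symm
  refine Subvariety.of_prime ?_ ?_
  · rw [planePow_eq]
    exact zclosed_zeros _
  · rw [hker]
    exact RingHom.ker_isPrime θ

/-- finiteness of the optimal subvarieties -/
theorem optimal_iff : (∀ (ι : Type) [Fintype ι] (V : Set (ι → ℂ)), Subvariety V →
    {A | Optimal A V}.Finite) ↔ ∀ M : ℕ, {A | Optimal A (planePow M)}.Finite := by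
  constructor
  · intro h M
    exact h _ _ (sub_planePow M)
  · intro h ι _ V hV
    exact finite_optimal hV.closed (main_mod (fun M => fin_planeI M (h M)) (van V))

/-! ### components -/

theorem van_univ : van (Set.univ : Set (ι → ℂ)) = ⊥ := by
  rw [eq_bot_iff]
  intro f hf
  rw [Ideal.mem_bot]
  exact MvPolynomial.funext fun x => by rw [map_zero]; exact hf x trivial

theorem sub_univ : Subvariety (Set.univ : Set (ι → ℂ)) := by
  refine Subvariety.of_prime ⟨∅, ?_⟩ ?_
  · ext x
    simp [zeros]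
  · rw [van_univ]
    exact Ideal.isPrime_bot

theorem vdim_univ : vdim (Set.univ : Set (ι → ℂ)) = Fintype.card ι := by
  rw [vdim_eq sub_univ]
  have h1 : (toPP (sub_univ (ι := ι))).I = ⊥ := van_univ
  have h2 : toPP (sub_univ (ι := ι)) = ⟨⊥, Ideal.isPrime_bot⟩ := PP.ext' h1
  rw [h2]
  exact R948.tdP_bot

theorem vdim_le_card {A : Set (ι → ℂ)} (h : Subvariety A) : vdim A ≤ Fintype.card ι := by
  rw [← vdim_univ]
  exact vdim_mono h sub_univ (Set.subset_univ _)

theorem vdim_lt_card {A : Set (ι → ℂ)} (h : Subvariety A) (h' : A ≠ Set.univ) :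
    vdim A < Fintype.card ι := by
  rw [← vdim_univ]
  exact vdim_strict h sub_univ ((Set.ssubset_univ_iff).2 h')

theorem IsComp.minimal {W B : Set (ι → ℂ)} (hB : ZClosed B) (h : IsComp W B) :
    van W ∈ (van B).minimalPrimes := by
  obtain ⟨hW, hWB, hmax⟩ := h
  refine ⟨⟨hW.prime, van_anti hWB⟩, ?_⟩
  rintro P ⟨hP, hP1⟩ hP2
  let P' : PP ℂ ι := ⟨P, hP⟩
  have h1 : zeros (P'.I : Set (MvPolynomial ι ℂ)) = W := by
    refine hmax _ (sub_zeros P') ?_ ?_
    · exact (subset_zclosure W).trans (zeros_anti hP2)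
    · rw [← hB.eq]
      exact zeros_anti hP1
  have h2 := van_zeros P'
  rw [h1] at h2
  rw [h2]

theorem finite_comp {B : Set (ι → ℂ)} (hB : ZClosed B) : {W | IsComp W B}.Finite := by
  refine Set.Finite.of_finite_image (f := van)
    ((Ideal.finite_minimalPrimes_of_isNoetherianRing _ (van B)).subset ?_) ?_
  · rintro _ ⟨W, hW, rfl⟩
    exact IsComp.minimal hB hW
  · rintro A hA A' hA' h1
    rw [← hA.1.closed.eq, ← hA'.1.closed.eq, h1]

theorem exists_comp {A B : Set (ι → ℂ)} (hA : Subvariety A) (hB : ZClosed B) (h : A ⊆ B) :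
    ∃ W, IsComp W B ∧ A ⊆ W := by
  have hp := hA.prime
  obtain ⟨p, hp1, hp2⟩ := Ideal.exists_minimalPrimes_le (van_anti h)
  let P : PP ℂ ι := ⟨p, hp1.1.1⟩
  refine ⟨zeros (P.I : Set (MvPolynomial ι ℂ)), ⟨sub_zeros P, ?_, ?_⟩,
    (subset_zclosure A).trans (zeros_anti hp2)⟩
  · rw [← hB.eq]
    exact zeros_anti hp1.1.2
  · intro W' hW' h1 h2
    have h3 : van W' ≤ p := by
      have := van_anti h1
      rwa [van_zeros] at this
    have h4 : p ≤ van W' := hp1.2 ⟨hW'.prime, van_anti h2⟩ h3
    rw [← hW'.closed.eq, le_antisymm h3 h4]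

/-! ### from optimal subvarieties to the problem -/

/-- an optimal subvariety above a given one -/
theorem exists_optimal {W V : Set (ι → ℂ)} (hW : Subvariety W) (h : W ⊆ V) :
    ∃ B, Optimal B V ∧ W ⊆ B ∧ defect B ≤ defect W := by
  let s : Set ℕ := {n | ∃ B, Subvariety B ∧ B ⊆ V ∧ W ⊆ B ∧ defect B ≤ defect W ∧ vdim B = n}
  have hs1 : s.Nonempty := ⟨_, W, hW, h, subset_rfl, le_rfl, rfl⟩
  have hs2 : BddAbove s := ⟨Fintype.card ι, by
    rintro _ ⟨B, hB, -, -, -, rfl⟩
    exact vdim_le_card hB⟩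
  obtain ⟨B, h1, h2, h3, h4, h5⟩ := Nat.sSup_mem hs1 hs2
  refine ⟨B, ⟨h1, h2, fun B' hB' hBB' hB'V hd => ?_⟩, h3, h4⟩
  have h6 : vdim B' ∈ s := ⟨B', hB', hB'V, h3.trans hBB'.1, hd.trans h4, rfl⟩
  have h7 := le_csSup hs2 h6
  have h8 := vdim_strict h1 hB' hBB'
  omega

theorem defect_eq' {A : Set (ι → ℂ)} (hA : Subvariety A) :
    defect A = (rank hA : ℤ) - (vdim A : ℤ) := by
  rw [defect_eq hA, RT.df, vdim_eq hA, PP.td_pt, rank_eq]

/-- **finiteness of the optimal subvarieties implies the statement of the problem** -/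
theorem zilberPink_of_optimal {V : Set (ι → ℂ)} (hV : Subvariety V)
    (h : {A | Optimal A V}.Finite) : ZilberPink V := by
  classical
  intro Z W hZ hW
  have h1 : ∀ A : Set (ι → ℂ), ∃ S, Subvariety A → (Special S ∧ A ⊆ S ∧
      (vdim S : ℤ) ≤ defect A + vdim A) := by
    intro A
    by_cases hA : Subvariety A
    · obtain ⟨S, h2, h3, h4⟩ := exists_special hA
      refine ⟨S, fun _ => ⟨h2, h3, ?_⟩⟩
      rw [defect_eq' hA]
      omega
    · exact ⟨∅, fun h => absurd h hA⟩
  choose S hS using h1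
  refine ⟨S '' {A | Optimal A V ∧ S A ≠ Set.univ}, (h.subset fun A hA => hA.1).image _, ?_, ?_⟩
  · rintro _ ⟨A, ⟨hA, hA2⟩, rfl⟩
    exact ⟨(hS A hA.1).1, hA2⟩
  · refine Set.iUnion_subset fun n => ?_
    obtain ⟨⟨h2, h3, h4⟩, h5⟩ := hW n
    obtain ⟨B, h6, h7, h8⟩ := exists_optimal h2 (h3.trans Set.inter_subset_right)
    have h9 : rank h2 ≤ vdim (Z n) := by
      rw [(hZ n).vdim_eq]
      exact rank_mono h2 (hZ n).sub (h3.trans Set.inter_subset_left)
    have h10 := vdim_mono h6.1 hV h6.2.1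
    obtain ⟨h11, h12, h13⟩ := hS B h6.1
    rw [defect_eq' h2] at h8
    refine h7.trans (h12.trans (Set.subset_sUnion_of_mem ⟨B, ⟨h6, fun h14 => ?_⟩, rfl⟩))
    rw [h14, vdim_univ] at h13
    omega

end Pool.Agent.N101.Y1
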