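import Pool.Agent.N101.ZP.XPoly

/-!
# The main theorem for ideals, mixed case
-/

set_option autoImplicit false
set_option linter.unusedSectionVars false
set_option linter.style.haveILetI false
set_option linter.unusedSimpArgs false

namespace Pool.Agent.N101.ZP

open UpperHalfPlane H294ZP Pool.Agent.N135.ZO MvPolynomial
open Pool.Agent.R948 (td cp mon un binom)

section

variable {κ lam : Type}

/-- the sorts of modular coordinates -/
def fs (κ : Type) : κ → Bool := fun _ => false

theorem fs_sum (κ lam : Type) : Sum.elim (fs κ) (fs lam) = fs (κ ⊕ lam) := by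
  funext x
  rcases x with x | x <;> rfl

/-- conditions on modular coordinates -/
def XM {κ : Type} (G : Cond Fa κ) : Prop := XG (fs κ) G

theorem XM.comap {G : Cond Fa κ} (h : XM G) (f : κ → lam) : XM (G.comap f) :=
  XG.comap h _ f (fun _ => rfl)

theorem XM.congr {G G' : Cond Fa κ} (h : XM G)
    (h1 : ∀ (K : Type) [Field K] [Algebra Fa K] (y : κ → K), (G'.sat y ↔ G.sat y)) : XM G' :=
  XG.congr h (fun K _ _ y _ => h1 K y)

/-- elimination of auxiliary coordinates which are polynomials in the others -/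
theorem XM.elim [Fintype lam] {G : Cond Fa κ} {G' : Cond Fa (κ ⊕ lam)} (h : XM G')
    (t : lam → MvPolynomial κ Fa)
    (h1 : ∀ (K : Type) [Field K] [Algebra Fa K] (z : κ ⊕ lam → K), G'.sat z → ∀ j,
      z (Sum.inr j) = MvPolynomial.aeval (fun i => z (Sum.inl i)) (t j))
    (h2 : ∀ (K : Type) [Field K] [Algebra Fa K] (y : κ → K), G.sat y →
      G'.sat (Sum.elim y (fun j => MvPolynomial.aeval y (t j))))
    (h3 : ∀ (K : Type) [Field K] [Algebra Fa K] (z : κ ⊕ lam → K), G'.sat z →
      G.sat (fun i => z (Sum.inl i))) : XM G := by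
  have h' : XG (Sum.elim (fs κ) (fs lam)) G' := by
    rw [fs_sum]
    exact h
  refine Good.proj1 (T := xRT) (s := fs κ) (s' := fs lam) h' ?_ ?_ ?_
  · intro K _ _ y _ hy
    exact ⟨K, inferInstance, inferInstance, AlgHom.id Fa K, _,
      fun j hj => absurd hj Bool.false_ne_true, h2 K y hy⟩
  · intro K L _ _ _ _ q z hq _ _ _
    exact h3 K q hq
  · intro K _ _ q _ hq j
    rw [h1 K q hq j]
    refine isAlgebraic_algebraMap (A := K)
      (⟨_, ?_⟩ : Algebra.adjoin Fa (Set.range fun i => q (Sum.inl i)))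
    rw [Algebra.adjoin_range_eq_range_aeval]
    exact ⟨t j, rfl⟩

/-- the graph of an integral polynomial -/
noncomputable def graphZ (G : MvPolynomial κ ℤ) : Cond Fa (Option κ) where
  sat z := z none = MvPolynomial.aeval (fun i => z (some i)) G
  closed p p' h hp := by
    have h1 := (graph (MvPolynomial.map (algebraMap ℤ Fa) G)).closed p p' h (by
      change p none = _
      rw [MvPolynomial.aeval_map_algebraMap]
      exact hp)
    change p' none = _ at h1
    rwa [MvPolynomial.aeval_map_algebraMap] at h1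

/-- computable polynomials -/
def XP (G : MvPolynomial κ ℤ) : Prop := XM (graphZ G)

theorem XP.comp [Fintype lam] {H : MvPolynomial lam ℤ} (hH : XP H)
    {Gs : lam → MvPolynomial κ ℤ} (h : ∀ j, XP (Gs j)) : XP (MvPolynomial.bind₁ Gs H) := by
  let G' : Cond Fa (Option κ ⊕ lam) :=
    (allC fun j => (graphZ (Gs j)).comap
      (fun i => i.elim (Sum.inr j) (fun i => Sum.inl (some i)))).and
      ((graphZ H).comap (fun i => i.elim (Sum.inl none) Sum.inr))
  have hG' : XM G' := XG.and (XG.all fun j => XM.comap (h j) _) (XM.comap hH _)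
  have key : ∀ (K : Type) [Field K] [Algebra Fa K] (z : Option κ ⊕ lam → K), G'.sat z ↔
      (∀ j, z (Sum.inr j) = MvPolynomial.aeval (fun i => z (Sum.inl (some i))) (Gs j)) ∧
      z (Sum.inl none) = MvPolynomial.aeval (fun j => z (Sum.inr j)) H := fun K _ _ z => Iff.rfl
  have hb : ∀ (K : Type) [Field K] [Algebra Fa K] (y : κ → K),
      MvPolynomial.aeval y (MvPolynomial.bind₁ Gs H) =
        MvPolynomial.aeval (fun j => MvPolynomial.aeval y (Gs j)) H := by
    intro K _ _ y
    exact MvPolynomial.aeval_bind₁ y Gs H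
  refine XM.elim hG' (fun j => MvPolynomial.rename some
    (MvPolynomial.map (algebraMap ℤ Fa) (Gs j))) ?_ ?_ ?_
  · intro K _ _ z hz j
    rw [MvPolynomial.aeval_rename, MvPolynomial.aeval_map_algebraMap]
    exact ((key K z).1 hz).1 j
  · intro K _ _ y hy
    rw [key]
    have hy' : y none = MvPolynomial.aeval (fun i => y (some i)) (MvPolynomial.bind₁ Gs H) := hy
    rw [hb] at hy'
    refine ⟨fun j => ?_, ?_⟩
    · change MvPolynomial.aeval y (MvPolynomial.rename some
        (MvPolynomial.map (algebraMap ℤ Fa) (Gs j))) = _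
      rw [MvPolynomial.aeval_rename, MvPolynomial.aeval_map_algebraMap]
      rfl
    · change y none = MvPolynomial.aeval
        (fun j => MvPolynomial.aeval y (MvPolynomial.rename some
          (MvPolynomial.map (algebraMap ℤ Fa) (Gs j)))) H
      rw [hy']
      congr 2
      funext j
      rw [MvPolynomial.aeval_rename, MvPolynomial.aeval_map_algebraMap]
      rfl
  · intro K _ _ z hz
    obtain ⟨h1, h2⟩ := (key K z).1 hz
    change z (Sum.inl none) = MvPolynomial.aeval (fun i => z (Sum.inl (some i))) _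
    rw [hb, h2]
    congr 2
    funext j
    exact h1 j

theorem XP.congr {G G' : MvPolynomial κ ℤ} (h : XP G) (he : G' = G) : XP G' := by
  rw [he]
  exact h

theorem XP.X (i : κ) : XP (MvPolynomial.X i : MvPolynomial κ ℤ) := by
  refine ((XG.eqm.comap (fs (Option κ)) (fun j : Fin 2 => if j = 0 then none else some i)
    (fun _ => rfl))).congr fun K _ _ y _ => ?_
  change y none = MvPolynomial.aeval (fun i => y (some i)) (MvPolynomial.X i : MvPolynomial κ ℤ) ↔
    (ZP.polZ (MvPolynomial.X 0 - MvPolynomial.X 1 : MvPolynomial (Fin 2) ℤ)).sat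
      (fun j => y (if j = 0 then none else some i))
  rw [sat_eq]
  simp

theorem XP.one : XP (1 : MvPolynomial κ ℤ) := by
  refine ((XG.onem.comap (fs (Option κ)) (fun _ : Fin 1 => none)
    (fun _ => rfl))).congr fun K _ _ y _ => ?_
  change y none = MvPolynomial.aeval (fun i => y (some i)) (1 : MvPolynomial κ ℤ) ↔
    (ZP.polZ (MvPolynomial.X 0 - 1 : MvPolynomial (Fin 1) ℤ)).sat (fun _ => y none)
  rw [sat_one, map_one]

theorem XP.zero : XP (0 : MvPolynomial κ ℤ) := by
  refine ((XG.zerom.comap (fs (Option κ)) (fun _ : Fin 1 => none)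
    (fun _ => rfl))).congr fun K _ _ y _ => ?_
  change y none = MvPolynomial.aeval (fun i => y (some i)) (0 : MvPolynomial κ ℤ) ↔
    (ZP.polZ (MvPolynomial.X 0 : MvPolynomial (Fin 1) ℤ)).sat (fun _ => y none)
  rw [sat_zero, map_zero]

theorem XP.X01 : XP (MvPolynomial.X 0 + MvPolynomial.X 1 : MvPolynomial (Fin 2) ℤ) := by
  refine ((XG.addm.comap (fs (Option (Fin 2)))
    (fun j : Fin 3 => (![some 0, some 1, none] : Fin 3 → Option (Fin 2)) j)
    (fun _ => rfl))).congr fun K _ _ y _ => ?_
  change y none = MvPolynomial.aeval (fun i => y (some i))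
      (MvPolynomial.X 0 + MvPolynomial.X 1 : MvPolynomial (Fin 2) ℤ) ↔
    (ZP.polZ (MvPolynomial.X 0 + MvPolynomial.X 1 - MvPolynomial.X 2 :
      MvPolynomial (Fin 3) ℤ)).sat
      (fun j => y ((![some 0, some 1, none] : Fin 3 → Option (Fin 2)) j))
  rw [sat_add, map_add, MvPolynomial.aeval_X, MvPolynomial.aeval_X, eq_comm]
  rfl

theorem XP.X0X1 : XP (MvPolynomial.X 0 * MvPolynomial.X 1 : MvPolynomial (Fin 2) ℤ) := by
  refine ((XG.mulm.comap (fs (Option (Fin 2)))
    (fun j : Fin 3 => (![some 0, some 1, none] : Fin 3 → Option (Fin 2)) j)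
    (fun _ => rfl))).congr fun K _ _ y _ => ?_
  change y none = MvPolynomial.aeval (fun i => y (some i))
      (MvPolynomial.X 0 * MvPolynomial.X 1 : MvPolynomial (Fin 2) ℤ) ↔
    (ZP.polZ (MvPolynomial.X 0 * MvPolynomial.X 1 - MvPolynomial.X 2 :
      MvPolynomial (Fin 3) ℤ)).sat
      (fun j => y ((![some 0, some 1, none] : Fin 3 → Option (Fin 2)) j))
  rw [sat_mul, map_mul, MvPolynomial.aeval_X, MvPolynomial.aeval_X, eq_comm]
  rfl

theorem XP.neg0 : XP (-MvPolynomial.X 0 : MvPolynomial (Fin 1) ℤ) := by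
  refine ((XG.negm.comap (fs (Option (Fin 1)))
    (fun j : Fin 2 => (![none, some 0] : Fin 2 → Option (Fin 1)) j)
    (fun _ => rfl))).congr fun K _ _ y _ => ?_
  change y none = MvPolynomial.aeval (fun i => y (some i))
      (-MvPolynomial.X 0 : MvPolynomial (Fin 1) ℤ) ↔
    (ZP.polZ (MvPolynomial.X 0 + MvPolynomial.X 1 : MvPolynomial (Fin 2) ℤ)).sat
      (fun j => y ((![none, some 0] : Fin 2 → Option (Fin 1)) j))
  rw [sat_neg, map_neg, MvPolynomial.aeval_X, eq_neg_iff_add_eq_zero]
  rfl

theorem XP.add {G G' : MvPolynomial κ ℤ} (h : XP G) (h' : XP G') : XP (G + G') := by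
  refine (XP.comp XP.X01 (Gs := ![G, G']) (by
    intro j
    fin_cases j
    · exact h
    · exact h')).congr ?_
  simp

theorem XP.mul {G G' : MvPolynomial κ ℤ} (h : XP G) (h' : XP G') : XP (G * G') := by
  refine (XP.comp XP.X0X1 (Gs := ![G, G']) (by
    intro j
    fin_cases j
    · exact h
    · exact h')).congr ?_
  simp

theorem XP.neg {G : MvPolynomial κ ℤ} (h : XP G) : XP (-G) := by
  refine (XP.comp XP.neg0 (Gs := fun _ => G) (fun _ => h)).congr ?_
  simp

theorem XP.nat (n : ℕ) : XP (n : MvPolynomial κ ℤ) := by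
  induction n with
  | zero => exact XP.zero.congr (by simp)
  | succ n ih => exact (ih.add XP.one).congr (by push_cast; ring)

/-- integral polynomials are computable -/
theorem XP.all (G : MvPolynomial κ ℤ) : XP G := by
  induction G using MvPolynomial.induction_on with
  | C m =>
    rcases le_total 0 m with hm | hm
    · obtain ⟨m, rfl⟩ := Int.eq_ofNat_of_zero_le hm
      exact (XP.nat m).congr (by simp)
    · obtain ⟨m', hm'⟩ := Int.eq_ofNat_of_zero_le (neg_nonneg.2 hm)
      have : m = -(m' : ℤ) := by omega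
      subst this
      exact (XP.nat m').neg.congr (by simp)
  | add p q hp hq => exact hp.add hq
  | mul_X p i hp => exact hp.mul (XP.X i)

theorem XM.polZ (G : MvPolynomial κ ℤ) : XM (ZP.polZ G) := by
  let G' : Cond Fa (κ ⊕ Unit) := ((graphZ G).comap (fun i => i.elim (Sum.inr ()) Sum.inl)).and
    ((ZP.polZ (MvPolynomial.X 0 : MvPolynomial (Fin 1) ℤ)).comap (fun _ => Sum.inr ()))
  have key : ∀ (K : Type) [Field K] [Algebra Fa K] (z : κ ⊕ Unit → K), G'.sat z ↔
      z (Sum.inr ()) = MvPolynomial.aeval (fun i => z (Sum.inl i)) G ∧ z (Sum.inr ()) = 0 := by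
    intro K _ _ z
    rw [← sat_zero (fun _ => z (Sum.inr ()))]
    exact Iff.rfl
  have hG' : XM G' := XG.and (XM.comap (XP.all G) _)
    (XG.zerom.comap (fs _) _ (fun _ => rfl))
  refine XM.elim hG' (fun _ => MvPolynomial.map (algebraMap ℤ Fa) G) ?_ ?_ ?_
  · intro K _ _ z hz _
    rw [MvPolynomial.aeval_map_algebraMap]
    exact ((key K z).1 hz).1
  · intro K _ _ y hy
    rw [key]
    change MvPolynomial.aeval y (MvPolynomial.map (algebraMap ℤ Fa) G) = _ ∧
      MvPolynomial.aeval y (MvPolynomial.map (algebraMap ℤ Fa) G) = 0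
    rw [MvPolynomial.aeval_map_algebraMap]
    exact ⟨rfl, hy⟩
  · intro K _ _ z hz
    obtain ⟨h1, h2⟩ := (key K z).1 hz
    rw [h2] at h1
    exact h1.symm

/-- **Polynomial equations on all coordinates.** -/
theorem XG.polZ [Fintype κ] (s : κ → Bool) (H : MvPolynomial κ ℤ) : XG s (ZP.polZ H) := by
  classical
  let S : κ ⊕ κ → Bool := Sum.elim s (fs κ)
  let tie : κ → Cond Fa (κ ⊕ κ) := fun i =>
    if s i = true then diagC.comap (ZP.dg (Sum.inr i) (Sum.inl i)) else
      (ZP.polZ (MvPolynomial.X 0 - MvPolynomial.X 1 : MvPolynomial (Fin 2) ℤ)).comap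
        (![Sum.inr i, Sum.inl i] : Fin 2 → κ ⊕ κ)
  have htie : ∀ i, XG S (tie i) := by
    intro i
    by_cases hi : s i = true
    · simp only [tie, if_pos hi]
      exact XG.dg _ _ rfl hi
    · simp only [tie, if_neg hi]
      refine XG.eqm.comap S _ fun j => ?_
      fin_cases j
      · rfl
      · change s i = false
        simpa using hi
  have hsat : ∀ (i : κ) (K : Type) [Field K] [Algebra Fa K] (z : κ ⊕ κ → K),
      (tie i).sat z ↔ z (Sum.inr i) = z (Sum.inl i) := by
    intro i K _ _ z
    by_cases hi : s i = true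
    · simp only [tie, if_pos hi]
      exact Iff.rfl
    · simp only [tie, if_neg hi]
      exact sat_eq (fun j => z ((![Sum.inr i, Sum.inl i] : Fin 2 → κ ⊕ κ) j))
  let G' : Cond Fa (κ ⊕ κ) := (allC tie).and ((ZP.polZ H).comap Sum.inr)
  have hG' : XG S G' := (XG.all htie).and (XG.comap (XM.polZ H) S Sum.inr (fun _ => rfl))
  have key : ∀ (K : Type) [Field K] [Algebra Fa K] (z : κ ⊕ κ → K), G'.sat z ↔
      (∀ i, z (Sum.inr i) = z (Sum.inl i)) ∧ MvPolynomial.aeval (fun i => z (Sum.inr i)) H = 0 := by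
    intro K _ _ z
    have e1 : (allC tie).sat z ↔ ∀ i, z (Sum.inr i) = z (Sum.inl i) :=
      forall_congr' fun i => hsat i K z
    rw [← e1]
    exact Iff.rfl
  refine Good.proj1 (T := xRT) (s := s) (s' := fs κ) (G' := G') hG' ?_ ?_ ?_
  · intro K _ _ y _ hy
    refine ⟨K, inferInstance, inferInstance, AlgHom.id Fa K, y,
      fun j hj => absurd hj Bool.false_ne_true, ?_⟩
    rw [key]
    exact ⟨fun i => rfl, hy⟩
  · intro K L _ _ _ _ q z hq _ _ _
    obtain ⟨h1, h2⟩ := (key K q).1 hq
    have h3 : (fun i => q (Sum.inr i)) = fun i => q (Sum.inl i) := funext h1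
    rw [h3] at h2
    exact h2
  · intro K _ _ q _ hq j
    obtain ⟨h1, h2⟩ := (key K q).1 hq
    rw [h1 j]
    exact alg_mem _ (Algebra.subset_adjoin ⟨j, rfl⟩)

theorem XG.polsZ [Fintype κ] (s : κ → Bool) (LL : List (MvPolynomial κ ℤ)) :
    XG s (ZP.polsZ LL : Cond Fa κ) := by
  induction LL with
  | nil => exact XG.top.congr fun K _ _ y _ => by simp [ZP.polsZ, Cond.top]
  | cons H LL ih =>
    refine ((XG.polZ s H).and ih).congr fun K _ _ y _ => ?_
    simp [ZP.polsZ, ZP.polZ, Cond.and]

end

/-- the equations of the powers of the diagonal -/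
noncomputable def diagL (M : ℕ) : List (MvPolynomial (Fin M × Bool) ℤ) :=
  (List.finRange M).map fun i => X (i, false) - X (i, true)

/-- the sorts of the coordinates of the powers of the diagonal -/
def ds (M : ℕ) : Fin M × Bool → xRT.S := fun a => a.2

/-- **The main theorem for the mixed case, for ideals.** -/
theorem main_x (h : ∀ M, FinI xRT ℂ (ds M) (spanZ ℂ (diagL M))) {ι : Type}
    [Fintype ι] (s : ι → xRT.S) (I : Ideal (MvPolynomial ι ℂ)) : FinI xRT ℂ s I := by
  have := algZ
  refine fin_gen' (T := xRT) false (fun h => absurd h Bool.false_ne_true) ?_ s I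
  have h1 : FS xRT (fun b : Bool => (b : xRT.S)) diagC (fun i : Empty => i.elim) Cond.top := by
    refine FS.of_power fun M => ?_
    refine FinR.congr (desc (T := xRT) (ds M) (diagL M) (h M)) ?_
      (fun _ _ _ _ _ _ _ => trivial)
    intro K _ _ y _
    simp only [Cond.list, diagC, ZP.polsZ, diagL, List.mem_map, List.mem_finRange, true_and,
      forall_exists_index, forall_apply_eq_imp_iff, map_sub, aeval_X, sub_eq_zero]
  intro ι _ s LL
  exact h1.finC (s := s) (XG.polsZ s LL)

end Pool.Agent.N101.ZP
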