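import Pool.Agent.N101.ZP.XDef
import Pool.Agent.N101.ZP.XMain
import Pool.Agent.N101.ZP.GeoD
import Pool.Agent.R948.Hull

/-!
# Subvarieties of `Y(1)^n × G_m^k` and prime ideals
-/

set_option autoImplicit false
set_option linter.unusedSectionVars false
set_option linter.style.haveILetI false

namespace Pool.Agent.N101.YG

open MvPolynomial
open Pool.Agent.R948 (td cp tdP tdP_eq un Spec TP TorsionCoset rel dr)
open Pool.Agent.N101.ZP

variable {ι κ : Type} [Fintype ι] [Fintype κ]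

/-- the sorts -/
def xs (ι κ : Type) : ι ⊕ κ → xRT.S := Sum.elim (fun _ => false) (fun _ => true)

theorem ev_eq (p : Pts ι κ) (f : MvPolynomial (ι ⊕ κ) ℂ) : eval (co p) f = aeval (co p) f := rfl

theorem mem_van {A : Set (Pts ι κ)} {f : MvPolynomial (ι ⊕ κ) ℂ} :
    f ∈ van A ↔ ∀ x ∈ A, eval (co x) f = 0 := Iff.rfl

theorem van_anti {A B : Set (Pts ι κ)} (h : A ⊆ B) : van B ≤ van A := fun _ hf x hx => hf x (h hx)

theorem zeros_anti {S T : Set (MvPolynomial (ι ⊕ κ) ℂ)} (h : S ⊆ T) : zeros T ⊆ zeros S :=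
  fun _ hx f hf => hx f (h hf)

theorem subset_zeros_van (A : Set (Pts ι κ)) :
    A ⊆ zeros (van A : Set (MvPolynomial (ι ⊕ κ) ℂ)) := fun x hx _ hf => hf x hx

theorem ZClosed.eq {A : Set (Pts ι κ)} (h : ZClosed A) :
    zeros (van A : Set (MvPolynomial (ι ⊕ κ) ℂ)) = A := by
  obtain ⟨S, rfl⟩ := h
  exact Set.Subset.antisymm (fun x hx f hf => hx f fun y hy => hy f hf) (subset_zeros_van _)

theorem zclosed_zeros (S : Set (MvPolynomial (ι ⊕ κ) ℂ)) : ZClosed (zeros S) := ⟨S, rfl⟩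

theorem Subvariety.prime {A : Set (Pts ι κ)} (h : Subvariety A) : (van A).IsPrime := by
  refine ⟨fun h1 => ?_, fun {f g} hfg => ?_⟩
  · obtain ⟨x, hx⟩ := h.nonempty
    have h2 : (1 : MvPolynomial (ι ⊕ κ) ℂ) ∈ van A := by rw [h1]; trivial
    have h3 := h2 x hx
    rw [map_one] at h3
    exact one_ne_zero h3
  · have h1 : A ⊆ zeros {f} ∪ zeros {g} := by
      intro x hx
      have h2 := hfg x hx
      rw [map_mul] at h2
      rcases mul_eq_zero.1 h2 with h3 | h3
      · exact Or.inl fun f' hf' => by rw [Set.mem_singleton_iff.1 hf']; exact h3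
      · exact Or.inr fun f' hf' => by rw [Set.mem_singleton_iff.1 hf']; exact h3
    rcases h.irreducible _ _ (zclosed_zeros {f}) (zclosed_zeros {g}) h1 with h2 | h2
    · exact Or.inl fun x hx => h2 hx f rfl
    · exact Or.inr fun x hx => h2 hx g rfl

theorem Subvariety.of_prime {A : Set (Pts ι κ)} (h : ZClosed A) (hp : (van A).IsPrime) :
    Subvariety A := by
  refine ⟨h, ?_, ?_⟩
  · by_contra hne
    rw [Set.not_nonempty_iff_eq_empty] at hne
    apply hp.ne_top
    rw [Ideal.eq_top_iff_one]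
    intro x hx
    rw [hne] at hx
    exact hx.elim
  · rintro B C ⟨S, rfl⟩ ⟨S', rfl⟩ hsub
    by_contra hcon
    rw [not_or] at hcon
    obtain ⟨h1, h2⟩ := hcon
    rw [Set.not_subset] at h1 h2
    obtain ⟨x, hx, hx2⟩ := h1
    obtain ⟨y, hy, hy2⟩ := h2
    simp only [zeros, Set.mem_ofPred_eq, not_forall] at hx2 hy2
    obtain ⟨f, hf, hf2⟩ := hx2
    obtain ⟨g, hg, hg2⟩ := hy2
    have h3 : f * g ∈ van A := by
      intro z hz
      rw [map_mul]
      rcases hsub hz with h4 | h4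
      · rw [h4 f hf, zero_mul]
      · rw [h4 g hg, mul_zero]
    rcases hp.mem_or_mem h3 with h4 | h4
    · exact hf2 (h4 x hx)
    · exact hg2 (h4 y hy)

/-- the prime of a subvariety -/
def toPP {A : Set (Pts ι κ)} (h : Subvariety A) : PP ℂ (ι ⊕ κ) where
  I := van A
  prime := h.prime

/-- admissible primes -/
def Adm (P : PP ℂ (ι ⊕ κ)) : Prop := ∀ j, X (Sum.inr j) ∉ P.I

theorem adm_iff (P : PP ℂ (ι ⊕ κ)) : Adm P ↔ xRT.Ok (xs ι κ) P.pt := by
  constructor
  · rintro h (i | j) hi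
    · exact absurd hi Bool.false_ne_true
    · intro h0
      refine h j ((P.aeval_pt_eq_zero _).1 ?_)
      rw [aeval_X, h0]
  · intro h j hj
    have h1 := (P.aeval_pt_eq_zero _).2 hj
    rw [aeval_X] at h1
    exact h (Sum.inr j) rfl h1

theorem toPP_adm {A : Set (Pts ι κ)} (h : Subvariety A) : Adm (toPP h) := by
  intro j hj
  obtain ⟨x, hx⟩ := h.nonempty
  have h1 := hj x hx
  rw [eval_X] at h1
  exact (x.2 j).ne_zero h1

theorem toPP_ok {A : Set (Pts ι κ)} (h : Subvariety A) : xRT.Ok (xs ι κ) (toPP h).pt :=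
  (adm_iff _).1 (toPP_adm h)

/-- Hilbert's theorem -/
theorem van_zeros {P : PP ℂ (ι ⊕ κ)} (hP : Adm P) :
    van (zeros (P.I : Set (MvPolynomial (ι ⊕ κ) ℂ))) = P.I := by
  refine le_antisymm (fun f hf => ?_) (fun f hf x hx => hx f hf)
  have h1 : f * ∏ j : κ, X (Sum.inr j) ∈ vanishingIdeal ℂ (zeroLocus ℂ P.I) := by
    intro x hx
    rw [map_mul, map_prod]
    by_cases h0 : ∀ j : κ, x (Sum.inr j) ≠ 0
    · let y : Pts ι κ := (fun i => x (Sum.inl i), fun j => Units.mk0 (x (Sum.inr j)) (h0 j))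
      have hy : co y = x := by
        funext i
        rcases i with i | i <;> rfl
      have h2 := hf y (fun g hg => by
        rw [hy]
        exact hx g hg)
      rw [hy] at h2
      have h3 : aeval x f = 0 := h2
      rw [h3, zero_mul]
    · push Not at h0
      obtain ⟨i, hi⟩ := h0
      rw [Finset.prod_eq_zero (Finset.mem_univ i) (by rw [aeval_X]; exact hi), mul_zero]
  rw [IsPrime.vanishingIdeal_zeroLocus] at h1
  rcases P.prime.mem_or_mem h1 with h2 | h2
  · exact h2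
  · obtain ⟨i, -, hi⟩ := (P.prime.prod_mem_iff).1 h2
    exact absurd hi (hP i)

theorem sub_zeros {P : PP ℂ (ι ⊕ κ)} (hP : Adm P) :
    Subvariety (zeros (P.I : Set (MvPolynomial (ι ⊕ κ) ℂ))) :=
  Subvariety.of_prime (zclosed_zeros _) (by rw [van_zeros hP]; exact P.prime)

theorem toPP_zeros {P : PP ℂ (ι ⊕ κ)} (hP : Adm P) : toPP (sub_zeros hP) = P :=
  PP.ext' (van_zeros hP)

theorem vdim_eq {A : Set (Pts ι κ)} (h : Subvariety A) : vdim A = tdP (toPP h).I := by
  have h1 := tdP_eq (toPP h).I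
  rw [vdim]
  change Cardinal.toNat (Algebra.trdeg ℂ (MvPolynomial (ι ⊕ κ) ℂ ⧸ (toPP h).I)) = _
  rw [← h1, Cardinal.toNat_natCast]

theorem toPP_le {A B : Set (Pts ι κ)} (hA : Subvariety A) (hB : Subvariety B) (h : A ⊆ B) :
    (toPP hB).I ≤ (toPP hA).I := van_anti h

theorem sp_of_subset {A B : Set (Pts ι κ)} (hA : Subvariety A) (hB : Subvariety B) (h : A ⊆ B) :
    Sp Fa (toPP hB).pt (toPP hA).pt := by
  have h1 := PP.sp_of_le (toPP_le hA hB h)
  exact sp_restrict (F := Fa) h1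

/-! ### ranks -/

/-- the rank of a subvariety -/
noncomputable def rank {A : Set (Pts ι κ)} (h : Subvariety A) : ℕ := xRT.rk (xs ι κ) (toPP h).pt

theorem rank_mono {A B : Set (Pts ι κ)} (hA : Subvariety A) (hB : Subvariety B) (h : A ⊆ B) :
    rank hA ≤ rank hB :=
  xRT.rk_spec (xs ι κ) _ _ (sp_of_subset hA hB h) (toPP_ok hA)

/-- the rank is the sum of the ranks of the two factors -/
theorem xrk_split {K : Type} [Field K] [Algebra Fa K] (p : ι ⊕ κ → K) :
    xRT.rk (xs ι κ) p = rkc (fun i => code false (p (Sum.inl i))) +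
      rkt (fun j => tu true (p (Sum.inr j))) := by
  change xrk (xs ι κ) p = _
  have h1 : rkc (fun i => code (xs ι κ i) (p i)) = rkc (fun i => code false (p (Sum.inl i))) := by
    refine le_antisymm ?_ (rkc_comp (fun i => code (xs ι κ i) (p i)) Sum.inl)
    refine (rkc_add (fun i => code (xs ι κ i) (p i))).trans ?_
    have h2 := rkc_zero (fun j : κ => code (xs ι κ (Sum.inr j)) (p (Sum.inr j))) fun j =>
      (code_none _ _).2 fun h => absurd h.symm Bool.false_ne_true
    rw [h2, add_zero]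
    exact le_rfl
  have h2 : rkt (fun i => tu (xs ι κ i) (p i)) = rkt (fun j => tu true (p (Sum.inr j))) := by
    refine le_antisymm ?_ (rkt_comp (fun i => tu (xs ι κ i) (p i)) Sum.inr)
    refine (rkt_add (fun i => tu (xs ι κ i) (p i))).trans ?_
    have h2 := rkt_one (fun j : ι => tu (xs ι κ (Sum.inl j)) (p (Sum.inl j))) fun j =>
      tu_false rfl _
    rw [h2, zero_add]
    exact le_rfl
  change rkc (fun i => code (xs ι κ i) (p i)) + rkt (fun i => tu (xs ι κ i) (p i)) = _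
  rw [h1, h2]

end Pool.Agent.N101.YG
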