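import Pool.Agent.N101.ZP.XGeoA

/-!
# The defect of a subvariety of `Y(1)^n × G_m^k`
-/

set_option autoImplicit false
set_option linter.unusedSectionVars false
set_option linter.style.haveILetI false

namespace Pool.Agent.N101.YG

open MvPolynomial
open Pool.Agent.R948 (td cp tdP tdP_eq un Spec TP TorsionCoset rel dr toTP mon)
open Pool.Agent.N101.ZP

variable {ι κ : Type} [Fintype ι] [Fintype κ]

/-! ### torsion cosets -/

theorem translate_closed (g : κ → ℂˣ) {B : Set (κ → ℂˣ)} (hB : R948.ZClosed B) :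
    R948.ZClosed {x | g * x ∈ B} := by
  obtain ⟨S, rfl⟩ := hB
  refine ⟨(bind₁ fun i => C (g i : ℂ) * X i) '' S, ?_⟩
  have key : ∀ (x : κ → ℂˣ) (f : MvPolynomial κ ℂ),
      eval (fun i => (x i : ℂ)) (bind₁ (fun i => C (g i : ℂ) * X i) f) =
        eval (fun i => ((g * x) i : ℂ)) f := by
    intro x f
    have h1 : eval (fun i => (x i : ℂ)) (bind₁ (fun i => C (g i : ℂ) * X i) f) =
      aeval (fun i => (x i : ℂ)) (bind₁ (fun i => C (g i : ℂ) * X i) f) := rfl
    rw [h1, aeval_bind₁]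
    have h2 : (fun i => aeval (fun i => (x i : ℂ)) (C (g i : ℂ) * X i : MvPolynomial κ ℂ)) =
        fun i => ((g * x) i : ℂ) := by
      funext i
      simp
    rw [h2]
    rfl
  ext x
  constructor
  · rintro h _ ⟨f, hf, rfl⟩
    rw [key]
    exact h f hf
  · intro h f hf
    have h1 := h _ ⟨f, hf, rfl⟩
    rw [key] at h1
    exact h1

theorem coset_sub {T : Set (κ → ℂˣ)} (hT : TorsionCoset T) : R948.Subvariety T := by
  obtain ⟨H, g, hH, rfl, -⟩ := hT
  have himg : (fun h => g * h) '' (H : Set (κ → ℂˣ)) = {x | g⁻¹ * x ∈ (H : Set (κ → ℂˣ))} := by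
    ext x
    constructor
    · rintro ⟨h, hh, rfl⟩
      change g⁻¹ * (g * h) ∈ (H : Set (κ → ℂˣ))
      rwa [inv_mul_cancel_left]
    · intro hx
      exact ⟨g⁻¹ * x, hx, mul_inv_cancel_left g x⟩
  refine ⟨?_, ?_, ?_⟩
  · rw [himg]
    exact translate_closed g⁻¹ hH.closed
  · exact hH.nonempty.image _
  · intro B C hB hC hsub
    have h1 := hH.irreducible _ _ (translate_closed g hB) (translate_closed g hC) (by
      intro x hx
      exact hsub ⟨x, hx, rfl⟩)
    rcases h1 with h1 | h1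
    · left
      rintro _ ⟨x, hx, rfl⟩
      exact h1 hx
    · right
      rintro _ ⟨x, hx, rfl⟩
      exact h1 hx

/-- the rank of the generic point of a subvariety of a torus -/
noncomputable def trank {T : Set (κ → ℂˣ)} (hT : R948.Subvariety T) : ℕ :=
  rkt (toTP hT).pt

theorem hull_vdim {A : Set (κ → ℂˣ)} (hA : R948.Subvariety A) :
    R948.vdim (R948.hull A) = trank hA := by
  obtain ⟨x₀, hx₀⟩ := hA.nonempty
  obtain ⟨d, hd, hcst⟩ := R948.cst_main (k := ℂ) (rel (toTP hA).pt)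
  rw [(R948.hull_eq hA x₀ hx₀).1, (hcst x₀).2, trank, rkt, dr]
  omega

theorem hull_coset {A : Set (κ → ℂˣ)} (hA : R948.Subvariety A) : TorsionCoset (R948.hull A) := by
  obtain ⟨x₀, hx₀⟩ := hA.nonempty
  rw [(R948.hull_eq hA x₀ hx₀).1]
  exact (R948.hull_eq hA x₀ hx₀).2

theorem subset_hull (A : Set (κ → ℂˣ)) : A ⊆ R948.hull A := by
  rintro x hx T ⟨-, hT⟩
  exact hT hx

theorem hull_self {T : Set (κ → ℂˣ)} (hT : TorsionCoset T) : R948.hull T = T :=
  Set.Subset.antisymm (Set.sInter_subset_of_mem ⟨hT, subset_rfl⟩) (subset_hull T)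

theorem coset_vdim {T : Set (κ → ℂˣ)} (hT : TorsionCoset T) :
    R948.vdim T = trank (coset_sub hT) := by
  rw [← hull_vdim, hull_self hT]

/-! ### special subvarieties -/

/-- the prime of a subvariety of a torus -/
noncomputable def tPP {T : Set (κ → ℂˣ)} (hT : R948.Subvariety T) : PP ℂ κ where
  I := R948.van T
  prime := hT.prime

theorem rkt_eq_of {K L : Type} [Field K] [Field L] [Algebra Fa K] [Algebra Fa L] {p : κ → K}
    {q : κ → L} (h : Sp Fa p q) (h' : Sp Fa q p) (hq : ∀ j, q j ≠ 0) :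
    rkt (fun j => tu true (p j)) = rkt (fun j => tu true (q j)) := by
  have hp : Nz (fun i => (fun _ : κ => true) i = true) p := Nz.of_sp h (fun i _ => hq i)
  refine le_antisymm ?_ ?_
  · exact rkt_spec _ _ (Sp.spec (s := fun _ => true) h' hp).rel_le
  · exact rkt_spec _ _ (Sp.spec (s := fun _ => true) h (fun i _ => hq i)).rel_le

theorem trank_eq {T : Set (κ → ℂˣ)} (hT : R948.Subvariety T) :
    trank hT = rkt (fun j => tu true ((tPP hT).pt j)) := by
  have h1 : (fun j => tu true ((tPP hT).pt j)) = (toTP hT).pt := by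
    funext j
    apply Units.ext
    have h2 : ((toTP hT).pt j : (toTP hT).fld) = (tPP hT).pt j := rfl
    rw [h2]
    refine tu_true rfl ?_
    rw [← h2]
    exact Units.ne_zero _
  rw [trank, ← h1]
  rfl

theorem rank_of_eq {A : Set (Pts ι κ)} (h : Subvariety A) {P : PP ℂ (ι ⊕ κ)} (hP : toPP h = P) :
    rank h = xRT.rk (xs ι κ) P.pt := by
  subst hP
  rfl

/-- products -/
theorem exists_special_prod {Y : Set (ι → ℂ)} {T : Set (κ → ℂˣ)} (hY : Y1.Subvariety Y)
    (hT : R948.Subvariety T) : ∃ h : Subvariety (Y ×ˢ T : Set (Pts ι κ)),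
      rank h = Y1.rank hY + trank hT ∧ Y1.vdim Y + R948.vdim T ≤ vdim (Y ×ˢ T : Set (Pts ι κ)) := by
  obtain ⟨R, h1, h2, h3, h4⟩ := exists_prod (Y1.toPP hY) (tPP hT)
  have hadm : Adm R := by
    intro j hj
    rw [← PP.aeval_pt_eq_zero, aeval_X] at hj
    have h5 := (h2 (X j)).1 (by rw [aeval_X]; exact hj)
    obtain ⟨x, hx⟩ := hT.nonempty
    have h6 := h5 x hx
    rw [eval_X] at h6
    exact (x j).ne_zero h6
  have hz : (Y ×ˢ T : Set (Pts ι κ)) = zeros (R.I : Set (MvPolynomial (ι ⊕ κ) ℂ)) := by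
    ext p
    constructor
    · rintro ⟨hp1, hp2⟩ f hf
      have h5 : Sp ℂ R.pt (co p) := by
        refine h3 ℂ (co p) ?_ ?_
        · intro g hg
          rw [PP.aeval_pt_eq_zero] at hg
          exact hg p.1 hp1
        · intro g hg
          rw [PP.aeval_pt_eq_zero] at hg
          exact hg p.2 hp2
      exact h5 f ((R.aeval_pt_eq_zero f).2 hf)
    · intro hp
      refine ⟨?_, ?_⟩
      · rw [← hY.closed.eq]
        intro g hg
        have h5 : aeval R.pt (rename Sum.inl g) = 0 := by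
          rw [aeval_rename]
          exact (h1 g).2 hg
        have h6 := hp _ ((R.aeval_pt_eq_zero _).1 h5)
        rw [eval_rename] at h6
        exact h6
      · rw [← hT.closed.eq]
        intro g hg
        have h5 : aeval R.pt (rename Sum.inr g) = 0 := by
          rw [aeval_rename]
          exact (h2 g).2 hg
        have h6 := hp _ ((R.aeval_pt_eq_zero _).1 h5)
        rw [eval_rename] at h6
        exact h6
  have hsub : Subvariety (Y ×ˢ T : Set (Pts ι κ)) := by
    rw [hz]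
    exact sub_zeros hadm
  have hR : toPP hsub = R := by
    apply PP.ext'
    change van (Y ×ˢ T : Set (Pts ι κ)) = R.I
    rw [hz, van_zeros hadm]
  have hok : xRT.Ok (xs ι κ) R.pt := (adm_iff _).1 hadm
  refine ⟨hsub, ?_, ?_⟩
  · rw [rank_of_eq hsub hR, xrk_split]
    have a1 : Sp ℂ (fun i => R.pt (Sum.inl i)) (Y1.toPP hY).pt := fun f hf => by
      rw [PP.aeval_pt_eq_zero]
      exact (h1 f).1 hf
    have a2 : Sp ℂ (Y1.toPP hY).pt (fun i => R.pt (Sum.inl i)) := fun f hf => by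
      rw [PP.aeval_pt_eq_zero] at hf
      exact (h1 f).2 hf
    have a3 : Sp ℂ (fun i => R.pt (Sum.inr i)) (tPP hT).pt := fun f hf => by
      rw [PP.aeval_pt_eq_zero]
      exact (h2 f).1 hf
    have a4 : Sp ℂ (tPP hT).pt (fun i => R.pt (Sum.inr i)) := fun f hf => by
      rw [PP.aeval_pt_eq_zero] at hf
      exact (h2 f).2 hf
    have b1 := sp_restrict (F := Fa) a1
    have b2 := sp_restrict (F := Fa) a2
    have b3 := sp_restrict (F := Fa) a3
    have b4 := sp_restrict (F := Fa) a4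
    have e1 : rkc (fun i => code false (R.pt (Sum.inl i))) = Y1.rank hY :=
      mRT.rk_eq (ms ι) _ _ b1 b2 (okm _ _)
    have e2 : rkt (fun j => tu true (R.pt (Sum.inr j))) = trank hT := by
      rw [trank_eq]
      refine rkt_eq_of b3 b4 fun j h0 => ?_
      have h5 : X j ∈ (tPP hT).I := by
        rw [← PP.aeval_pt_eq_zero, aeval_X]
        exact h0
      obtain ⟨x, hx⟩ := hT.nonempty
      have h6 := h5 x hx
      rw [eval_X] at h6
      exact (x j).ne_zero h6
    rw [e1, e2]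
  · rw [vdim_eq hsub, hR, ← PP.td_pt, Y1.vdim_eq hY, R948.vdim_eq hT, ← PP.td_pt]
    have e1 : tdP (toTP hT).I = td ℂ (tPP hT).pt := ((tPP hT).td_pt).symm
    rw [e1]
    exact h4

theorem rank_ge_vdim {A : Set (Pts ι κ)} (hA : Subvariety A) : vdim A ≤ rank hA := by
  rw [vdim_eq hA, ← PP.td_pt]
  have h1 : td ℂ (toPP hA).pt ≤ td Fa (toPP hA).pt := td_le_td (F := Fa) _
  exact h1.trans (Y1.td_le_rk xRT (xs ι κ) _ (toPP_ok hA))

theorem Special.spec {Z : Set (Pts ι κ)} (h : Special Z) : ∃ hZ : Subvariety Z, vdim Z = rank hZ := by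
  obtain ⟨Y, T, hY, hT, rfl⟩ := h
  obtain ⟨hZ, h1, h2⟩ := exists_special_prod hY.sub (coset_sub hT)
  refine ⟨hZ, le_antisymm (rank_ge_vdim hZ) ?_⟩
  rw [h1, ← hY.vdim_eq, ← coset_vdim hT]
  exact h2

/-- a special subvariety containing a given subvariety -/
theorem exists_special {A : Set (Pts ι κ)} (hA : Subvariety A) :
    ∃ Z, Special Z ∧ A ⊆ Z ∧ vdim Z ≤ rank hA := by
  -- the projections
  let P₁ : PP ℂ ι := PP.ofPt ℂ (fun i => (toPP hA).pt (Sum.inl i))
  have hne : ∀ j, (toPP hA).pt (Sum.inr j) ≠ 0 := fun j => toPP_ok hA (Sum.inr j) rfl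
  let u : κ → (toPP hA).fldˣ := fun j => Units.mk0 _ (hne j)
  let P₂ : TP ℂ κ := TP.ofPt u
  have s₁ := Y1.sub_zeros P₁
  have s₂ := R948.sub_zeros P₂
  obtain ⟨Y, hY1, hY2, hY3⟩ := Y1.exists_special s₁
  obtain ⟨hZ, h1, -⟩ := exists_special_prod hY1.sub (coset_sub (hull_coset s₂))
  have hsp : Special (Y ×ˢ R948.hull (R948.zeros (P₂.I : Set (MvPolynomial κ ℂ))) :
      Set (Pts ι κ)) := ⟨Y, _, hY1, hull_coset s₂, rfl⟩
  refine ⟨_, hsp, ?_, ?_⟩
  · intro p hp
    refine ⟨hY2 fun f hf => ?_, subset_hull _ fun f hf => ?_⟩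
    · have h2 : aeval (fun i => (toPP hA).pt (Sum.inl i)) f = 0 := hf
      have h3 : rename Sum.inl f ∈ (toPP hA).I := by
        rw [← PP.aeval_pt_eq_zero, aeval_rename]
        exact h2
      have h4 := h3 p hp
      rw [eval_rename] at h4
      exact h4
    · have h2 : aeval (un u) f = 0 := hf
      have h3 : rename Sum.inr f ∈ (toPP hA).I := by
        rw [← PP.aeval_pt_eq_zero, aeval_rename]
        exact h2
      have h4 := h3 p hp
      rw [eval_rename] at h4
      exact h4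
  · obtain ⟨hZ', h2⟩ := hsp.spec
    rw [h2, h1, rank, xrk_split, ← coset_vdim (hull_coset s₂), hull_vdim s₂, ← hY1.vdim_eq]
    have e1 : Y1.rank s₁ = rkc (fun i => code false ((toPP hA).pt (Sum.inl i))) := by
      rw [Y1.rank_eq, Y1.toPP_zeros]
      have c1 := PP.sp_ofPt (F := ℂ) (fun i => (toPP hA).pt (Sum.inl i))
      have c2 := sp_restrict (F := Fa) c1
      have c3 := PP.sp_ofPt' (F := ℂ) (fun i => (toPP hA).pt (Sum.inl i))
      have c4 := sp_restrict (F := Fa) c3
      exact mRT.rk_eq (ms ι) _ _ c2 c4 (okm _ _)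
    have e2 : trank s₂ = rkt (fun j => tu true ((toPP hA).pt (Sum.inr j))) := by
      have c1 : (fun j => tu true ((toPP hA).pt (Sum.inr j))) = u := by
        funext j
        apply Units.ext
        exact tu_true rfl (hne j)
      rw [c1, trank]
      have c2 : (toTP s₂).I = P₂.I := R948.van_zeros P₂
      have c3 : Spec ℂ (toTP s₂).pt u := fun f hf => by
        rw [TP.aeval_pt_eq_zero, c2] at hf
        exact hf
      have c4 : Spec ℂ u (toTP s₂).pt := fun f hf => by
        rw [TP.aeval_pt_eq_zero, c2]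
        exact hf
      exact le_antisymm (rkt_spec _ _ c4.rel_le) (rkt_spec _ _ c3.rel_le)
    rw [e2]
    omega

/-- **The defect of a subvariety.** -/
theorem defect_eq {A : Set (Pts ι κ)} (hA : Subvariety A) :
    defect A = xRT.df ℂ (xs ι κ) (toPP hA).pt := by
  have h1 : sInf {d : ℕ | ∃ Z, Special Z ∧ A ⊆ Z ∧ vdim Z = d} = rank hA := by
    apply le_antisymm
    · obtain ⟨Z, h1, h2, h3⟩ := exists_special hA
      refine le_trans (Nat.sInf_le ?_) h3
      exact ⟨Z, h1, h2, rfl⟩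
    · obtain ⟨Z, h1, h2, -⟩ := exists_special hA
      obtain ⟨Z', h3, h4, h5⟩ := Nat.sInf_mem (s := {d : ℕ | ∃ Z, Special Z ∧ A ⊆ Z ∧ vdim Z = d})
        ⟨_, Z, h1, h2, rfl⟩
      obtain ⟨hZ', h6⟩ := h3.spec
      rw [← h5, h6]
      exact rank_mono hA hZ' h4
  rw [defect, h1, RT.df, vdim_eq hA, PP.td_pt, rank]

theorem defect_zeros {P : PP ℂ (ι ⊕ κ)} (hP : Adm P) :
    defect (zeros (P.I : Set (MvPolynomial (ι ⊕ κ) ℂ))) = xRT.df ℂ (xs ι κ) P.pt := by
  rw [defect_eq (sub_zeros hP), toPP_zeros hP]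

theorem finite_optimal {V : Set (Pts ι κ)} (hV : ZClosed V) (h : FinI xRT ℂ (xs ι κ) (van V)) :
    {A | Optimal A V}.Finite := by
  obtain ⟨B, hB, h⟩ := h
  refine Set.Finite.of_finite_image (f := van) ((hB.image PP.I).subset ?_) ?_
  · rintro _ ⟨A, ⟨hA, hAV, hopt⟩, rfl⟩
    obtain ⟨P, hP1, hP2, hP3, hP4⟩ := h (toPP hA) (toPP_ok hA) (van_anti hAV)
    have hP : Adm P := fun j hj => toPP_adm hA j (hP3 hj)
    have h1 : A ⊆ zeros (P.I : Set (MvPolynomial (ι ⊕ κ) ℂ)) :=
      (subset_zeros_van A).trans (zeros_anti hP3)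
    have h2 : zeros (P.I : Set (MvPolynomial (ι ⊕ κ) ℂ)) ⊆ V := by
      have h3 := zeros_anti (ι := ι) (κ := κ) (S := (van V : Set (MvPolynomial (ι ⊕ κ) ℂ))) hP2
      rwa [hV.eq] at h3
    by_cases heq : A = zeros (P.I : Set (MvPolynomial (ι ⊕ κ) ℂ))
    · rw [heq, van_zeros hP]
      exact ⟨P, hP1, rfl⟩
    · exfalso
      refine hopt _ (sub_zeros hP) (lt_of_le_of_ne h1 heq) h2 ?_
      rw [defect_zeros hP, defect_eq hA]
      exact hP4
  · rintro A ⟨hA, -, -⟩ A' ⟨hA', -, -⟩ h1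
    rw [← hA.closed.eq, ← hA'.closed.eq, h1]

theorem fin_of_optimal {V : Set (Pts ι κ)} (hV : ZClosed V) (h : {A | Optimal A V}.Finite) :
    FinI xRT ℂ (xs ι κ) (van V) := by
  refine ⟨{P | ∃ (A : Set (Pts ι κ)), Optimal A V ∧ van A = P.I}, ?_, fun Q₀ hok hQ₀ => ?_⟩
  · have h1 : (PP.I '' {P : PP ℂ (ι ⊕ κ) | ∃ (A : Set (Pts ι κ)), Optimal A V ∧ van A = P.I}).Finite := by
      refine (h.image van).subset ?_
      rintro _ ⟨P, ⟨A, hA, h2⟩, rfl⟩
      exact ⟨A, hA, h2⟩
    exact Set.Finite.of_finite_image h1 (fun P _ Q _ h => PP.ext' h)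
  have hQadm : Adm Q₀ := (adm_iff _).2 hok
  let s : Set ℕ := {n | ∃ P : PP ℂ (ι ⊕ κ), van V ≤ P.I ∧ P.I ≤ Q₀.I ∧
    xRT.df ℂ (xs ι κ) P.pt ≤ xRT.df ℂ (xs ι κ) Q₀.pt ∧ tdP P.I = n}
  have hs1 : s.Nonempty := ⟨_, Q₀, hQ₀, le_rfl, le_rfl, rfl⟩
  have hs2 : BddAbove s := ⟨Fintype.card (ι ⊕ κ), by
    rintro _ ⟨P, -, -, -, rfl⟩
    exact R948.tdP_le_card _⟩
  obtain ⟨P, h1, h2, h3, h4⟩ := Nat.sSup_mem hs1 hs2
  have hP : Adm P := fun j hj => hQadm j (h2 hj)
  refine ⟨P, ⟨zeros (P.I : Set (MvPolynomial (ι ⊕ κ) ℂ)), ⟨sub_zeros hP, ?_, ?_⟩, van_zeros hP⟩,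
    h1, h2, h3⟩
  · have h5 := zeros_anti (ι := ι) (κ := κ) (S := (van V : Set (MvPolynomial (ι ⊕ κ) ℂ))) h1
    rwa [hV.eq] at h5
  · intro B hB hAB hBV hdef
    rw [defect_zeros hP, defect_eq hB] at hdef
    have h5 : (toPP hB).I ≤ P.I := by
      have h6 := van_anti hAB.le
      rw [van_zeros hP] at h6
      exact h6
    have h6 : (toPP hB).I ≠ P.I := by
      intro h7
      apply hAB.ne
      rw [← hB.closed.eq]
      exact congrArg (fun J : Ideal (MvPolynomial (ι ⊕ κ) ℂ) =>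
        zeros (J : Set (MvPolynomial (ι ⊕ κ) ℂ))) h7.symm
    have h7 : tdP P.I < tdP (toPP hB).I := R948.tdP_strict (lt_of_le_of_ne h5 h6)
    have h8 : tdP (toPP hB).I ∈ s := ⟨toPP hB, van_anti hBV, h5.trans h2, hdef.trans h3, rfl⟩
    have h9 := le_csSup hs2 h8
    omega

/-! ### the powers of the diagonal -/

/-- the equations -/
noncomputable def diagL' (M : ℕ) : List (MvPolynomial (Fin M ⊕ Fin M) ℤ) :=
  (List.finRange M).map fun i => X (Sum.inl i) - X (Sum.inr i)

theorem diagPow_eq (M : ℕ) : diagPow M =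
    zeros (spanZ ℂ (diagL' M) : Set (MvPolynomial (Fin M ⊕ Fin M) ℂ)) := by
  ext x
  constructor
  · intro hx f hf
    refine Submodule.span_induction (p := fun f _ => MvPolynomial.eval (co x) f = 0) ?_ ?_ ?_ ?_ hf
    · rintro _ ⟨H, hH, rfl⟩
      obtain ⟨i, -, rfl⟩ := List.mem_map.1 hH
      simp only [map_sub, MvPolynomial.map_X, eval_X]
      exact sub_eq_zero.2 (hx i)
    · exact map_zero _
    · intro a b _ _ ha hb
      rw [map_add, ha, hb, add_zero]
    · intro a b _ hb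
      rw [smul_eq_mul, map_mul, hb, mul_zero]
  · intro hx i
    have h1 := hx _ (Ideal.subset_span ⟨X (Sum.inl i) - X (Sum.inr i),
      List.mem_map.2 ⟨i, List.mem_finRange i, rfl⟩, rfl⟩)
    simp only [map_sub, MvPolynomial.map_X, eval_X, sub_eq_zero] at h1
    exact h1

theorem fin_diagI (M : ℕ) (h : {A | Optimal A (diagPow M)}.Finite) :
    FinI xRT ℂ (xs (Fin M) (Fin M)) (spanZ ℂ (diagL' M)) := by
  have h1 : ZClosed (diagPow M) := by
    rw [diagPow_eq]
    exact zclosed_zeros _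
  obtain ⟨B, hB, h2⟩ := fin_of_optimal h1 h
  have h3 : spanZ ℂ (diagL' M) ≤ van (diagPow M) := by
    intro f hf x hx
    rw [diagPow_eq] at hx
    exact hx f hf
  refine ⟨B, hB, fun Q₀ hok hQ₀ => ?_⟩
  obtain ⟨P, h4, h5, h6, h7⟩ := h2 Q₀ hok (by
    rw [← van_zeros ((adm_iff _).2 hok)]
    apply van_anti
    rw [diagPow_eq]
    exact zeros_anti hQ₀)
  exact ⟨P, h4, h3.trans h5, h6, h7⟩

theorem exists_rename (M : ℕ) :
    ∃ θ : MvPolynomial (Fin M ⊕ Fin M) ℂ →ₐ[ℂ] MvPolynomial (Fin M) ℂ,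
      ∀ (s : Fin M → ℂ) (f : MvPolynomial (Fin M ⊕ Fin M) ℂ),
        aeval s (θ f) = aeval (Sum.elim s s) f := by
  refine ⟨rename (Sum.elim id id), fun s f => ?_⟩
  rw [aeval_rename]
  congr 2
  funext i
  rcases i with i | i <;> rfl

/-- the powers of the diagonal are subvarieties -/
theorem sub_diagPow (M : ℕ) : Subvariety (diagPow M) := by
  obtain ⟨θ, hθ⟩ := exists_rename M
  have hker : van (diagPow M) = RingHom.ker θ := by
    ext f
    rw [RingHom.mem_ker]
    constructor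
    · intro hf
      refine R948.eq_zero_of_torus _ fun s => ?_
      rw [hθ]
      have h2 : ((fun i => (s i : ℂ), s) : Pts (Fin M) (Fin M)) ∈ diagPow M := fun i => rfl
      have h3 := hf _ h2
      have h4 : co ((fun i => (s i : ℂ), s) : Pts (Fin M) (Fin M)) = Sum.elim (un s) (un s) := by
        funext i
        rcases i with i | i <;> rfl
      rw [h4] at h3
      exact h3
    · intro hf x hx
      have h1 := hθ x.1 f
      rw [hf, map_zero] at h1
      have h2 : co x = Sum.elim x.1 x.1 := by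
        funext i
        rcases i with i | i
        · rfl
        · exact (hx i).symm
      rw [h2]
      exact h1.symm
  refine Subvariety.of_prime ?_ ?_
  · rw [diagPow_eq]
    exact zclosed_zeros _
  · rw [hker]
    exact RingHom.ker_isPrime θ

theorem main_x' (h : ∀ M, FinI xRT ℂ (xs (Fin M) (Fin M)) (spanZ ℂ (diagL' M))) {ι : Type}
    [Fintype ι] (s : ι → xRT.S) (I : Ideal (MvPolynomial ι ℂ)) : FinI xRT ℂ s I := by
  have := algZ
  refine fin_gen' (T := xRT) false (fun h => absurd h Bool.false_ne_true) ?_ s I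
  have h1 : FS xRT (fun b : Bool => (b : xRT.S)) diagC (fun i : Empty => i.elim) Cond.top := by
    refine FS.of_power fun M => ?_
    let e : Fin M ⊕ Fin M ≃ Fin M × Bool :=
      { toFun := Sum.elim (fun i => (i, false)) (fun i => (i, true))
        invFun := fun a => if a.2 = true then Sum.inr a.1 else Sum.inl a.1
        left_inv := by rintro (i | i) <;> rfl
        right_inv := by rintro ⟨i, b⟩; cases b <;> rfl }
    have h2 := (desc (T := xRT) (xs (Fin M) (Fin M)) (diagL' M) (h M)).reindex e (ds M) (by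
      rintro (i | i) <;> rfl)
    refine FinR.congr h2 ?_ (fun _ _ _ _ _ _ _ => trivial)
    intro K _ _ y _
    simp only [Cond.list, Cond.comap, diagC, ZP.polsZ, diagL', List.mem_map, List.mem_finRange,
      true_and, forall_exists_index, forall_apply_eq_imp_iff, map_sub, aeval_X, sub_eq_zero]
    rfl
  intro ι _ s LL
  exact h1.finC (s := s) (XG.polsZ s LL)

/-- **The main theorem for the mixed case.** -/
theorem optimal_iff : (∀ (ι κ : Type) [Fintype ι] [Fintype κ] (V : Set (Pts ι κ)),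
    Subvariety V → {A | Optimal A V}.Finite) ↔ ∀ M : ℕ, {A | Optimal A (diagPow M)}.Finite := by
  constructor
  · intro h M
    exact h _ _ _ (sub_diagPow M)
  · intro h ι κ _ _ V hV
    exact finite_optimal hV.closed (main_x' (fun M => fin_diagI M (h M)) (xs ι κ) (van V))

end Pool.Agent.N101.YG
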