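import Pool.Agent.N101.ZP.GateA

/-!
# Systems of polynomial equations from the plane `x + y = z`
-/

set_option autoImplicit false
set_option linter.unusedSectionVars false
set_option linter.style.haveILetI false

namespace Pool.Agent.N101.ZP

open UpperHalfPlane H294ZP Pool.Agent.N135.ZO
open Pool.Agent.R948 (td cp)

theorem okm {K : Type} [Field K] [Algebra Fa K] {ι : Type} (s : ι → mRT.S) (p : ι → K) :
    mRT.Ok s p := fun _ hi => hi.elim

/-- the plane -/
noncomputable def planeC : Cond Fa (Fin 3) where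
  sat y := y 0 + y 1 = y 2
  closed p p' h hp := by
    have h1 := h (MvPolynomial.X 0 + MvPolynomial.X 1 - MvPolynomial.X 2) (by
      rw [map_sub, map_add, MvPolynomial.aeval_X, MvPolynomial.aeval_X, MvPolynomial.aeval_X, hp,
        sub_self])
    rw [map_sub, map_add, MvPolynomial.aeval_X, MvPolynomial.aeval_X, MvPolynomial.aeval_X] at h1
    exact sub_eq_zero.1 h1

/-- the sorts -/
def ms (κ : Type) : κ → mRT.S := fun _ => ()

theorem ms_sum (κ lam : Type) : Sum.elim (ms κ) (ms lam) = ms (κ ⊕ lam) := by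
  funext x
  rcases x with x | x <;> rfl

/-- conditions which may be added to systems -/
def MG {κ : Type} (G : Cond Fa κ) : Prop := Good mRT (ms (Fin 3)) planeC (ms κ) G

section

variable {κ lam : Type}

theorem MG.comap {G : Cond Fa κ} (h : MG G) (f : κ → lam) : MG (G.comap f) :=
  Good.comap h _ f (fun _ => rfl)

theorem MG.and {G G' : Cond Fa κ} (h : MG G) (h' : MG G') : MG (G.and G') := Good.and h h'

theorem MG.congr {G G' : Cond Fa κ} (h : MG G)
    (h1 : ∀ (K : Type) [Field K] [Algebra Fa K] (y : κ → K), (G'.sat y ↔ G.sat y)) : MG G' :=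
  Good.congr h (fun K _ _ y _ => h1 K y)

theorem MG.top : MG (Cond.top : Cond Fa κ) := by
  intro ι _ s' C hC e he ι' _ s'' f hf L hL
  refine FinR.congr (hC ι' s'' f hf L hL) ?_ (fun K _ _ y _ _ _ => trivial)
  intro K _ _ y _
  constructor
  · rintro ⟨⟨h1, -⟩, h2⟩
    exact ⟨h1, h2⟩
  · rintro ⟨h1, h2⟩
    exact ⟨⟨h1, trivial⟩, h2⟩

theorem MG.plane : MG planeC := Good.base

theorem MG.of_spC [Fintype κ] {G : Cond Fa κ} (h : SpC mRT (ms κ) G) : MG G :=
  Good.of_spC h

/-- conjunction of a finite family -/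
def allC (G : lam → Cond Fa κ) : Cond Fa κ :=
  ⟨fun y => ∀ j, (G j).sat y, fun p p' h hp j => (G j).closed p p' h (hp j)⟩

theorem MG.all [Fintype lam] {G : lam → Cond Fa κ} (h : ∀ j, MG (G j)) : MG (allC G) := by
  classical
  have key : ∀ s : Finset lam, MG (⟨fun y => ∀ j ∈ s, (G j).sat y,
      fun p p' h hp j hj => (G j).closed p p' h (hp j hj)⟩ : Cond Fa κ) := by
    intro s
    induction s using Finset.induction_on with
    | empty => exact MG.top.congr fun K _ _ y => by simp [Cond.top]
    | insert a s _ ih =>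
      refine ((h a).and ih).congr fun K _ _ y => ?_
      simp [Cond.and]
  exact (key Finset.univ).congr fun K _ _ y => by simp [allC]

/-- elimination of auxiliary coordinates which are polynomials in the others -/
theorem MG.elim [Fintype lam] {G : Cond Fa κ} {G' : Cond Fa (κ ⊕ lam)} (h : MG G')
    (t : lam → MvPolynomial κ Fa)
    (h1 : ∀ (K : Type) [Field K] [Algebra Fa K] (z : κ ⊕ lam → K), G'.sat z → ∀ j,
      z (Sum.inr j) = MvPolynomial.aeval (fun i => z (Sum.inl i)) (t j))
    (h2 : ∀ (K : Type) [Field K] [Algebra Fa K] (y : κ → K), G.sat y →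
      G'.sat (Sum.elim y (fun j => MvPolynomial.aeval y (t j))))
    (h3 : ∀ (K : Type) [Field K] [Algebra Fa K] (z : κ ⊕ lam → K), G'.sat z →
      G.sat (fun i => z (Sum.inl i))) : MG G := by
  have h' : Good mRT (ms (Fin 3)) planeC (Sum.elim (ms κ) (ms lam)) G' := by
    rw [ms_sum]
    exact h
  refine Good.proj1 h' ?_ ?_ ?_
  · intro K _ _ y _ hy
    exact ⟨K, inferInstance, inferInstance, AlgHom.id Fa K, _, okm _ _, h2 K y hy⟩
  · intro K L _ _ _ _ q z hq _ _ _
    exact h3 K q hq
  · intro K _ _ q _ hq j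
    rw [h1 K q hq j]
    refine isAlgebraic_algebraMap (A := K)
      (⟨_, ?_⟩ : Algebra.adjoin Fa (Set.range fun i => q (Sum.inl i)))
    rw [Algebra.adjoin_range_eq_range_aeval]
    exact ⟨t j, rfl⟩

/-- the graph of a polynomial -/
noncomputable def graph (G : MvPolynomial κ Fa) : Cond Fa (Option κ) where
  sat z := z none = MvPolynomial.aeval (fun i => z (some i)) G
  closed p p' h hp := by
    have h1 := h (MvPolynomial.X none - MvPolynomial.rename some G) (by
      rw [map_sub, MvPolynomial.aeval_X, MvPolynomial.aeval_rename, hp]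
      exact sub_self _)
    rw [map_sub, MvPolynomial.aeval_X, MvPolynomial.aeval_rename] at h1
    exact sub_eq_zero.1 h1

/-- computable polynomials -/
def GP (G : MvPolynomial κ Fa) : Prop := MG (graph G)

theorem GP.comp [Fintype lam] {H : MvPolynomial lam Fa} (hH : GP H)
    {Gs : lam → MvPolynomial κ Fa} (h : ∀ j, GP (Gs j)) : GP (MvPolynomial.bind₁ Gs H) := by
  let G' : Cond Fa (Option κ ⊕ lam) :=
    (allC fun j => (graph (Gs j)).comap (fun i => i.elim (Sum.inr j) (fun i => Sum.inl (some i)))).and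
      ((graph H).comap (fun i => i.elim (Sum.inl none) Sum.inr))
  have hG' : MG G' := MG.and (MG.all fun j => MG.comap (h j) _) (MG.comap hH _)
  have key : ∀ (K : Type) [Field K] [Algebra Fa K] (z : Option κ ⊕ lam → K), G'.sat z ↔
      (∀ j, z (Sum.inr j) = MvPolynomial.aeval (fun i => z (Sum.inl (some i))) (Gs j)) ∧
      z (Sum.inl none) = MvPolynomial.aeval (fun j => z (Sum.inr j)) H := fun K _ _ z => Iff.rfl
  have hb : ∀ (K : Type) [Field K] [Algebra Fa K] (y : κ → K),
      MvPolynomial.aeval y (MvPolynomial.bind₁ Gs H) =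
        MvPolynomial.aeval (fun j => MvPolynomial.aeval y (Gs j)) H := by
    intro K _ _ y
    exact MvPolynomial.aeval_bind₁ y Gs H
  refine MG.elim hG' (fun j => MvPolynomial.rename some (Gs j)) ?_ ?_ ?_
  · intro K _ _ z hz j
    rw [MvPolynomial.aeval_rename]
    exact ((key K z).1 hz).1 j
  · intro K _ _ y hy
    rw [key]
    have hy' : y none = MvPolynomial.aeval (fun i => y (some i)) (MvPolynomial.bind₁ Gs H) := hy
    rw [hb] at hy'
    refine ⟨fun j => ?_, ?_⟩
    · change MvPolynomial.aeval y (MvPolynomial.rename some (Gs j)) = _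
      rw [MvPolynomial.aeval_rename]
      rfl
    · change y none = MvPolynomial.aeval
        (fun j => MvPolynomial.aeval y (MvPolynomial.rename some (Gs j))) H
      rw [hy']
      congr 1
      congr 1
      funext j
      rw [MvPolynomial.aeval_rename]
      rfl
  · intro K _ _ z hz
    obtain ⟨h1, h2⟩ := (key K z).1 hz
    change z (Sum.inl none) = MvPolynomial.aeval (fun i => z (Sum.inl (some i))) _
    rw [hb, h2]
    congr 1
    congr 1
    funext j
    exact h1 j

/-! ### special conditions -/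

theorem rkc_le_of {ι Q : Type} [Fintype ι] (c : ι → Option Q) (a : Option Q)
    (h : ∀ i, c i = a ∨ c i = none) : rkc c ≤ 1 := by
  classical
  have h1 := rkc_succ c
  have h2 : (insert none (Finset.univ.image c)) ⊆ {none, a} := by
    intro x hx
    rcases Finset.mem_insert.1 hx with rfl | hx
    · exact Finset.mem_insert_self _ _
    · obtain ⟨i, -, rfl⟩ := Finset.mem_image.1 hx
      rcases h i with h3 | h3 <;> rw [h3] <;> simp
  have h3 := (Finset.card_le_card h2).trans Finset.card_le_two
  omega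

theorem rkc_zero {ι Q : Type} [Fintype ι] (c : ι → Option Q) (h : ∀ i, c i = none) : rkc c = 0 := by
  classical
  have h1 := rkc_succ c
  have h2 : (insert none (Finset.univ.image c)) ⊆ {none} := by
    intro x hx
    rcases Finset.mem_insert.1 hx with rfl | hx
    · exact Finset.mem_singleton_self _
    · obtain ⟨i, -, rfl⟩ := Finset.mem_image.1 hx
      rw [h i]
      exact Finset.mem_singleton_self _
  have h3 := Finset.card_le_card h2
  rw [Finset.card_singleton] at h3
  omega

theorem GP.X (i : κ) : GP (MvPolynomial.X i : MvPolynomial κ Fa) := by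
  have h1 : MG (Cond.pols [MvPolynomial.X 0 - MvPolynomial.X 1] : Cond Fa (Fin 2)) := by
    refine MG.of_spC (spC_pols _ fun K _ _ y _ hy => ?_)
    have h2 := hy _ List.mem_cons_self
    rw [map_sub, MvPolynomial.aeval_X, MvPolynomial.aeval_X, sub_eq_zero] at h2
    have h3 : mRT.rk (ms (Fin 2)) y ≤ 1 := by
      refine rkc_le_of _ (code false (y 0)) fun i => Or.inl ?_
      fin_cases i
      · rfl
      · change code false (y 1) = _
        rw [h2]
    simp only [List.length_cons, List.length_nil, Fintype.card_fin]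
    omega
  refine (h1.comap (fun j : Fin 2 => if j = 0 then none else some i)).congr fun K _ _ y => ?_
  change y none = MvPolynomial.aeval (fun i => y (some i)) (MvPolynomial.X i) ↔
    ∀ f ∈ [(MvPolynomial.X 0 - MvPolynomial.X 1 : MvPolynomial (Fin 2) Fa)],
      MvPolynomial.aeval (fun j => y (if j = 0 then none else some i)) f = 0
  simp [sub_eq_zero]

theorem GP.C_cm {c : Fa} (hc : ∀ (K : Type) [Field K] [Algebra Fa K], Cm (algebraMap Fa K c)) :
    GP (MvPolynomial.C c : MvPolynomial κ Fa) := by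
  have h1 : MG (Cond.pols [MvPolynomial.X 0 - MvPolynomial.C c] : Cond Fa (Fin 1)) := by
    refine MG.of_spC (spC_pols _ fun K _ _ y _ hy => ?_)
    have h2 := hy _ List.mem_cons_self
    rw [map_sub, MvPolynomial.aeval_X, MvPolynomial.aeval_C, sub_eq_zero] at h2
    have h3 : mRT.rk (ms (Fin 1)) y = 0 := by
      refine rkc_zero _ fun i => ?_
      have : i = 0 := Subsingleton.elim _ _
      rw [this, h2, code_none]
      exact fun _ => hc K
    simp only [List.length_cons, List.length_nil, Fintype.card_fin]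
    omega
  refine (h1.comap (fun j : Fin 1 => none)).congr fun K _ _ y => ?_
  change y none = MvPolynomial.aeval (fun i => y (some i)) (MvPolynomial.C c) ↔
    ∀ f ∈ [(MvPolynomial.X 0 - MvPolynomial.C c : MvPolynomial (Fin 1) Fa)],
      MvPolynomial.aeval (fun j => y none) f = 0
  simp [sub_eq_zero]

theorem GP.congr {G G' : MvPolynomial κ Fa} (h : GP G) (he : G' = G) : GP G' := by
  rw [he]
  exact h

theorem GP.X01 : GP (MvPolynomial.X 0 + MvPolynomial.X 1 : MvPolynomial (Fin 2) Fa) := by
  refine (MG.plane.comap (fun j : Fin 3 => (![some 0, some 1, none] : Fin 3 → Option (Fin 2)) j)).congr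
    fun K _ _ y => ?_
  change y none = MvPolynomial.aeval (fun i => y (some i)) (MvPolynomial.X 0 + MvPolynomial.X 1) ↔
    y (some 0) + y (some 1) = y none
  rw [map_add, MvPolynomial.aeval_X, MvPolynomial.aeval_X, eq_comm]

theorem GP.add {G G' : MvPolynomial κ Fa} (h : GP G) (h' : GP G') : GP (G + G') := by
  refine (GP.comp GP.X01 (Gs := ![G, G']) (by
    intro j
    fin_cases j
    · exact h
    · exact h')).congr ?_
  simp

theorem GP.X0X1 : GP (MvPolynomial.X 0 - MvPolynomial.X 1 : MvPolynomial (Fin 2) Fa) := by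
  refine (MG.plane.comap (fun j : Fin 3 => (![none, some 1, some 0] : Fin 3 → Option (Fin 2)) j)).congr
    fun K _ _ y => ?_
  change y none = MvPolynomial.aeval (fun i => y (some i)) (MvPolynomial.X 0 - MvPolynomial.X 1) ↔
    y none + y (some 1) = y (some 0)
  rw [map_sub, MvPolynomial.aeval_X, MvPolynomial.aeval_X, eq_sub_iff_add_eq]

theorem GP.sub {G G' : MvPolynomial κ Fa} (h : GP G) (h' : GP G') : GP (G - G') := by
  refine (GP.comp GP.X0X1 (Gs := ![G, G']) (by
    intro j
    fin_cases j
    · exact h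
    · exact h')).congr ?_
  simp

theorem MG.zero : MG (⟨fun y => y () = 0, fun _ _ h hp => h.zero hp⟩ : Cond Fa Unit) := by
  refine (MG.plane.comap (fun _ : Fin 3 => ())).congr fun K _ _ y => ?_
  change y () = 0 ↔ y () + y () = y ()
  simp

theorem GP.zero : GP (0 : MvPolynomial κ Fa) := by
  refine (MG.zero.comap (fun _ : Unit => none)).congr fun K _ _ y => ?_
  change y none = MvPolynomial.aeval (fun i => y (some i)) 0 ↔ y none = 0
  rw [map_zero]

end

/-! ### the Hecke correspondence -/

/-- the quadratic polynomial -/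
noncomputable def qpol (α β : Fa) : MvPolynomial (Fin 1) Fa :=
  MvPolynomial.X 0 ^ 2 + MvPolynomial.C α * MvPolynomial.X 0 + MvPolynomial.C β

/-- the equations of the correspondence -/
noncomputable def heq (α β : Fa) (Q R : Polynomial Fa) : List (MvPolynomial (Fin 4) Fa) :=
  [MvPolynomial.X 1 + MvPolynomial.X 2 + MvPolynomial.X 3 - (MvPolynomial.X 0 ^ 2 +
      MvPolynomial.C α * MvPolynomial.X 0 + MvPolynomial.C β),
    MvPolynomial.X 1 * MvPolynomial.X 2 + MvPolynomial.X 1 * MvPolynomial.X 3 +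
      MvPolynomial.X 2 * MvPolynomial.X 3 - Polynomial.aeval (MvPolynomial.X 0) Q,
    MvPolynomial.X 1 * MvPolynomial.X 2 * MvPolynomial.X 3 -
      Polynomial.aeval (MvPolynomial.X 0) R]

theorem sat_heq {K : Type} [Field K] [Algebra Fa K] (α β : Fa) (Q R : Polynomial Fa)
    (y : Fin 4 → K) : (∀ f ∈ heq α β Q R, MvPolynomial.aeval y f = 0) ↔
      y 1 + y 2 + y 3 = y 0 ^ 2 + algebraMap Fa K α * y 0 + algebraMap Fa K β ∧
      y 1 * y 2 + y 1 * y 3 + y 2 * y 3 = Polynomial.aeval (y 0) Q ∧
      y 1 * y 2 * y 3 = Polynomial.aeval (y 0) R := by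
  have h1 : ∀ P : Polynomial Fa, MvPolynomial.aeval y (Polynomial.aeval
      (MvPolynomial.X 0 : MvPolynomial (Fin 4) Fa) P) = Polynomial.aeval (y 0) P := by
    intro P
    rw [← Polynomial.aeval_algHom_apply, MvPolynomial.aeval_X]
  simp only [heq, List.mem_cons, List.not_mem_nil, or_false, forall_eq_or_imp, forall_eq, map_sub,
    map_add, map_mul, map_pow, MvPolynomial.aeval_X, MvPolynomial.aeval_C, h1, sub_eq_zero]

/-- the data -/
structure HD where
  α : Fa
  β : Fa
  Q : Polynomial Fa
  R : Polynomial Fa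
  h : ∀ τ, jk none τ + jk (some 0) τ + jk (some 1) τ =
      jj τ ^ 2 + algebraMap Fa ℂ α * jj τ + algebraMap Fa ℂ β ∧
    jk none τ * jk (some 0) τ + jk none τ * jk (some 1) τ + jk (some 0) τ * jk (some 1) τ =
      Q.eval₂ (algebraMap Fa ℂ) (jj τ) ∧
    jk none τ * jk (some 0) τ * jk (some 1) τ = R.eval₂ (algebraMap Fa ℂ) (jj τ)

theorem exists_HD : Nonempty HD := by
  obtain ⟨α, β, Q, R, h⟩ := exists_data
  exact ⟨⟨α, β, Q, R, h⟩⟩

section

variable (D : HD)

theorem HD.iso {K : Type} [Field K] [Algebra Fa K] (y : Fin 4 → K)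
    (hy : ∀ f ∈ heq D.α D.β D.Q D.R, MvPolynomial.aeval y f = 0) (i : Fin 4) (hi : i ≠ 0) :
    Iso (y 0) (y i) := by
  refine ⟨2, two_pos, ?_⟩
  have h1 := transferC (heq D.α D.β D.Q D.R) (mv2 (psi 2) 0 i) (fun x hx => ?_) y hy
  · rwa [aeval_mv2] at h1
  · rw [aeval_mv2]
    rw [sat_heq] at hx
    obtain ⟨h1, h2, h3⟩ := hx
    obtain ⟨τ, hτ⟩ := jj_surj (x 0)
    obtain ⟨e1, e2, e3⟩ := D.h τ
    rw [hτ] at e1 e2 e3
    have e2' : Polynomial.aeval (x 0) D.Q = Polynomial.eval₂ (algebraMap Fa ℂ) (x 0) D.Q := rfl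
    have e3' : Polynomial.aeval (x 0) D.R = Polynomial.eval₂ (algebraMap Fa ℂ) (x 0) D.R := rfl
    have h4 : (x i - jk none τ) * (x i - jk (some 0) τ) * (x i - jk (some 1) τ) = 0 := by
      have h5 : (x i - x 1) * (x i - x 2) * (x i - x 3) = 0 := by
        fin_cases i
        · exact absurd rfl hi
        · simp
        · simp
        · simp
      have a1 := h1.trans e1.symm
      have a2 := h2.trans (e2'.trans e2.symm)
      have a3 := h3.trans (e3'.trans e3.symm)
      linear_combination h5 + x i ^ 2 * a1 - x i * a2 + a3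
    rw [← hτ]
    rcases mul_eq_zero.1 h4 with h5 | h5
    · rcases mul_eq_zero.1 h5 with h6 | h6
      · rw [sub_eq_zero.1 h6]
        exact psi_jk none τ
      · rw [sub_eq_zero.1 h6]
        exact psi_jk (some 0) τ
    · rw [sub_eq_zero.1 h5]
      exact psi_jk (some 1) τ

theorem HD.good : MG (Cond.pols (heq D.α D.β D.Q D.R)) := by
  refine MG.of_spC (spC_pols _ fun K _ _ y _ hy => ?_)
  have h3 : mRT.rk (ms (Fin 4)) y ≤ 1 := by
    refine rkc_le_of _ (code false (y 0)) fun i => Or.inl ?_
    by_cases hi : i = 0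
    · rw [hi]
    · exact (code_eq_of_iso (D.iso y hy i hi)).symm
  simp only [heq, List.length_cons, List.length_nil, Fintype.card_fin]
  omega

/-- existence of points of the correspondence -/
theorem exists_three {L : Type} [Field L] [IsAlgClosed L] [CharZero L] (a b c : L) : ∃ u v w : L,
    u + v + w = a ∧ u * v + u * w + v * w = b ∧ u * v * w = c := by
  open Polynomial in
  let p : L[X] := X ^ 3 - C a * X ^ 2 + C b * X - C c
  have hdeg : p.natDegree = 3 := by
    simp only [p]
    compute_degree!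
  have hmon : p.Monic := by
    simp only [p]
    monicity!
  have hsp : p.Splits := IsAlgClosed.splits p
  have hcard : p.roots.card = 3 := by
    rw [← hdeg]
    exact hsp.natDegree_eq_card_roots.symm
  obtain ⟨u, v, w, huvw⟩ := Multiset.card_eq_three.1 hcard
  have hprod : p = (X - C u) * (X - C v) * (X - C w) := by
    have h1 := hsp.eq_prod_roots_of_monic hmon
    rw [huvw] at h1
    rw [h1]
    simp [mul_assoc]
  have e : ∀ t : L, t ^ 3 - a * t ^ 2 + b * t - c = (t - u) * (t - v) * (t - w) := by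
    intro t
    have := congrArg (Polynomial.eval t) hprod
    simpa [p] using this
  have e0 := e 0
  have e1 := e 1
  have e2 := e (-1)
  refine ⟨u, v, w, ?_, ?_, ?_⟩
  · have : (2 : L) * (u + v + w - a) = 0 := by linear_combination e1 + e2 - 2 * e0
    exact sub_eq_zero.1 ((mul_eq_zero.1 this).resolve_left two_ne_zero)
  · have : (2 : L) * (u * v + u * w + v * w - b) = 0 := by linear_combination e2 - e1
    exact sub_eq_zero.1 ((mul_eq_zero.1 this).resolve_left two_ne_zero)
  · linear_combination e0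

theorem HD.qp : GP (qpol D.α D.β) := by
  -- auxiliary coordinates `u, v, w, t`
  let G' : Cond Fa (Option (Fin 1) ⊕ Fin 4) :=
    ((Cond.pols (heq D.α D.β D.Q D.R)).comap
      (![Sum.inl (some 0), Sum.inr 0, Sum.inr 1, Sum.inr 2] : Fin 4 → Option (Fin 1) ⊕ Fin 4)).and
    ((planeC.comap (![Sum.inr 0, Sum.inr 1, Sum.inr 3] : Fin 3 → Option (Fin 1) ⊕ Fin 4)).and
      (planeC.comap (![Sum.inr 3, Sum.inr 2, Sum.inl none] : Fin 3 → Option (Fin 1) ⊕ Fin 4)))
  have hG' : MG G' := (D.good.comap _).and ((MG.plane.comap _).and (MG.plane.comap _))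
  have key : ∀ (K : Type) [Field K] [Algebra Fa K] (z : Option (Fin 1) ⊕ Fin 4 → K), G'.sat z ↔
      (∀ f ∈ heq D.α D.β D.Q D.R, MvPolynomial.aeval
        (fun j => z ((![Sum.inl (some 0), Sum.inr 0, Sum.inr 1, Sum.inr 2] :
          Fin 4 → Option (Fin 1) ⊕ Fin 4) j)) f = 0) ∧
      z (Sum.inr 0) + z (Sum.inr 1) = z (Sum.inr 3) ∧
      z (Sum.inr 3) + z (Sum.inr 2) = z (Sum.inl none) := fun K _ _ z => Iff.rfl
  have hG'' : Good mRT (ms (Fin 3)) planeC (Sum.elim (ms (Option (Fin 1))) (ms (Fin 4))) G' := by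
    rw [ms_sum]
    exact hG'
  refine Good.proj1 hG'' ?_ ?_ ?_
  · intro K _ _ y _ hy
    have hch : CharZero K := charZero_of_injective_algebraMap (algebraMap Fa K).injective
    have hch' : CharZero (AlgebraicClosure K) :=
      charZero_of_injective_algebraMap (algebraMap K (AlgebraicClosure K)).injective
    let φ : K →ₐ[Fa] AlgebraicClosure K := IsScalarTower.toAlgHom Fa K (AlgebraicClosure K)
    obtain ⟨u, v, w, h1, h2, h3⟩ := exists_three
      (φ (y (some 0)) ^ 2 + algebraMap Fa (AlgebraicClosure K) D.α * φ (y (some 0)) +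
        algebraMap Fa (AlgebraicClosure K) D.β) (Polynomial.aeval (φ (y (some 0))) D.Q)
      (Polynomial.aeval (φ (y (some 0))) D.R)
    refine ⟨AlgebraicClosure K, inferInstance, inferInstance, φ, ![u, v, w, u + v], okm _ _, ?_⟩
    rw [key]
    refine ⟨?_, ?_, ?_⟩
    · rw [sat_heq]
      exact ⟨h1, h2, h3⟩
    · rfl
    · change (u + v) + w = φ (y none)
      have hy' : y none = MvPolynomial.aeval (fun i => y (some i)) (qpol D.α D.β) := hy
      rw [h1, hy', qpol]
      simp
  · intro K L _ _ _ _ q z hq _ _ _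
    obtain ⟨h1, h2, h3⟩ := (key K q).1 hq
    rw [sat_heq] at h1
    obtain ⟨h4, -, -⟩ := h1
    change q (Sum.inl none) = MvPolynomial.aeval (fun i => q (Sum.inl (some i))) (qpol D.α D.β)
    rw [← h3, ← h2, qpol]
    simp only [map_add, map_mul, map_pow, MvPolynomial.aeval_X, MvPolynomial.aeval_C]
    exact h4
  · intro K _ _ q _ hq j
    obtain ⟨h1, h2, h3⟩ := (key K q).1 hq
    have hiso := fun i hi => D.iso _ h1 i hi
    have hal : ∀ j : Fin 3, IsAlgebraic (Algebra.adjoin Fa (Set.range fun i => q (Sum.inl i)))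
        (q (Sum.inr (Fin.castSucc j))) := by
      intro j
      have hmem : q (Sum.inl (some 0)) ∈ Algebra.adjoin Fa (Set.range fun i => q (Sum.inl i)) :=
        Algebra.subset_adjoin ⟨some 0, rfl⟩
      fin_cases j
      · exact (hiso 1 (by decide)).alg _ hmem
      · exact (hiso 2 (by decide)).alg _ hmem
      · exact (hiso 3 (by decide)).alg _ hmem
    fin_cases j
    · exact hal 0
    · exact hal 1
    · exact hal 2
    · change IsAlgebraic _ (q (Sum.inr 3))
      rw [← h2]
      exact (hal 0).add (hal 1)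

theorem GP.q {κ : Type} {G : MvPolynomial κ Fa} (h : GP G) :
    GP (G ^ 2 + MvPolynomial.C D.α * G + MvPolynomial.C D.β) := by
  refine (GP.comp D.qp (Gs := fun _ => G) (fun _ => h)).congr ?_
  simp [qpol]

theorem GP.mul2 {κ : Type} {G G' : MvPolynomial κ Fa} (h : GP G) (h' : GP G') :
    GP (2 * (G * G')) := by
  obtain ⟨D⟩ := exists_HD
  refine ((((h.add h').q D).add ((GP.zero (κ := κ)).q D)).sub (((h.q D).add (h'.q D)))).congr ?_
  ring

end

theorem GP.natMul {κ : Type} {G : MvPolynomial κ Fa} (h : GP G) (n : ℕ) :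
    GP ((n : MvPolynomial κ Fa) * G) := by
  induction n with
  | zero => exact GP.zero.congr (by simp)
  | succ n ih => exact (ih.add h).congr (by push_cast; ring)

theorem GP.c1728 {κ : Type} : GP (1728 : MvPolynomial κ Fa) := by
  exact (GP.C_cm (c := 1728) (fun K _ _ => by rw [map_ofNat]; exact cm_1728)).congr
    (map_ofNat MvPolynomial.C 1728).symm

/-- integral polynomials are computable up to integral factors -/
theorem exists_GP {κ : Type} (G : MvPolynomial κ ℤ) : ∃ n : ℕ, 0 < n ∧
    GP ((n : MvPolynomial κ Fa) * MvPolynomial.map (algebraMap ℤ Fa) G) := by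
  induction G using MvPolynomial.induction_on with
  | C m =>
    refine ⟨1728, by norm_num, ?_⟩
    rcases le_total 0 m with hm | hm
    · obtain ⟨m, rfl⟩ := Int.eq_ofNat_of_zero_le hm
      refine (GP.c1728.natMul m).congr ?_
      simp [mul_comm]
    · obtain ⟨m', hm'⟩ := Int.eq_ofNat_of_zero_le (neg_nonneg.2 hm)
      have : m = -(m' : ℤ) := by omega
      subst this
      refine (GP.zero.sub (GP.c1728.natMul m')).congr ?_
      simp
      ring
  | add p q hp hq =>
    obtain ⟨n, hn, hp⟩ := hp
    obtain ⟨n', hn', hq⟩ := hq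
    refine ⟨n * n', Nat.mul_pos hn hn', ((hp.natMul n').add (hq.natMul n)).congr ?_⟩
    rw [map_add]
    push_cast
    ring
  | mul_X p i hp =>
    obtain ⟨n, hn, hp⟩ := hp
    refine ⟨2 * n, by omega, (hp.mul2 (GP.X i)).congr ?_⟩
    rw [map_mul, MvPolynomial.map_X]
    push_cast
    ring

/-- vanishing of integral polynomials -/
noncomputable def polZ {κ : Type} (G : MvPolynomial κ ℤ) : Cond Fa κ where
  sat y := MvPolynomial.aeval y G = 0
  closed p p' h hp := by
    have h1 := h (MvPolynomial.map (algebraMap ℤ Fa) G) (by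
      rw [MvPolynomial.aeval_map_algebraMap]
      exact hp)
    rwa [MvPolynomial.aeval_map_algebraMap] at h1

theorem MG.polZ {κ : Type} (G : MvPolynomial κ ℤ) : MG (ZP.polZ G) := by
  obtain ⟨n, hn, hG⟩ := exists_GP G
  obtain ⟨H, hH⟩ : ∃ H, H = (n : MvPolynomial κ Fa) * MvPolynomial.map (algebraMap ℤ Fa) G :=
    ⟨_, rfl⟩
  rw [← hH] at hG
  let G' : Cond Fa (κ ⊕ Unit) := ((graph H).comap (fun i => i.elim (Sum.inr ()) Sum.inl)).and
    ((⟨fun y => y () = 0, fun _ _ h hp => h.zero hp⟩ : Cond Fa Unit).comap Sum.inr)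
  have key : ∀ (K : Type) [Field K] [Algebra Fa K] (z : κ ⊕ Unit → K), G'.sat z ↔
      z (Sum.inr ()) = MvPolynomial.aeval (fun i => z (Sum.inl i)) H ∧ z (Sum.inr ()) = 0 :=
    fun K _ _ z => Iff.rfl
  have hG' : MG G' := (MG.comap hG _).and (MG.zero.comap _)
  have hval : ∀ (K : Type) [Field K] [Algebra Fa K] (y : κ → K), MvPolynomial.aeval y H = 0 ↔
      MvPolynomial.aeval y G = 0 := by
    intro K _ _ y
    have hch : CharZero K := charZero_of_injective_algebraMap (algebraMap Fa K).injective
    rw [hH, map_mul, map_natCast, MvPolynomial.aeval_map_algebraMap, mul_eq_zero,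
      or_iff_right (by exact_mod_cast hn.ne')]
  refine MG.elim hG' (fun _ => H) ?_ ?_ ?_
  · intro K _ _ z hz _
    exact ((key K z).1 hz).1
  · intro K _ _ y hy
    rw [key]
    exact ⟨rfl, (hval K y).2 hy⟩
  · intro K _ _ z hz
    obtain ⟨h1, h2⟩ := (key K z).1 hz
    rw [h2] at h1
    exact (hval K _).1 h1.symm

end Pool.Agent.N101.ZP
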