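import Pool.Agent.N101.ZP.Desc
import Pool.Agent.N101.ZP.GateB

/-!
# The main theorem for ideals
-/

set_option autoImplicit false
set_option linter.unusedSectionVars false
set_option linter.style.haveILetI false

namespace Pool.Agent.N101.ZP

open MvPolynomial Pool.Agent.R948

section

variable {F : Type} [Field F] {T : RT F} {ι κ : Type} [Fintype ι] [Fintype κ]

theorem td_comp {K : Type} [Field K] [Algebra F K] (p : ι → K) (f : κ → ι) :
    td F (fun j => p (f j)) ≤ td F p :=
  td_le_of_alg F fun j => alg_range (F := F) p (f j)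

theorem FinC.reindex {s : ι → T.S} {C : Cond F ι} (h : FinC T s C) (e : ι ≃ κ) (s' : κ → T.S)
    (hs : ∀ i, s' (e i) = s i) : FinC T s' (C.comap e) := by
  obtain ⟨B, hB, h⟩ := h
  refine ⟨(fun P : PP F ι => PP.ofPt F (fun j => P.pt (e.symm j))) '' B, hB.image _, ?_⟩
  intro K _ _ y hy hC _
  obtain ⟨P, hP, h1, h2, h3⟩ := h K (fun i => y (e i)) (hy.pull e hs) hC trivial
  have e1 := PP.sp_ofPt (F := F) (fun j => P.pt (e.symm j))
  have e2 := PP.sp_ofPt' (F := F) (fun j => P.pt (e.symm j))
  have h4 : Sp F (fun j => P.pt (e.symm j)) y := by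
    have := h1.comp e.symm
    simpa using this
  have hok : T.Ok s' (fun j => P.pt (e.symm j)) := RT.Ok.of_sp h4 hy
  have hs' : s = fun i => s' (e i) := funext fun i => (hs i).symm
  have hs'' : s' = fun j => s (e.symm j) := funext fun j => by rw [← hs, Equiv.apply_symm_apply]
  refine ⟨_, ⟨P, hP, rfl⟩, e1.trans h4, ?_, ?_⟩
  · refine C.closed _ _ (e2.comp e) ?_
    have : (fun i => P.pt (e.symm (e i))) = P.pt := by
      funext i
      rw [Equiv.symm_apply_apply]
    rw [this]
    exact h2
  · rw [T.df_eq s' _ _ e1 e2 hok]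
    have a1 : T.rk s' (fun j => P.pt (e.symm j)) ≤ T.rk s P.pt := by
      rw [hs'']
      exact T.rk_comp s P.pt e.symm
    have a2 : T.rk s (fun i => y (e i)) ≤ T.rk s' y := by
      rw [hs']
      exact T.rk_comp s' y e
    have a3 : td F P.pt ≤ td F (fun j => P.pt (e.symm j)) := by
      have := td_comp (F := F) (fun j => P.pt (e.symm j)) e
      simpa using this
    have a4 : td F y ≤ td F (fun i => y (e i)) := by
      have := td_comp (F := F) (fun i => y (e i)) e.symm
      simpa using this
    rw [RT.df, RT.df] at h3 ⊢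
    omega

/-- base conditions in bulk -/
theorem FS.of_power [IsAlgClosed F] {n : Type} [Fintype n] {bs : n → T.S} {R : Cond F n}
    (h : ∀ M : ℕ, FinC T (fun a : Fin M × n => bs a.2) (R.list
      ((List.finRange M).map fun i j => (i, j)))) : FS T bs R (fun i : Empty => i.elim) Cond.top := by
  classical
  intro ι' _ s' f _ L hL
  have h1 := lemP (T := T) (h L.length) (SpC.top (T := T) (s := s'))
    ((Finset.univ : Finset (Fin L.length × n)).toList.map fun a =>
      (Sum.inl a, Sum.inr (L.get a.1 a.2))) (by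
      intro e he
      obtain ⟨a, -, rfl⟩ := List.mem_map.1 he
      exact (hL _ (List.get_mem L a.1) a.2).symm)
  have h2 := FinC.reindex h1 (Equiv.sumComm _ _) (Sum.elim s' fun a : Fin L.length × n => bs a.2)
    (by
      rintro (a | i) <;> rfl)
  refine FinR.proj h2 ?_ ?_ ?_
  · rintro K _ _ y hy ⟨-, h3⟩ -
    refine ⟨K, inferInstance, inferInstance, Sum.elim y (fun a => y (L.get a.1 a.2)), ?_, ?_,
      Sp.refl _, Sp.refl _⟩
    · rintro (i | a) hj
      · exact hy i hj
      · refine hy.pull (s' := fun a : Fin L.length × n => bs a.2) (fun a => L.get a.1 a.2)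
          (fun a => hL _ (List.get_mem L a.1) a.2) a hj
    · refine ⟨⟨?_, trivial⟩, ?_⟩
      · intro e he
        obtain ⟨i, -, rfl⟩ := List.mem_map.1 he
        exact h3 _ (List.get_mem L i)
      · intro e he
        obtain ⟨a, -, rfl⟩ := List.mem_map.1 he
        rfl
  · rintro K L' _ _ _ _ q z ⟨⟨h4, -⟩, h5⟩ - - -
    refine ⟨trivial, ?_⟩
    intro e he
    obtain ⟨i, rfl⟩ := List.get_of_mem he
    have h6 := h4 (fun j => (i, j)) (List.mem_map.2 ⟨i, List.mem_finRange i, rfl⟩)
    have h7 : (fun j => q (Sum.inl (L.get i j))) = fun j => q (Sum.inr (i, j)) := by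
      funext j
      exact (h5 (Sum.inl (i, j), Sum.inr (L.get i j)) (List.mem_map.2
        ⟨(i, j), Finset.mem_toList.2 (Finset.mem_univ _), rfl⟩)).symm
    change R.sat (fun j => q (Sum.inl (L.get i j)))
    rw [h7]
    exact h6
  · rintro K _ _ q - ⟨-, h5⟩ a
    have h6 : q (Sum.inr a) = q (Sum.inl (L.get a.1 a.2)) :=
      h5 (Sum.inl a, Sum.inr (L.get a.1 a.2)) (List.mem_map.2
        ⟨a, Finset.mem_toList.2 (Finset.mem_univ _), rfl⟩)
    rw [h6]
    exact alg_range (F := F) (fun i => q (Sum.inl i)) _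

theorem FS.finC {n : Type} {bs : n → T.S} {R : Cond F n}
    (h : FS T bs R (fun i : Empty => i.elim) Cond.top) {s : ι → T.S} {C : Cond F ι}
    (hC : Good T bs R s C) : FinC T s C := by
  have h1 : FS T bs R s Cond.top := h.comap s (fun i => i.elim) (fun i => i.elim)
  have h2 := hC ι s _ h1 id (fun _ => rfl)
  have h3 := h2 ι s id (fun _ => rfl) [] (by simp)
  refine FinR.congr h3 ?_ (fun _ _ _ _ _ _ _ => trivial)
  intro K _ _ y _
  constructor
  · intro h4
    exact ⟨⟨trivial, h4⟩, fun e he => by simp at he⟩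
  · rintro ⟨⟨-, h4⟩, -⟩
    exact h4

end

instance : CharZero Fa := inferInstance

theorem algZ : Algebra.IsAlgebraic ℤ Fa := by
  have h1 : Algebra.IsAlgebraic ℚ Fa := algebraicClosure.isAlgebraic ℚ ℂ
  exact ⟨fun x => (IsFractionRing.isAlgebraic_iff ℤ ℚ Fa).2 (h1.1 x)⟩

/-- the equations of the powers of the plane -/
noncomputable def planeL (M : ℕ) : List (MvPolynomial (Fin M × Fin 3) ℤ) :=
  (List.finRange M).map fun i => X (i, 0) + X (i, 1) - X (i, 2)

theorem MG.polsZ {κ : Type} (LL : List (MvPolynomial κ ℤ)) : MG (ZP.polsZ LL : Cond Fa κ) := by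
  induction LL with
  | nil => exact MG.top.congr fun K _ _ y => by simp [ZP.polsZ, Cond.top]
  | cons H LL ih =>
    refine ((MG.polZ H).and ih).congr fun K _ _ y => ?_
    simp [ZP.polsZ, ZP.polZ, Cond.and]

/-- **The main theorem for the modular curve, for ideals.** -/
theorem main_mod (h : ∀ M, FinI mRT ℂ (ms (Fin M × Fin 3)) (spanZ ℂ (planeL M))) {ι : Type}
    [Fintype ι] (I : Ideal (MvPolynomial ι ℂ)) : FinI mRT ℂ (ms ι) I := by
  have := algZ
  refine fin_gen' (T := mRT) () (fun h => h) ?_ (ms ι) I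
  have h1 : FS mRT (ms (Fin 3)) planeC (fun i : Empty => i.elim) Cond.top := by
    refine FS.of_power fun M => ?_
    refine FinR.congr (desc (T := mRT) (ms (Fin M × Fin 3)) (planeL M) (h M)) ?_
      (fun _ _ _ _ _ _ _ => trivial)
    intro K _ _ y _
    simp only [Cond.list, planeC, ZP.polsZ, planeL, List.mem_map, List.mem_finRange, true_and,
      forall_exists_index, forall_apply_eq_imp_iff, map_sub, map_add, aeval_X, sub_eq_zero]
  intro ι _ s LL
  exact h1.finC (s := s) (MG.polsZ LL)

end Pool.Agent.N101.ZP
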