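import Pool.Agent.N101.ZP.XGate
import Pool.Agent.N101.ZP.MainA

/-!
# All systems of polynomial equations from the diagonal
-/

set_option autoImplicit false
set_option linter.unusedSectionVars false
set_option linter.style.haveILetI false
set_option linter.unusedSimpArgs false

namespace Pool.Agent.N101.ZP

open UpperHalfPlane H294ZP Pool.Agent.N135.ZO MvPolynomial
open Pool.Agent.R948 (td cp mon un binom)

section

variable {κ lam : Type}

/-- conditions for the points which satisfy `D` -/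
def XGR {κ : Type} (s : κ → Bool)
    (D : ∀ {K : Type} [Field K] [Algebra Fa K], (κ → K) → Prop) (G : Cond Fa κ) : Prop :=
  GoodR xRT (fun b : Bool => (b : xRT.S)) diagC (s : κ → xRT.S) D G

theorem XGR.of_stronger {s : κ → Bool} {G G' : Cond Fa κ}
    {D : ∀ {K : Type} [Field K] [Algebra Fa K], (κ → K) → Prop} (h : XG s G')
    (h1 : ∀ (K : Type) [Field K] [Algebra Fa K] (y : κ → K), G'.sat y → G.sat y)
    (h2 : ∀ (K : Type) [Field K] [Algebra Fa K] (y : κ → K), (∀ i, s i = true → y i ≠ 0) →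
      G.sat y → D y → G'.sat y) : XGR s D G := by
  have h' := h.comap (Sum.elim s (fun i : Empty => i.elim)) Sum.inl (fun _ => rfl)
  refine Good.proj (T := xRT) (s := s) (s' := fun i : Empty => i.elim) h' ?_ ?_ ?_
  · intro K _ _ y hy hG hD
    exact ⟨K, inferInstance, inferInstance, AlgHom.id Fa K, fun i => i.elim,
      fun i => i.elim, h2 K y hy hG hD⟩
  · intro K L _ _ _ _ q z hq _ _ _
    exact h1 K _ hq
  · intro K _ _ q _ _ j
    exact j.elim

theorem XGR.union {s : κ → Bool} {D D₁ D₂ : ∀ {K : Type} [Field K] [Algebra Fa K], (κ → K) → Prop}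
    {G : Cond Fa κ} (h₁ : XGR s D₁ G) (h₂ : XGR s D₂ G)
    (h : ∀ (K : Type) [Field K] [Algebra Fa K] (y : κ → K), D y → D₁ y ∨ D₂ y) : XGR s D G :=
  GoodR.union h₁ h₂ (fun K _ _ y _ _ hD => h K y hD)

theorem XG.of_R {s : κ → Bool} {G : Cond Fa κ} (h : XGR s (fun _ => True) G) : XG s G := h

theorem XG.top {s : κ → Bool} : XG s (Cond.top : Cond Fa κ) := by
  intro ι _ s' C hC e he ι' _ s'' f hf L hL
  refine FinR.congr (hC ι' s'' f hf L hL) ?_ (fun K _ _ y _ _ _ => trivial)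
  intro K _ _ y _
  constructor
  · rintro ⟨⟨h1, -⟩, h2⟩
    exact ⟨h1, h2⟩
  · rintro ⟨h1, h2⟩
    exact ⟨⟨h1, trivial⟩, h2⟩

theorem XG.all {s : κ → Bool} [Fintype lam] {G : lam → Cond Fa κ} (h : ∀ j, XG s (G j)) :
    XG s (allC G) := by
  classical
  have key : ∀ t : Finset lam, XG s (⟨fun y => ∀ j ∈ t, (G j).sat y,
      fun p p' h hp j hj => (G j).closed p p' h (hp j hj)⟩ : Cond Fa κ) := by
    intro t
    induction t using Finset.induction_on with
    | empty => exact XG.top.congr fun K _ _ y _ => by simp [Cond.top]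
    | insert a t _ ih =>
      refine ((h a).and ih).congr fun K _ _ y _ => ?_
      simp [Cond.and]
  exact (key Finset.univ).congr fun K _ _ y _ => by simp [allC]

theorem alg_mem {K : Type} [Field K] [Algebra Fa K] (A : Subalgebra Fa K) {x : K} (hx : x ∈ A) :
    IsAlgebraic A x := isAlgebraic_algebraMap (A := K) (⟨x, hx⟩ : A)

theorem sat_add {K : Type} [Field K] [Algebra Fa K] (y : Fin 3 → K) :
    (ZP.polZ (X 0 + X 1 - X 2 : MvPolynomial (Fin 3) ℤ)).sat y ↔ y 0 + y 1 = y 2 := by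
  simp [ZP.polZ, sub_eq_zero]

theorem sat_mul {K : Type} [Field K] [Algebra Fa K] (y : Fin 3 → K) :
    (ZP.polZ (X 0 * X 1 - X 2 : MvPolynomial (Fin 3) ℤ)).sat y ↔ y 0 * y 1 = y 2 := by
  simp [ZP.polZ, sub_eq_zero]

theorem sat_neg {K : Type} [Field K] [Algebra Fa K] (y : Fin 2 → K) :
    (ZP.polZ (X 0 + X 1 : MvPolynomial (Fin 2) ℤ)).sat y ↔ y 0 + y 1 = 0 := by
  simp [ZP.polZ]

theorem sat_eq {K : Type} [Field K] [Algebra Fa K] (y : Fin 2 → K) :
    (ZP.polZ (X 0 - X 1 : MvPolynomial (Fin 2) ℤ)).sat y ↔ y 0 = y 1 := by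
  simp [ZP.polZ, sub_eq_zero]

theorem sat_line {K : Type} [Field K] [Algebra Fa K] (y : Fin 2 → K) :
    (ZP.polZ (X 0 + X 1 - 1 : MvPolynomial (Fin 2) ℤ)).sat y ↔ y 0 + y 1 = 1 := by
  simp [ZP.polZ, sub_eq_zero]

theorem sat_zero {K : Type} [Field K] [Algebra Fa K] (y : Fin 1 → K) :
    (ZP.polZ (X 0 : MvPolynomial (Fin 1) ℤ)).sat y ↔ y 0 = 0 := by
  simp [ZP.polZ]

theorem sat_one {K : Type} [Field K] [Algebra Fa K] (y : Fin 1 → K) :
    (ZP.polZ (X 0 - 1 : MvPolynomial (Fin 1) ℤ)).sat y ↔ y 0 = 1 := by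
  simp [ZP.polZ, sub_eq_zero]

/-- the coordinates of a diagonal condition -/
def dg (a b : κ) : Bool → κ := fun t => if t = true then b else a

theorem sat_dg {K : Type} [Field K] [Algebra Fa K] (a b : κ) (y : κ → K) :
    (diagC.comap (dg a b)).sat y ↔ y a = y b := Iff.rfl

theorem XG.dg {s : κ → Bool} (a b : κ) (ha : s a = false) (hb : s b = true) :
    XG s (diagC.comap (ZP.dg a b)) :=
  XG.diag.comap s _ fun t => by cases t <;> assumption

/-- opposites of modular coordinates -/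
theorem XG.negm : XG (fun _ : Fin 2 => false)
    (ZP.polZ (X 0 + X 1 : MvPolynomial (Fin 2) ℤ)) := by
  have h1 : XGR (fun _ : Fin 2 => false) (fun y => y 0 = 0)
      (ZP.polZ (X 0 + X 1 : MvPolynomial (Fin 2) ℤ)) := by
    refine XGR.of_stronger ((XG.zerom.comap (fun _ : Fin 2 => false) ![0] (by decide)).and
      (XG.zerom.comap (fun _ : Fin 2 => false) ![1] (by decide))) ?_ ?_
    · rintro K _ _ y ⟨a1, a2⟩
      have a1' : y 0 = 0 := (sat_zero _).1 a1
      have a2' : y 1 = 0 := (sat_zero _).1 a2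
      rw [sat_neg, a1', a2', add_zero]
    · intro K _ _ y _ hG hD
      rw [sat_neg, hD, zero_add] at hG
      exact ⟨(sat_zero _).2 hD, (sat_zero _).2 hG⟩
  have h2 : XGR (fun _ : Fin 2 => false) (fun y => y 0 ≠ 0)
      (ZP.polZ (X 0 + X 1 : MvPolynomial (Fin 2) ℤ)) := by
    let S : Fin 2 ⊕ Fin 2 → Bool := Sum.elim (fun _ => false) (fun _ => true)
    let G' : Cond Fa (Fin 2 ⊕ Fin 2) :=
      (diagC.comap (ZP.dg (Sum.inl 0) (Sum.inr 0))).and
      ((diagC.comap (ZP.dg (Sum.inl 1) (Sum.inr 1))).and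
      ((ZP.polZ (X 0 + X 1 : MvPolynomial (Fin 2) ℤ)).comap Sum.inr))
    have hG' : XG S G' := (XG.dg _ _ rfl rfl).and ((XG.dg _ _ rfl rfl).and
      (XG.negt.comap S _ (fun _ => rfl)))
    have key : ∀ (K : Type) [Field K] [Algebra Fa K] (z : Fin 2 ⊕ Fin 2 → K), G'.sat z ↔
        z (Sum.inl 0) = z (Sum.inr 0) ∧ z (Sum.inl 1) = z (Sum.inr 1) ∧
        z (Sum.inr 0) + z (Sum.inr 1) = 0 := by
      intro K _ _ z
      rw [← sat_neg (fun i => z (Sum.inr i))]
      exact Iff.rfl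
    refine Good.proj (T := xRT) (s := fun _ : Fin 2 => false) (s' := fun _ : Fin 2 => true)
      (G' := G') hG' ?_ ?_ ?_
    · intro K _ _ y hy hG hD
      rw [sat_neg] at hG
      refine ⟨K, inferInstance, inferInstance, AlgHom.id Fa K, y, ?_, ?_⟩
      · intro j _
        fin_cases j
        · exact hD
        · intro h0
          have h0' : y 1 = 0 := h0
          rw [h0', add_zero] at hG
          exact hD hG
      · rw [key]
        exact ⟨rfl, rfl, hG⟩
    · intro K L _ _ _ _ q z hq _ _ _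
      obtain ⟨a1, a2, a3⟩ := (key K q).1 hq
      rw [sat_neg, a1, a2, a3]
    · intro K _ _ q _ hq j
      obtain ⟨a1, a2, a3⟩ := (key K q).1 hq
      have hmem : ∀ i, q (Sum.inl i) ∈ Algebra.adjoin Fa (Set.range fun i => q (Sum.inl i)) :=
        fun i => Algebra.subset_adjoin ⟨i, rfl⟩
      fin_cases j
      · change IsAlgebraic _ (q (Sum.inr 0))
        rw [← a1]
        exact alg_mem _ (hmem 0)
      · change IsAlgebraic _ (q (Sum.inr 1))
        rw [← a2]
        exact alg_mem _ (hmem 1)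
  exact XG.of_R (XGR.union h1 h2 fun K _ _ y _ => em _)

/-- the constant one -/
theorem XG.onem : XG (fun _ : Fin 1 => false)
    (ZP.polZ (X 0 - 1 : MvPolynomial (Fin 1) ℤ)) := by
  let S : Fin 1 ⊕ Fin 1 → Bool := Sum.elim (fun _ => false) (fun _ => true)
  let G' : Cond Fa (Fin 1 ⊕ Fin 1) :=
    (diagC.comap (ZP.dg (Sum.inl 0) (Sum.inr 0))).and
    ((ZP.polZ (X 0 - 1 : MvPolynomial (Fin 1) ℤ)).comap Sum.inr)
  have hG' : XG S G' := (XG.dg _ _ rfl rfl).and (XG.onet.comap S _ (fun _ => rfl))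
  have key : ∀ (K : Type) [Field K] [Algebra Fa K] (z : Fin 1 ⊕ Fin 1 → K), G'.sat z ↔
      z (Sum.inl 0) = z (Sum.inr 0) ∧ z (Sum.inr 0) = 1 := by
    intro K _ _ z
    rw [← sat_one (fun i => z (Sum.inr i))]
    exact Iff.rfl
  refine Good.proj1 (T := xRT) (s := fun _ : Fin 1 => false) (s' := fun _ : Fin 1 => true)
    (G' := G') hG' ?_ ?_ ?_
  · intro K _ _ y hy hG
    rw [sat_one] at hG
    refine ⟨K, inferInstance, inferInstance, AlgHom.id Fa K, fun _ => 1, fun j _ => one_ne_zero, ?_⟩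
    rw [key]
    exact ⟨hG, rfl⟩
  · intro K L _ _ _ _ q z hq _ _ _
    obtain ⟨a1, a2⟩ := (key K q).1 hq
    rw [sat_one, a1, a2]
  · intro K _ _ q _ hq j
    obtain ⟨a1, a2⟩ := (key K q).1 hq
    have : j = 0 := Subsingleton.elim _ _
    rw [this, a2]
    exact isAlgebraic_one

/-- multiplication of modular coordinates -/
theorem XG.mulm : XG (fun _ : Fin 3 => false)
    (ZP.polZ (X 0 * X 1 - X 2 : MvPolynomial (Fin 3) ℤ)) := by
  have h0 : ∀ a : Fin 3, a = 0 ∨ a = 1 → XGR (fun _ : Fin 3 => false) (fun y => y a = 0)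
      (ZP.polZ (X 0 * X 1 - X 2 : MvPolynomial (Fin 3) ℤ)) := by
    intro a ha
    refine XGR.of_stronger ((XG.zerom.comap (fun _ : Fin 3 => false) ![a] (fun _ => rfl)).and
      (XG.zerom.comap (fun _ : Fin 3 => false) ![2] (fun _ => rfl))) ?_ ?_
    · rintro K _ _ y ⟨a1, a2⟩
      have a1' : y a = 0 := (sat_zero _).1 a1
      have a2' : y 2 = 0 := (sat_zero _).1 a2
      rw [sat_mul, a2']
      rcases ha with rfl | rfl
      · rw [a1', zero_mul]
      · rw [a1', mul_zero]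
    · intro K _ _ y _ hG hD
      have h2 : y 2 = 0 := by
        rw [sat_mul] at hG
        rw [← hG]
        rcases ha with rfl | rfl
        · rw [hD, zero_mul]
        · rw [hD, mul_zero]
      exact ⟨(sat_zero _).2 hD, (sat_zero _).2 h2⟩
  have h2 : XGR (fun _ : Fin 3 => false) (fun y => y 0 ≠ 0 ∧ y 1 ≠ 0)
      (ZP.polZ (X 0 * X 1 - X 2 : MvPolynomial (Fin 3) ℤ)) := by
    let S : Fin 3 ⊕ Fin 3 → Bool := Sum.elim (fun _ => false) (fun _ => true)
    let G' : Cond Fa (Fin 3 ⊕ Fin 3) :=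
      (diagC.comap (ZP.dg (Sum.inl 0) (Sum.inr 0))).and
      ((diagC.comap (ZP.dg (Sum.inl 1) (Sum.inr 1))).and
      ((diagC.comap (ZP.dg (Sum.inl 2) (Sum.inr 2))).and
      ((ZP.polZ (X 0 * X 1 - X 2 : MvPolynomial (Fin 3) ℤ)).comap Sum.inr)))
    have hG' : XG S G' := (XG.dg _ _ rfl rfl).and ((XG.dg _ _ rfl rfl).and ((XG.dg _ _ rfl rfl).and
      (XG.mult.comap S _ (fun _ => rfl))))
    have key : ∀ (K : Type) [Field K] [Algebra Fa K] (z : Fin 3 ⊕ Fin 3 → K), G'.sat z ↔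
        z (Sum.inl 0) = z (Sum.inr 0) ∧ z (Sum.inl 1) = z (Sum.inr 1) ∧
        z (Sum.inl 2) = z (Sum.inr 2) ∧ z (Sum.inr 0) * z (Sum.inr 1) = z (Sum.inr 2) := by
      intro K _ _ z
      rw [← sat_mul (fun i => z (Sum.inr i))]
      exact Iff.rfl
    refine Good.proj (T := xRT) (s := fun _ : Fin 3 => false) (s' := fun _ : Fin 3 => true)
      (G' := G') hG' ?_ ?_ ?_
    · intro K _ _ y hy hG hD
      rw [sat_mul] at hG
      refine ⟨K, inferInstance, inferInstance, AlgHom.id Fa K, y, ?_, ?_⟩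
      · intro j _
        fin_cases j
        · exact hD.1
        · exact hD.2
        · intro h0
          have h0' : y 2 = 0 := h0
          rw [h0'] at hG
          rcases mul_eq_zero.1 hG with h | h
          · exact hD.1 h
          · exact hD.2 h
      · rw [key]
        exact ⟨rfl, rfl, rfl, hG⟩
    · intro K L _ _ _ _ q z hq _ _ _
      obtain ⟨a1, a2, a3, a4⟩ := (key K q).1 hq
      rw [sat_mul, a1, a2, a3, a4]
    · intro K _ _ q _ hq j
      obtain ⟨a1, a2, a3, a4⟩ := (key K q).1 hq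
      have hmem : ∀ i, q (Sum.inl i) ∈ Algebra.adjoin Fa (Set.range fun i => q (Sum.inl i)) :=
        fun i => Algebra.subset_adjoin ⟨i, rfl⟩
      fin_cases j
      · change IsAlgebraic _ (q (Sum.inr 0))
        rw [← a1]
        exact alg_mem _ (hmem 0)
      · change IsAlgebraic _ (q (Sum.inr 1))
        rw [← a2]
        exact alg_mem _ (hmem 1)
      · change IsAlgebraic _ (q (Sum.inr 2))
        rw [← a3]
        exact alg_mem _ (hmem 2)
  refine XG.of_R (XGR.union (h0 0 (Or.inl rfl)) (XGR.union (D := fun y => y 0 ≠ 0)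
    (h0 1 (Or.inr rfl)) h2 ?_) fun K _ _ y _ => em _)
  intro K _ _ y hy
  by_cases h : y 1 = 0
  · exact Or.inl h
  · exact Or.inr ⟨hy, h⟩

/-- addition of modular coordinates -/
theorem XG.addm : XG (fun _ : Fin 3 => false)
    (ZP.polZ (X 0 + X 1 - X 2 : MvPolynomial (Fin 3) ℤ)) := by
  have h0 : XGR (fun _ : Fin 3 => false) (fun y => y 0 = 0)
      (ZP.polZ (X 0 + X 1 - X 2 : MvPolynomial (Fin 3) ℤ)) := by
    refine XGR.of_stronger ((XG.zerom.comap (fun _ : Fin 3 => false) ![0] (fun _ => rfl)).and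
      (XG.eqm.comap (fun _ : Fin 3 => false) ![1, 2] (fun _ => rfl))) ?_ ?_
    · rintro K _ _ y ⟨a1, a2⟩
      have a1' : y 0 = 0 := (sat_zero _).1 a1
      have a2' : y 1 = y 2 := (sat_eq _).1 a2
      rw [sat_add, a1', a2', zero_add]
    · intro K _ _ y _ hG hD
      rw [sat_add, hD, zero_add] at hG
      exact ⟨(sat_zero _).2 hD, (sat_eq _).2 hG⟩
  have h1 : XGR (fun _ : Fin 3 => false) (fun y => y 1 = 0)
      (ZP.polZ (X 0 + X 1 - X 2 : MvPolynomial (Fin 3) ℤ)) := by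
    refine XGR.of_stronger ((XG.zerom.comap (fun _ : Fin 3 => false) ![1] (fun _ => rfl)).and
      (XG.eqm.comap (fun _ : Fin 3 => false) ![0, 2] (fun _ => rfl))) ?_ ?_
    · rintro K _ _ y ⟨a1, a2⟩
      have a1' : y 1 = 0 := (sat_zero _).1 a1
      have a2' : y 0 = y 2 := (sat_eq _).1 a2
      rw [sat_add, a1', a2', add_zero]
    · intro K _ _ y _ hG hD
      rw [sat_add, hD, add_zero] at hG
      exact ⟨(sat_zero _).2 hD, (sat_eq _).2 hG⟩
  have h2 : XGR (fun _ : Fin 3 => false) (fun y => y 2 = 0)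
      (ZP.polZ (X 0 + X 1 - X 2 : MvPolynomial (Fin 3) ℤ)) := by
    refine XGR.of_stronger ((XG.zerom.comap (fun _ : Fin 3 => false) ![2] (fun _ => rfl)).and
      (XG.negm.comap (fun _ : Fin 3 => false) ![0, 1] (fun _ => rfl))) ?_ ?_
    · rintro K _ _ y ⟨a1, a2⟩
      have a1' : y 2 = 0 := (sat_zero _).1 a1
      have a2' : y 0 + y 1 = 0 := (sat_neg _).1 a2
      rw [sat_add, a1', a2']
    · intro K _ _ y _ hG hD
      rw [sat_add, hD] at hG
      exact ⟨(sat_zero _).2 hD, (sat_neg _).2 hG⟩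
  have h3 : XGR (fun _ : Fin 3 => false) (fun y => y 0 ≠ 0 ∧ y 1 ≠ 0 ∧ y 2 ≠ 0)
      (ZP.polZ (X 0 + X 1 - X 2 : MvPolynomial (Fin 3) ℤ)) := by
    let S : Fin 3 ⊕ Fin 5 → Bool := Sum.elim (fun _ => false) (fun _ => true)
    let G' : Cond Fa (Fin 3 ⊕ Fin 5) :=
      (diagC.comap (ZP.dg (Sum.inl 0) (Sum.inr 0))).and
      ((diagC.comap (ZP.dg (Sum.inl 1) (Sum.inr 1))).and
      ((diagC.comap (ZP.dg (Sum.inl 2) (Sum.inr 2))).and
      (((ZP.polZ (X 0 * X 1 - X 2 : MvPolynomial (Fin 3) ℤ)).comap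
        (![Sum.inr 3, Sum.inr 2, Sum.inr 0] : Fin 3 → Fin 3 ⊕ Fin 5)).and
      (((ZP.polZ (X 0 * X 1 - X 2 : MvPolynomial (Fin 3) ℤ)).comap
        (![Sum.inr 4, Sum.inr 2, Sum.inr 1] : Fin 3 → Fin 3 ⊕ Fin 5)).and
      ((ZP.polZ (X 0 + X 1 - 1 : MvPolynomial (Fin 2) ℤ)).comap
        (![Sum.inr 3, Sum.inr 4] : Fin 2 → Fin 3 ⊕ Fin 5))))))
    have hG' : XG S G' := (XG.dg _ _ rfl rfl).and ((XG.dg _ _ rfl rfl).and ((XG.dg _ _ rfl rfl).and
      ((XG.mult.comap S _ (by decide)).and ((XG.mult.comap S _ (by decide)).and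
        (XG.line.comap S _ (by decide))))))
    have key : ∀ (K : Type) [Field K] [Algebra Fa K] (z : Fin 3 ⊕ Fin 5 → K), G'.sat z ↔
        z (Sum.inl 0) = z (Sum.inr 0) ∧ z (Sum.inl 1) = z (Sum.inr 1) ∧
        z (Sum.inl 2) = z (Sum.inr 2) ∧ z (Sum.inr 3) * z (Sum.inr 2) = z (Sum.inr 0) ∧
        z (Sum.inr 4) * z (Sum.inr 2) = z (Sum.inr 1) ∧ z (Sum.inr 3) + z (Sum.inr 4) = 1 := by
      intro K _ _ z
      have e1 := sat_mul (fun i => z ((![Sum.inr 3, Sum.inr 2, Sum.inr 0] :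
        Fin 3 → Fin 3 ⊕ Fin 5) i))
      have e2 := sat_mul (fun i => z ((![Sum.inr 4, Sum.inr 2, Sum.inr 1] :
        Fin 3 → Fin 3 ⊕ Fin 5) i))
      have e3 := sat_line (fun i => z ((![Sum.inr 3, Sum.inr 4] : Fin 2 → Fin 3 ⊕ Fin 5) i))
      have e1' : z (Sum.inr 3) * z (Sum.inr 2) = z (Sum.inr 0) ↔ _ := e1.symm
      have e2' : z (Sum.inr 4) * z (Sum.inr 2) = z (Sum.inr 1) ↔ _ := e2.symm
      have e3' : z (Sum.inr 3) + z (Sum.inr 4) = 1 ↔ _ := e3.symm
      rw [e1', e2', e3']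
      exact Iff.rfl
    refine Good.proj (T := xRT) (s := fun _ : Fin 3 => false) (s' := fun _ : Fin 5 => true)
      (G' := G') hG' ?_ ?_ ?_
    · rintro K _ _ y hy hG ⟨hD0, hD1, hD2⟩
      rw [sat_add] at hG
      refine ⟨K, inferInstance, inferInstance, AlgHom.id Fa K,
        ![y 0, y 1, y 2, y 0 / y 2, y 1 / y 2], ?_, ?_⟩
      · intro j _
        fin_cases j
        · exact hD0
        · exact hD1
        · exact hD2
        · exact div_ne_zero hD0 hD2
        · exact div_ne_zero hD1 hD2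
      · rw [key]
        refine ⟨rfl, rfl, rfl, div_mul_cancel₀ _ hD2, div_mul_cancel₀ _ hD2, ?_⟩
        change y 0 / y 2 + y 1 / y 2 = 1
        rw [← add_div, hG, div_self hD2]
    · intro K L _ _ _ _ q z hq _ _ _
      obtain ⟨a1, a2, a3, a4, a5, a6⟩ := (key K q).1 hq
      rw [sat_add, a1, a2, a3, ← a4, ← a5, ← add_mul, a6, one_mul]
    · intro K _ _ q hq hG j
      obtain ⟨a1, a2, a3, a4, a5, a6⟩ := (key K q).1 hG
      have hmem : ∀ i, q (Sum.inl i) ∈ Algebra.adjoin Fa (Set.range fun i => q (Sum.inl i)) :=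
        fun i => Algebra.subset_adjoin ⟨i, rfl⟩
      have hq2 : q (Sum.inr 2) ≠ 0 := hq (Sum.inr 2) rfl
      have b0 : IsAlgebraic (Algebra.adjoin Fa (Set.range fun i => q (Sum.inl i)))
          (q (Sum.inr 0)) := by
        rw [← a1]
        exact alg_mem _ (hmem 0)
      have b1 : IsAlgebraic (Algebra.adjoin Fa (Set.range fun i => q (Sum.inl i)))
          (q (Sum.inr 1)) := by
        rw [← a2]
        exact alg_mem _ (hmem 1)
      have b2 : IsAlgebraic (Algebra.adjoin Fa (Set.range fun i => q (Sum.inl i)))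
          (q (Sum.inr 2)) := by
        rw [← a3]
        exact alg_mem _ (hmem 2)
      fin_cases j
      · exact b0
      · exact b1
      · exact b2
      · have : q (Sum.inr 3) = q (Sum.inr 0) * (q (Sum.inr 2))⁻¹ := by
          rw [← a4, mul_assoc, mul_inv_cancel₀ hq2, mul_one]
        change IsAlgebraic _ (q (Sum.inr 3))
        rw [this]
        exact b0.mul b2.inv
      · have : q (Sum.inr 4) = q (Sum.inr 1) * (q (Sum.inr 2))⁻¹ := by
          rw [← a5, mul_assoc, mul_inv_cancel₀ hq2, mul_one]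
        change IsAlgebraic _ (q (Sum.inr 4))
        rw [this]
        exact b1.mul b2.inv
  refine XG.of_R (XGR.union h0 (XGR.union (D := fun y => y 0 ≠ 0) h1
    (XGR.union (D := fun y => y 0 ≠ 0 ∧ y 1 ≠ 0) h2 h3 ?_) ?_) fun K _ _ y _ => em _)
  · rintro K _ _ y ⟨hy0, hy1⟩
    by_cases h : y 2 = 0
    · exact Or.inl h
    · exact Or.inr ⟨hy0, hy1, h⟩
  · intro K _ _ y hy
    by_cases h : y 1 = 0
    · exact Or.inl h
    · exact Or.inr ⟨hy, h⟩

end

end Pool.Agent.N101.ZP
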