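import Pool.Agent.N101.ZP.Pt

/-!
# Cuts by equalities of coordinates
-/

set_option autoImplicit false
set_option linter.unusedSectionVars false
set_option linter.style.haveILetI false

namespace Pool.Agent.N101.ZP

open MvPolynomial Pool.Agent.R948

section

variable {F : Type} [Field F] (T : RT F) {ι κ : Type} [Fintype ι] [Fintype κ] {K L M : Type}
  [Field K] [Field L] [Field M] [Algebra F K] [Algebra F L] [Algebra F M]

theorem cut1 (s : ι → T.S) (P : PP F ι) (y : ι → K) (hy : T.Ok s y) (hP : Sp F P.pt y)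
    (a b : ι) (hab : s a = s b) (h : y a = y b) :
    ∃ Q : PP F ι, Q.I ∈ (P.I ⊔ Ideal.span {X a - X b}).minimalPrimes ∧ Sp F Q.pt y ∧
      T.df F s Q.pt ≤ T.df F s P.pt := by
  have hsup : P.I ⊔ Ideal.span {X a - X b} ≤ (PP.ofPt F y).I :=
    sup_le ((PP.sp_iff P y).1 hP) ((Ideal.span_singleton_le_iff_mem _).2 (by
      rw [PP.mem_ofPt, map_sub, aeval_X, aeval_X, h, sub_self]))
  obtain ⟨J, hJ, hJle⟩ := Ideal.exists_minimalPrimes_le hsup
  obtain ⟨Q, rfl⟩ : ∃ Q : PP F ι, Q.I = J := ⟨⟨J, hJ.1.1⟩, rfl⟩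
  have hQy : Sp F Q.pt y := (PP.sp_iff Q y).2 hJle
  refine ⟨Q, hJ, hQy, ?_⟩
  have hPQ : P.I ≤ Q.I := le_sup_left.trans hJ.1.2
  by_cases hbP : (X a - X b : MvPolynomial ι F) ∈ P.I
  · have h1 : P.I ⊔ Ideal.span {X a - X b} = P.I :=
      sup_eq_left.2 ((Ideal.span_singleton_le_iff_mem _).2 hbP)
    have h2 : Q.I ∈ ({P.I} : Set (Ideal (MvPolynomial ι F))) := by
      rw [← Ideal.minimalPrimes_eq_subsingleton_self, ← h1]
      exact hJ
    have h3 : Q = P := PP.ext' (Set.mem_singleton_iff.1 h2)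
    rw [h3]
  · have hbQ : (X a - X b : MvPolynomial ι F) ∈ Q.I := hJ.1.2 (le_sup_right (a := P.I)
      (Ideal.mem_span_singleton_self _))
    have h4 : tdP P.I ≤ tdP Q.I + 1 := tdP_drop _ hJ
    have h5 := T.rk_cut s P.pt Q.pt (PP.sp_of_le hPQ) (RT.Ok.of_sp hQy hy) a b hab
      (fun h => hbP (by rw [← PP.aeval_pt_eq_zero, map_sub, aeval_X, aeval_X, h, sub_self]))
      (by
        rw [← PP.aeval_pt_eq_zero, map_sub, aeval_X, aeval_X] at hbQ
        exact sub_eq_zero.1 hbQ)
    rw [RT.df, RT.df, PP.td_pt, PP.td_pt]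
    omega

/-- components of iterated cuts -/
noncomputable def cutset : PP F ι → List (ι × ι) → Set (PP F ι)
  | P, [] => {P}
  | P, e :: l => ⋃ Q ∈ {Q : PP F ι | Q.I ∈ (P.I ⊔ Ideal.span {X e.1 - X e.2}).minimalPrimes},
      cutset Q l

theorem finite_PP {A : Set (Ideal (MvPolynomial ι F))} (h : A.Finite) :
    {Q : PP F ι | Q.I ∈ A}.Finite :=
  h.preimage (fun _ _ _ _ h => PP.ext' h)

theorem cutset_finite (l : List (ι × ι)) : ∀ P : PP F ι, (cutset P l).Finite := by
  induction l with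
  | nil => intro P; exact Set.finite_singleton P
  | cons e l ih =>
    intro P
    exact (finite_PP (Ideal.finite_minimalPrimes_of_isNoetherianRing _ _)).biUnion fun Q _ => ih Q

theorem cut (s : ι → T.S) (y : ι → K) (hy : T.Ok s y) (l : List (ι × ι)) : ∀ P : PP F ι,
    Sp F P.pt y → (∀ e ∈ l, s e.1 = s e.2 ∧ y e.1 = y e.2) →
    ∃ Q ∈ cutset P l, Sp F P.pt Q.pt ∧ Sp F Q.pt y ∧ (∀ e ∈ l, Q.pt e.1 = Q.pt e.2) ∧
      T.df F s Q.pt ≤ T.df F s P.pt := by
  induction l with
  | nil =>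
    intro P h _
    exact ⟨P, rfl, Sp.refl _, h, by simp, le_rfl⟩
  | cons e l ih =>
    intro P h he
    obtain ⟨Q₁, h1, h2, h3⟩ := cut1 T s P y hy h e.1 e.2 (he e (by simp)).1 (he e (by simp)).2
    have hPQ₁ : P.I ≤ Q₁.I := le_sup_left.trans h1.1.2
    obtain ⟨Q, h4, h5, h6, h7, h8⟩ := ih Q₁ h2 (fun e' he' => he e' (by simp [he']))
    refine ⟨Q, Set.mem_biUnion (show Q₁ ∈ {Q : PP F ι | _} from h1) h4,
      (PP.sp_of_le hPQ₁).trans h5, h6, ?_, h8.trans h3⟩
    intro e' he'
    rcases List.mem_cons.1 he' with rfl | he'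
    · refine h5.eq ?_
      have h9 : (X e'.1 - X e'.2 : MvPolynomial ι F) ∈ Q₁.I :=
        h1.1.2 (le_sup_right (a := P.I) (Ideal.mem_span_singleton_self _))
      rw [← PP.aeval_pt_eq_zero, map_sub, aeval_X, aeval_X] at h9
      exact sub_eq_zero.1 h9
    · exact h7 e' he'

end

section Tensor

open scoped TensorProduct

variable {k : Type} [Field k] [IsAlgClosed k]

/-- The points of an affine variety over an algebraically closed field are dense. -/
lemma exists_point {A : Type} [CommRing A] [IsDomain A] [Algebra k A]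
    [Algebra.FiniteType k A] {c : A} (hc : c ≠ 0) : ∃ φ : A →ₐ[k] k, φ c ≠ 0 := by
  let D := Localization.Away c
  have hnt : Nontrivial D := by
    have : IsDomain D := IsLocalization.isDomain_localization
      (powers_le_nonZeroDivisors_of_noZeroDivisors hc)
    infer_instance
  have hftD : Algebra.FiniteType k D := by
    have h1 : Algebra.FiniteType A D :=
      IsLocalization.finiteType_of_monoid_fg (Submonoid.powers c) D
    exact Algebra.FiniteType.trans inferInstance h1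
  obtain ⟨M, hM⟩ := Ideal.exists_maximal D
  let _ : Field (D ⧸ M) := Ideal.Quotient.field M
  have hfin : Module.Finite k (D ⧸ M) := finite_of_finite_type_of_isJacobsonRing k (D ⧸ M)
  have hbij : Function.Bijective (algebraMap k (D ⧸ M)) :=
    IsAlgClosed.algebraMap_bijective_of_isIntegral
  let e : k ≃ₐ[k] (D ⧸ M) := AlgEquiv.ofBijective (Algebra.ofId k (D ⧸ M)) hbij
  let φ : A →ₐ[k] k := (e.symm : (D ⧸ M) →ₐ[k] k).comp
    ((Ideal.Quotient.mkₐ k M).comp (IsScalarTower.toAlgHom k A D))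
  refine ⟨φ, ?_⟩
  have hu : IsUnit (algebraMap A D c) :=
    IsLocalization.map_units D (⟨c, Submonoid.mem_powers c⟩ : Submonoid.powers c)
  have h1 : IsUnit (φ c) := hu.map ((e.symm : (D ⧸ M) →ₐ[k] k).comp (Ideal.Quotient.mkₐ k M))
  exact h1.ne_zero

/-- The product of two affine varieties over an algebraically closed field is integral. -/
theorem isDomain_tensor {A A' : Type} [CommRing A] [IsDomain A] [Algebra k A]
    [Algebra.FiniteType k A] [CommRing A'] [IsDomain A'] [Algebra k A'] :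
    IsDomain (A ⊗[k] A') := by
  classical
  let b := Module.Basis.ofVectorSpace k A'
  let bA := Algebra.TensorProduct.basis A b
  have hnt : Nontrivial (A ⊗[k] A') := by
    obtain ⟨φ, -⟩ := exists_point (k := k) (one_ne_zero (α := A))
    let e : A ⊗[k] A' →ₐ[k] A' := Algebra.TensorProduct.lift ((Algebra.ofId k A').comp φ)
      (AlgHom.id k A') (fun _ _ => Commute.all _ _)
    exact e.toRingHom.domain_nontrivial
  have hnz : NoZeroDivisors (A ⊗[k] A') := by
    constructor
    intro x y hxy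
    by_contra hcon
    push Not at hcon
    obtain ⟨hx, hy⟩ := hcon
    obtain ⟨i, hi⟩ : ∃ i, bA.repr x i ≠ 0 := by
      by_contra h
      push Not at h
      apply hx
      apply bA.repr.injective
      rw [map_zero]
      ext i
      exact h i
    obtain ⟨l, hl⟩ : ∃ i, bA.repr y i ≠ 0 := by
      by_contra h
      push Not at h
      apply hy
      apply bA.repr.injective
      rw [map_zero]
      ext i
      exact h i
    obtain ⟨φ, hφ⟩ := exists_point (k := k) (mul_ne_zero hi hl)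
    rw [map_mul] at hφ
    let e : A ⊗[k] A' →ₐ[k] A' := Algebra.TensorProduct.lift ((Algebra.ofId k A').comp φ)
      (AlgHom.id k A') (fun _ _ => Commute.all _ _)
    have he : ∀ z i, b.repr (e z) i = φ (bA.repr z i) := by
      intro z i
      induction z using TensorProduct.induction_on with
      | zero => simp
      | tmul a a' =>
        rw [Algebra.TensorProduct.basis_repr_tmul]
        have h1 : e (a ⊗ₜ a') = φ a • a' := by
          rw [Algebra.TensorProduct.lift_tmul, Algebra.smul_def]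
          rfl
        rw [h1, map_smul, Finsupp.smul_apply, Finsupp.smul_apply, Finsupp.mapRange_apply,
          smul_eq_mul, smul_eq_mul, map_mul, AlgHom.commutes]
        rfl
      | add z z' hz hz' =>
        rw [map_add, map_add, map_add, Finsupp.add_apply, Finsupp.add_apply, map_add, hz, hz']
    have h1 : e x * e y = 0 := by rw [← map_mul, hxy, map_zero]
    rcases mul_eq_zero.1 h1 with h2 | h2
    · apply hφ
      rw [← he x i, h2, map_zero, Finsupp.zero_apply, zero_mul]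
    · apply hφ
      rw [← he y l, h2, map_zero, Finsupp.zero_apply, mul_zero]
  exact NoZeroDivisors.to_isDomain _

end Tensor

section

variable {F : Type} [Field F] {ι κ : Type} [Fintype ι] [Fintype κ]

theorem card_le_td {A : Type} [CommRing A] [IsDomain A] [Algebra F A] {z : ι → A}
    (h : AlgebraicIndependent F z) : Fintype.card ι ≤ td F z := by
  have h1 := le_td F (z := z) (S := Finset.univ) (h.comp Subtype.val Subtype.val_injective)
  rwa [Finset.card_univ] at h1

theorem alg_range {A : Type} [CommRing A] [IsDomain A] [Algebra F A] (z : ι → A) (i : ι) :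
    IsAlgebraic (Algebra.adjoin F (Set.range z)) (z i) :=
  isAlgebraic_algebraMap (A := A)
    (⟨_, Algebra.subset_adjoin (Set.mem_range_self i)⟩ : Algebra.adjoin F (Set.range z))

theorem aeval_hom {A B : Type} [CommRing A] [CommRing B] [Algebra F A] [Algebra F B]
    (g : A →ₐ[F] B) (x : ι → A) (f : MvPolynomial ι F) :
    aeval (fun i => g (x i)) f = g (aeval x f) := by
  rw [← comp_aeval]
  rfl

end

section Product

open scoped TensorProduct

variable {F : Type} [Field F] {ι κ : Type} [Fintype ι] [Fintype κ] {A B : Type}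
  [CommRing A] [IsDomain A] [Algebra F A] [CommRing B] [IsDomain B] [Algebra F B]

/-- the product point -/
noncomputable def tp (a : ι → A) (b : κ → B) : ι ⊕ κ → A ⊗[F] B :=
  Sum.elim (fun i => a i ⊗ₜ 1) (fun j => 1 ⊗ₜ b j)

theorem aeval_tp_inl (a : ι → A) (b : κ → B) (f : MvPolynomial ι F) :
    aeval (fun i => tp (F := F) a b (Sum.inl i)) f = (aeval a f) ⊗ₜ 1 :=
  aeval_hom (Algebra.TensorProduct.includeLeft : A →ₐ[F] A ⊗[F] B) a f

theorem aeval_tp_inr (a : ι → A) (b : κ → B) (f : MvPolynomial κ F) :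
    aeval (fun i => tp (F := F) a b (Sum.inr i)) f = 1 ⊗ₜ (aeval b f) :=
  aeval_hom (Algebra.TensorProduct.includeRight : B →ₐ[F] A ⊗[F] B) b f

theorem tp_ind (b : κ → B) (S : Finset κ) (h : AlgebraicIndependent F (fun j : S => b j)) :
    AlgebraicIndependent A (fun j : S => (1 : A) ⊗ₜ[F] (b (j : κ))) := by
  have h6 : Function.Injective (aeval (fun j : S => b (j : κ)) : MvPolynomial S F →ₐ[F] B) := h
  have h7 : Function.Injective (Algebra.TensorProduct.map (AlgHom.id A A)
      (aeval (fun j : S => b (j : κ)) : MvPolynomial S F →ₐ[F] B)) :=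
    Module.Flat.lTensor_preserves_injective_linearMap (M := A)
      (aeval (fun j : S => b (j : κ)) : MvPolynomial S F →ₐ[F] B).toLinearMap h6
  have h8 : (aeval (fun j : S => (1 : A) ⊗ₜ[F] (b (j : κ))) :
      MvPolynomial S A →ₐ[A] A ⊗[F] B) = (Algebra.TensorProduct.map (AlgHom.id A A)
      (aeval (fun j : S => b (j : κ)) : MvPolynomial S F →ₐ[F] B)).comp
      ((MvPolynomial.algebraTensorAlgEquiv F A).symm.toAlgHom) := by
    ext j
    simp
  have h9 : Function.Injective (aeval (fun j : S => (1 : A) ⊗ₜ[F] (b (j : κ))) :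
      MvPolynomial S A →ₐ[A] A ⊗[F] B) := by
    rw [h8]
    exact h7.comp (MvPolynomial.algebraTensorAlgEquiv F A).symm.injective
  exact h9

theorem tp_td [IsDomain (A ⊗[F] B)] (a : ι → A) (b : κ → B) :
    td F a + td F b ≤ td F (tp (F := F) a b) := by
  obtain ⟨S₁, hS₁, hi₁, -⟩ := exists_td F a
  obtain ⟨S₂, hS₂, hi₂, -⟩ := exists_td F b
  have h10 := hi₁.sumElim_comp (tp_ind (A := A) b S₂ hi₂)
  have h11 := card_le_td h10
  rw [Fintype.card_sum, Fintype.card_coe, Fintype.card_coe, hS₁, hS₂] at h11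
  rw [add_comm]
  refine h11.trans (td_le_of_alg F fun k => ?_)
  rcases k with j | i
  · exact alg_range (F := F) (tp (F := F) a b) (Sum.inr j.1)
  · exact alg_range (F := F) (tp (F := F) a b) (Sum.inl i.1)

theorem tp_spec (a : ι → A) (b : κ → B) {K : Type} [Field K] [Algebra F K] (y : ι ⊕ κ → K)
    (g₁ : A →ₐ[F] K) (g₂ : B →ₐ[F] K) (h₁ : ∀ i, g₁ (a i) = y (Sum.inl i))
    (h₂ : ∀ i, g₂ (b i) = y (Sum.inr i)) (f : MvPolynomial (ι ⊕ κ) F)
    (hf : aeval (tp (F := F) a b) f = 0) : aeval y f = 0 := by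
  let g : A ⊗[F] B →ₐ[F] K := Algebra.TensorProduct.lift g₁ g₂ (fun _ _ => Commute.all _ _)
  have h3 : y = fun i => g (tp (F := F) a b i) := by
    funext i
    rcases i with i | j
    · have h4 : g (tp (F := F) a b (Sum.inl i)) = g₁ (a i) * g₂ 1 :=
        Algebra.TensorProduct.lift_tmul _ _ _ _ _
      rw [h4, map_one, mul_one, h₁]
    · have h4 : g (tp (F := F) a b (Sum.inr j)) = g₁ 1 * g₂ (b j) :=
        Algebra.TensorProduct.lift_tmul _ _ _ _ _
      rw [h4, map_one, one_mul, h₂]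
  rw [h3]
  have h4 := aeval_hom g (tp (F := F) a b) f
  rw [h4, hf, map_zero]

theorem tp_inl_zero (a : A) : (a ⊗ₜ[F] (1 : B) = 0) ↔ a = 0 := by
  have hinjl : Function.Injective (Algebra.TensorProduct.includeLeft : A →ₐ[F] A ⊗[F] B) :=
    Algebra.TensorProduct.includeLeft_injective (algebraMap F B).injective
  exact map_eq_zero_iff (Algebra.TensorProduct.includeLeft : A →ₐ[F] A ⊗[F] B) hinjl

theorem tp_inr_zero (b : B) : ((1 : A) ⊗ₜ[F] b = 0) ↔ b = 0 := by
  have hinjr : Function.Injective (Algebra.TensorProduct.includeRight : B →ₐ[F] A ⊗[F] B) :=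
    Algebra.TensorProduct.includeRight_injective (algebraMap F A).injective
  exact map_eq_zero_iff (Algebra.TensorProduct.includeRight : B →ₐ[F] A ⊗[F] B) hinjr

theorem prod_aux [IsAlgClosed F] [Algebra.FiniteType F A] (a : ι → A) (b : κ → B) :
    ∃ R : PP F (ι ⊕ κ),
    (∀ f : MvPolynomial ι F, aeval (fun i => R.pt (Sum.inl i)) f = 0 ↔ aeval a f = 0) ∧
    (∀ f : MvPolynomial κ F, aeval (fun i => R.pt (Sum.inr i)) f = 0 ↔ aeval b f = 0) ∧
    (∀ (K : Type) [Field K] [Algebra F K] (y : ι ⊕ κ → K) (g₁ : A →ₐ[F] K) (g₂ : B →ₐ[F] K),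
      (∀ i, g₁ (a i) = y (Sum.inl i)) → (∀ i, g₂ (b i) = y (Sum.inr i)) → Sp F R.pt y) ∧
    td F a + td F b ≤ td F R.pt := by
  have hdom : IsDomain (A ⊗[F] B) := isDomain_tensor
  obtain ⟨R, hR0⟩ : ∃ R : PP F (ι ⊕ κ), R.I =
      RingHom.ker (aeval (tp (F := F) a b) : MvPolynomial (ι ⊕ κ) F →ₐ[F] A ⊗[F] B) :=
    ⟨⟨_, RingHom.ker_isPrime _⟩, rfl⟩
  have hR : ∀ f, aeval R.pt f = 0 ↔ aeval (tp (F := F) a b) f = 0 := fun f => by
    rw [R.aeval_pt_eq_zero f, hR0]
    rfl
  have hl : ∀ f : MvPolynomial ι F, aeval (fun i => R.pt (Sum.inl i)) f = 0 ↔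
      aeval (fun i => tp (F := F) a b (Sum.inl i)) f = 0 := by
    intro f
    have h1 := hR (rename Sum.inl f)
    rw [aeval_rename, aeval_rename] at h1
    exact h1
  have hr : ∀ f : MvPolynomial κ F, aeval (fun i => R.pt (Sum.inr i)) f = 0 ↔
      aeval (fun i => tp (F := F) a b (Sum.inr i)) f = 0 := by
    intro f
    have h1 := hR (rename Sum.inr f)
    rw [aeval_rename, aeval_rename] at h1
    exact h1
  refine ⟨R, fun f => ?_, fun f => ?_, fun K _ _ y g₁ g₂ h₁ h₂ f hf => ?_, ?_⟩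
  · rw [hl, aeval_tp_inl, tp_inl_zero]
  · rw [hr, aeval_tp_inr, tp_inr_zero]
  · exact tp_spec a b y g₁ g₂ h₁ h₂ f ((hR f).1 hf)
  · exact (tp_td a b).trans (td_le_of_ker F fun f hf => (hR f).1 hf)

/-- products -/
theorem exists_prod [IsAlgClosed F] (P : PP F ι) (Q : PP F κ) : ∃ R : PP F (ι ⊕ κ),
    (∀ f, aeval (fun i => R.pt (Sum.inl i)) f = 0 ↔ f ∈ P.I) ∧
    (∀ f, aeval (fun i => R.pt (Sum.inr i)) f = 0 ↔ f ∈ Q.I) ∧
    (∀ (K : Type) [Field K] [Algebra F K] (y : ι ⊕ κ → K), Sp F P.pt (fun i => y (Sum.inl i)) →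
      Sp F Q.pt (fun i => y (Sum.inr i)) → Sp F R.pt y) ∧
    td F P.pt + td F Q.pt ≤ td F R.pt := by
  obtain ⟨R, h1, h2, h3, h4⟩ := prod_aux (F := F) (cp P.I) (cp Q.I)
  refine ⟨R, fun f => ?_, fun f => ?_, fun K _ _ y h5 h6 => ?_, ?_⟩
  · rw [h1, aeval_cp_eq_zero]
  · rw [h2, aeval_cp_eq_zero]
  · let g₁ : (MvPolynomial ι F ⧸ P.I) →ₐ[F] K :=
      Ideal.Quotient.liftₐ P.I (aeval fun i => y (Sum.inl i))
      (fun f hf => h5 f ((P.aeval_pt_eq_zero f).2 hf))
    let g₂ : (MvPolynomial κ F ⧸ Q.I) →ₐ[F] K :=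
      Ideal.Quotient.liftₐ Q.I (aeval fun i => y (Sum.inr i))
      (fun f hf => h6 f ((Q.aeval_pt_eq_zero f).2 hf))
    refine h3 K y g₁ g₂ (fun i => ?_) (fun i => ?_)
    · have h7 : g₁ (cp P.I i) = aeval (fun i => y (Sum.inl i)) (X i) := rfl
      rw [h7, aeval_X]
    · have h7 : g₂ (cp Q.I i) = aeval (fun i => y (Sum.inr i)) (X i) := rfl
      rw [h7, aeval_X]
  · rw [P.td_pt, Q.td_pt]
    exact h4

end Product

end Pool.Agent.N101.ZP
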