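import Pool.Agent.N101.ZP.Fin
import Pool.Agent.R948.GenA

/-!
# Passage to larger fields
-/

set_option autoImplicit false
set_option linter.unusedSectionVars false
set_option linter.style.haveILetI false

namespace Pool.Agent.N101.ZP

open MvPolynomial Pool.Agent.R948

section

variable {F : Type} [Field F] {ι κ : Type} [Fintype ι] [Fintype κ] {K L : Type} [Field K]
  [Field L] [Algebra F K] [Algebra F L]

theorem td_ofPt (z : κ → K) : tdP (PP.ofPt F z).I = td F z :=
  le_antisymm (tdP_le_td _ _ fun f hf => hf) (td_le_tdP _ _ fun f hf => hf)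

/-- points with the same integral relations -/
theorem sp_of_int [CharZero F] [Algebra.IsAlgebraic ℤ F] {z : κ → K} {z' : κ → L}
    (h : Sp F z' z) (h' : ∀ G : MvPolynomial κ ℤ, aeval z G = 0 → aeval z' G = 0) :
    Sp F z z' := by
  have h1 : (PP.ofPt F z').I ≤ (PP.ofPt F z).I := h
  have h2 : td F z' ≤ td F z := td_le_of_int h'
  have h4 : (PP.ofPt F z').I = (PP.ofPt F z).I := by
    by_contra hne
    have h5 := tdP_strict (lt_of_le_of_ne h1 hne)
    rw [td_ofPt, td_ofPt] at h5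
    omega
  intro f hf
  have h5 : f ∈ (PP.ofPt F z).I := hf
  rw [← h4] at h5
  exact h5

theorem exists_fldHom' (P : PP F κ) (z : κ → K) (h : ∀ f, aeval z f = 0 ↔ f ∈ P.I) :
    ∃ φ : P.fld →ₐ[F] K, ∀ j, φ (P.pt j) = z j := by
  let g : (MvPolynomial κ F ⧸ P.I) →ₐ[F] K :=
    Ideal.Quotient.liftₐ P.I (aeval z) (fun f hf => (h f).2 hf)
  have hg : Function.Injective g := by
    rw [injective_iff_map_eq_zero]
    intro a ha
    obtain ⟨a, rfl⟩ := Ideal.Quotient.mk_surjective a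
    exact Ideal.Quotient.eq_zero_iff_mem.2 ((h a).1 ha)
  refine ⟨IsFractionRing.liftAlgHom (K := P.fld) hg, fun j => ?_⟩
  have h1 : P.pt j = algebraMap _ _ (cp P.I j) := rfl
  rw [h1, IsFractionRing.liftAlgHom_apply, IsFractionRing.lift_algebraMap]
  have h2 : g (Ideal.Quotient.mk P.I (X j)) = aeval z (X j) := rfl
  rw [aeval_X] at h2
  exact h2

/-- elements of the field of a prime ideal -/
theorem alg_fld' (P : PP F ι) (A : Type) [CommRing A] [IsDomain A] [Algebra A P.fld]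
    (h : ∀ f : MvPolynomial ι F, ∃ r : A, algebraMap A P.fld r = aeval P.pt f) (a : P.fld) :
    IsAlgebraic A a := by
  obtain ⟨x, y, hy, rfl⟩ := IsFractionRing.div_surjective (A := MvPolynomial ι F ⧸ P.I) a
  obtain ⟨f, rfl⟩ := Ideal.Quotient.mk_surjective x
  obtain ⟨g, rfl⟩ := Ideal.Quotient.mk_surjective y
  rw [← PP.aeval_pt, ← PP.aeval_pt]
  obtain ⟨r, hr⟩ := h f
  obtain ⟨s, hs⟩ := h g
  rw [← hr, ← hs, div_eq_mul_inv]
  exact (isAlgebraic_algebraMap (A := P.fld) r).mul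
    (IsAlgebraic.inv_iff.2 (isAlgebraic_algebraMap (A := P.fld) s))

theorem td_pt_eq' (P : PP F ι) : (td F P.pt : Cardinal) = Algebra.trdeg F P.fld := by
  refine td_eq_trdeg F _ fun a => alg_fld' P _ (fun f => ?_) a
  refine ⟨⟨aeval P.pt f, ?_⟩, rfl⟩
  rw [Algebra.adjoin_range_eq_range_aeval]
  exact ⟨f, rfl⟩

end

section

variable {R : Type} [CommRing R] {ι κ : Type} [Fintype ι] [Fintype κ]

/-- substitution of constants -/
noncomputable def phi' (R : Type) [CommRing R] {k : Type} [Field k] [Algebra R k] (ι : Type)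
    (c : κ → k) : MvPolynomial (ι ⊕ κ) R →ₐ[R] MvPolynomial ι k :=
  aeval (Sum.elim X (fun j => C (c j)))

theorem aeval_phi' {k K : Type} [Field k] [Field K] [Algebra R k] [Algebra k K] [Algebra R K]
    [IsScalarTower R k K] (c : κ → k) (x : ι → K) (g : MvPolynomial (ι ⊕ κ) R) :
    aeval x (phi' R ι c g) = aeval (Sum.elim x (fun j => algebraMap k K (c j))) g := by
  have h : ((aeval x : MvPolynomial ι k →ₐ[k] K).restrictScalars R).comp (phi' R ι c) =
      aeval (Sum.elim x (fun j => algebraMap k K (c j))) := by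
    ext k
    rcases k with j | i
    · simp [phi']
    · simp [phi']
  rw [← h]
  rfl

theorem map_phi' {k₁ k : Type} [Field k₁] [Field k] [Algebra R k₁] [Algebra R k] [Algebra k₁ k]
    [IsScalarTower R k₁ k] (c : κ → k₁) (g : MvPolynomial (ι ⊕ κ) R) :
    MvPolynomial.map (algebraMap k₁ k) (phi' R ι c g) =
      phi' R ι (fun j => algebraMap k₁ k (c j)) g := by
  induction g using MvPolynomial.induction_on with
  | C a =>
    simp only [phi', MvPolynomial.algHom_C]
    rw [IsScalarTower.algebraMap_apply R k₁ (MvPolynomial ι k₁),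
      IsScalarTower.algebraMap_apply R k (MvPolynomial ι k), MvPolynomial.algebraMap_eq,
      MvPolynomial.algebraMap_eq, map_C, ← IsScalarTower.algebraMap_apply]
  | add p q hp hq => rw [map_add, map_add, map_add, hp, hq]
  | mul_X p i hp =>
    rw [map_mul, map_mul, map_mul, hp]
    congr 1
    rcases i with i | j
    · simp [phi']
    · simp [phi']

end

section

variable {F : Type} [Field F] {ι κ : Type} [Fintype ι] [Fintype κ]

/-- clearing denominators -/
theorem clear_den' {k₁ : Type} [Field k₁] [Algebra F k₁] (c₁ : κ → k₁)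
    (hfrac : ∀ a : k₁, ∃ f g : MvPolynomial κ F, aeval c₁ g ≠ 0 ∧
      a * aeval c₁ g = aeval c₁ f) (h : MvPolynomial ι k₁) :
    ∃ (d : MvPolynomial κ F) (g : MvPolynomial (ι ⊕ κ) F), aeval c₁ d ≠ 0 ∧
      phi' F ι c₁ g = C (aeval c₁ d) * h := by
  have hr : ∀ d : MvPolynomial κ F, phi' F ι c₁ (rename Sum.inr d) = C (aeval c₁ d) := by
    intro d
    rw [phi', aeval_rename]
    have h1 : (Sum.elim X (fun j => C (c₁ j)) : ι ⊕ κ → MvPolynomial ι k₁) ∘ Sum.inr =
        fun j => algebraMap k₁ (MvPolynomial ι k₁) (c₁ j) := rfl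
    rw [h1]
    exact aeval_algebraMap_apply _ _ _
  induction h using MvPolynomial.induction_on with
  | C a =>
    obtain ⟨f, g, hg, h⟩ := hfrac a
    refine ⟨g, rename Sum.inr f, hg, ?_⟩
    rw [hr, ← h, ← C_mul, mul_comm]
  | add p q hp hq =>
    obtain ⟨d, g, hd, h⟩ := hp
    obtain ⟨d', g', hd', h'⟩ := hq
    refine ⟨d * d', g * rename Sum.inr d' + g' * rename Sum.inr d, ?_, ?_⟩
    · rw [map_mul]
      exact mul_ne_zero hd hd'
    · rw [map_add, map_mul, map_mul, hr, hr, h, h', map_mul, C_mul]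
      ring
  | mul_X p i hp =>
    obtain ⟨d, g, hd, h⟩ := hp
    refine ⟨d, g * X (Sum.inl i), hd, ?_⟩
    rw [map_mul, h, mul_assoc]
    congr 2
    simp [phi']

attribute [local instance] MvPolynomial.algebraMvPolynomial

theorem dim_aux' {k₁ k : Type} [Field k₁] [Field k] [Algebra F k₁] [Algebra F k] [Algebra k₁ k]
    [IsScalarTower F k₁ k] (Q : PP F (ι ⊕ κ)) [Algebra k₁ Q.fld] [IsScalarTower F k₁ Q.fld]
    (c₁ : κ → k₁) (hfrac : ∀ a : k₁, ∃ f g : MvPolynomial κ F, aeval c₁ g ≠ 0 ∧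
      a * aeval c₁ g = aeval c₁ f) (hc : ∀ j, Q.pt (Sum.inr j) = algebraMap k₁ Q.fld (c₁ j))
    (b : Ideal (MvPolynomial ι k)) [b.IsPrime]
    (hb : b ∈ (Q.I.map (phi' F ι (fun j => algebraMap k₁ k (c₁ j)))).minimalPrimes) :
    td F Q.pt ≤ tdP b + td F c₁ := by
  classical
  let x : ι → Q.fld := fun i => Q.pt (Sum.inl i)
  have hpt : Q.pt = Sum.elim x (fun j => algebraMap k₁ Q.fld (c₁ j)) := by
    funext k
    rcases k with j | i
    · rfl
    · exact hc i
  let q : Ideal (MvPolynomial ι k₁) := RingHom.ker (aeval x : MvPolynomial ι k₁ →ₐ[k₁] Q.fld)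
  have hq : q.IsPrime := RingHom.ker_isPrime _
  have hmem : ∀ g : MvPolynomial (ι ⊕ κ) F, phi' F ι c₁ g ∈ q ↔ g ∈ Q.I := by
    intro g
    change aeval x (phi' F ι c₁ g) = 0 ↔ _
    rw [aeval_phi', ← hpt, PP.aeval_pt_eq_zero]
  have hJ : Q.I.map (phi' F ι (fun j => algebraMap k₁ k (c₁ j))) =
      q.map (algebraMap (MvPolynomial ι k₁) (MvPolynomial ι k)) := by
    apply le_antisymm
    · rw [Ideal.map_le_iff_le_comap]
      intro g hg
      rw [Ideal.mem_comap]
      have h1 := map_phi' (k := k) c₁ g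
      rw [← h1]
      exact Ideal.mem_map_of_mem (algebraMap (MvPolynomial ι k₁) (MvPolynomial ι k)) ((hmem g).2 hg)
    · rw [Ideal.map_le_iff_le_comap]
      intro h hh
      rw [Ideal.mem_comap]
      obtain ⟨d, g, hd, h1⟩ := clear_den' c₁ hfrac h
      have h2 : g ∈ Q.I := by
        rw [← hmem, h1]
        exact q.mul_mem_left _ hh
      have h3 : phi' F ι (fun j => algebraMap k₁ k (c₁ j)) g =
          C (algebraMap k₁ k (aeval c₁ d)) * MvPolynomial.map (algebraMap k₁ k) h := by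
        rw [← map_phi' (k := k) c₁ g, h1, map_mul, map_C]
      have h4 : algebraMap k₁ k (aeval c₁ d) ≠ 0 := by
        rw [Ne, map_eq_zero_iff _ (algebraMap k₁ k).injective]
        exact hd
      have h5 : MvPolynomial.map (algebraMap k₁ k) h =
          C (algebraMap k₁ k (aeval c₁ d))⁻¹ *
            phi' F ι (fun j => algebraMap k₁ k (c₁ j)) g := by
        rw [h3, ← mul_assoc, ← C_mul, inv_mul_cancel₀ h4, C_1, one_mul]
      have h6 : algebraMap (MvPolynomial ι k₁) (MvPolynomial ι k) h =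
          MvPolynomial.map (algebraMap k₁ k) h := rfl
      rw [h6, h5]
      exact Ideal.mul_mem_left _ _ (Ideal.mem_map_of_mem _ h2)
  have h1 : tdP q ≤ tdP b := by
    rw [hJ] at hb
    exact base_change q b hb
  have h2 : td k₁ x ≤ tdP q := td_le_tdP q x fun f hf => hf
  have h3 : (td F Q.pt : Cardinal) = td F c₁ + td k₁ x := by
    have hinj : FaithfulSMul F k₁ := inferInstance
    rw [td_pt_eq', ← trdeg_add_eq F k₁ (A := Q.fld)]
    congr 1
    · symm
      refine td_eq_trdeg F _ fun a => ?_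
      obtain ⟨f, g, hg, h⟩ := hfrac a
      have hm : ∀ f : MvPolynomial κ F, IsAlgebraic (Algebra.adjoin F (Set.range c₁))
          (aeval c₁ f) := by
        intro f
        refine isAlgebraic_algebraMap (A := k₁)
          (⟨aeval c₁ f, ?_⟩ : Algebra.adjoin F (Set.range c₁))
        rw [Algebra.adjoin_range_eq_range_aeval]
        exact ⟨f, rfl⟩
      have h1 : a = aeval c₁ f * (aeval c₁ g)⁻¹ := by
        rw [← h, mul_assoc, mul_inv_cancel₀ hg, mul_one]
      rw [h1]
      exact (hm f).mul (IsAlgebraic.inv_iff.2 (hm g))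
    · symm
      refine td_eq_trdeg k₁ _ fun a => alg_fld' Q _ (fun f => ?_) a
      refine ⟨⟨aeval x (phi' F ι c₁ f), ?_⟩, ?_⟩
      · rw [Algebra.adjoin_range_eq_range_aeval]
        exact ⟨_, rfl⟩
      · change aeval x (phi' F ι c₁ f) = _
        rw [aeval_phi', ← hpt]
  have h4 : td F Q.pt = td F c₁ + td k₁ x := by exact_mod_cast h3
  omega

/-- lower bound for the dimension of the components -/
theorem dim_main' {k : Type} [Field k] [Algebra F k] (c : κ → k) (Q : PP F (ι ⊕ κ))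
    (h1 : ∀ f : MvPolynomial κ F, aeval (fun j => Q.pt (Sum.inr j)) f = 0 ↔ aeval c f = 0)
    (b : Ideal (MvPolynomial ι k)) [b.IsPrime] (hb : b ∈ (Q.I.map (phi' F ι c)).minimalPrimes) :
    td F Q.pt ≤ tdP b + td F c := by
  let P₁ : PP F κ := PP.ofPt F c
  obtain ⟨φ₁, hφ₁⟩ := exists_fldHom' P₁ c (fun f => Iff.rfl)
  obtain ⟨φ₂, hφ₂⟩ := exists_fldHom' P₁ (fun j => Q.pt (Sum.inr j)) (fun f => h1 f)
  letI : Algebra P₁.fld k := φ₁.toRingHom.toAlgebra
  letI : Algebra P₁.fld Q.fld := φ₂.toRingHom.toAlgebra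
  haveI : IsScalarTower F P₁.fld k :=
    IsScalarTower.of_algebraMap_eq fun x => (φ₁.commutes x).symm
  haveI : IsScalarTower F P₁.fld Q.fld :=
    IsScalarTower.of_algebraMap_eq fun x => (φ₂.commutes x).symm
  have hc : (fun j => algebraMap P₁.fld k (P₁.pt j)) = c := by
    funext j
    exact hφ₁ j
  have hfrac : ∀ a : P₁.fld, ∃ f g : MvPolynomial κ F, aeval P₁.pt g ≠ 0 ∧
      a * aeval P₁.pt g = aeval P₁.pt f := by
    intro a
    obtain ⟨x, y, hy, rfl⟩ := IsFractionRing.div_surjective (A := MvPolynomial κ F ⧸ P₁.I) a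
    obtain ⟨f, rfl⟩ := Ideal.Quotient.mk_surjective x
    obtain ⟨g, rfl⟩ := Ideal.Quotient.mk_surjective y
    refine ⟨f, g, ?_, ?_⟩
    · rw [PP.aeval_pt, Ne, map_eq_zero_iff _ (IsFractionRing.injective _ _)]
      exact nonZeroDivisors.ne_zero hy
    · rw [PP.aeval_pt, PP.aeval_pt, div_mul_cancel₀]
      rw [Ne, map_eq_zero_iff _ (IsFractionRing.injective _ _)]
      exact nonZeroDivisors.ne_zero hy
  have h2 := dim_aux' Q P₁.pt hfrac (fun j => (hφ₂ j).symm) b (by rw [hc]; exact hb)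
  have h3 : td F P₁.pt = td F c := by
    refine le_antisymm (td_le_of_ker F fun f hf => ?_) (td_le_of_ker F fun f hf => ?_)
    · rw [PP.aeval_pt_eq_zero]
      exact hf
    · rw [PP.aeval_pt_eq_zero] at hf
      exact hf
  rw [h3] at h2
  exact h2

/-- the system of equations of a finite set of polynomials -/
theorem exists_sys' (F : Type) [Field F] [CharZero F] [Algebra.IsAlgebraic ℤ F] {k : Type} [Field k]
    [Algebra F k] (s : Finset (MvPolynomial ι k)) :
    ∃ (κ : Type) (_ : Fintype κ) (c : κ → k) (LL : List (MvPolynomial (ι ⊕ κ) ℤ)),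
      (∀ (K₀ : Type) [Field K₀] [Algebra k K₀] [Algebra F K₀] [IsScalarTower F k K₀]
        (x₀ : ι → K₀), (∀ f ∈ s, aeval x₀ f = 0) →
        ∀ H ∈ LL, aeval (Sum.elim x₀ (fun j => algebraMap k K₀ (c j))) H = 0) ∧
      ∀ (L : Type) [Field L] [Algebra F L] (q : ι ⊕ κ → L), (∀ H ∈ LL, aeval q H = 0) →
        (∀ f ∈ s, ∃ g : MvPolynomial (ι ⊕ κ) F, phi' F ι c g = f ∧ aeval q g = 0) ∧
        (Sp F (fun j => q (Sum.inr j)) c → Sp F c (fun j => q (Sum.inr j))) := by
  classical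
  -- the coefficients
  let T : Finset k := s.biUnion fun f => f.support.image fun m => f.coeff m
  let c : T → k := fun a => a.1
  have hlift : ∀ f ∈ s, ∃ H : MvPolynomial (ι ⊕ T) ℤ, phi' ℤ ι c H = f := by
    intro f hf
    have hX : ∀ i : ι, (X i : MvPolynomial ι k) ∈ (phi' ℤ ι c).range := fun i =>
      ⟨X (Sum.inl i), by simp [phi']⟩
    have hC : ∀ a : T, (C (a : k) : MvPolynomial ι k) ∈ (phi' ℤ ι c).range := fun a =>
      ⟨X (Sum.inr a), by simp [phi', c]⟩
    have h1 : f ∈ (phi' ℤ ι c).range := by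
      rw [f.as_sum]
      refine Subalgebra.sum_mem _ fun m hm => ?_
      rw [monomial_eq]
      refine Subalgebra.mul_mem _ ?_ ?_
      · exact hC ⟨f.coeff m, Finset.mem_biUnion.2 ⟨f, hf, Finset.mem_image.2 ⟨m, hm, rfl⟩⟩⟩
      · exact Subalgebra.prod_mem _ fun i _ => Subalgebra.pow_mem _ (hX i) _
    exact h1
  choose! H hH using hlift
  -- the relations of the coefficients
  obtain ⟨s', hs'⟩ := (RingHom.ker (aeval c : MvPolynomial T ℤ →ₐ[ℤ] k)).fg_of_isNoetherianRing
  obtain ⟨LL, hLL⟩ : ∃ LL : List (MvPolynomial (ι ⊕ T) ℤ),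
    LL = s.toList.map H ++ s'.toList.map (rename Sum.inr) := ⟨_, rfl⟩
  refine ⟨T, inferInstance, c, LL, ?_, ?_⟩
  · intro K₀ _ _ _ _ x₀ hx₀ G hG
    rw [hLL] at hG
    rcases List.mem_append.1 hG with hG | hG
    · obtain ⟨f, hf, rfl⟩ := List.mem_map.1 hG
      have h1 := aeval_phi' (R := ℤ) c x₀ (H f)
      rw [hH f (Finset.mem_toList.1 hf)] at h1
      rw [← h1]
      exact hx₀ f (Finset.mem_toList.1 hf)
    · obtain ⟨f, hf, rfl⟩ := List.mem_map.1 hG
      have h1 : f ∈ RingHom.ker (aeval c : MvPolynomial T ℤ →ₐ[ℤ] k) := by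
        rw [← hs']
        exact Ideal.subset_span (Finset.mem_toList.1 hf)
      rw [aeval_rename]
      have h2 : Sum.elim x₀ (fun j => algebraMap k K₀ (c j)) ∘ Sum.inr =
        fun j => algebraMap k K₀ (c j) := rfl
      have h3 : aeval (fun j => algebraMap k K₀ (c j)) f =
          algebraMap k K₀ (aeval c f) := aeval_algebraMap_apply _ _ _
      have h4 : aeval c f = 0 := h1
      rw [h2, h3, h4, map_zero]
  · intro L _ _ q h3
    refine ⟨fun f hf => ⟨MvPolynomial.map (algebraMap ℤ F) (H f), ?_, ?_⟩, fun hsc =>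
      sp_of_int hsc fun G hG => ?_⟩
    · exact (aeval_map_algebraMap F (Sum.elim X (fun j => C (c j)) :
        ι ⊕ T → MvPolynomial ι k) (H f)).trans (hH f hf)
    · rw [aeval_map_algebraMap F q (H f)]
      exact h3 (H f) (by
        rw [hLL]
        exact List.mem_append_left _ (List.mem_map.2 ⟨f, Finset.mem_toList.2 hf, rfl⟩))
    · have h5 : G ∈ RingHom.ker (aeval c : MvPolynomial T ℤ →ₐ[ℤ] k) := hG
      rw [← hs'] at h5
      refine Submodule.span_induction (p := fun f _ =>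
        aeval (fun j => q (Sum.inr j)) f = 0) ?_ ?_ ?_ ?_ h5
      · intro f hf
        have h6 := h3 (rename Sum.inr f) (by
          rw [hLL]
          exact List.mem_append_right _ (List.mem_map.2 ⟨f, Finset.mem_toList.2 hf, rfl⟩))
        rw [aeval_rename] at h6
        exact h6
      · exact map_zero _
      · intro a b _ _ ha hb
        rw [map_add, ha, hb, add_zero]
      · intro a b _ hb
        rw [smul_eq_mul, map_mul, hb, mul_zero]

end

section

variable {F : Type} [Field F] (T : RT F)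

/-- finiteness over extensions -/
def FinI (k : Type) [Field k] [Algebra F k] {ι : Type} [Fintype ι] (s : ι → T.S)
    (I : Ideal (MvPolynomial ι k)) : Prop :=
  ∃ B : Set (PP k ι), B.Finite ∧ ∀ Q₀ : PP k ι, T.Ok s Q₀.pt → I ≤ Q₀.I →
    ∃ P ∈ B, I ≤ P.I ∧ P.I ≤ Q₀.I ∧ T.df k s P.pt ≤ T.df k s Q₀.pt

/-- the condition that integral polynomials vanish -/
noncomputable def polsZ {ι : Type} (LL : List (MvPolynomial ι ℤ)) : Cond F ι where
  sat y := ∀ H ∈ LL, aeval y H = 0
  closed p p' h hp H hH := by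
    have h1 := h (MvPolynomial.map (algebraMap ℤ F) H) (by
      rw [MvPolynomial.aeval_map_algebraMap]
      exact hp H hH)
    rwa [MvPolynomial.aeval_map_algebraMap] at h1

variable {T}

variable {ι κ : Type} [Fintype ι] [Fintype κ]

theorem sp_restrict {k : Type} [Field k] [Algebra F k] {K L : Type} [Field K] [Field L]
    [Algebra k K] [Algebra k L] [Algebra F K] [Algebra F L] [IsScalarTower F k K]
    [IsScalarTower F k L] {p : ι → K} {p' : ι → L} (h : Sp k p p') : Sp F p p' := by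
  intro f hf
  have h1 := h (MvPolynomial.map (algebraMap F k) f) (by
    rw [MvPolynomial.aeval_map_algebraMap]
    exact hf)
  rwa [MvPolynomial.aeval_map_algebraMap] at h1

/-- the final estimate -/
theorem gen_est' {k K₀ : Type} [Field k] [Algebra F k] [Field K₀] [Algebra k K₀] [Algebra F K₀]
    [IsScalarTower F k K₀] (s : ι → T.S) (σ₀ : T.S) (hσ : ¬ T.nz σ₀) (c : κ → k) (x₀ : ι → K₀)
    (hok : T.Ok s x₀) (Q : PP F (ι ⊕ κ)) (P : PP k ι) (hPx : Sp k P.pt x₀)
    (h2 : Sp F Q.pt (Sum.elim x₀ (fun j => algebraMap k K₀ (c j))))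
    (h4 : T.df F (Sum.elim s (fun _ => σ₀)) Q.pt ≤
      T.df F (Sum.elim s (fun _ => σ₀)) (Sum.elim x₀ (fun j => algebraMap k K₀ (c j))))
    (hb : P.I ∈ (Ideal.map (phi' F ι c) Q.I).minimalPrimes)
    (hd1 : td F Q.pt ≤ tdP P.I + td F c) : T.df k s P.pt ≤ T.df k s x₀ := by
  have hd2 : td k x₀ + td F c ≤ td F (Sum.elim x₀ (fun j => algebraMap k K₀ (c j))) :=
    td_add_le (F := F) x₀ c
  have hok' : T.Ok (Sum.elim s (fun _ => σ₀)) (Sum.elim x₀ (fun j => algebraMap k K₀ (c j))) := by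
    rintro (i | j) hj
    · exact hok i hj
    · exact absurd hj hσ
  -- specialisation from `Q` to `P`
  have hQP : Sp F (fun i => Q.pt (Sum.inl i)) P.pt := by
    intro f hf
    have h7 : rename Sum.inl f ∈ Q.I := by
      rw [← PP.aeval_pt_eq_zero, aeval_rename]
      exact hf
    have h8 := hb.1.2 (Ideal.mem_map_of_mem (phi' F ι c) h7)
    have h9 : phi' F ι c (rename Sum.inl f) = MvPolynomial.map (algebraMap F k) f := by
      rw [phi', aeval_rename]
      have h10 : (Sum.elim X (fun j => C (c j)) : ι ⊕ κ → MvPolynomial ι k) ∘ Sum.inl = X := rfl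
      rw [h10]
      have h11 := MvPolynomial.aeval_map_algebraMap (A := k) (X : ι → MvPolynomial ι k) f
      rw [MvPolynomial.aeval_X_left, AlgHom.id_apply] at h11
      exact h11.symm
    rw [h9, ← PP.aeval_pt_eq_zero, MvPolynomial.aeval_map_algebraMap] at h8
    exact h8
  have hPok : T.Ok s P.pt := RT.Ok.of_sp (T := T) (sp_restrict (F := F) hPx) hok
  have hr1 : T.rk s P.pt ≤ T.rk s (fun i => Q.pt (Sum.inl i)) := T.rk_spec s _ _ hQP hPok
  have hr2 := T.rk_rel (Sum.elim s (fun _ => σ₀)) Q.pt _ h2 hok'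
  have hr3 : T.rk (fun i => (Sum.elim s (fun _ => σ₀) : ι ⊕ κ → T.S) (Sum.inl i))
    (fun i => Q.pt (Sum.inl i)) = T.rk s (fun i => Q.pt (Sum.inl i)) := rfl
  have hr4 : T.rk (fun i => (Sum.elim s (fun _ => σ₀) : ι ⊕ κ → T.S) (Sum.inl i))
    (fun i => (Sum.elim x₀ (fun j => algebraMap k K₀ (c j)) : ι ⊕ κ → K₀) (Sum.inl i)) =
      T.rk s x₀ := rfl
  rw [hr3, hr4] at hr2
  rw [RT.df, RT.df] at h4 ⊢
  rw [PP.td_pt P]
  omega

/-- **Finiteness over all fields.** -/
theorem fin_gen' [IsAlgClosed F] [CharZero F] [Algebra.IsAlgebraic ℤ F] (σ₀ : T.S)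
    (hσ : ¬ T.nz σ₀) (hF : ∀ (ι : Type) [Fintype ι] (s : ι → T.S) (LL : List (MvPolynomial ι ℤ)),
      FinC T s (polsZ LL)) {k : Type} [Field k] [Algebra F k] (s : ι → T.S)
    (I : Ideal (MvPolynomial ι k)) : FinI T k s I := by
  obtain ⟨g, hg⟩ := I.fg_of_isNoetherianRing
  obtain ⟨κ, _, c, LL, hS1, hS2⟩ := exists_sys' F g
  obtain ⟨B, hB, hB2⟩ := hF (ι ⊕ κ) (Sum.elim s (fun _ => σ₀)) LL
  refine ⟨⋃ J ∈ B, {P : PP k ι | P.I ∈ (Ideal.map (phi' F ι c) J.I).minimalPrimes},
    hB.biUnion fun J _ => finite_PP (Ideal.finite_minimalPrimes_of_isNoetherianRing _ _), ?_⟩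
  intro Q₀ hok hQ₀
  have hy := hS1 Q₀.fld Q₀.pt (fun f hf => by
    rw [PP.aeval_pt_eq_zero]
    exact hQ₀ (by rw [← hg]; exact Ideal.subset_span hf))
  have hok' : T.Ok (Sum.elim s (fun _ => σ₀))
      (Sum.elim Q₀.pt (fun j => algebraMap k Q₀.fld (c j))) := by
    rintro (i | j) hj
    · exact hok i hj
    · exact absurd hj hσ
  obtain ⟨Q, h1, h2, h3, h4⟩ := hB2 Q₀.fld _ hok' hy trivial
  obtain ⟨h5, h6⟩ := hS2 Q.fld Q.pt h3
  -- the coefficients have the same relations
  have hsc : Sp F (fun j => Q.pt (Sum.inr j)) c := by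
    intro f hf
    have h5 := h2 (rename Sum.inr f) (by rw [aeval_rename]; exact hf)
    rw [aeval_rename] at h5
    have h6 : Sum.elim Q₀.pt (fun j => algebraMap k Q₀.fld (c j)) ∘ Sum.inr =
      fun j => algebraMap k Q₀.fld (c j) := rfl
    have h7 : aeval (fun j => algebraMap k Q₀.fld (c j)) f =
          algebraMap k Q₀.fld (aeval c f) := aeval_algebraMap_apply _ _ _
    rw [h6, h7, map_eq_zero_iff _ (algebraMap k Q₀.fld).injective] at h5
    exact h5
  -- the ideal
  have hJ : Ideal.map (phi' F ι c) Q.I ≤ Q₀.I := by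
    rw [Ideal.map_le_iff_le_comap]
    intro g hg
    rw [Ideal.mem_comap, ← PP.aeval_pt_eq_zero, aeval_phi']
    exact h2 g ((PP.aeval_pt_eq_zero Q g).2 hg)
  have hI : I ≤ Ideal.map (phi' F ι c) Q.I := by
    rw [← hg, Ideal.span_le]
    intro f hf
    obtain ⟨g, hg, hg2⟩ := h5 f hf
    rw [← hg]
    exact Ideal.mem_map_of_mem _ ((PP.aeval_pt_eq_zero Q g).1 hg2)
  obtain ⟨b, hb, hbQ₀⟩ := Ideal.exists_minimalPrimes_le hJ
  obtain ⟨P, rfl⟩ : ∃ P : PP k ι, P.I = b := ⟨⟨b, hb.1.1⟩, rfl⟩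
  refine ⟨P, Set.mem_biUnion h1 hb, hI.trans hb.1.2, hbQ₀, ?_⟩
  exact gen_est' s σ₀ hσ c Q₀.pt hok Q P (PP.sp_of_le hbQ₀) h2 h4 hb
    (dim_main' c Q (fun f => ⟨hsc f, h6 hsc f⟩) P.I hb)

end

end Pool.Agent.N101.ZP
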