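import Pool.Agent.N101.ZP.Code
import Pool.Agent.R948.Def

/-!
# The rank theory of the products of powers of the modular curve and tori
-/

set_option autoImplicit false
set_option linter.unusedSectionVars false
set_option linter.style.haveILetI false

namespace Pool.Agent.N101.ZP

open Pool.Agent.R948 (mon rel dr relProj dr_sum le_dr_sum rank_ext dr_le_card td cp un Spec)

section

variable {ι κ G H : Type} [Fintype ι] [Fintype κ] [CommGroup G] [CommGroup H]

/-- the rank of a family of elements of a commutative group -/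
noncomputable def rkt (u : ι → G) : ℕ := Fintype.card ι - dr u

theorem rkt_add_dr (u : ι → G) : rkt u + dr u = Fintype.card ι :=
  Nat.sub_add_cancel (dr_le_card u)

theorem dr_equiv (e : ι ≃ κ) (u : κ → G) : dr (fun i => u (e i)) = dr u := by
  have h1 : rel (fun i => u (e i)) = (rel u).map (LinearEquiv.funCongrLeft ℚ ℚ e).toLinearMap := by
    ext a
    constructor
    · rintro ⟨N, hN, b, hb, h⟩
      refine ⟨fun j => a (e.symm j), ⟨N, hN, fun j => b (e.symm j), fun j => hb _, ?_⟩, ?_⟩
      · rw [← h, mon, mon]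
        rw [← Equiv.prod_comp e]
        simp
      · funext i
        simp
    · rintro ⟨a', ⟨N, hN, b, hb, h⟩, rfl⟩
      refine ⟨N, hN, fun i => b (e i), fun i => hb _, ?_⟩
      rw [← h, mon, mon]
      exact Equiv.prod_comp e (fun j => u j ^ b j)
  rw [dr, dr, h1]
  exact LinearEquiv.finrank_map_eq _ _

theorem rkt_equiv (e : ι ≃ κ) (u : κ → G) : rkt (fun i => u (e i)) = rkt u := by
  rw [rkt, rkt, dr_equiv, Fintype.card_congr e]

theorem dr_le_add (u : ι → G) (v : κ → G) : dr (Sum.elim u v) ≤ Fintype.card ι + dr v := by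
  have h1 := dr_equiv (Equiv.sumComm κ ι) (Sum.elim u v)
  have h2 : (fun i => Sum.elim u v ((Equiv.sumComm κ ι) i)) = Sum.elim v u := by
    funext i
    rcases i with i | i <;> rfl
  rw [h2] at h1
  rw [← h1, dr_sum]
  have h3 := Submodule.finrank_le (relProj v u)
  rw [Module.finrank_pi] at h3
  omega

theorem mon_single [DecidableEq ι] (u : ι → G) (i : ι) : mon u (Pi.single i 1) = u i := by
  rw [mon, Finset.prod_eq_single i]
  · simp
  · intro j' _ hj'
    rw [Pi.single_eq_of_ne hj', zpow_zero]
  · intro h
    exact absurd (Finset.mem_univ i) h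

theorem rkt_comp (u : ι → G) (f : κ → ι) : rkt (fun j => u (f j)) ≤ rkt u := by
  classical
  have h1 := le_dr_sum u (fun j => u (f j)) (fun j => Pi.single (f j) 1) (fun _ => 1)
    (fun _ => ⟨1, one_pos, by simp⟩) (fun j => by rw [mon_single, one_mul])
  have h2 := dr_le_add u (fun j => u (f j))
  have h3 := rkt_add_dr u
  have h4 := rkt_add_dr (fun j => u (f j))
  omega

theorem elim_inl_inr (u : ι ⊕ κ → G) :
    u = Sum.elim (fun i => u (Sum.inl i)) (fun j => u (Sum.inr j)) := by
  funext i
  rcases i with i | i <;> rfl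

theorem dr_split (u : ι ⊕ κ → G) : dr u = dr (fun i => u (Sum.inl i)) +
    Module.finrank ℚ (relProj (fun i => u (Sum.inl i)) (fun j => u (Sum.inr j))) := by
  conv_lhs => rw [elim_inl_inr u]
  exact dr_sum _ _

theorem rel_le_relProj (b : κ → G) (y : ι → G) : rel y ≤ relProj b y := by
  rintro a ⟨N, hN, c, hc, h⟩
  refine ⟨Sum.elim 0 a, ⟨N, hN, Sum.elim 0 c, ?_, ?_⟩, ?_⟩
  · rintro (j | i)
    · simp
    · simpa using hc i
  · rw [R948.mon_sum]
    simp only [Sum.elim_inl, Sum.elim_inr]
    rw [h, mul_one]
    exact R948.mon_zero b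
  · funext i
    simp

theorem rkt_add (u : ι ⊕ κ → G) :
    rkt u ≤ rkt (fun i => u (Sum.inl i)) + rkt (fun j => u (Sum.inr j)) := by
  have h1 := dr_split u
  have h2 : dr (fun j => u (Sum.inr j)) ≤
      Module.finrank ℚ (relProj (fun i => u (Sum.inl i)) (fun j => u (Sum.inr j))) :=
    Submodule.finrank_mono (rel_le_relProj _ _)
  have h3 := rkt_add_dr u
  have h4 := rkt_add_dr (fun i => u (Sum.inl i))
  have h5 := rkt_add_dr (fun j => u (Sum.inr j))
  rw [Fintype.card_sum] at h3
  omega

theorem rkt_spec (u : ι → G) (u' : ι → H) (h : rel u ≤ rel u') : rkt u' ≤ rkt u := by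
  have h1 : dr u ≤ dr u' := Submodule.finrank_mono h
  have h3 := rkt_add_dr u
  have h4 := rkt_add_dr u'
  omega

theorem rkt_rel (u : ι ⊕ κ → G) (u' : ι ⊕ κ → H) (h : rel u ≤ rel u') :
    rkt u' + rkt (fun i => u (Sum.inl i)) ≤ rkt u + rkt (fun i => u' (Sum.inl i)) := by
  have h1 := dr_split u
  have h2 := dr_split u'
  have h3 : Module.finrank ℚ (relProj (fun i => u (Sum.inl i)) (fun j => u (Sum.inr j))) ≤
      Module.finrank ℚ (relProj (fun i => u' (Sum.inl i)) (fun j => u' (Sum.inr j))) := by
    refine Submodule.finrank_mono (Submodule.map_mono ?_)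
    rw [← elim_inl_inr u, ← elim_inl_inr u']
    exact h
  have h4 := rkt_add_dr u
  have h5 := rkt_add_dr u'
  have h6 := rkt_add_dr (fun i => u (Sum.inl i))
  have h7 := rkt_add_dr (fun i => u' (Sum.inl i))
  omega

theorem rkt_ext (u : ι ⊕ κ → G) : ∃ J : Finset κ,
    J.card + rkt (fun i => u (Sum.inl i)) = rkt u ∧
    ∀ j, ∃ N : ℕ, 0 < N ∧ ∃ c : ι ⊕ J → ℤ, u (Sum.inr j) ^ N =
      mon (Sum.elim (fun i => u (Sum.inl i)) (fun j : J => u (Sum.inr j)) : ι ⊕ J → G) c := by
  obtain ⟨J, h1, h2⟩ := rank_ext (fun i => u (Sum.inl i)) (fun j => u (Sum.inr j))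
  refine ⟨J, ?_, h2⟩
  have h3 := dr_split u
  have h4 := rkt_add_dr u
  have h5 := rkt_add_dr (fun i => u (Sum.inl i))
  rw [Fintype.card_sum] at h4
  omega

theorem rkt_one (u : ι → G) (h : ∀ i, u i = 1) : rkt u = 0 := by
  classical
  have h1 := le_dr_sum (fun i : Empty => (i.elim : G)) u (fun _ => 0) (fun _ => 1)
    (fun _ => ⟨1, one_pos, by simp⟩) (fun j => by rw [h j, R948.mon_zero, one_mul])
  have h2 := dr_le_add (fun i : Empty => (i.elim : G)) u
  have h3 := rkt_add_dr u
  simp only [Fintype.card_empty, zero_add] at h2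
  omega

theorem rkt_le_filter (u : ι → G) (P : ι → Prop) [DecidablePred P] (h : ∀ i, ¬ P i → u i = 1) :
    rkt u ≤ (Finset.univ.filter P).card := by
  have h1 := rkt_equiv (Equiv.sumCompl P) u
  rw [← h1]
  refine (rkt_add _).trans ?_
  have h2 : rkt (fun j : {a // ¬ P a} => u ((Equiv.sumCompl P) (Sum.inr j))) = 0 :=
    rkt_one _ fun j => h _ j.2
  rw [h2, add_zero]
  have h3 := rkt_add_dr (fun i : {a // P a} => u ((Equiv.sumCompl P) (Sum.inl i)))
  have h4 : Fintype.card {a // P a} = (Finset.univ.filter P).card := Fintype.card_subtype P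
  rw [h4] at h3
  omega

theorem rkt_lt (u : ι → G) (b : ι → ℤ) (hb : b ≠ 0) (N : ℕ) (hN : 0 < N)
    (h : mon u b ^ N = 1) : rkt u + 1 ≤ Fintype.card ι := by
  have h1 : 0 < dr u := by
    rw [dr, Module.finrank_pos_iff_exists_ne_zero]
    refine ⟨⟨_, (R948.mem_rel_int u b).2 ⟨N, hN, h⟩⟩, fun h0 => hb ?_⟩
    funext i
    have h2 := congrFun (congrArg Subtype.val h0) i
    have h3 : (b i : ℚ) = 0 := h2
    exact_mod_cast h3
  have h2 := rkt_add_dr u
  omega

end

/-! ### the torus coordinates -/

section

variable {K L : Type} [Field K] [Field L] {ι κ : Type}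

open Classical in
/-- the torus coordinates -/
noncomputable def tu (b : Bool) (x : K) : Kˣ := if h : b = true ∧ x ≠ 0 then Units.mk0 x h.2 else 1

theorem tu_false {b : Bool} (hb : b = false) (x : K) : tu b x = 1 := by
  rw [tu, dif_neg]
  rintro ⟨h, -⟩
  rw [hb] at h
  exact Bool.false_ne_true h

theorem tu_true {b : Bool} (hb : b = true) {x : K} (hx : x ≠ 0) : ((tu b x : Kˣ) : K) = x := by
  rw [tu, dif_pos ⟨hb, hx⟩]
  rfl

variable [Algebra Fa K] [Algebra Fa L]

/-- the polynomial of a torus coordinate -/
noncomputable def tpol (s : ι → Bool) (i : ι) : MvPolynomial ι Fa :=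
  if s i = true then MvPolynomial.X i else 1

theorem aeval_tpol (s : ι → Bool) (p : ι → K) (hp : Nz (fun i => s i = true) p) (i : ι) :
    MvPolynomial.aeval p (tpol s i) = un (fun i => tu (s i) (p i)) i := by
  rw [tpol, un]
  split_ifs with h
  · rw [MvPolynomial.aeval_X, tu_true h (hp i h)]
  · rw [map_one, tu_false (by simpa using h), Units.val_one]

theorem Sp.spec [Fintype ι] {s : ι → Bool} {p : ι → K} {p' : ι → L} (h : Sp Fa p p')
    (hp : Nz (fun i => s i = true) p') :
    Spec Fa (fun i => tu (s i) (p i)) (fun i => tu (s i) (p' i)) := by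
  intro f hf
  have h1 : ∀ {M : Type} [Field M] [Algebra Fa M] (q : ι → M), Nz (fun i => s i = true) q →
      MvPolynomial.aeval (un fun i => tu (s i) (q i)) f =
        MvPolynomial.aeval q (MvPolynomial.bind₁ (tpol s) f) := by
    intro M _ _ q hq
    rw [MvPolynomial.aeval_bind₁]
    congr 2
    funext i
    exact (aeval_tpol s q hq i).symm
  rw [h1 p' hp]
  rw [h1 p (Nz.of_sp h hp)] at hf
  exact h _ hf

end

/-! ### the rank theory -/

section

variable {K L : Type} [Field K] [Field L] [Algebra Fa K] [Algebra Fa L] {ι κ : Type} [Fintype ι]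
  [Fintype κ]

/-- the rank -/
noncomputable def xrk (s : ι → Bool) (p : ι → K) : ℕ :=
  rkc (fun i => code (s i) (p i)) + rkt (fun i => tu (s i) (p i))

theorem rkc_le_card' {Q : Type} (c : ι → Option Q) (s : Finset ι)
    (h : ∀ i, c i = none ∨ i ∈ s) : rkc c ≤ s.card := by
  classical
  have h2 := rkc_succ c
  have h3 : (insert none (Finset.univ.image c)) ⊆ insert none (s.image c) := by
    intro x hx
    rcases Finset.mem_insert.1 hx with rfl | hx
    · exact Finset.mem_insert_self _ _
    · obtain ⟨i, -, rfl⟩ := Finset.mem_image.1 hx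
      rcases h i with h4 | h4
      · rw [h4]
        exact Finset.mem_insert_self _ _
      · exact Finset.mem_insert_of_mem (Finset.mem_image_of_mem _ h4)
  have h4 := (Finset.card_le_card h3).trans (Finset.card_insert_le _ _)
  have h5 := Finset.card_image_le (s := s) (f := c)
  omega

theorem rkc_le_filter (s : ι → Bool) (p : ι → K) :
    rkc (fun i => code (s i) (p i)) ≤ (Finset.univ.filter fun i => ¬ s i = true).card := by
  refine rkc_le_card' _ _ fun i => ?_
  by_cases hi : s i = true
  · left
    exact (code_none _ _).2 fun h5 => by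
      rw [hi] at h5
      exact absurd h5.symm Bool.false_ne_true
  · right
    exact Finset.mem_filter.2 ⟨Finset.mem_univ _, hi⟩

theorem xrk_cut (s : ι → Bool) (p : ι → K) (p' : ι → L) (h : Sp Fa p p')
    (hp : Nz (fun i => s i = true) p') (a b : ι) (hs : s a = s b) (hab : p a ≠ p b)
    (hab' : p' a = p' b) : xrk s p' + 1 ≤ xrk s p := by
  classical
  have h1 := rkc_spec _ _ (fun i j => h.code_eq' (s := s) i j) (fun i => h.code_none' (s := s) i)
  have h2 := rkt_spec _ _ (h.spec hp).rel_le
  rw [xrk, xrk]
  by_cases hb : s b = false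
  · have h3 := rkc_cut _ _ (fun i j => h.code_eq' (s := s) i j)
      (fun i => h.code_none' (s := s) i) a b (h.code_cut (s := s) a b hs hb hab hab')
    omega
  · have hb' : s b = true := by simpa using hb
    have ha' : s a = true := hs.trans hb'
    have hp' := Nz.of_sp h hp
    have e1 : ∀ {M : Type} [Field M] (q : ι → M), Nz (fun i => s i = true) q →
        ((mon (fun i => tu (s i) (q i)) (Pi.single a 1 - Pi.single b 1) : Mˣ) : M) =
          q a / q b := by
      intro M _ q hq
      rw [sub_eq_add_neg, R948.mon_add, R948.mon_neg, mon_single, mon_single, Units.val_mul,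
        Units.val_inv_eq_inv_val, tu_true ha' (hq a ha'), tu_true hb' (hq b hb'), div_eq_mul_inv]
    have h3 : rkt (fun i => tu (s i) (p' i)) + 1 ≤ rkt (fun i => tu (s i) (p i)) := by
      have h4 : dr (fun i => tu (s i) (p i)) < dr (fun i => tu (s i) (p' i)) := by
        refine Submodule.finrank_lt_finrank_of_lt (lt_of_le_of_ne (h.spec hp).rel_le fun h5 => ?_)
        have h6 : (fun i => ((Pi.single a 1 - Pi.single b 1 : ι → ℤ) i : ℚ)) ∈
            rel (fun i => tu (s i) (p' i)) := by
          rw [R948.mem_rel_int]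
          refine ⟨1, one_pos, ?_⟩
          rw [pow_one]
          apply Units.ext
          rw [e1 p' hp, hab', div_self (hp b hb'), Units.val_one]
        rw [← h5, R948.mem_rel_int] at h6
        obtain ⟨N, hN, h7⟩ := h6
        have h8 : (p a / p b) ^ N = 1 := by
          rw [← e1 p hp', ← Units.val_pow_eq_pow_val, h7, Units.val_one]
        obtain ⟨ξ, -, hξ⟩ := R948.root_mem (F := Fa) hN h8
        have h9 := (h.spec hp).mon (b := Pi.single a 1 - Pi.single b 1) (ξ := ξ)
          ((e1 p hp').trans hξ)
        rw [e1 p' hp, hab', div_self (hp b hb')] at h9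
        have h10 : ξ = 1 := by
          apply (algebraMap Fa L).injective
          rw [← h9, map_one]
        rw [h10, map_one, div_eq_one_iff_eq (hp' b hb')] at hξ
        exact hab hξ
      have h5 := rkt_add_dr (fun i => tu (s i) (p i))
      have h6 := rkt_add_dr (fun i => tu (s i) (p' i))
      omega
    omega

end

/-- the mixed rank theory: the sort `false` is that of the coordinates on `Y(1)`, the sort `true`
that of the coordinates on `G_m` -/
noncomputable def xRT : RT Fa where
  S := Bool
  nz b := b = true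
  rk s p := xrk s p
  rk_card s p := by
    classical
    have h1 := rkc_le_filter s p
    have h2 := rkt_le_filter (fun i => tu (s i) (p i)) (fun i => s i = true)
      (fun i hi => tu_false (by simpa using hi) _)
    have h3 := Finset.card_filter_add_card_filter_not (s := (Finset.univ : Finset _))
      (p := fun i => s i = true)
    rw [Finset.card_univ] at h3
    rw [xrk]
    convert (add_le_add h1 h2).trans _ using 1
    rw [add_comm]
    convert h3.le
  rk_comp s p f := add_le_add (rkc_comp (fun i => code (s i) (p i)) f)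
    (rkt_comp (fun i => tu (s i) (p i)) f)
  rk_add s p := by
    have h1 := rkc_add (fun i => code (s i) (p i))
    have h2 := rkt_add (fun i => tu (s i) (p i))
    simp only [xrk]
    omega
  rk_spec s p p' h hn := add_le_add (rkc_spec _ _ (fun i j => h.code_eq' (s := s) i j)
    (fun i => h.code_none' (s := s) i)) (rkt_spec _ _ (h.spec hn).rel_le)
  rk_rel s p p' h hn := by
    have h1 := rkc_rel _ _ (fun i j => h.code_eq' (s := s) i j)
      (fun i => h.code_none' (s := s) i)
    have h2 := rkt_rel _ _ (h.spec hn).rel_le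
    simp only [xrk]
    omega
  rk_ext {K} _ _ {ι κ} _ _ s p hp := by
    classical
    obtain ⟨J₁, h1, h2⟩ := rkc_ext (fun i => code (s i) (p i))
    obtain ⟨J₂, h3, h4⟩ := rkt_ext (fun i => tu (s i) (p i))
    refine ⟨J₁ ∪ J₂, ?_, fun j => ?_⟩
    · have h5 := Finset.card_union_le J₁ J₂
      simp only [xrk]
      omega
    · have hmem : ∀ i, p (Sum.inl i) ∈ Algebra.adjoin Fa (Set.range (fun i => p (Sum.inl i)) ∪
          (fun i => p (Sum.inr i)) '' ((J₁ ∪ J₂ : Finset κ) : Set κ)) := fun i =>
        Algebra.subset_adjoin (Or.inl ⟨i, rfl⟩)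
      have hmem2 : ∀ i ∈ J₁ ∪ J₂, p (Sum.inr i) ∈ Algebra.adjoin Fa
          (Set.range (fun i => p (Sum.inl i)) ∪
            (fun i => p (Sum.inr i)) '' ((J₁ ∪ J₂ : Finset κ) : Set κ)) := fun i hi =>
        Algebra.subset_adjoin (Or.inr ⟨i, hi, rfl⟩)
      by_cases hs : s (Sum.inr j) = true
      · obtain ⟨N, hN, c, hc⟩ := h4 j
        have h5 := R948.alg_of_zpow (F := Fa) _ _ N hN c hc
        rw [tu_true hs (hp _ hs)] at h5
        refine h5.adjoin_of_forall_isAlgebraic ?_
        rintro x ⟨⟨i | i, rfl⟩, -⟩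
        · by_cases hi : s (Sum.inl i) = true
          · have : un (Sum.elim (fun i => tu (s (Sum.inl i)) (p (Sum.inl i)))
              (fun j : J₂ => tu (s (Sum.inr j)) (p (Sum.inr j)))) (Sum.inl i) =
                p (Sum.inl i) := tu_true hi (hp _ hi)
            rw [this]
            exact isAlgebraic_algebraMap (A := K) (⟨_, hmem i⟩ : Algebra.adjoin Fa _)
          · have : un (Sum.elim (fun i => tu (s (Sum.inl i)) (p (Sum.inl i)))
              (fun j : J₂ => tu (s (Sum.inr j)) (p (Sum.inr j)))) (Sum.inl i) = 1 := by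
              rw [un, Sum.elim_inl, tu_false (by simpa using hi), Units.val_one]
            rw [this]
            exact isAlgebraic_one
        · by_cases hi : s (Sum.inr (i : κ)) = true
          · have : un (Sum.elim (fun i => tu (s (Sum.inl i)) (p (Sum.inl i)))
              (fun j : J₂ => tu (s (Sum.inr j)) (p (Sum.inr j)))) (Sum.inr i) =
                p (Sum.inr (i : κ)) := tu_true hi (hp _ hi)
            rw [this]
            exact isAlgebraic_algebraMap (A := K)
              (⟨_, hmem2 i (Finset.mem_union_right _ i.2)⟩ : Algebra.adjoin Fa _)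
          · have : un (Sum.elim (fun i => tu (s (Sum.inl i)) (p (Sum.inl i)))
              (fun j : J₂ => tu (s (Sum.inr j)) (p (Sum.inr j)))) (Sum.inr i) = 1 := by
              rw [un, Sum.elim_inr, tu_false (by simpa using hi), Units.val_one]
            rw [this]
            exact isAlgebraic_one
      · have hs' : s (Sum.inr j) = false := by simpa using hs
        have hnone : code (s (Sum.inr j)) (p (Sum.inr j)) = none → IsAlgebraic (Algebra.adjoin Fa
            (Set.range (fun i => p (Sum.inl i)) ∪
              (fun i => p (Sum.inr i)) '' ((J₁ ∪ J₂ : Finset κ) : Set κ))) (p (Sum.inr j)) := by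
          intro h5
          rw [hs'] at h5
          exact code_alg_none h5 _
        rcases h2 j with h5 | ⟨i, hi⟩ | ⟨j', hj', hj⟩
        · exact hnone h5
        · by_cases h0 : code (s (Sum.inl i)) (p (Sum.inl i)) = none
          · rw [h0] at hi
            exact hnone hi.symm
          · exact (code_eq hi h0).alg _ (hmem i)
        · by_cases h0 : code (s (Sum.inr j')) (p (Sum.inr j')) = none
          · rw [h0] at hj
            exact hnone hj.symm
          · exact (code_eq hj h0).alg _ (hmem2 j' (Finset.mem_union_left _ hj'))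
  rk_cut s p p' h hn a b hs hab hab' := xrk_cut s p p' h hn a b hs hab hab'

end Pool.Agent.N101.ZP
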