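import Pool.Agent.N101.ZP.ModB

/-!
# The modular rank
-/

set_option autoImplicit false
set_option linter.unusedSectionVars false
set_option linter.style.haveILetI false

namespace Pool.Agent.N101.ZP

open Classical in
/-- the number of values different from `none` -/
noncomputable def rkc {ι Q : Type} [Fintype ι] (c : ι → Option Q) : ℕ :=
  (insert none (Finset.univ.image c)).card - 1

section codes

variable {ι κ Q Q' : Type} [Fintype ι] [Fintype κ]

open Classical in
theorem rkc_succ (c : ι → Option Q) : rkc c + 1 = (insert none (Finset.univ.image c)).card := by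
  have : 0 < (insert none (Finset.univ.image c)).card :=
    Finset.card_pos.2 ⟨none, Finset.mem_insert_self _ _⟩
  rw [rkc]
  omega

theorem rkc_card (c : ι → Option Q) : rkc c ≤ Fintype.card ι := by
  classical
  have h1 := rkc_succ c
  have h2 := Finset.card_insert_le none (Finset.univ.image c)
  have h3 := Finset.card_image_le (s := Finset.univ) (f := c)
  rw [Finset.card_univ] at h3
  omega

theorem rkc_comp (c : ι → Option Q) (f : κ → ι) : rkc (fun j => c (f j)) ≤ rkc c := by
  classical
  have h1 := rkc_succ c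
  have h2 := rkc_succ (fun j => c (f j))
  have h3 : (insert none (Finset.univ.image fun j => c (f j))) ⊆
      (insert none (Finset.univ.image c)) := by
    apply Finset.insert_subset_insert
    intro x hx
    obtain ⟨j, -, rfl⟩ := Finset.mem_image.1 hx
    exact Finset.mem_image_of_mem c (Finset.mem_univ _)
  have h4 := Finset.card_le_card h3
  omega

theorem rkc_add (c : ι ⊕ κ → Option Q) :
    rkc c ≤ rkc (fun i => c (Sum.inl i)) + rkc (fun i => c (Sum.inr i)) := by
  classical
  have h1 := rkc_succ c
  have h2 := rkc_succ (fun i => c (Sum.inl i))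
  have h3 := rkc_succ (fun i => c (Sum.inr i))
  have h4 : (insert none (Finset.univ.image c)) ⊆
      (insert none (Finset.univ.image fun i => c (Sum.inl i))) ∪
        (insert none (Finset.univ.image fun i => c (Sum.inr i))) := by
    intro x hx
    rcases Finset.mem_insert.1 hx with rfl | hx
    · exact Finset.mem_union_left _ (Finset.mem_insert_self _ _)
    · obtain ⟨i | j, -, rfl⟩ := Finset.mem_image.1 hx
      · exact Finset.mem_union_left _ (Finset.mem_insert_of_mem
          (Finset.mem_image_of_mem (fun i => c (Sum.inl i)) (Finset.mem_univ i)))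
      · exact Finset.mem_union_right _ (Finset.mem_insert_of_mem
          (Finset.mem_image_of_mem (fun i => c (Sum.inr i)) (Finset.mem_univ j)))
  have h5 := Finset.card_le_card h4
  have h6 := Finset.card_union_add_card_inter
    (insert none (Finset.univ.image fun i => c (Sum.inl i)))
    (insert none (Finset.univ.image fun i => c (Sum.inr i)))
  have h7 : 0 < ((insert none (Finset.univ.image fun i => c (Sum.inl i))) ∩
      (insert none (Finset.univ.image fun i => c (Sum.inr i)))).card :=
    Finset.card_pos.2 ⟨none, Finset.mem_inter.2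
      ⟨Finset.mem_insert_self _ _, Finset.mem_insert_self _ _⟩⟩
  omega

/-- maps of codes -/
theorem exists_map (c : ι → Option Q) (c' : ι → Option Q') (h : ∀ i j, c i = c j → c' i = c' j)
    (h0 : ∀ i, c i = none → c' i = none) :
    ∃ g : Option Q → Option Q', g none = none ∧ ∀ i, c' i = g (c i) := by
  classical
  refine ⟨fun x => if hx : ∃ i, c i = x then c' hx.choose else none, ?_, ?_⟩
  · change (if hx : ∃ i, c i = none then c' hx.choose else none) = none
    split_ifs with hx
    · exact h0 _ hx.choose_spec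
    · rfl
  · intro i
    have hx : ∃ j, c j = c i := ⟨i, rfl⟩
    change c' i = if hx : ∃ j, c j = c i then c' hx.choose else none
    rw [dif_pos hx]
    exact h _ _ hx.choose_spec.symm

open Classical in
theorem image_map {c : ι → Option Q} {c' : ι → Option Q'} {g : Option Q → Option Q'}
    (h0 : g none = none) (h : ∀ i, c' i = g (c i)) :
    (insert none (Finset.univ.image c')) = (insert none (Finset.univ.image c)).image g := by
  rw [Finset.image_insert, h0, Finset.image_image]
  congr 1
  refine Finset.image_congr fun i _ => h i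

theorem rkc_spec (c : ι → Option Q) (c' : ι → Option Q') (h : ∀ i j, c i = c j → c' i = c' j)
    (h0 : ∀ i, c i = none → c' i = none) : rkc c' ≤ rkc c := by
  classical
  obtain ⟨g, hg0, hg⟩ := exists_map c c' h h0
  have h1 := rkc_succ c
  have h2 := rkc_succ c'
  rw [image_map hg0 hg] at h2
  have h3 := Finset.card_image_le (s := insert none (Finset.univ.image c)) (f := g)
  omega

theorem rkc_rel (c : ι ⊕ κ → Option Q) (c' : ι ⊕ κ → Option Q')
    (h : ∀ i j, c i = c j → c' i = c' j) (h0 : ∀ i, c i = none → c' i = none) :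
    rkc c' + rkc (fun i => c (Sum.inl i)) ≤ rkc c + rkc (fun i => c' (Sum.inl i)) := by
  classical
  obtain ⟨g, hg0, hg⟩ := exists_map c c' h h0
  have h1 := rkc_succ c
  have h2 := rkc_succ c'
  have h3 := rkc_succ (fun i => c (Sum.inl i))
  have h4 := rkc_succ (fun i => c' (Sum.inl i))
  rw [image_map hg0 hg] at h2
  rw [image_map (c := fun i => c (Sum.inl i)) (c' := fun i => c' (Sum.inl i)) hg0
    (fun i => hg (Sum.inl i))] at h4
  obtain ⟨R, hR⟩ : ∃ R, R = (insert none (Finset.univ.image c)) := ⟨_, rfl⟩
  obtain ⟨A, hA⟩ : ∃ A, A = (insert none (Finset.univ.image fun i => c (Sum.inl i))) := ⟨_, rfl⟩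
  rw [← hR] at h1 h2
  rw [← hA] at h3 h4
  have hAR : A ⊆ R := by
    rw [hA, hR]
    apply Finset.insert_subset_insert
    intro x hx
    obtain ⟨j, -, rfl⟩ := Finset.mem_image.1 hx
    exact Finset.mem_image_of_mem c (Finset.mem_univ _)
  have h5 : R.image g ⊆ A.image g ∪ (R \ A).image g := by
    rw [← Finset.image_union, Finset.union_sdiff_of_subset hAR]
  have h6 := (Finset.card_le_card h5).trans (Finset.card_union_le _ _)
  have h7 := Finset.card_image_le (s := R \ A) (f := g)
  have h8 := Finset.card_sdiff_add_card_eq_card hAR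
  omega

theorem rkc_cut (c : ι → Option Q) (c' : ι → Option Q') (h : ∀ i j, c i = c j → c' i = c' j)
    (h0 : ∀ i, c i = none → c' i = none) (a b : ι)
    (hab : (c a ≠ c b ∧ c' a = c' b) ∨ (c a ≠ none ∧ c' a = none)) : rkc c' + 1 ≤ rkc c := by
  classical
  obtain ⟨g, hg0, hg⟩ := exists_map c c' h h0
  have h1 := rkc_succ c
  have h2 := rkc_succ c'
  rw [image_map hg0 hg] at h2
  obtain ⟨R, hR⟩ : ∃ R, R = (insert none (Finset.univ.image c)) := ⟨_, rfl⟩
  rw [← hR] at h1 h2
  have hm : ∀ i, c i ∈ R := fun i => by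
    rw [hR]
    exact Finset.mem_insert_of_mem (Finset.mem_image_of_mem c (Finset.mem_univ i))
  have hm0 : none ∈ R := by
    rw [hR]
    exact Finset.mem_insert_self _ _
  have h3 : (R.image g).card < R.card := by
    refine lt_of_le_of_ne Finset.card_image_le fun h4 => ?_
    rw [Finset.card_image_iff] at h4
    rcases hab with ⟨h5, h6⟩ | ⟨h5, h6⟩
    · exact h5 (h4 (hm a) (hm b) (by rw [← hg, ← hg, h6]))
    · exact h5 (h4 (hm a) hm0 (by rw [← hg, h6, hg0]))
  omega

theorem rkc_ext (c : ι ⊕ κ → Option Q) : ∃ J : Finset κ,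
    J.card + rkc (fun i => c (Sum.inl i)) ≤ rkc c ∧
    ∀ j, c (Sum.inr j) = none ∨ (∃ i, c (Sum.inl i) = c (Sum.inr j)) ∨
      ∃ j' ∈ J, c (Sum.inr j') = c (Sum.inr j) := by
  classical
  have h1 := rkc_succ c
  have h3 := rkc_succ (fun i => c (Sum.inl i))
  obtain ⟨R, hR⟩ : ∃ R, R = (insert none (Finset.univ.image c)) := ⟨_, rfl⟩
  obtain ⟨A, hA⟩ : ∃ A, A = (insert none (Finset.univ.image fun i => c (Sum.inl i))) := ⟨_, rfl⟩
  rw [← hR] at h1
  rw [← hA] at h3
  have hAR : A ⊆ R := by
    rw [hA, hR]
    apply Finset.insert_subset_insert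
    intro x hx
    obtain ⟨j, -, rfl⟩ := Finset.mem_image.1 hx
    exact Finset.mem_image_of_mem c (Finset.mem_univ _)
  have h4 : ∀ x ∈ R \ A, ∃ j, c (Sum.inr j) = x := by
    intro x hx
    rw [Finset.mem_sdiff, hR, Finset.mem_insert] at hx
    obtain ⟨hx1, hx2⟩ := hx
    rcases hx1 with rfl | hx1
    · exact absurd (by rw [hA]; exact Finset.mem_insert_self _ _) hx2
    · obtain ⟨i | j, -, rfl⟩ := Finset.mem_image.1 hx1
      · refine absurd ?_ hx2
        rw [hA]
        exact Finset.mem_insert_of_mem
          (Finset.mem_image_of_mem (fun i => c (Sum.inl i)) (Finset.mem_univ i))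
      · exact ⟨j, rfl⟩
  choose g hg using h4
  refine ⟨(R \ A).attach.image fun x => g x.1 x.2, ?_, ?_⟩
  · have h5 := Finset.card_image_le (s := (R \ A).attach) (f := fun x => g x.1 x.2)
    rw [Finset.card_attach] at h5
    have h8 := Finset.card_sdiff_add_card_eq_card hAR
    omega
  · intro j
    by_cases hj : c (Sum.inr j) ∈ A
    · rw [hA, Finset.mem_insert] at hj
      rcases hj with hj | hj
      · exact Or.inl hj
      · obtain ⟨i, -, hi⟩ := Finset.mem_image.1 hj
        exact Or.inr (Or.inl ⟨i, hi⟩)
    · have hjR : c (Sum.inr j) ∈ R \ A := by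
        rw [Finset.mem_sdiff, hR]
        exact ⟨Finset.mem_insert_of_mem (Finset.mem_image_of_mem c (Finset.mem_univ _)), hj⟩
      exact Or.inr (Or.inr ⟨g _ hjR, Finset.mem_image.2 ⟨⟨_, hjR⟩, Finset.mem_attach _ _, rfl⟩,
        hg _ hjR⟩)

end codes

section

variable {K L : Type} [Field K] [Algebra Fa K] [Field L] [Algebra Fa L]

/-- isogeny as an equivalence relation -/
def isoS (K : Type) [Field K] [Algebra Fa K] : Setoid K :=
  ⟨Iso, ⟨Iso.refl, Iso.symm, Iso.trans⟩⟩

open Classical in
/-- the isogeny class of an element which is not special -/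
noncomputable def code (b : Bool) (x : K) : Option (Quotient (isoS K)) :=
  if b = false ∧ ¬ Cm x then some (Quotient.mk (isoS K) x) else none

theorem code_none (b : Bool) (x : K) : code b x = none ↔ (b = false → Cm x) := by
  classical
  unfold code
  split_ifs with h
  · simp only [false_iff]
    exact fun h1 => h.2 (h1 h.1)
  · simp only [true_iff]
    intro hb
    by_contra h1
    exact h ⟨hb, h1⟩

theorem code_some (b : Bool) (x : K) (h : code b x ≠ none) :
    b = false ∧ ¬ Cm x ∧ code b x = some (Quotient.mk (isoS K) x) := by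
  classical
  by_cases h1 : b = false ∧ ¬ Cm x
  · exact ⟨h1.1, h1.2, if_pos h1⟩
  · exact absurd (if_neg h1) h

theorem code_eq {b b' : Bool} {x y : K} (h : code b x = code b' y) (h0 : code b x ≠ none) :
    Iso x y := by
  obtain ⟨-, -, h1⟩ := code_some b x h0
  obtain ⟨-, -, h2⟩ := code_some b' y (h ▸ h0)
  rw [h1, h2, Option.some.injEq] at h
  exact Quotient.exact h

theorem code_eq_of_iso {x y : K} (h : Iso x y) : code false x = code false y := by
  classical
  by_cases hx : Cm x
  · have hy : Cm y := hx.iso h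
    rw [(code_none false x).2 fun _ => hx, (code_none false y).2 fun _ => hy]
  · have hy : ¬ Cm y := fun hy => hx (hy.iso h.symm)
    unfold code
    rw [if_pos ⟨rfl, hx⟩, if_pos ⟨rfl, hy⟩, Option.some.injEq]
    exact Quotient.sound h

theorem Sp.cm {ι : Type} {p : ι → K} {p' : ι → L} (h : Sp Fa p p') {a : ι} (ha : Cm (p a)) :
    Cm (p' a) := by
  obtain ⟨τ, t, h1, h2, h3⟩ := ha
  exact ⟨τ, t, h1, h2, h.const h3⟩

theorem Sp.iso {ι : Type} {p : ι → K} {p' : ι → L} (h : Sp Fa p p') {a b : ι}
    (ha : Iso (p a) (p b)) : Iso (p' a) (p' b) := by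
  obtain ⟨N, hN, h1⟩ := ha
  exact ⟨N, hN, h.ev2 h1⟩

theorem Sp.code_none' {ι : Type} {s : ι → Bool} {p : ι → K} {p' : ι → L} (h : Sp Fa p p') (i : ι)
    (hi : code (s i) (p i) = none) : code (s i) (p' i) = none := by
  rw [code_none] at hi ⊢
  exact fun hb => h.cm (hi hb)

theorem Sp.code_eq' {ι : Type} {s : ι → Bool} {p : ι → K} {p' : ι → L} (h : Sp Fa p p') (i j : ι)
    (hij : code (s i) (p i) = code (s j) (p j)) : code (s i) (p' i) = code (s j) (p' j) := by
  by_cases h0 : code (s i) (p i) = none
  · rw [h.code_none' i h0, h.code_none' j (by rw [← hij, h0])]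
  · have h1 := code_eq hij h0
    have h2 := (code_some _ _ h0).1
    have h3 := (code_some (s j) (p j) (hij ▸ h0)).1
    rw [h2, h3]
    exact code_eq_of_iso (h.iso h1)

theorem Sp.code_cut {ι : Type} {s : ι → Bool} {p : ι → K} {p' : ι → L} (h : Sp Fa p p') (a b : ι)
    (hs : s a = s b) (hb : s b = false) (hab : p a ≠ p b) (hab' : p' a = p' b) :
    (code (s a) (p a) ≠ code (s b) (p b) ∧ code (s a) (p' a) = code (s b) (p' b)) ∨
      (code (s a) (p a) ≠ none ∧ code (s a) (p' a) = none) := by
  rw [hs, hb]
  by_cases h0 : code false (p a) = code false (p b)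
  · right
    by_cases h1 : code false (p a) = none
    · exfalso
      have h2 : code false (p b) = none := by rw [← h0, h1]
      rw [code_none] at h1 h2
      obtain ⟨τ, t, -, -, h3⟩ := h1 rfl
      obtain ⟨τ', t', -, -, h4⟩ := h2 rfl
      have h5 := h.const h3
      have h6 := h.const h4
      rw [hab', h6] at h5
      have h7 := (algebraMap Fa L).injective h5
      rw [h3, h4, h7] at hab
      exact hab rfl
    · refine ⟨h1, ?_⟩
      rw [code_none]
      intro _
      refine cut_cm (fun P hP => ?_) (code_eq h0 h1) hab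
      have h2 := h.ev2 (P := P) (a := a) (b := b) hP
      rw [← hab'] at h2
      exact h2
  · left
    exact ⟨h0, by rw [hab']⟩

theorem code_alg_none {x : K} (h : code false x = none) (A : Subalgebra Fa K) :
    IsAlgebraic A x := by
  rw [code_none] at h
  obtain ⟨τ, t, -, -, rfl⟩ := h rfl
  exact isAlgebraic_algebraMap (A := K) (algebraMap Fa A t)

end

/-- the modular rank theory -/
noncomputable def mRT : RT Fa where
  S := Unit
  nz _ := False
  rk _ p := rkc (fun i => code false (p i))
  rk_card _ p := rkc_card _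
  rk_comp _ p f := rkc_comp (fun i => code false (p i)) f
  rk_add _ p := rkc_add (fun i => code false (p i))
  rk_spec _ p p' h _ := rkc_spec _ _ (fun i j => h.code_eq' (s := fun _ => false) i j)
    (fun i => h.code_none' (s := fun _ => false) i)
  rk_rel _ p p' h _ := rkc_rel _ _ (fun i j => h.code_eq' (s := fun _ => false) i j)
    (fun i => h.code_none' (s := fun _ => false) i)
  rk_ext _ p _ := by
    obtain ⟨J, h1, h2⟩ := rkc_ext (fun i => code false (p i))
    refine ⟨J, h1, fun j => ?_⟩
    rcases h2 j with h3 | ⟨i, hi⟩ | ⟨j', hj', hj⟩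
    · exact code_alg_none h3 _
    · by_cases h0 : code false (p (Sum.inl i)) = none
      · rw [h0] at hi
        exact code_alg_none hi.symm _
      · exact (code_eq hi h0).alg _ (Algebra.subset_adjoin (Or.inl ⟨i, rfl⟩))
    · by_cases h0 : code false (p (Sum.inr j')) = none
      · rw [h0] at hj
        exact code_alg_none hj.symm _
      · exact (code_eq hj h0).alg _ (Algebra.subset_adjoin (Or.inr ⟨j', hj', rfl⟩))
  rk_cut _ p p' h _ a b _ hab hab' := rkc_cut _ _ (fun i j => h.code_eq' (s := fun _ => false) i j)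
    (fun i => h.code_none' (s := fun _ => false) i) a b
    (h.code_cut (s := fun _ => false) a b rfl rfl hab hab')

end Pool.Agent.N101.ZP
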