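import Pool.Agent.N101.ZP.Gen

/-!
# Descent to the field of algebraic numbers
-/

set_option autoImplicit false
set_option linter.unusedSectionVars false
set_option linter.style.haveILetI false

namespace Pool.Agent.N101.ZP

open MvPolynomial Pool.Agent.R948

section

variable {F : Type} [Field F] {ι κ : Type} [Fintype ι] [Fintype κ]

attribute [local instance] MvPolynomial.algebraMvPolynomial

theorem exists_over (k : Type) [Field k] [Algebra F k] [IsAlgClosed F] (q : PP F ι) :
    ∃ b : PP k ι,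
      b.I ∈ (q.I.map (algebraMap (MvPolynomial ι F) (MvPolynomial ι k))).minimalPrimes := by
  obtain ⟨φ, -⟩ := exists_point (k := F) (one_ne_zero (α := MvPolynomial ι F ⧸ q.I))
  let a : ι → F := fun i => φ (cp q.I i)
  have ha : ∀ f ∈ q.I, aeval a f = 0 := by
    intro f hf
    have h1 := aeval_hom φ (cp q.I) f
    rw [(aeval_cp_eq_zero q.I f).2 hf, map_zero] at h1
    exact h1
  let m : Ideal (MvPolynomial ι k) :=
    RingHom.ker (aeval (fun i => algebraMap F k (a i)) : MvPolynomial ι k →ₐ[k] k)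
  have hm : m.IsPrime := RingHom.ker_isPrime _
  have hle : q.I.map (algebraMap (MvPolynomial ι F) (MvPolynomial ι k)) ≤ m := by
    rw [Ideal.map_le_iff_le_comap]
    intro f hf
    change aeval (fun i => algebraMap F k (a i)) (MvPolynomial.map (algebraMap F k) f) = 0
    rw [MvPolynomial.aeval_map_algebraMap]
    have h1 := aeval_hom (Algebra.ofId F k) a f
    have h2 : aeval (fun i => algebraMap F k (a i)) f = Algebra.ofId F k (aeval a f) := h1
    rw [h2, ha f hf, map_zero]
  obtain ⟨b, hb, -⟩ := Ideal.exists_minimalPrimes_le hle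
  exact ⟨⟨b, hb.1.1⟩, hb⟩

theorem lies {k : Type} [Field k] [Algebra F k] (q : PP F ι) (b : PP k ι)
    (hb : b.I ∈ (q.I.map (algebraMap (MvPolynomial ι F) (MvPolynomial ι k))).minimalPrimes)
    (f : MvPolynomial ι F) : MvPolynomial.map (algebraMap F k) f ∈ b.I ↔ f ∈ q.I := by
  have hflat : Module.Flat (MvPolynomial ι F) (MvPolynomial ι k) := by
    have h1 : Algebra.IsPushout F (MvPolynomial ι F) k (MvPolynomial ι k) := inferInstance
    exact Module.Flat.isBaseChange F (MvPolynomial ι F) k (MvPolynomial ι k) h1.out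
  have hgd : Algebra.HasGoingDown (MvPolynomial ι F) (MvPolynomial ι k) := inferInstance
  have hle : q.I ≤ b.I.under (MvPolynomial ι F) := Ideal.map_le_iff_le_comap.1 hb.1.2
  have hlies : b.I.LiesOver q.I := by
    obtain ⟨p, hp1, hp2, hp3⟩ := Ideal.exists_ideal_le_liesOver_of_le (p := q.I)
      (q := b.I.under (MvPolynomial ι F)) b.I hle
    have h1 : q.I.map (algebraMap (MvPolynomial ι F) (MvPolynomial ι k)) ≤ p := by
      rw [Ideal.map_le_iff_le_comap, hp3.over]
    have h2 : b.I ≤ p := hb.2 ⟨hp2, h1⟩ hp1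
    have h3 : p = b.I := le_antisymm hp1 h2
    rw [← h3]
    exact hp3
  rw [hlies.over]
  exact Iff.rfl

theorem td_le_td {k K : Type} [Field k] [Field K] [Algebra F k] [Algebra k K] [Algebra F K]
    [IsScalarTower F k K] (p : ι → K) : td k p ≤ td F p := by
  obtain ⟨S, hS, hS2, -⟩ := exists_td k p
  rw [← hS]
  exact le_td F (hS2.restrictScalars (algebraMap F k).injective)

theorem aevalZ {ι K : Type} [CommRing K] (i₁ i₂ : Algebra ℤ K) (y : ι → K)
    (H : MvPolynomial ι ℤ) : @aeval ℤ K ι _ _ i₁ y H = @aeval ℤ K ι _ _ i₂ y H := by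
  rw [Subsingleton.elim i₁ i₂]

/-- the ideal of a list of integral polynomials -/
noncomputable def spanZ (k : Type) [Field k] {ι : Type} (LL : List (MvPolynomial ι ℤ)) :
    Ideal (MvPolynomial ι k) :=
  Ideal.span {f | ∃ H ∈ LL, f = MvPolynomial.map (algebraMap ℤ k) H}

theorem spanZ_le {k : Type} [Field k] [Algebra F k] (LL : List (MvPolynomial ι ℤ)) (P : PP k ι) :
    spanZ k LL ≤ P.I ↔ (polsZ (F := F) LL).sat P.pt := by
  rw [spanZ, Ideal.span_le]
  constructor
  · intro h1 H hH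
    have h2 := h1 ⟨H, hH, rfl⟩
    have h3 : MvPolynomial.map (algebraMap ℤ k) H ∈ P.I := h2
    rw [← PP.aeval_pt_eq_zero, MvPolynomial.aeval_map_algebraMap] at h3
    rw [← h3]
    exact aevalZ _ _ _ _
  · rintro h1 _ ⟨H, hH, rfl⟩
    have h3 : MvPolynomial.map (algebraMap ℤ k) H ∈ P.I := by
      rw [← PP.aeval_pt_eq_zero, MvPolynomial.aeval_map_algebraMap]
      rw [← h1 H hH]
      exact aevalZ _ _ _ _
    exact h3

/-- **Descent.** -/
theorem desc {T : RT F} [IsAlgClosed F] {k : Type} [Field k] [Algebra F k] (s : ι → T.S)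
    (LL : List (MvPolynomial ι ℤ))
    (h : FinI T k s (spanZ k LL)) : FinC T s (polsZ LL) := by
  obtain ⟨B, hB, h⟩ := h
  refine ⟨(fun P : PP k ι => PP.ofPt F P.pt) '' B, hB.image _, ?_⟩
  intro K _ _ y hy hLL _
  obtain ⟨Q₀, hQ₀⟩ : ∃ Q₀, Q₀ = PP.ofPt F y := ⟨_, rfl⟩
  obtain ⟨b, hb⟩ := exists_over k Q₀
  have hl := lies Q₀ b hb
  have s1 : Sp F b.pt y := by
    intro f hf
    have h1 : MvPolynomial.map (algebraMap F k) f ∈ b.I := by
      rw [← PP.aeval_pt_eq_zero, MvPolynomial.aeval_map_algebraMap]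
      exact hf
    rw [hl, hQ₀] at h1
    exact h1
  have s2 : Sp F y b.pt := by
    intro f hf
    have h1 : f ∈ Q₀.I := by
      rw [hQ₀]
      exact hf
    rw [← hl, ← PP.aeval_pt_eq_zero, MvPolynomial.aeval_map_algebraMap] at h1
    exact h1
  have hbok : T.Ok s b.pt := RT.Ok.of_sp s1 hy
  have hbI : spanZ k LL ≤ b.I :=
    (spanZ_le (F := F) LL b).2 ((polsZ (F := F) LL).closed _ _ s2 hLL)
  obtain ⟨P, hP, hP1, hP2, hP3⟩ := h b hbok hbI
  have hPb : Sp F P.pt b.pt := sp_restrict (F := F) (PP.sp_of_le (F := k) hP2)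
  have e1 := PP.sp_ofPt (F := F) P.pt
  have e2 := PP.sp_ofPt' (F := F) P.pt
  have hPok : T.Ok s P.pt := RT.Ok.of_sp (hPb.trans s1) hy
  refine ⟨_, ⟨P, hP, rfl⟩, e1.trans (hPb.trans s1), ?_, ?_⟩
  · exact (polsZ (F := F) LL).closed _ _ e2 ((spanZ_le (F := F) LL P).1 hP1)
  · rw [T.df_eq s _ _ e1 e2 hPok]
    have h1 : T.df F s P.pt ≤ T.df k s P.pt := by
      have := td_le_td (F := F) (k := k) P.pt
      rw [RT.df, RT.df]
      omega
    have h2 : T.df k s b.pt ≤ T.df F s y := by
      have e3 : T.rk s b.pt = T.rk s y := T.rk_eq s _ _ s1 s2 hy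
      have e4 : td F y ≤ tdP b.I := by
        rw [← td_ofPt (F := F) y, ← hQ₀]
        exact base_change Q₀.I b.I hb
      rw [RT.df, RT.df, e3, PP.td_pt]
      omega
    exact h1.trans (hP3.trans h2)

end

end Pool.Agent.N101.ZP
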