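import Pool.Agent.N101.ZP.Cut

/-!
# Finiteness for closed conditions
-/

set_option autoImplicit false
set_option linter.unusedSectionVars false
set_option linter.style.haveILetI false

namespace Pool.Agent.N101.ZP

open MvPolynomial Pool.Agent.R948

/-- closed conditions on points -/
structure Cond (F ι : Type) [Field F] where
  sat : ∀ {K : Type} [Field K] [Algebra F K], (ι → K) → Prop
  closed : ∀ {K L : Type} [Field K] [Algebra F K] [Field L] [Algebra F L] (p : ι → K)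
    (p' : ι → L), Sp F p p' → sat p → sat p'

namespace Cond

variable {F : Type} [Field F] {ι κ : Type}

/-- the trivial condition -/
def top : Cond F ι := ⟨fun _ => True, fun _ _ _ _ => trivial⟩

/-- conjunction -/
def and (C D : Cond F ι) : Cond F ι :=
  ⟨fun y => C.sat y ∧ D.sat y, fun p p' h hp => ⟨C.closed p p' h hp.1, D.closed p p' h hp.2⟩⟩

/-- a condition on some of the coordinates -/
def comap (f : κ → ι) (C : Cond F κ) : Cond F ι :=
  ⟨fun y => C.sat (fun j => y (f j)), fun _ _ h hp => C.closed _ _ (fun g hg => by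
    have h1 := h (rename f g) (by rw [aeval_rename]; exact hg)
    rw [aeval_rename] at h1
    exact h1) hp⟩

/-- a list of conditions -/
def list (C : Cond F κ) (L : List (κ → ι)) : Cond F ι :=
  ⟨fun y => ∀ e ∈ L, C.sat (fun j => y (e j)), fun p p' h hp e he =>
    (C.comap e).closed p p' h (hp e he)⟩

/-- the condition of equality of coordinates -/
def eqs (E : List (ι × ι)) : Cond F ι :=
  ⟨fun y => ∀ e ∈ E, y e.1 = y e.2, fun _ _ h hp e he => h.eq (hp e he)⟩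

/-- the condition that polynomials vanish -/
noncomputable def pols (L : List (MvPolynomial ι F)) : Cond F ι :=
  ⟨fun y => ∀ f ∈ L, aeval y f = 0, fun _ _ h hp f hf => h f (hp f hf)⟩

end Cond

section

variable {F : Type} [Field F] {T : RT F} {ι κ : Type} [Fintype ι] [Fintype κ]

/-- finiteness for a condition, for the points which satisfy `D` -/
def FinR (T : RT F) {ι : Type} [Fintype ι] (s : ι → T.S)
    (D : ∀ {K : Type} [Field K] [Algebra F K], (ι → K) → Prop) (C : Cond F ι) : Prop :=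
  ∃ B : Set (PP F ι), B.Finite ∧ ∀ (K : Type) [Field K] [Algebra F K] (y : ι → K),
    T.Ok s y → C.sat y → D y → ∃ P ∈ B, Sp F P.pt y ∧ C.sat P.pt ∧ T.df F s P.pt ≤ T.df F s y

/-- finiteness for a condition -/
def FinC (T : RT F) {ι : Type} [Fintype ι] (s : ι → T.S) (C : Cond F ι) : Prop :=
  FinR T s (fun _ => True) C

/-- special conditions -/
def SpC (T : RT F) {ι : Type} [Fintype ι] (s : ι → T.S) (C : Cond F ι) : Prop :=
  ∃ B : Set (PP F ι), B.Finite ∧ ∀ (K : Type) [Field K] [Algebra F K] (y : ι → K),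
    T.Ok s y → C.sat y → ∃ P ∈ B, Sp F P.pt y ∧ C.sat P.pt ∧ T.rk s P.pt ≤ td F P.pt

theorem FinR.congr {s : ι → T.S} {D D' : ∀ {K : Type} [Field K] [Algebra F K], (ι → K) → Prop}
    {C C' : Cond F ι} (h : FinR T s D C)
    (h1 : ∀ (K : Type) [Field K] [Algebra F K] (y : ι → K), T.Ok s y → (C'.sat y ↔ C.sat y))
    (h2 : ∀ (K : Type) [Field K] [Algebra F K] (y : ι → K), T.Ok s y → C.sat y → D' y → D y) :
    FinR T s D' C' := by
  obtain ⟨B, hB, h⟩ := h
  refine ⟨B, hB, fun K _ _ y hy hC hD => ?_⟩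
  have hC' := (h1 K y hy).1 hC
  obtain ⟨P, hP, hP1, hP2, hP3⟩ := h K y hy hC' (h2 K y hy hC' hD)
  exact ⟨P, hP, hP1, (h1 _ _ (RT.Ok.of_sp hP1 hy)).2 hP2, hP3⟩

theorem FinR.union {s : ι → T.S} {D D₁ D₂ : ∀ {K : Type} [Field K] [Algebra F K], (ι → K) → Prop}
    {C : Cond F ι} (h₁ : FinR T s D₁ C) (h₂ : FinR T s D₂ C)
    (h : ∀ (K : Type) [Field K] [Algebra F K] (y : ι → K), T.Ok s y → C.sat y → D y →
      D₁ y ∨ D₂ y) : FinR T s D C := by
  obtain ⟨B₁, hB₁, h₁⟩ := h₁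
  obtain ⟨B₂, hB₂, h₂⟩ := h₂
  refine ⟨B₁ ∪ B₂, hB₁.union hB₂, fun K _ _ y hy hC hD => ?_⟩
  rcases h K y hy hC hD with h3 | h3
  · obtain ⟨P, hP, hP2⟩ := h₁ K y hy hC h3
    exact ⟨P, Or.inl hP, hP2⟩
  · obtain ⟨P, hP, hP2⟩ := h₂ K y hy hC h3
    exact ⟨P, Or.inr hP, hP2⟩

/-- products with special conditions, and cuts -/
theorem lemP [IsAlgClosed F] {s : ι → T.S} {s' : κ → T.S} {C : Cond F ι} {D : Cond F κ}
    (hC : FinC T s C) (hD : SpC T s' D) (E : List ((ι ⊕ κ) × (ι ⊕ κ)))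
    (hE : ∀ e ∈ E, Sum.elim s s' e.1 = Sum.elim s s' e.2) :
    FinC T (Sum.elim s s') (((C.comap Sum.inl).and (D.comap Sum.inr)).and (Cond.eqs E)) := by
  obtain ⟨B₁, hB₁, h₁⟩ := hC
  obtain ⟨B₂, hB₂, h₂⟩ := hD
  refine ⟨⋃ P ∈ B₁, ⋃ Q ∈ B₂, cutset (exists_prod P Q).choose E,
    hB₁.biUnion fun P _ => hB₂.biUnion fun Q _ => cutset_finite _ _, ?_⟩
  rintro K _ _ y hy ⟨⟨hCy, hDy⟩, hEy⟩ -
  obtain ⟨P, hP, hP1, hP2, hP3⟩ := h₁ K (fun i => y (Sum.inl i)) (hy.comp Sum.inl) hCy trivial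
  obtain ⟨Q, hQ, hQ1, hQ2, hQ3⟩ := h₂ K (fun i => y (Sum.inr i)) (hy.comp Sum.inr) hDy
  obtain ⟨hR1, hR2, hR3, hR4⟩ := (exists_prod P Q).choose_spec
  obtain ⟨R, hR⟩ : ∃ R, R = (exists_prod P Q).choose := ⟨_, rfl⟩
  rw [← hR] at hR1 hR2 hR3 hR4
  have hRy := hR3 K y hP1 hQ1
  have hRok : T.Ok (Sum.elim s s') R.pt := RT.Ok.of_sp hRy hy
  obtain ⟨Z, hZ, hZ1, hZ2, hZ3, hZ4⟩ := cut T (Sum.elim s s') y hy E R hRy
    (fun e he => ⟨hE e he, hEy e he⟩)
  have hPR : Sp F P.pt (fun i => R.pt (Sum.inl i)) := fun f hf =>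
    (hR1 f).2 ((P.aeval_pt_eq_zero f).1 hf)
  have hRP : Sp F (fun i => R.pt (Sum.inl i)) P.pt := fun f hf =>
    (P.aeval_pt_eq_zero f).2 ((hR1 f).1 hf)
  have hQR : Sp F Q.pt (fun i => R.pt (Sum.inr i)) := fun f hf =>
    (hR2 f).2 ((Q.aeval_pt_eq_zero f).1 hf)
  have hRQ : Sp F (fun i => R.pt (Sum.inr i)) Q.pt := fun f hf =>
    (Q.aeval_pt_eq_zero f).2 ((hR2 f).1 hf)
  refine ⟨Z, Set.mem_biUnion hP (Set.mem_biUnion hQ (by rw [← hR]; exact hZ)), hZ2,
    ⟨⟨?_, ?_⟩, hZ3⟩, ?_⟩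
  · exact C.closed _ _ (hPR.trans (hZ1.comp Sum.inl)) hP2
  · exact D.closed _ _ (hQR.trans (hZ1.comp Sum.inr)) hQ2
  · have e1 : T.rk s (fun i => R.pt (Sum.inl i)) = T.rk s P.pt :=
      (T.rk_eq s P.pt _ hPR hRP (hRok.comp Sum.inl)).symm
    have e2 : T.rk s' (fun i => R.pt (Sum.inr i)) = T.rk s' Q.pt :=
      (T.rk_eq s' Q.pt _ hQR hRQ (hRok.comp Sum.inr)).symm
    have e3 : T.rk (Sum.elim s s') R.pt ≤ T.rk s (fun i => R.pt (Sum.inl i)) +
      T.rk s' (fun i => R.pt (Sum.inr i)) := T.rk_add (Sum.elim s s') R.pt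
    have e4 : T.df F s (fun i => y (Sum.inl i)) ≤ T.df F (Sum.elim s s') y :=
      T.df_inl (Sum.elim s s') y hy
    rw [RT.df, RT.df] at *
    omega

/-- forgetting auxiliary coordinates -/
theorem FinR.proj {s : ι → T.S} {s' : κ → T.S} {C : Cond F ι}
    {D : ∀ {K : Type} [Field K] [Algebra F K], (ι → K) → Prop} {C' : Cond F (ι ⊕ κ)}
    (h : FinC T (Sum.elim s s') C')
    (h1 : ∀ (K : Type) [Field K] [Algebra F K] (y : ι → K), T.Ok s y → C.sat y → D y →
      ∃ (L : Type) (_ : Field L) (_ : Algebra F L) (z : ι ⊕ κ → L), T.Ok (Sum.elim s s') z ∧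
        C'.sat z ∧ Sp F y (fun i => z (Sum.inl i)) ∧ Sp F (fun i => z (Sum.inl i)) y)
    (h2 : ∀ (K L : Type) [Field K] [Algebra F K] [Field L] [Algebra F L] (q : ι ⊕ κ → K)
      (z : ι ⊕ κ → L), C'.sat q → Sp F q z → T.Ok (Sum.elim s s') z →
      C.sat (fun i => z (Sum.inl i)) → C.sat (fun i => q (Sum.inl i)))
    (h3 : ∀ (K : Type) [Field K] [Algebra F K] (q : ι ⊕ κ → K), T.Ok (Sum.elim s s') q →
      C'.sat q → ∀ j, IsAlgebraic (Algebra.adjoin F (Set.range fun i => q (Sum.inl i)))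
        (q (Sum.inr j))) : FinR T s D C := by
  obtain ⟨B, hB, h⟩ := h
  refine ⟨(fun P : PP F (ι ⊕ κ) => PP.ofPt F (fun i => P.pt (Sum.inl i))) '' B, hB.image _, ?_⟩
  intro K _ _ y hy hC hD
  obtain ⟨L, _, _, z, hz1, hz2, hz3, hz4⟩ := h1 K y hy hC hD
  obtain ⟨P, hP, hP1, hP2, hP3⟩ := h L z hz1 hz2 trivial
  have hPok : T.Ok (Sum.elim s s') P.pt := RT.Ok.of_sp hP1 hz1
  have e1 := PP.sp_ofPt (F := F) (fun i => P.pt (Sum.inl i))
  have e2 := PP.sp_ofPt' (F := F) (fun i => P.pt (Sum.inl i))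
  refine ⟨_, ⟨P, hP, rfl⟩, e1.trans ((hP1.comp Sum.inl).trans hz4), ?_, ?_⟩
  · exact C.closed _ _ e2 (h2 _ _ P.pt z hP2 hP1 hz1 (C.closed _ _ hz3 hC))
  · rw [T.df_eq s _ _ e1 e2 (hPok.comp Sum.inl), T.df_eq s y _ hz3 hz4 (hz1.comp Sum.inl)]
    exact T.df_proj (Sum.elim s s') P.pt z hP1 hz1 (h3 _ P.pt hPok hP2) hP3

/-- special conditions given by few equations -/
theorem spC_pols {s : ι → T.S} (L : List (MvPolynomial ι F))
    (h : ∀ (K : Type) [Field K] [Algebra F K] (y : ι → K), T.Ok s y →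
      (∀ f ∈ L, aeval y f = 0) → T.rk s y + L.length ≤ Fintype.card ι) :
    SpC T s (Cond.pols L) := by
  refine ⟨{Q | Q.I ∈ ((⊥ : Ideal (MvPolynomial ι F)) ⊔ Ideal.span {f | f ∈ L}).minimalPrimes},
    finite_PP (Ideal.finite_minimalPrimes_of_isNoetherianRing _ _), ?_⟩
  intro K _ _ y hy hL
  have h1 : (⊥ : Ideal (MvPolynomial ι F)) ⊔ Ideal.span {f | f ∈ L} ≤ (PP.ofPt F y).I := by
    rw [bot_sup_eq, Ideal.span_le]
    exact hL
  obtain ⟨J, hJ, hJle⟩ := Ideal.exists_minimalPrimes_le h1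
  obtain ⟨Q, rfl⟩ : ∃ Q : PP F ι, Q.I = J := ⟨⟨J, hJ.1.1⟩, rfl⟩
  have hQy : Sp F Q.pt y := (PP.sp_iff Q y).2 hJle
  have hQL : ∀ f ∈ L, aeval Q.pt f = 0 := fun f hf => by
    rw [PP.aeval_pt_eq_zero]
    exact hJ.1.2 (by
      rw [bot_sup_eq]
      exact Ideal.subset_span hf)
  refine ⟨Q, hJ, hQy, hQL, ?_⟩
  have h2 := tdP_le_of_minimal L ⊥ Q.I hJ
  rw [tdP_bot] at h2
  have h3 := h _ Q.pt (RT.Ok.of_sp hQy hy) hQL
  rw [PP.td_pt]
  omega

theorem SpC.top {s : ι → T.S} : SpC T s Cond.top := by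
  obtain ⟨B, hB, h⟩ := spC_pols (T := T) (s := s) [] (fun K _ _ y _ _ => by
    simpa using T.rk_card s y)
  refine ⟨B, hB, fun K _ _ y hy _ => ?_⟩
  obtain ⟨P, hP, h1, -, h3⟩ := h K y hy (by intro f hf; simp at hf)
  exact ⟨P, hP, h1, trivial, h3⟩

end

section Good

variable {F : Type} [Field F] {T : RT F} {n : Type} {bs : n → T.S} {R : Cond F n}

/-- finiteness for a condition together with arbitrary systems of base conditions -/
def FSR (T : RT F) {n : Type} (bs : n → T.S) (R : Cond F n) {ι : Type} [Fintype ι] (s : ι → T.S)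
    (D : ∀ {K : Type} [Field K] [Algebra F K], (ι → K) → Prop) (C : Cond F ι) : Prop :=
  ∀ (ι' : Type) [Fintype ι'] (s' : ι' → T.S) (f : ι → ι'), (∀ i, s' (f i) = s i) →
    ∀ L : List (n → ι'), (∀ e ∈ L, ∀ j, s' (e j) = bs j) →
      FinR T s' (fun y => D (fun i => y (f i))) ((C.comap f).and (R.list L))

/-- finiteness for a condition together with arbitrary systems of base conditions -/
def FS (T : RT F) {n : Type} (bs : n → T.S) (R : Cond F n) {ι : Type} [Fintype ι] (s : ι → T.S)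
    (C : Cond F ι) : Prop := FSR T bs R s (fun _ => True) C

/-- conditions which may be added to systems -/
def GoodR (T : RT F) {n : Type} (bs : n → T.S) (R : Cond F n) {κ : Type} (s : κ → T.S)
    (D : ∀ {K : Type} [Field K] [Algebra F K], (κ → K) → Prop) (G : Cond F κ) : Prop :=
  ∀ (ι : Type) [Fintype ι] (s' : ι → T.S) (C : Cond F ι), FS T bs R s' C →
    ∀ e : κ → ι, (∀ j, s' (e j) = s j) →
      FSR T bs R s' (fun y => D (fun j => y (e j))) (C.and (G.comap e))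

/-- conditions which may be added to systems -/
def Good (T : RT F) {n : Type} (bs : n → T.S) (R : Cond F n) {κ : Type} (s : κ → T.S)
    (G : Cond F κ) : Prop := GoodR T bs R s (fun _ => True) G

variable {ι κ : Type} [Fintype ι]

theorem FS.comap {s : ι → T.S} {C : Cond F ι} (h : FS T bs R s C) {ι' : Type} [Fintype ι']
    (s' : ι' → T.S) (f : ι → ι') (hf : ∀ i, s' (f i) = s i) : FS T bs R s' (C.comap f) := by
  intro ι'' _ s'' g hg L hL
  exact h ι'' s'' (fun i => g (f i)) (fun i => (hg _).trans (hf i)) L hL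

theorem Good.base : Good T bs R bs R := by
  intro ι _ s C hC e he ι' _ s' f hf L hL
  refine FinR.congr (hC ι' s' f hf ((fun j => f (e j)) :: L) ?_) ?_ (fun K _ _ y _ _ _ => trivial)
  · intro e' he' j
    rcases List.mem_cons.1 he' with rfl | he'
    · exact (hf _).trans (he j)
    · exact hL e' he' j
  · intro K _ _ y _
    constructor
    · rintro ⟨⟨h1, h2⟩, h3⟩
      refine ⟨h1, fun e' he' => ?_⟩
      rcases List.mem_cons.1 he' with rfl | he'
      · exact h2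
      · exact h3 e' he'
    · rintro ⟨h1, h2⟩
      exact ⟨⟨h1, h2 _ List.mem_cons_self⟩, fun e' he' => h2 e' (List.mem_cons_of_mem _ he')⟩

theorem GoodR.congr {s : κ → T.S} {D D' : ∀ {K : Type} [Field K] [Algebra F K], (κ → K) → Prop}
    {G G' : Cond F κ} (h : GoodR T bs R s D G)
    (h1 : ∀ (K : Type) [Field K] [Algebra F K] (y : κ → K), T.Ok s y → (G'.sat y ↔ G.sat y))
    (h2 : ∀ (K : Type) [Field K] [Algebra F K] (y : κ → K), T.Ok s y → G.sat y → D' y → D y) :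
    GoodR T bs R s D' G' := by
  intro ι _ s' C hC e he ι' _ s'' f hf L hL
  refine FinR.congr (h ι s' C hC e he ι' s'' f hf L hL) ?_ ?_
  · intro K _ _ y hy
    have h3 : T.Ok s (fun j => y (f (e j))) := hy.pull (fun j => f (e j)) (fun j => by rw [hf, he])
    constructor
    · rintro ⟨⟨h4, h5⟩, h6⟩
      exact ⟨⟨h4, (h1 K _ h3).1 h5⟩, h6⟩
    · rintro ⟨⟨h4, h5⟩, h6⟩
      exact ⟨⟨h4, (h1 K _ h3).2 h5⟩, h6⟩
  · rintro K _ _ y hy ⟨⟨h4, h5⟩, h6⟩ hD
    have h3 : T.Ok s (fun j => y (f (e j))) := hy.pull (fun j => f (e j)) (fun j => by rw [hf, he])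
    exact h2 K _ h3 h5 hD

theorem GoodR.union {s : κ → T.S}
    {D D₁ D₂ : ∀ {K : Type} [Field K] [Algebra F K], (κ → K) → Prop} {G : Cond F κ}
    (h₁ : GoodR T bs R s D₁ G) (h₂ : GoodR T bs R s D₂ G)
    (h : ∀ (K : Type) [Field K] [Algebra F K] (y : κ → K), T.Ok s y → G.sat y → D y →
      D₁ y ∨ D₂ y) : GoodR T bs R s D G := by
  intro ι _ s' C hC e he ι' _ s'' f hf L hL
  refine FinR.union (h₁ ι s' C hC e he ι' s'' f hf L hL) (h₂ ι s' C hC e he ι' s'' f hf L hL) ?_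
  rintro K _ _ y hy ⟨⟨h4, h5⟩, h6⟩ hD
  have h3 : T.Ok s (fun j => y (f (e j))) := hy.pull (fun j => f (e j)) (fun j => by rw [hf, he])
  exact h K _ h3 h5 hD

theorem Good.and {s : κ → T.S} {G G' : Cond F κ} (h : Good T bs R s G) (h' : Good T bs R s G') :
    Good T bs R s (G.and G') := by
  intro ι _ s' C hC e he
  have h1 := h' ι s' _ (h ι s' C hC e he) e he
  intro ι' _ s'' f hf L hL
  refine FinR.congr (h1 ι' s'' f hf L hL) ?_ (fun K _ _ y _ _ _ => trivial)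
  intro K _ _ y hy
  constructor
  · rintro ⟨⟨h4, h5, h6⟩, h7⟩
    exact ⟨⟨⟨h4, h5⟩, h6⟩, h7⟩
  · rintro ⟨⟨⟨h4, h5⟩, h6⟩, h7⟩
    exact ⟨⟨h4, h5, h6⟩, h7⟩

theorem GoodR.comap {s : κ → T.S} {D : ∀ {K : Type} [Field K] [Algebra F K], (κ → K) → Prop}
    {G : Cond F κ} (h : GoodR T bs R s D G) {κ' : Type}
    (s' : κ' → T.S) (f : κ → κ') (hf : ∀ i, s' (f i) = s i) :
    GoodR T bs R s' (fun y => D (fun j => y (f j))) (G.comap f) := by
  intro ι _ s'' C hC e he
  exact h ι s'' C hC (fun j => e (f j)) (fun j => (he _).trans (hf j))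

theorem Good.comap {s : κ → T.S} {G : Cond F κ} (h : Good T bs R s G) {κ' : Type}
    (s' : κ' → T.S) (f : κ → κ') (hf : ∀ i, s' (f i) = s i) : Good T bs R s' (G.comap f) :=
  GoodR.comap h s' f hf

theorem Good.congr {s : κ → T.S} {G G' : Cond F κ} (h : Good T bs R s G)
    (h1 : ∀ (K : Type) [Field K] [Algebra F K] (y : κ → K), T.Ok s y → (G'.sat y ↔ G.sat y)) :
    Good T bs R s G' := GoodR.congr h h1 (fun _ _ _ _ _ _ _ => trivial)

theorem Good.of_spC [IsAlgClosed F] [Fintype κ] {s : κ → T.S} {G : Cond F κ} (h : SpC T s G) :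
    Good T bs R s G := by
  classical
  intro ι _ s' C hC e he ι' _ s'' f hf L hL
  have h1 := lemP (hC ι' s'' f hf L hL) h
    ((Finset.univ : Finset κ).toList.map fun j => (Sum.inr j, Sum.inl (f (e j)))) (by
      intro e' he'
      obtain ⟨j, -, rfl⟩ := List.mem_map.1 he'
      simp [hf, he])
  refine FinR.proj h1 ?_ ?_ ?_
  · rintro K _ _ y hy ⟨⟨h2, h3⟩, h4⟩ -
    refine ⟨K, inferInstance, inferInstance, Sum.elim y (fun j => y (f (e j))), ?_, ?_, Sp.refl _,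
      Sp.refl _⟩
    · rintro (i | j) hj
      · exact hy i hj
      · exact hy.pull (fun j => f (e j)) (fun j => by rw [hf, he]) j hj
    · refine ⟨⟨⟨h2, h4⟩, h3⟩, fun e' he' => ?_⟩
      obtain ⟨j, -, rfl⟩ := List.mem_map.1 he'
      rfl
  · rintro K L' _ _ _ _ q z ⟨⟨⟨h2, h3⟩, h4⟩, h5⟩ - - -
    refine ⟨⟨h2, ?_⟩, h3⟩
    have h6 : (fun j => q (Sum.inl (f (e j)))) = fun j => q (Sum.inr j) := by
      funext j
      exact (h5 (Sum.inr j, Sum.inl (f (e j))) (List.mem_map.2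
        ⟨j, Finset.mem_toList.2 (Finset.mem_univ j), rfl⟩)).symm
    change G.sat (fun j => q (Sum.inl (f (e j))))
    rw [h6]
    exact h4
  · rintro K _ _ q - ⟨-, h5⟩ j
    have h6 : q (Sum.inr j) = q (Sum.inl (f (e j))) :=
      h5 (Sum.inr j, Sum.inl (f (e j))) (List.mem_map.2
        ⟨j, Finset.mem_toList.2 (Finset.mem_univ j), rfl⟩)
    rw [h6]
    exact alg_range (F := F) (fun i => q (Sum.inl i)) (f (e j))

/-- conditions with auxiliary coordinates -/
theorem Good.proj {lam : Type} [Fintype lam] {s : κ → T.S} {s' : lam → T.S} {G : Cond F κ}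
    {D : ∀ {K : Type} [Field K] [Algebra F K], (κ → K) → Prop} {G' : Cond F (κ ⊕ lam)}
    (h : Good T bs R (Sum.elim s s') G')
    (h1 : ∀ (K : Type) [Field K] [Algebra F K] (y : κ → K), T.Ok s y → G.sat y → D y →
      ∃ (L : Type) (_ : Field L) (_ : Algebra F L) (φ : K →ₐ[F] L) (t : lam → L), T.Ok s' t ∧
        G'.sat (Sum.elim (fun j => φ (y j)) t))
    (h2 : ∀ (K L : Type) [Field K] [Algebra F K] [Field L] [Algebra F L] (q : κ ⊕ lam → K)
      (z : κ ⊕ lam → L), G'.sat q → Sp F q z → T.Ok (Sum.elim s s') z →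
      G.sat (fun i => z (Sum.inl i)) → G.sat (fun i => q (Sum.inl i)))
    (h3 : ∀ (K : Type) [Field K] [Algebra F K] (q : κ ⊕ lam → K), T.Ok (Sum.elim s s') q →
      G'.sat q → ∀ j, IsAlgebraic (Algebra.adjoin F (Set.range fun i => q (Sum.inl i)))
        (q (Sum.inr j))) : GoodR T bs R s D G := by
  intro ι _ s₁ C hC e he ι' _ s₂ f hf L hL
  have a1 : FS T bs R (Sum.elim s₁ s') (C.comap Sum.inl) :=
    hC.comap (Sum.elim s₁ s') Sum.inl (fun _ => rfl)
  have a2 := h (ι ⊕ lam) (Sum.elim s₁ s') _ a1 (Sum.map e id) (by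
    rintro (j | j)
    · exact he j
    · rfl)
  have a3 := a2 (ι' ⊕ lam) (Sum.elim s₂ s') (Sum.map f id) (by
    rintro (j | j)
    · exact hf j
    · rfl) (L.map fun e' j => Sum.inl (e' j)) (by
      intro e' he' j
      obtain ⟨e'', he'', rfl⟩ := List.mem_map.1 he'
      exact hL e'' he'' j)
  -- the coordinates of the condition
  have hmap : ∀ {K : Type} [Field K] [Algebra F K] (z : ι' ⊕ lam → K),
      (fun j => z (Sum.map f id (Sum.map e id j))) =
        Sum.elim (fun j => z (Sum.inl (f (e j)))) (fun j => z (Sum.inr j)) := by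
    intro K _ _ z
    funext j
    rcases j with j | j <;> rfl
  refine FinR.proj a3 ?_ ?_ ?_
  · rintro K _ _ y hy ⟨⟨h4, h5⟩, h6⟩ hD
    have h7 : T.Ok s (fun j => y (f (e j))) := hy.pull (fun j => f (e j)) (fun j => by rw [hf, he])
    obtain ⟨K', _, _, φ, t, ht, ht2⟩ := h1 K _ h7 h5 hD
    have e1 : Sp F y (fun i => φ (y i)) := fun g hg => by
      rw [aeval_hom φ y g, hg, map_zero]
    have e2 : Sp F (fun i => φ (y i)) y := fun g hg => by
      rw [aeval_hom φ y g] at hg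
      exact (map_eq_zero_iff φ φ.injective).1 hg
    refine ⟨K', inferInstance, inferInstance, Sum.elim (fun i => φ (y i)) t, ?_, ?_, e1, e2⟩
    · rintro (i | j) hj
      · exact RT.Ok.of_sp (T := T) (s := s₂) e2 hy i hj
      · exact ht j hj
    · refine ⟨⟨C.closed _ _ (e1.comp f) h4, ?_⟩, fun e' he' => ?_⟩
      · change G'.sat (fun j => (Sum.elim (fun i => φ (y i)) t) (Sum.map f id (Sum.map e id j)))
        rw [hmap]
        exact ht2
      · obtain ⟨e'', he'', rfl⟩ := List.mem_map.1 he'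
        exact R.closed _ _ (e1.comp e'') (h6 e'' he'')
  · rintro K K' _ _ _ _ q z ⟨⟨h4, h5⟩, h6⟩ hqz hz ⟨⟨h7, h8⟩, h9⟩
    change G'.sat (fun j => q (Sum.map f id (Sum.map e id j))) at h5
    rw [hmap] at h5
    refine ⟨⟨h4, ?_⟩, fun e' he' => h6 _ (List.mem_map.2 ⟨e', he', rfl⟩)⟩
    have e1 := hqz.comp (fun j => Sum.map f id (Sum.map e id j))
    rw [hmap, hmap] at e1
    refine h2 K K' _ _ h5 e1 ?_ h8
    rintro (j | j) hj
    · refine hz (Sum.inl (f (e j))) ?_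
      change T.nz (s₂ (f (e j)))
      rw [hf, he]
      exact hj
    · exact hz (Sum.inr j) hj
  · rintro K _ _ q hq ⟨⟨h4, h5⟩, h6⟩ j
    change G'.sat (fun j => q (Sum.map f id (Sum.map e id j))) at h5
    rw [hmap] at h5
    refine (h3 K _ ?_ h5 j).adjoin_of_forall_isAlgebraic ?_
    · rintro (j | j) hj
      · refine hq (Sum.inl (f (e j))) ?_
        change T.nz (s₂ (f (e j)))
        rw [hf, he]
        exact hj
      · exact hq (Sum.inr j) hj
    · rintro x ⟨⟨i, rfl⟩, -⟩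
      exact alg_range (F := F) (fun i => q (Sum.inl i)) (f (e i))

theorem Good.proj1 {lam : Type} [Fintype lam] {s : κ → T.S} {s' : lam → T.S} {G : Cond F κ}
    {G' : Cond F (κ ⊕ lam)} (h : Good T bs R (Sum.elim s s') G')
    (h1 : ∀ (K : Type) [Field K] [Algebra F K] (y : κ → K), T.Ok s y → G.sat y →
      ∃ (L : Type) (_ : Field L) (_ : Algebra F L) (φ : K →ₐ[F] L) (t : lam → L), T.Ok s' t ∧
        G'.sat (Sum.elim (fun j => φ (y j)) t))
    (h2 : ∀ (K L : Type) [Field K] [Algebra F K] [Field L] [Algebra F L] (q : κ ⊕ lam → K)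
      (z : κ ⊕ lam → L), G'.sat q → Sp F q z → T.Ok (Sum.elim s s') z →
      G.sat (fun i => z (Sum.inl i)) → G.sat (fun i => q (Sum.inl i)))
    (h3 : ∀ (K : Type) [Field K] [Algebra F K] (q : κ ⊕ lam → K), T.Ok (Sum.elim s s') q →
      G'.sat q → ∀ j, IsAlgebraic (Algebra.adjoin F (Set.range fun i => q (Sum.inl i)))
        (q (Sum.inr j))) : Good T bs R s G :=
  Good.proj (D := fun _ => True) h (fun K _ _ y hy hG _ => h1 K y hy hG) h2 h3

end Good

end Pool.Agent.N101.ZP
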