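import Pool.Agent.N101.ZP.Code
import Pool.Agent.N135.ZO.Exp

/-!
# The Hecke correspondence of degree two
-/

set_option autoImplicit false
set_option linter.unusedSectionVars false
set_option linter.style.haveILetI false

namespace Pool.Agent.N101.ZP

open UpperHalfPlane H294ZP Polynomial Pool.Agent.N135.ZO ModularForm
open Pool.Agent.R948 (td cp)
open Pool.Agent.Y226 (ZZ ιZ PsiE map_PsiE modular_spec mP mD)

/-! ### the value 1728 -/

theorem E6_I : E₆ I = 0 := by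
  have h1 : ModularForm.E₆ (ModularGroup.S • I) =
      denom (ModularGroup.S : Matrix.SpecialLinearGroup (Fin 2) ℤ) (I : ℍ) ^ (6 : ℤ) * ModularForm.E₆ I :=
    SlashInvariantForm.slash_action_eqn'' (Γ := Matrix.SpecialLinearGroup.mapGL ℝ |>.range)
      ModularForm.E₆ (γ := Matrix.SpecialLinearGroup.mapGL ℝ ModularGroup.S)
      (by exact ⟨ModularGroup.S, rfl⟩) I
  have h2 : ModularGroup.S • (I : ℍ) = I := by
    rw [modular_S_smul]
    apply UpperHalfPlane.ext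
    simp
  have h3 : denom (ModularGroup.S : Matrix.SpecialLinearGroup (Fin 2) ℤ) (I : ℍ) = Complex.I := by
    exact ModularGroup.denom_S I
  rw [h2, h3] at h1
  have h4 : Complex.I ^ (6 : ℤ) = -1 := by
    have : Complex.I ^ (6 : ℤ) = Complex.I ^ 6 := by norm_cast
    rw [this]
    have h5 : Complex.I ^ 6 = (Complex.I ^ 2) ^ 3 := by ring
    rw [h5, Complex.I_sq]
    norm_num
  rw [h4] at h1
  have h5 : 2 * E₆ I = 0 := by linear_combination h1
  exact (mul_eq_zero.1 h5).resolve_left two_ne_zero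

theorem jj_I : jj I = 1728 := by
  have h1 := E6_sq I
  rw [E6_I] at h1
  have h2 : (jj I - 1728) * discriminant I = 0 := by rw [← h1]; ring
  exact sub_eq_zero.1 ((mul_eq_zero.1 h2).resolve_right (discriminant_ne_zero I))

theorem isCM_I : IsCM I := ⟨1, 0, 1, one_ne_zero, by
  push_cast
  have : ((I : ℍ) : ℂ) = Complex.I := rfl
  rw [Complex.I_sq]
  ring⟩

theorem cm_1728 {K : Type} [Field K] [Algebra Fa K] : Cm (1728 : K) :=
  ⟨I, 1728, isCM_I, by rw [jj_I, map_ofNat], by rw [map_ofNat]⟩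

/-! ### the three points 2-isogenous to a point -/

/-- the points -/
noncomputable def jk (k : Option (Fin 2)) (τ : ℍ) : ℂ := jj (hh two_pos k τ)

theorem jk_perm {γ : M2} (hγ : γ.det = 1) {τ w : ℍ} (hw : N135.ZO.Rel γ τ w) :
    ∃ σ : Equiv.Perm (Option (Fin 2)), ∀ k, jk k w = jk (σ k) τ := by
  obtain ⟨σ, h⟩ := perm Nat.prime_two hγ hw
  exact ⟨σ, fun k => (h k).1⟩

/-- symmetric functions of the points are polynomials in `j` -/
theorem sym_poly (f : (Option (Fin 2) → ℂ) → ℂ) (hf : ∀ (σ : Equiv.Perm (Option (Fin 2))) x,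
    f (fun k => x (σ k)) = f x) (hL : LX ⊤ 2 (fun τ => f (fun k => jk k τ))) :
    ∃ P : Fa[X], ∀ τ, f (fun k => jk k τ) = P.eval₂ (algebraMap Fa ℂ) (jj τ) := by
  obtain ⟨P, -, hP⟩ := tbX ⊤ 2 two_pos _ (inv_of_rel fun γ hγ τ w hw => by
    obtain ⟨σ, hσ⟩ := jk_perm hγ hw
    have h1 : (fun k => jk k w) = fun k => jk (σ k) τ := funext hσ
    rw [h1]
    exact hf σ (fun k => jk k τ)) hL
  refine ⟨P.map zF, fun τ => ?_⟩
  rw [hP τ, eval₂_map, zF_comp]

theorem sum_poly : ∃ α β : Fa, ∀ τ, ∑ k, jk k τ =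
    jj τ ^ 2 + algebraMap Fa ℂ α * jj τ + algebraMap Fa ℂ β := by
  have hC : TC := tc
  have hB : TB := TBproof.tb hTA hC
  have hLau : Lau 2 4 1 (fun τ => ∑ k, jk k τ) := by
    have h1 : ∀ k : Option (Fin 2), ∃ A : ℂ, Lau 2 (ka 2 k ^ 2) A (fun τ => jk k τ) ∧
        (k = none → A = 1) := by
      intro k
      have h2 := (hC.2.2.2.2 hTA.2.1 hTA.2.2 (ka 2 k) (kd 2 k) (kb 2 k) (ka_pos two_pos k)
        (kd_pos two_pos k) (hh two_pos k) (hh_mul two_pos k)).1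
      rw [ka_mul_kd] at h2
      refine ⟨_, h2, ?_⟩
      rintro rfl
      simp [kb]
    have h2 : ∀ b : Fin 2, Lau 2 4 0 (fun τ => jk (some b) τ) := by
      intro b
      obtain ⟨A, hA, -⟩ := h1 (some b)
      exact hC.2.1 2 1 3 A _ two_pos (by norm_num) hA
    obtain ⟨A, hA, hA1⟩ := h1 none
    rw [hA1 rfl] at hA
    have h3 : Lau 2 4 1 (fun τ => jk none τ) := hA
    have h4 := hC.2.2.1 2 4 1 (0 + 0) _ _ two_pos h3
      (hC.2.2.1 2 4 0 0 _ _ two_pos (h2 0) (h2 1))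
    rw [add_zero, add_zero] at h4
    have h5 : (fun τ => ∑ k, jk k τ) = fun τ => jk none τ + (jk (some 0) τ + jk (some 1) τ) := by
      funext τ
      rw [Fintype.sum_option, Fin.sum_univ_two]
    rw [h5]
    exact h4
  have hinv : Inv (fun τ => ∑ k, jk k τ) := inv_of_rel fun γ hγ τ w hw => by
    obtain ⟨σ, hσ⟩ := jk_perm hγ hw
    simp only [hσ]
    exact Equiv.sum_comp σ (fun k => jk k τ)
  have hhol : Hol (fun τ => ∑ k, jk k τ) := (LX.sum Finset.univ (fun k τ => jk k τ)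
    (fun k _ => LX.jj_hh two_pos k)).2
  obtain ⟨P, hP1, hP2, -, hP4, hP5⟩ := hB 2 two_pos 4 1 _ hinv hhol hLau
  have hP6 : P.coeff 2 = 1 := hP5 (by norm_num)
  refine ⟨zF ⟨P.coeff 1, hP1 1⟩, zF ⟨P.coeff 0, hP1 0⟩, fun τ => ?_⟩
  rw [hP2 τ, eval_eq_sum_range' (n := 3) (by
    have : 4 / 2 = 2 := by norm_num
    omega)]
  rw [Finset.sum_range_succ, Finset.sum_range_succ, Finset.sum_range_one, hP6]
  have e1 : algebraMap Fa ℂ (zF ⟨P.coeff 1, hP1 1⟩) = P.coeff 1 := rfl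
  have e0 : algebraMap Fa ℂ (zF ⟨P.coeff 0, hP1 0⟩) = P.coeff 0 := rfl
  rw [e1, e0]
  ring

/-- the data of the correspondence -/
theorem exists_data : ∃ (α β : Fa) (Q R : Fa[X]), ∀ τ,
    jk none τ + jk (some 0) τ + jk (some 1) τ =
      jj τ ^ 2 + algebraMap Fa ℂ α * jj τ + algebraMap Fa ℂ β ∧
    jk none τ * jk (some 0) τ + jk none τ * jk (some 1) τ + jk (some 0) τ * jk (some 1) τ =
      Q.eval₂ (algebraMap Fa ℂ) (jj τ) ∧
    jk none τ * jk (some 0) τ * jk (some 1) τ = R.eval₂ (algebraMap Fa ℂ) (jj τ) := by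
  obtain ⟨α, β, h1⟩ := sum_poly
  have hk : ∀ k, LX ⊤ 2 (fun τ => jk k τ) := fun k => LX.jj_hh two_pos k
  -- power sums
  obtain ⟨P2, h2⟩ := sym_poly (fun x => ∑ k, x k ^ 2) (fun σ x => Equiv.sum_comp σ (fun k => x k ^ 2))
    (LX.sum Finset.univ (fun k τ => jk k τ ^ 2) (fun k _ => (hk k).pow 2))
  obtain ⟨P3, h3⟩ := sym_poly (fun x => ∏ k, x k) (fun σ x => Equiv.prod_comp σ x)
    (LX.prod Finset.univ (fun k τ => jk k τ) (fun k _ => hk k))
  refine ⟨α, β, C (1 / 2) * ((X ^ 2 + C α * X + C β) ^ 2 - P2), P3, fun τ => ⟨?_, ?_, ?_⟩⟩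
  · rw [← h1 τ, Fintype.sum_option, Fin.sum_univ_two]
    ring
  · have e2 := h2 τ
    have e1 := h1 τ
    rw [Fintype.sum_option, Fin.sum_univ_two] at e1
    rw [Fintype.sum_option, Fin.sum_univ_two] at e2
    rw [eval₂_mul, eval₂_sub, ← e2, eval₂_pow]
    have e3 : eval₂ (algebraMap Fa ℂ) (jj τ) (X ^ 2 + C α * X + C β) =
      jj τ ^ 2 + algebraMap Fa ℂ α * jj τ + algebraMap Fa ℂ β := by
      simp [eval₂_add, eval₂_mul]
    rw [e3, ← e1, eval₂_C, map_div₀, map_one, map_ofNat]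
    ring
  · rw [← h3 τ, Fintype.prod_option, Fin.prod_univ_two]
    ring

theorem psi_jk (k : Option (Fin 2)) (τ : ℍ) : ev2 (psi 2) (jj τ) (jk k τ) = 0 :=
  psi_of_rel (A := gk 2 k) two_pos (det_gk 2 k) (rel_hh two_pos k τ)

end Pool.Agent.N101.ZP
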