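import Pool.Agent.N101.ZP.GateA

/-!
# Separately holomorphic functions on products of upper half planes
-/

set_option autoImplicit false
set_option linter.unusedSectionVars false

namespace Pool.Agent.N101.ZP

open UpperHalfPlane H294ZP Pool.Agent.N135.ZO Function

/-- the action of integral matrices of positive determinant -/
noncomputable def gact (g : M2) (hg : 0 < g.det) (τ : ℍ) : ℍ := (exists_rel hg τ).choose

theorem gact_rel {g : M2} (hg : 0 < g.det) (τ : ℍ) : N135.ZO.Rel g τ (gact g hg τ) :=
  (exists_rel hg τ).choose_spec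

theorem gact_unique {g : M2} (hg : 0 < g.det) {τ w : ℍ} (h : N135.ZO.Rel g τ w) :
    w = gact g hg τ := N135.ZO.Rel.unique hg h (gact_rel hg τ)

theorem hol_gact {g : M2} (hg : 0 < g.det) : Hol (fun τ => jj (gact g hg τ)) := by
  have hf : Hol jj := hTA.2.1
  unfold Hol at hf ⊢
  have hden : ∀ z : ℂ, 0 < z.im → (g 1 0 : ℂ) * z + (g 1 1 : ℂ) ≠ 0 := fun z hz =>
    den_ne hg ⟨z, hz⟩
  have hval : ∀ (z : ℂ) (hz : 0 < z.im), (gact g hg ⟨z, hz⟩ : ℂ) =
      ((g 0 0 : ℂ) * z + (g 0 1 : ℂ)) / ((g 1 0 : ℂ) * z + (g 1 1 : ℂ)) := by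
    intro z hz
    rw [eq_div_iff (hden z hz)]
    exact gact_rel hg ⟨z, hz⟩
  have h1 : DifferentiableOn ℂ (fun z : ℂ => ((g 0 0 : ℂ) * z + (g 0 1 : ℂ)) /
      ((g 1 0 : ℂ) * z + (g 1 1 : ℂ))) {z | 0 < z.im} := by
    refine DifferentiableOn.div (by fun_prop) (by fun_prop) fun z hz => hden z hz
  have h2 := hf.comp h1 (fun z hz => by
    have hz' : 0 < z.im := hz
    have := hval z hz'
    change 0 < (((g 0 0 : ℂ) * z + (g 0 1 : ℂ)) / ((g 1 0 : ℂ) * z + (g 1 1 : ℂ))).im
    rw [← this]
    exact UpperHalfPlane.im_pos _)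
  refine h2.congr ?_
  intro z hz
  have hz' : 0 < z.im := hz
  simp only [Function.comp]
  rw [ofComplex_apply_of_im_pos hz', ← hval z hz', ofComplex_apply]

theorem Hol.add' {f g : ℍ → ℂ} (hf : Hol f) (hg : Hol g) : Hol (fun τ => f τ + g τ) := by
  unfold Hol at *
  exact DifferentiableOn.add hf hg

theorem Hol.mul' {f g : ℍ → ℂ} (hf : Hol f) (hg : Hol g) : Hol (fun τ => f τ * g τ) := by
  unfold Hol at *
  exact DifferentiableOn.mul hf hg

theorem Hol.const' (c : ℂ) : Hol (fun _ => c) := by
  unfold Hol
  exact differentiableOn_const _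

theorem isOpen_im : IsOpen {z : ℂ | 0 < z.im} := isOpen_lt continuous_const Complex.continuous_im

theorem preconn_im : IsPreconnected {z : ℂ | 0 < z.im} :=
  (convex_halfSpace_im_gt 0).isPreconnected

/-- one variable -/
theorem hol_mul_eq_zero {f g : ℍ → ℂ} (hf : Hol f) (hg : Hol g) (h : ∀ τ, f τ * g τ = 0) :
    (∀ τ, f τ = 0) ∨ ∀ τ, g τ = 0 := by
  have h1 : AnalyticOnNhd ℂ (f ∘ ofComplex) {z | 0 < z.im} :=
    DifferentiableOn.analyticOnNhd hf isOpen_im
  have h2 : AnalyticOnNhd ℂ (g ∘ ofComplex) {z | 0 < z.im} :=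
    DifferentiableOn.analyticOnNhd hg isOpen_im
  have h3 := AnalyticOnNhd.eq_zero_or_eq_zero_of_mul_eq_zero h1 h2
    (fun z _ => h (ofComplex z)) preconn_im
  rcases h3 with h3 | h3
  · left
    intro τ
    have := h3 (τ : ℂ) τ.im_pos
    simpa using this
  · right
    intro τ
    have := h3 (τ : ℂ) τ.im_pos
    simpa using this

open Classical in
/-- separately holomorphic functions -/
def SHol {ι : Type} (F : (ι → ℍ) → ℂ) : Prop := ∀ t i, Hol (fun τ => F (Function.update t i τ))

open Classical in
theorem SHol.spec {ι : Type} {F : (ι → ℍ) → ℂ} (h : SHol F) (a : ι) (τ : ℍ) :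
    SHol (fun t => F (Function.update t a τ)) := by
  intro t i
  by_cases hi : i = a
  · subst hi
    simp only [Function.update_idem]
    exact Hol.const' _
  · have e : (fun σ => F (Function.update (Function.update t i σ) a τ)) =
        fun σ => F (Function.update (Function.update t a τ) i σ) := by
      funext σ
      rw [Function.update_comm hi]
    rw [e]
    exact h _ i

open Classical in
/-- the product of separately holomorphic functions -/
theorem shol_mul_eq_zero {ι : Type} [Fintype ι] {F G : (ι → ℍ) → ℂ} (hF : SHol F) (hG : SHol G)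
    (h : ∀ t, F t * G t = 0) : (∀ t, F t = 0) ∨ ∀ t, G t = 0 := by
  have key : ∀ (s : Finset ι) (F G : (ι → ℍ) → ℂ), SHol F → SHol G → ∀ t₀ : ι → ℍ,
      (∀ t, (∀ i, i ∉ s → t i = t₀ i) → F t * G t = 0) →
      (∀ t, (∀ i, i ∉ s → t i = t₀ i) → F t = 0) ∨ (∀ t, (∀ i, i ∉ s → t i = t₀ i) → G t = 0) := by
    intro s
    induction s using Finset.induction_on with
    | empty =>
      intro F G _ _ t₀ h
      have h1 := h t₀ (fun _ _ => rfl)
      rcases mul_eq_zero.1 h1 with h2 | h2
      · left
        intro t ht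
        have : t = t₀ := funext fun i => ht i (by simp)
        rw [this]
        exact h2
      · right
        intro t ht
        have : t = t₀ := funext fun i => ht i (by simp)
        rw [this]
        exact h2
    | insert a s ha ih =>
      intro F G hF hG t₀ h
      by_contra hcon
      push Not at hcon
      obtain ⟨⟨t₁, ht₁, hF₁⟩, ⟨t₂, ht₂, hG₂⟩⟩ := hcon
      have h1 := ih (fun t => F (Function.update t a (t₁ a))) (fun t => G (Function.update t a (t₂ a)))
        (hF.spec a _) (hG.spec a _) t₀ (by
          intro t ht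
          have h2 := hol_mul_eq_zero (hF t a) (hG t a) (fun τ => h _ (fun i hi => by
            rw [Finset.mem_insert, not_or] at hi
            rw [Function.update_of_ne hi.1]
            exact ht i hi.2))
          rcases h2 with h2 | h2
          · rw [h2, zero_mul]
          · rw [h2, mul_zero])
      have hupd : ∀ t : ι → ℍ, (∀ i, i ∉ insert a s → t i = t₀ i) →
          ∀ i, i ∉ s → Function.update t a (t₀ a) i = t₀ i := by
        intro t ht i hi
        by_cases hia : i = a
        · subst hia
          rw [Function.update_self]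
        · rw [Function.update_of_ne hia]
          exact ht i (by simp [hia, hi])
      rcases h1 with h1 | h1
      · have h3 := h1 _ (hupd t₁ ht₁)
        simp only [Function.update_idem, Function.update_eq_self] at h3
        exact hF₁ h3
      · have h3 := h1 _ (hupd t₂ ht₂)
        simp only [Function.update_idem, Function.update_eq_self] at h3
        exact hG₂ h3
  rcases isEmpty_or_nonempty (ι → ℍ) with he | ⟨⟨t₀⟩⟩
  · exact Or.inl fun t => he.elim t
  · rcases key Finset.univ F G hF hG t₀ (fun t _ => h t) with h1 | h1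
    · exact Or.inl fun t => h1 t (by simp)
    · exact Or.inr fun t => h1 t (by simp)

end Pool.Agent.N101.ZP
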