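import Pool.Agent.N101.ZP.YDef
import Pool.Agent.N101.ZP.GeoA
import Pool.Agent.N101.ZP.MainA

/-!
# Subvarieties of `ℂ^n` and prime ideals
-/

set_option autoImplicit false
set_option linter.unusedSectionVars false
set_option linter.style.haveILetI false

namespace Pool.Agent.N101.Y1

open UpperHalfPlane MvPolynomial H294ZP
open Pool.Agent.R948 (td cp tdP tdP_eq)
open Pool.Agent.N101.ZP

variable {ι κ : Type} [Fintype ι] [Fintype κ]

theorem ev_eq (x : ι → ℂ) (f : MvPolynomial ι ℂ) : eval x f = aeval x f := rfl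

theorem mem_van {A : Set (ι → ℂ)} {f : MvPolynomial ι ℂ} : f ∈ van A ↔ ∀ x ∈ A, eval x f = 0 :=
  Iff.rfl

theorem van_anti {A B : Set (ι → ℂ)} (h : A ⊆ B) : van B ≤ van A := fun _ hf x hx => hf x (h hx)

theorem zeros_anti {S T : Set (MvPolynomial ι ℂ)} (h : S ⊆ T) : zeros T ⊆ zeros S :=
  fun _ hx f hf => hx f (h hf)

theorem subset_zclosure (A : Set (ι → ℂ)) : A ⊆ zclosure A := fun x hx _ hf => hf x hx

theorem van_zclosure (A : Set (ι → ℂ)) : van (zclosure A) = van A :=
  le_antisymm (van_anti (subset_zclosure A)) (fun f hf x hx => hx f hf)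

theorem ZClosed.eq {A : Set (ι → ℂ)} (h : ZClosed A) :
    zeros (van A : Set (MvPolynomial ι ℂ)) = A := by
  obtain ⟨S, rfl⟩ := h
  exact Set.Subset.antisymm (fun x hx f hf => hx f fun y hy => hy f hf) (subset_zclosure _)

theorem zclosed_zeros (S : Set (MvPolynomial ι ℂ)) : ZClosed (zeros S) := ⟨S, rfl⟩

theorem zclosed_zclosure (A : Set (ι → ℂ)) : ZClosed (zclosure A) := ⟨_, rfl⟩

theorem zclosure_subset {A B : Set (ι → ℂ)} (hB : ZClosed B) (h : A ⊆ B) : zclosure A ⊆ B := by
  rw [← hB.eq]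
  exact zeros_anti (van_anti h)

theorem ZClosed.inter {A B : Set (ι → ℂ)} (hA : ZClosed A) (hB : ZClosed B) : ZClosed (A ∩ B) := by
  obtain ⟨S, rfl⟩ := hA
  obtain ⟨T, rfl⟩ := hB
  refine ⟨S ∪ T, ?_⟩
  ext x
  constructor
  · rintro ⟨h1, h2⟩ f (hf | hf)
    · exact h1 f hf
    · exact h2 f hf
  · intro h
    exact ⟨fun f hf => h f (Or.inl hf), fun f hf => h f (Or.inr hf)⟩

theorem Subvariety.prime {A : Set (ι → ℂ)} (h : Subvariety A) : (van A).IsPrime := by
  refine ⟨fun h1 => ?_, fun {f g} hfg => ?_⟩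
  · obtain ⟨x, hx⟩ := h.nonempty
    have h2 : (1 : MvPolynomial ι ℂ) ∈ van A := by rw [h1]; trivial
    have h3 := h2 x hx
    rw [map_one] at h3
    exact one_ne_zero h3
  · have h1 : A ⊆ zeros {f} ∪ zeros {g} := by
      intro x hx
      have h2 := hfg x hx
      rw [map_mul] at h2
      rcases mul_eq_zero.1 h2 with h3 | h3
      · exact Or.inl fun f' hf' => by rw [Set.mem_singleton_iff.1 hf']; exact h3
      · exact Or.inr fun f' hf' => by rw [Set.mem_singleton_iff.1 hf']; exact h3
    rcases h.irreducible _ _ (zclosed_zeros {f}) (zclosed_zeros {g}) h1 with h2 | h2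
    · exact Or.inl fun x hx => h2 hx f rfl
    · exact Or.inr fun x hx => h2 hx g rfl

theorem Subvariety.of_prime {A : Set (ι → ℂ)} (h : ZClosed A) (hp : (van A).IsPrime) :
    Subvariety A := by
  refine ⟨h, ?_, ?_⟩
  · by_contra hne
    rw [Set.not_nonempty_iff_eq_empty] at hne
    apply hp.ne_top
    rw [Ideal.eq_top_iff_one]
    intro x hx
    rw [hne] at hx
    exact hx.elim
  · rintro B C ⟨S, rfl⟩ ⟨S', rfl⟩ hsub
    by_contra hcon
    rw [not_or] at hcon
    obtain ⟨h1, h2⟩ := hcon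
    rw [Set.not_subset] at h1 h2
    obtain ⟨x, hx, hx2⟩ := h1
    obtain ⟨y, hy, hy2⟩ := h2
    simp only [zeros, Set.mem_ofPred_eq, not_forall] at hx2 hy2
    obtain ⟨f, hf, hf2⟩ := hx2
    obtain ⟨g, hg, hg2⟩ := hy2
    have h3 : f * g ∈ van A := by
      intro z hz
      rw [map_mul]
      rcases hsub hz with h4 | h4
      · rw [h4 f hf, zero_mul]
      · rw [h4 g hg, mul_zero]
    rcases hp.mem_or_mem h3 with h4 | h4
    · exact hf2 (h4 x hx)
    · exact hg2 (h4 y hy)

/-- a subvariety contained in a finite union of closed sets -/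
theorem Subvariety.finite_union {A : Set (ι → ℂ)} (h : Subvariety A) {α : Type} (s : Finset α)
    (B : α → Set (ι → ℂ)) (hB : ∀ a, ZClosed (B a)) (hA : A ⊆ ⋃ a ∈ s, B a) :
    ∃ a ∈ s, A ⊆ B a := by
  classical
  have hp := h.prime
  by_contra hcon
  push Not at hcon
  have h1 : ∀ a ∈ s, ∃ f ∈ van (B a), f ∉ van A := by
    intro a ha
    by_contra h2
    push Not at h2
    apply hcon a ha
    rw [← h.closed.eq, ← (hB a).eq]
    exact zeros_anti h2
  choose! f hf hf2 using h1
  have h2 : ∏ a ∈ s, f a ∈ van A := by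
    intro x hx
    obtain ⟨a, ha, hxa⟩ := Set.mem_iUnion₂.1 (hA hx)
    rw [map_prod]
    exact Finset.prod_eq_zero ha (hf a ha x hxa)
  obtain ⟨a, ha, h3⟩ := (hp.prod_mem_iff).1 h2
  exact hf2 a ha h3

/-- the prime of a subvariety -/
def toPP {A : Set (ι → ℂ)} (h : Subvariety A) : PP ℂ ι where
  I := van A
  prime := h.prime

theorem van_zeros (P : PP ℂ ι) : van (zeros (P.I : Set (MvPolynomial ι ℂ))) = P.I := by
  have h1 : vanishingIdeal ℂ (zeroLocus ℂ P.I) = P.I := IsPrime.vanishingIdeal_zeroLocus P.I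
  refine le_antisymm (fun f hf => ?_) (fun f hf x hx => hx f hf)
  rw [← h1]
  intro x hx
  exact hf x (fun g hg => hx g hg)

theorem sub_zeros (P : PP ℂ ι) : Subvariety (zeros (P.I : Set (MvPolynomial ι ℂ))) :=
  Subvariety.of_prime (zclosed_zeros _) (by rw [van_zeros]; exact P.prime)

theorem toPP_zeros (P : PP ℂ ι) : toPP (sub_zeros P) = P := PP.ext' (van_zeros P)

theorem vdim_eq {A : Set (ι → ℂ)} (h : Subvariety A) : vdim A = tdP (toPP h).I := by
  have h1 := tdP_eq (toPP h).I
  rw [vdim]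
  change Cardinal.toNat (Algebra.trdeg ℂ (MvPolynomial ι ℂ ⧸ (toPP h).I)) = _
  rw [← h1, Cardinal.toNat_natCast]

theorem toPP_le {A B : Set (ι → ℂ)} (hA : Subvariety A) (hB : Subvariety B) (h : A ⊆ B) :
    (toPP hB).I ≤ (toPP hA).I := van_anti h

theorem vdim_mono {A B : Set (ι → ℂ)} (hA : Subvariety A) (hB : Subvariety B) (h : A ⊆ B) :
    vdim A ≤ vdim B := by
  rw [vdim_eq hA, vdim_eq hB]
  exact Pool.Agent.R948.tdP_mono (toPP_le hA hB h)

theorem vdim_strict {A B : Set (ι → ℂ)} (hA : Subvariety A) (hB : Subvariety B) (h : A ⊂ B) :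
    vdim A < vdim B := by
  rw [vdim_eq hA, vdim_eq hB]
  refine Pool.Agent.R948.tdP_strict (lt_of_le_of_ne (toPP_le hA hB h.1) fun h1 => h.ne ?_)
  have h2 : van B = van A := h1
  rw [← hA.closed.eq, ← hB.closed.eq, h2]

/-! ### the loci -/

/-- the data of a special subvariety -/
structure SD (ι : Type) where
  c : ι → Option ι
  g : ι → Matrix (Fin 2) (Fin 2) ℤ
  w : ι → ℍ
  hg : ∀ i, 0 < (g i).det
  hw : ∀ i, c i = none → IsCM (w i)

namespace SD

variable (D : SD ι)

/-- the point of a parameter -/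
noncomputable def pz (t : ι → ℍ) (i : ι) : ℍ :=
  match D.c i with
  | none => D.w i
  | some k => gact (D.g i) (D.hg i) (t k)

/-- the locus -/
def locus : Set (ι → ℂ) := Set.range fun t : ι → ℍ => fun i => jj (D.pz t i)

theorem pz_none (t : ι → ℍ) {i : ι} (h : D.c i = none) : D.pz t i = D.w i := by
  rw [pz, h]

theorem pz_some (t : ι → ℍ) {i k : ι} (h : D.c i = some k) :
    D.pz t i = gact (D.g i) (D.hg i) (t k) := by
  rw [pz, h]

theorem locus_eq : D.locus = {x | ∃ t : ι → ℍ, ∀ i, ∃ z : ℍ, x i = jj z ∧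
    (D.c i = none → z = D.w i) ∧ ∀ k, D.c i = some k → (z : ℂ) *
      ((D.g i 1 0 : ℂ) * t k + (D.g i 1 1 : ℂ)) = (D.g i 0 0 : ℂ) * t k + (D.g i 0 1 : ℂ)} := by
  ext x
  constructor
  · rintro ⟨t, rfl⟩
    refine ⟨t, fun i => ⟨D.pz t i, rfl, fun h => D.pz_none t h, fun k h => ?_⟩⟩
    rw [D.pz_some t h]
    exact gact_rel (D.hg i) (t k)
  · rintro ⟨t, h⟩
    refine ⟨t, funext fun i => ?_⟩
    obtain ⟨z, h1, h2, h3⟩ := h i
    change jj (D.pz t i) = x i
    rw [h1]
    rcases hc : D.c i with _ | k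
    · rw [D.pz_none t hc, h2 hc]
    · rw [D.pz_some t hc, gact_unique (D.hg i) (h3 k hc)]

end SD

theorem special_iff {A : Set (ι → ℂ)} : Special A ↔ ∃ D : SD ι, A = zclosure D.locus := by
  constructor
  · rintro ⟨c, g, w, hg, hw, h⟩
    refine ⟨⟨c, g, w, hg, hw⟩, ?_⟩
    rw [SD.locus_eq]
    exact h
  · rintro ⟨D, h⟩
    refine ⟨D.c, D.g, D.w, D.hg, D.hw, ?_⟩
    rw [SD.locus_eq] at h
    exact h

namespace SD

variable (D : SD ι)

open Classical in
theorem shol (f : MvPolynomial ι ℂ) : SHol (fun t => eval (fun i => jj (D.pz t i)) f) := by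
  intro t a
  induction f using MvPolynomial.induction_on with
  | C r => simpa using Hol.const' r
  | add p q hp hq => simpa using Hol.add' hp hq
  | mul_X p i hp =>
    have h1 : Hol (fun τ => jj (D.pz (Function.update t a τ) i)) := by
      rcases hc : D.c i with _ | k
      · have h2 : (fun τ => jj (D.pz (Function.update t a τ) i)) = fun _ => jj (D.w i) := by
          funext τ
          rw [D.pz_none _ hc]
        rw [h2]
        exact Hol.const' _
      · by_cases hk : k = a
        · have h2 : (fun τ => jj (D.pz (Function.update t a τ) i)) =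
              fun τ => jj (gact (D.g i) (D.hg i) τ) := by
            funext τ
            rw [D.pz_some _ hc, hk, Function.update_self]
          rw [h2]
          exact hol_gact _
        · have h2 : (fun τ => jj (D.pz (Function.update t a τ) i)) =
              fun _ => jj (gact (D.g i) (D.hg i) (t k)) := by
            funext τ
            rw [D.pz_some _ hc, Function.update_of_ne hk]
          rw [h2]
          exact Hol.const' _
    simpa using Hol.mul' hp h1

theorem locus_nonempty : D.locus.Nonempty := ⟨_, ⟨fun _ => I, rfl⟩⟩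

theorem van_prime : (van D.locus).IsPrime := by
  refine ⟨fun h1 => ?_, fun {f g} hfg => ?_⟩
  · obtain ⟨x, hx⟩ := D.locus_nonempty
    have h2 : (1 : MvPolynomial ι ℂ) ∈ van D.locus := by rw [h1]; trivial
    have h3 := h2 x hx
    rw [map_one] at h3
    exact one_ne_zero h3
  · have h1 := shol_mul_eq_zero (D.shol f) (D.shol g) (fun t => by
      rw [← map_mul]
      exact hfg _ ⟨t, rfl⟩)
    rcases h1 with h1 | h1
    · left
      rintro _ ⟨t, rfl⟩
      exact h1 t
    · right
      rintro _ ⟨t, rfl⟩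
      exact h1 t

/-- the subvariety -/
theorem sub : Subvariety (zclosure D.locus) :=
  Subvariety.of_prime (zclosed_zclosure _) (by rw [van_zclosure]; exact D.van_prime)

end SD

theorem Special.sub {A : Set (ι → ℂ)} (h : Special A) : Subvariety A := by
  obtain ⟨D, rfl⟩ := special_iff.1 h
  exact D.sub

end Pool.Agent.N101.Y1
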