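import Pool.Agent.N101.ZP.GeoB

/-!
# The defect of a subvariety of `Y(1)^n`
-/

set_option autoImplicit false
set_option linter.unusedSectionVars false
set_option linter.style.haveILetI false

namespace Pool.Agent.N101.Y1

open UpperHalfPlane MvPolynomial H294ZP
open Pool.Agent.R948 (td cp tdP tdP_eq)
open Pool.Agent.N101.ZP

variable {ι κ : Type} [Fintype ι] [Fintype κ]

theorem pt_iff {A : Set (ι → ℂ)} (h : Subvariety A) (f : MvPolynomial ι Fa) :
    aeval (toPP h).pt f = 0 ↔ ∀ x ∈ A, aeval x f = 0 := by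
  rw [← MvPolynomial.aeval_map_algebraMap (A := ℂ), PP.aeval_pt_eq_zero]
  constructor
  · intro h1 x hx
    have h2 : aeval x (MvPolynomial.map (algebraMap Fa ℂ) f) = 0 := h1 x hx
    rwa [MvPolynomial.aeval_map_algebraMap] at h2
  · intro h1 x hx
    change aeval x (MvPolynomial.map (algebraMap Fa ℂ) f) = 0
    rw [MvPolynomial.aeval_map_algebraMap]
    exact h1 x hx

theorem pt_ev2 {A : Set (ι → ℂ)} (h : Subvariety A) (P : Polynomial (Polynomial Fa)) (i j : ι) :
    ev2 P ((toPP h).pt i) ((toPP h).pt j) = 0 ↔ ∀ x ∈ A, ev2 P (x i) (x j) = 0 := by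
  rw [← aeval_mv2, pt_iff]
  simp only [aeval_mv2]

theorem pt_const {A : Set (ι → ℂ)} (h : Subvariety A) (i : ι) (t : Fa) :
    (toPP h).pt i = algebraMap Fa (toPP h).fld t ↔ ∀ x ∈ A, x i = algebraMap Fa ℂ t := by
  have h1 := pt_iff h (X i - C t)
  simp only [map_sub, aeval_X, aeval_C, sub_eq_zero] at h1
  exact h1

theorem sp_of_subset {A B : Set (ι → ℂ)} (hA : Subvariety A) (hB : Subvariety B) (h : A ⊆ B) :
    Sp Fa (toPP hB).pt (toPP hA).pt := by
  intro f hf
  rw [pt_iff] at hf ⊢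
  exact fun x hx => hf x (h hx)

/-- the rank of a subvariety -/
noncomputable def rank {A : Set (ι → ℂ)} (h : Subvariety A) : ℕ :=
  rkc (fun i => code false ((toPP h).pt i))

theorem rank_eq {A : Set (ι → ℂ)} (h : Subvariety A) : rank h = mRT.rk (ms ι) (toPP h).pt := rfl

theorem rank_mono {A B : Set (ι → ℂ)} (hA : Subvariety A) (hB : Subvariety B) (h : A ⊆ B) :
    rank hA ≤ rank hB :=
  mRT.rk_spec (ms ι) _ _ (sp_of_subset hA hB h) (okm _ _)

/-- algebraic singular moduli -/
noncomputable def cmF {τ : ℍ} (h : IsCM τ) : Fa := zF ⟨jj τ, singular_modulus_integral τ h⟩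

theorem cmF_eq {τ : ℍ} (h : IsCM τ) : algebraMap Fa ℂ (cmF h) = jj τ := rfl

/-- transcendence degree and rank -/
theorem td_le_rk {F : Type} [Field F] (T : RT F) {K : Type} [Field K] [Algebra F K] (s : ι → T.S)
    (p : ι → K) (hp : T.Ok s p) : td F p ≤ T.rk s p := by
  have h1 := T.df_inl (F := F) (Sum.elim (fun i : Empty => i.elim) s : Empty ⊕ ι → T.S)
    (Sum.elim (fun i : Empty => i.elim) p) (by
      rintro (i | i) hi
      · exact i.elim
      · exact hp i hi)
  have h2 : T.rk (Sum.elim (fun i : Empty => i.elim) s : Empty ⊕ ι → T.S)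
      (Sum.elim (fun i : Empty => i.elim) p) ≤ T.rk s p := by
    have h3 := T.rk_comp s p (Sum.elim (fun i : Empty => i.elim) id : Empty ⊕ ι → ι)
    have e1 : (fun j => s ((Sum.elim (fun i : Empty => i.elim) id : Empty ⊕ ι → ι) j)) =
        Sum.elim (fun i : Empty => i.elim) s := by
      funext j
      rcases j with j | j
      · exact j.elim
      · rfl
    have e2 : (fun j => p ((Sum.elim (fun i : Empty => i.elim) id : Empty ⊕ ι → ι) j)) =
        Sum.elim (fun i : Empty => i.elim) p := by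
      funext j
      rcases j with j | j
      · exact j.elim
      · rfl
    rw [e1, e2] at h3
    exact h3
  have h3 : td F p ≤ td F (Sum.elim (fun i : Empty => i.elim) p : Empty ⊕ ι → K) :=
    td_comp (F := F) (Sum.elim (fun i : Empty => i.elim) p : Empty ⊕ ι → K) Sum.inr
  have h4 : td F (fun i : Empty => (Sum.elim (fun i : Empty => i.elim) p : Empty ⊕ ι → K)
      (Sum.inl i)) ≤ 0 := (R948.td_le_card F _).trans (by simp)
  rw [RT.df, RT.df] at h1
  omega

theorem rkc_basis {Q : Type} (c : ι → Option Q) : ∃ J : Finset ι, J.card ≤ rkc c ∧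
    ∀ j, c j = none ∨ ∃ j' ∈ J, c j' = c j := by
  obtain ⟨J, h1, h2⟩ := rkc_ext (Sum.elim (fun i : Empty => i.elim) c : Empty ⊕ ι → Option Q)
  have h3 := rkc_comp c (Sum.elim (fun i : Empty => i.elim) id : Empty ⊕ ι → ι)
  have e1 : (fun j => c ((Sum.elim (fun i : Empty => i.elim) id : Empty ⊕ ι → ι) j)) =
      Sum.elim (fun i : Empty => i.elim) c := by
    funext j
    rcases j with j | j
    · exact j.elim
    · rfl
  rw [e1] at h3
  refine ⟨J, by omega, fun j => ?_⟩
  rcases h2 j with h4 | ⟨i, -⟩ | h4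
  · exact Or.inl h4
  · exact i.elim
  · exact Or.inr h4

theorem rkc_le_card {Q : Type} (c : ι → Option Q) (s : Finset κ) (f : κ → Option Q)
    (h : ∀ i, c i = none ∨ ∃ k ∈ s, c i = f k) : rkc c ≤ s.card := by
  classical
  have h2 := rkc_succ c
  have h3 : (insert none (Finset.univ.image c)) ⊆ insert none (s.image f) := by
    intro x hx
    rcases Finset.mem_insert.1 hx with rfl | hx
    · exact Finset.mem_insert_self _ _
    · obtain ⟨i, -, rfl⟩ := Finset.mem_image.1 hx
      rcases h i with h4 | ⟨k, hk, h4⟩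
      · rw [h4]
        exact Finset.mem_insert_self _ _
      · rw [h4]
        exact Finset.mem_insert_of_mem (Finset.mem_image_of_mem f hk)
  have h4 := (Finset.card_le_card h3).trans (Finset.card_insert_le _ _)
  have h5 := Finset.card_image_le (s := s) (f := f)
  omega

namespace SD

variable (D : SD ι)

theorem rel_pz (t : ι → ℍ) {i k : ι} (h : D.c i = some k) :
    N135.ZO.Rel (D.g i) (t k) (D.pz t i) := by
  rw [D.pz_some t h]
  exact gact_rel _ _

theorem pt_mem (f : MvPolynomial ι Fa) : aeval (toPP D.sub).pt f = 0 ↔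
    ∀ t : ι → ℍ, aeval (fun i => jj (D.pz t i)) f = 0 := by
  rw [← MvPolynomial.aeval_map_algebraMap (A := ℂ), PP.aeval_pt_eq_zero]
  have e : (toPP D.sub).I = van D.locus := van_zclosure _
  rw [e]
  constructor
  · intro h1 t
    have h2 : aeval (fun i => jj (D.pz t i)) (MvPolynomial.map (algebraMap Fa ℂ) f) = 0 :=
      h1 _ ⟨t, rfl⟩
    rwa [MvPolynomial.aeval_map_algebraMap] at h2
  · rintro h1 _ ⟨t, rfl⟩
    change aeval (fun i => jj (D.pz t i)) (MvPolynomial.map (algebraMap Fa ℂ) f) = 0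
    rw [MvPolynomial.aeval_map_algebraMap]
    exact h1 t

theorem code_none {i : ι} (h : D.c i = none) : code false ((toPP D.sub).pt i) = none := by
  rw [ZP.code_none]
  intro _
  refine ⟨D.w i, cmF (D.hw i h), D.hw i h, cmF_eq _, ?_⟩
  have h1 := D.pt_mem (X i - C (cmF (D.hw i h)))
  simp only [map_sub, aeval_X, aeval_C, sub_eq_zero] at h1
  rw [h1]
  intro t
  rw [D.pz_none t h, cmF_eq]

theorem code_some {i j k : ι} (hi : D.c i = some k) (hj : D.c j = some k) :
    code false ((toPP D.sub).pt i) = code false ((toPP D.sub).pt j) := by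
  apply code_eq_of_iso
  obtain ⟨N, hN⟩ : ∃ N : ℕ, (N : ℤ) = (D.g j * (D.g i).adjugate).det := by
    refine ⟨((D.g j * (D.g i).adjugate).det).toNat, ?_⟩
    rw [Int.toNat_of_nonneg]
    rw [N135.ZO.det_mul', N135.ZO.det_adj]
    exact (mul_pos (D.hg j) (D.hg i)).le
  have hN0 : 0 < N := by
    have : (0 : ℤ) < N := by
      rw [hN, N135.ZO.det_mul', N135.ZO.det_adj]
      exact mul_pos (D.hg j) (D.hg i)
    exact_mod_cast this
  refine ⟨N, hN0, ?_⟩
  rw [← aeval_mv2, D.pt_mem]
  intro t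
  rw [aeval_mv2]
  exact psi_of_rel (A := D.g j * (D.g i).adjugate) hN0 hN.symm
    ((N135.ZO.rel_adj (D.rel_pz t hi)).mul (D.rel_pz t hj))

open Classical in
/-- the parameters which occur -/
noncomputable def used : Finset ι := Finset.univ.filter fun k => ∃ i, D.c i = some k

theorem mem_used {k : ι} : k ∈ D.used ↔ ∃ i, D.c i = some k := by
  classical
  simp [used]

theorem rank_le : rank D.sub ≤ D.used.card := by
  classical
  have h1 : ∀ k ∈ D.used, ∃ i, D.c i = some k := fun k hk => D.mem_used.1 hk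
  choose! ρ hρ using h1
  refine rkc_le_card _ D.used (fun k => code false ((toPP D.sub).pt (ρ k))) fun i => ?_
  rcases hc : D.c i with _ | k
  · exact Or.inl (D.code_none hc)
  · have hk : k ∈ D.used := D.mem_used.2 ⟨i, hc⟩
    exact Or.inr ⟨k, hk, D.code_some hc (hρ k hk)⟩

theorem adj_adj (M : N135.ZO.M2) : M.adjugate.adjugate = M := by
  ext i j
  rw [Matrix.adjugate_fin_two, Matrix.adjugate_fin_two]
  fin_cases i <;> fin_cases j <;> simp

theorem le_vdim : D.used.card ≤ vdim (zclosure D.locus) := by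
  classical
  have h1 : ∀ k ∈ D.used, ∃ i, D.c i = some k := fun k hk => D.mem_used.1 hk
  choose! ρ hρ using h1
  have hind : AlgebraicIndependent ℂ (fun k : D.used => (toPP D.sub).pt (ρ k)) := by
    rw [algebraicIndependent_iff]
    intro f hf
    have h2 : rename (fun k : D.used => ρ k) f ∈ van D.locus := by
      have e : (toPP D.sub).I = van D.locus := van_zclosure _
      rw [← e, ← PP.aeval_pt_eq_zero, aeval_rename]
      exact hf
    refine MvPolynomial.funext fun v => ?_
    rw [map_zero]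
    -- choose the parameters
    have h3 : ∀ k : D.used, ∃ σ : ℍ, jj (gact (D.g (ρ k)) (D.hg (ρ k)) σ) = v k := by
      intro k
      obtain ⟨z, hz⟩ := jj_surj (v k)
      have hadj : 0 < (D.g (ρ k)).adjugate.det := by
        rw [N135.ZO.det_adj]
        exact D.hg _
      refine ⟨gact (D.g (ρ k)).adjugate hadj z, ?_⟩
      have h4 := N135.ZO.rel_adj (gact_rel hadj z)
      rw [adj_adj] at h4
      rw [← gact_unique (D.hg (ρ k)) h4, hz]
    choose σ hσ using h3
    let t : ι → ℍ := fun k => if hk : k ∈ D.used then σ ⟨k, hk⟩ else I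
    have h5 := h2 _ ⟨t, rfl⟩
    rw [eval_rename] at h5
    have h6 : ((fun i => jj (D.pz t i)) ∘ fun k : D.used => ρ k) = v := by
      funext k
      change jj (D.pz t (ρ k)) = v k
      rw [D.pz_some t (hρ k k.2)]
      have h7 : t k = σ k := by
        simp only [t]
        rw [dif_pos k.2]
      rw [h7]
      exact hσ k
    rw [h6] at h5
    exact h5
  have h2 := card_le_td hind
  rw [Fintype.card_coe] at h2
  rw [vdim_eq D.sub, ← PP.td_pt]
  exact h2.trans (td_comp (F := ℂ) (toPP D.sub).pt (fun k : D.used => ρ k))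

theorem vdim_eq_rank : vdim (zclosure D.locus) = rank D.sub := by
  refine le_antisymm ?_ (D.rank_le.trans D.le_vdim)
  rw [vdim_eq D.sub, ← PP.td_pt]
  have h1 : td ℂ (toPP D.sub).pt ≤ td Fa (toPP D.sub).pt := td_le_td (F := Fa) _
  exact h1.trans (td_le_rk mRT (ms ι) _ (okm _ _))

theorem vdim_eq_card : vdim (zclosure D.locus) = D.used.card :=
  le_antisymm (D.vdim_eq_rank.trans_le D.rank_le) D.le_vdim

end SD

theorem Special.vdim_eq {Z : Set (ι → ℂ)} (h : Special Z) : vdim Z = rank h.sub := by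
  obtain ⟨D, rfl⟩ := special_iff.1 h
  exact D.vdim_eq_rank

/-- a special subvariety containing a given subvariety -/
theorem exists_special {A : Set (ι → ℂ)} (hA : Subvariety A) :
    ∃ Z, Special Z ∧ A ⊆ Z ∧ vdim Z ≤ rank hA := by
  classical
  obtain ⟨J, hJ, hJ2⟩ := rkc_basis (fun i => code false ((toPP hA).pt i))
  -- the data
  have h1 : ∀ j, ∃ (ρ : ι) (N : ℕ) (w : ℍ), 0 < N ∧
      (code false ((toPP hA).pt j) ≠ none → ρ ∈ J ∧
        ∀ x ∈ A, ev2 (psi N) (x ρ) (x j) = 0) ∧
      (code false ((toPP hA).pt j) = none → IsCM w ∧ ∀ x ∈ A, x j = jj w) := by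
    intro j
    by_cases hj : code false ((toPP hA).pt j) = none
    · have h2 := (ZP.code_none _ _).1 hj rfl
      obtain ⟨τ, t, h3, h4, h5⟩ := h2
      refine ⟨j, 1, τ, one_pos, fun h => absurd hj h, fun _ => ⟨h3, ?_⟩⟩
      intro x hx
      rw [(pt_const hA j t).1 h5 x hx, h4]
    · obtain ⟨ρ, hρ, hρ2⟩ := (hJ2 j).resolve_left hj
      obtain ⟨N, hN, h2⟩ := code_eq hρ2 (by
        have h3 : code false ((toPP hA).pt ρ) = code false ((toPP hA).pt j) := hρ2
        rw [h3]
        exact hj)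
      refine ⟨ρ, N, I, hN, fun _ => ⟨hρ, ?_⟩, fun h => absurd h hj⟩
      exact (pt_ev2 hA (psi N) ρ j).1 h2
  choose ρ N w hN hn hs using h1
  choose fam hfam G h hG1 hG2 hG3 _ using fun j => psi_family (hN j)
  let cls : ι → Option ι := fun j => if code false ((toPP hA).pt j) = none then none else some (ρ j)
  have hcls0 : ∀ j, cls j = none → code false ((toPP hA).pt j) = none := by
    intro j hj
    by_contra hcon
    simp only [cls, if_neg hcon] at hj
    exact Option.some_ne_none _ hj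
  have hcls1 : ∀ j k, cls j = some k → code false ((toPP hA).pt j) ≠ none ∧ k = ρ j := by
    intro j k hj
    by_cases h0 : code false ((toPP hA).pt j) = none
    · simp only [cls, if_pos h0] at hj
      exact absurd hj.symm (Option.some_ne_none k)
    · simp only [cls, if_neg h0, Option.some.injEq] at hj
      exact ⟨h0, hj.symm⟩
  let D : (∀ j, fam j) → SD ι := fun κ =>
    { c := cls
      g := fun j => G j (κ j)
      w := w
      hg := fun j => by
        rw [hG1]
        exact_mod_cast hN j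
      hw := fun j hj => (hs j (hcls0 j hj)).1 }
  have hcover : A ⊆ ⋃ κ ∈ (Finset.univ : Finset (∀ j, fam j)), zclosure (D κ).locus := by
    intro x hx
    choose t ht using fun i => jj_surj (x i)
    have h2 : ∀ j, ∃ κ : fam j, code false ((toPP hA).pt j) ≠ none →
        x j = jj (h j κ (t (ρ j))) := by
      intro j
      by_cases h0 : code false ((toPP hA).pt j) = none
      · -- the family is not empty
        have h3 : ∃ κ : fam j, True := by
          by_contra hcon
          push Not at hcon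
          have hemp : IsEmpty (fam j) := ⟨fun κ => hcon κ⟩
          obtain ⟨M, hM⟩ : ∃ M : N135.ZO.M2, M.det = N j := ⟨!![(N j : ℤ), 0; 0, 1], by
            rw [Matrix.det_fin_two_of]
            ring⟩
          have hM0 : 0 < M.det := by
            rw [hM]
            exact_mod_cast hN j
          have h4 := psi_of_rel (hN j) hM (gact_rel hM0 I)
          rw [← eval_sp1, hG3 j I, Polynomial.eval_prod] at h4
          rw [Finset.prod_eq_zero_iff] at h4
          obtain ⟨κ, -, -⟩ := h4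
          exact hemp.elim κ
        obtain ⟨κ, -⟩ := h3
        exact ⟨κ, fun h => absurd h0 h⟩
      · have h3 := (hn j h0).2 x hx
        rw [← ht (ρ j), ← eval_sp1, hG3 j, Polynomial.eval_prod, Finset.prod_eq_zero_iff] at h3
        obtain ⟨κ, -, h4⟩ := h3
        rw [Polynomial.eval_sub, Polynomial.eval_X, Polynomial.eval_C, sub_eq_zero] at h4
        exact ⟨κ, fun _ => h4⟩
    choose κ hκ using h2
    refine Set.mem_biUnion (Finset.mem_univ κ) (subset_zclosure _ ?_)
    refine ⟨t, funext fun j => ?_⟩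
    change jj ((D κ).pz t j) = x j
    rcases hc : cls j with _ | k
    · rw [(D κ).pz_none t hc, (hs j (hcls0 j hc)).2 x hx]
    · obtain ⟨h0, rfl⟩ := hcls1 j k hc
      rw [(D κ).pz_some t hc, hκ j h0]
      congr 1
      exact (gact_unique _ (hG2 j (κ j) (t (ρ j)))).symm
  obtain ⟨κ, -, hκ⟩ := hA.finite_union _ _ (fun κ => zclosed_zclosure _) hcover
  refine ⟨_, special_iff.2 ⟨D κ, rfl⟩, hκ, ?_⟩
  rw [(D κ).vdim_eq_card]
  refine le_trans ?_ hJ
  refine Finset.card_le_card fun k hk => ?_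
  obtain ⟨j, hj⟩ := (D κ).mem_used.1 hk
  obtain ⟨h0, rfl⟩ := hcls1 j k hj
  exact (hn j h0).1

/-- **The defect of a subvariety.** -/
theorem defect_eq {A : Set (ι → ℂ)} (hA : Subvariety A) :
    defect A = mRT.df ℂ (ms ι) (toPP hA).pt := by
  have h1 : sInf {d : ℕ | ∃ Z, Special Z ∧ A ⊆ Z ∧ vdim Z = d} = rank hA := by
    apply le_antisymm
    · obtain ⟨Z, h1, h2, h3⟩ := exists_special hA
      refine le_trans (Nat.sInf_le ?_) h3
      exact ⟨Z, h1, h2, rfl⟩
    · obtain ⟨Z, h1, h2, -⟩ := exists_special hA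
      obtain ⟨Z', h3, h4, h5⟩ := Nat.sInf_mem (s := {d : ℕ | ∃ Z, Special Z ∧ A ⊆ Z ∧ vdim Z = d})
        ⟨_, Z, h1, h2, rfl⟩
      rw [← h5, h3.vdim_eq]
      exact rank_mono hA h3.sub h4
  rw [defect, h1, RT.df, vdim_eq hA, PP.td_pt, rank_eq]

theorem defect_zeros (P : PP ℂ ι) :
    defect (zeros (P.I : Set (MvPolynomial ι ℂ))) = mRT.df ℂ (ms ι) P.pt := by
  rw [defect_eq (sub_zeros P), toPP_zeros]

theorem finite_optimal {V : Set (ι → ℂ)} (hV : ZClosed V) (h : FinI mRT ℂ (ms ι) (van V)) :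
    {A | Optimal A V}.Finite := by
  obtain ⟨B, hB, h⟩ := h
  refine Set.Finite.of_finite_image (f := van) ((hB.image PP.I).subset ?_) ?_
  · rintro _ ⟨A, ⟨hA, hAV, hopt⟩, rfl⟩
    obtain ⟨P, hP1, hP2, hP3, hP4⟩ := h (toPP hA) (okm _ _) (van_anti hAV)
    have h1 : A ⊆ zeros (P.I : Set (MvPolynomial ι ℂ)) :=
      (subset_zclosure A).trans (zeros_anti hP3)
    have h2 : zeros (P.I : Set (MvPolynomial ι ℂ)) ⊆ V := by
      have h3 := zeros_anti (ι := ι) (S := (van V : Set (MvPolynomial ι ℂ))) hP2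
      rwa [hV.eq] at h3
    by_cases heq : A = zeros (P.I : Set (MvPolynomial ι ℂ))
    · rw [heq, van_zeros]
      exact ⟨P, hP1, rfl⟩
    · exfalso
      refine hopt _ (sub_zeros P) (lt_of_le_of_ne h1 heq) h2 ?_
      rw [defect_zeros, defect_eq hA]
      exact hP4
  · rintro A ⟨hA, -, -⟩ A' ⟨hA', -, -⟩ h1
    rw [← hA.closed.eq, ← hA'.closed.eq, h1]

theorem fin_of_optimal {V : Set (ι → ℂ)} (hV : ZClosed V) (h : {A | Optimal A V}.Finite) :
    FinI mRT ℂ (ms ι) (van V) := by
  refine ⟨{P | ∃ (A : Set (ι → ℂ)), Optimal A V ∧ van A = P.I}, ?_, fun Q₀ _ hQ₀ => ?_⟩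
  · have h1 : (PP.I '' {P : PP ℂ ι | ∃ (A : Set (ι → ℂ)), Optimal A V ∧ van A = P.I}).Finite := by
      refine (h.image van).subset ?_
      rintro _ ⟨P, ⟨A, hA, h2⟩, rfl⟩
      exact ⟨A, hA, h2⟩
    exact Set.Finite.of_finite_image h1 (fun P _ Q _ h => PP.ext' h)
  let s : Set ℕ := {n | ∃ P : PP ℂ ι, van V ≤ P.I ∧ P.I ≤ Q₀.I ∧
    mRT.df ℂ (ms ι) P.pt ≤ mRT.df ℂ (ms ι) Q₀.pt ∧ tdP P.I = n}
  have hs1 : s.Nonempty := ⟨_, Q₀, hQ₀, le_rfl, le_rfl, rfl⟩
  have hs2 : BddAbove s := ⟨Fintype.card ι, by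
    rintro _ ⟨P, -, -, -, rfl⟩
    exact R948.tdP_le_card _⟩
  obtain ⟨P, h1, h2, h3, h4⟩ := Nat.sSup_mem hs1 hs2
  refine ⟨P, ⟨zeros (P.I : Set (MvPolynomial ι ℂ)), ⟨sub_zeros P, ?_, ?_⟩, van_zeros P⟩, h1, h2, h3⟩
  · have h5 := zeros_anti (ι := ι) (S := (van V : Set (MvPolynomial ι ℂ))) h1
    rwa [hV.eq] at h5
  · intro B hB hAB hBV hdef
    rw [defect_zeros, defect_eq hB] at hdef
    have h5 : (toPP hB).I ≤ P.I := by
      have h6 := van_anti hAB.le
      rw [van_zeros] at h6
      exact h6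
    have h6 : (toPP hB).I ≠ P.I := by
      intro h7
      apply hAB.ne
      rw [← hB.closed.eq]
      exact congrArg (fun J : Ideal (MvPolynomial ι ℂ) => zeros (J : Set (MvPolynomial ι ℂ))) h7.symm
    have h7 : tdP P.I < tdP (toPP hB).I := R948.tdP_strict (lt_of_le_of_ne h5 h6)
    have h8 : tdP (toPP hB).I ∈ s := ⟨toPP hB, van_anti hBV, h5.trans h2, hdef.trans h3, rfl⟩
    have h9 := le_csSup hs2 h8
    omega

end Pool.Agent.N101.Y1
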