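import Pool.Agent.N101.ZP.ModA

/-!
# Isogenies and complex multiplication over extensions of the field of algebraic numbers
-/

set_option autoImplicit false
set_option linter.unusedSectionVars false
set_option linter.style.haveILetI false

namespace Pool.Agent.N101.ZP

open UpperHalfPlane H294ZP Polynomial Pool.Agent.N135.ZO
open Pool.Agent.R948 (td cp)
open Pool.Agent.Y226 (ZZ ιZ PsiE map_PsiE modular_spec mP mD)

/-- the image of a polynomial in two variables -/
noncomputable def sp1 (P : Fa[X][X]) (x : ℂ) : ℂ[X] := P.map (eval₂RingHom (algebraMap Fa ℂ) x)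

theorem eval_sp1 (P : Fa[X][X]) (x y : ℂ) : (sp1 P x).eval y = ev2 P x y := by
  rw [sp1, ev2, eval₂_eq_eval_map]

theorem sp1_mul (P Q : Fa[X][X]) (x : ℂ) : sp1 (P * Q) x = sp1 P x * sp1 Q x := by
  rw [sp1, sp1, sp1, Polynomial.map_mul]

theorem sp1_pow (n : ℕ) (x : ℂ) : sp1 ((X - C X) ^ n) x = (X - C x) ^ n := by
  rw [sp1, Polynomial.map_pow]
  simp

theorem eq_zero_of_sp1 {P : Fa[X][X]} (h : ∀ τ : ℍ, sp1 P (jj τ) = 0) : P = 0 := by
  ext1 i
  rw [coeff_zero]
  have h1 : (P.coeff i).map (algebraMap Fa ℂ) = 0 := by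
    refine Polynomial.funext fun x => ?_
    obtain ⟨τ, rfl⟩ := jj_surj x
    have h2 := congrArg (fun Q => Polynomial.coeff Q i) (h τ)
    simp only [sp1, coeff_map, coeff_zero, coe_eval₂RingHom] at h2
    rw [eval_zero, eval_map]
    exact h2
  exact (Polynomial.map_eq_zero (algebraMap Fa ℂ)).1 h1

/-- the data of the modular polynomial -/
theorem psi_family {N : ℕ} (hN : 0 < N) : ∃ (ι : Type) (_ : Fintype ι) (A : ι → M2)
    (h : ι → ℍ → ℍ), (∀ k, (A k).det = N) ∧ (∀ k τ, N135.ZO.Rel (A k) τ (h k τ)) ∧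
    (∀ τ, sp1 (psi N) (jj τ) = ∏ k, (X - C (jj (h k τ)))) ∧
    (∀ (A : M2) (τ w : ℍ), A.det = N → N135.ZO.Rel A τ w → ev2 (psi N) (jj τ) (jj w) = 0) := by
  obtain ⟨ι, _, α, δ, β, h, h1, h2, -, h4, h5⟩ := modular_spec N hN
  refine ⟨ι, inferInstance, fun k => !![(α k : ℤ), β k; 0, (δ k : ℤ)], h, ?_, ?_, ?_, ?_⟩
  · intro k
    rw [Matrix.det_fin_two_of, mul_zero, sub_zero, ← (h1 k).2.2]
    push_cast
    ring
  · intro k τ
    have := h2 k τ
    simp only [N135.ZO.Rel, N135.ZO.den, N135.ZO.num, Matrix.of_apply, Matrix.cons_val',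
      Matrix.cons_val_zero, Matrix.cons_val_one, Matrix.cons_val_fin_one]
    push_cast
    rw [← this]
    ring
  · intro τ
    refine Polynomial.funext fun y => ?_
    rw [eval_sp1, ev2_psi, zF_comp, ← h4 τ y, eval_prod]
    simp
  · intro A τ w hA hw
    rw [ev2_psi, zF_comp]
    exact h5 τ w (A 0 0) (A 0 1) (A 1 0) (A 1 1) (by rw [← det_eq, hA]) hw

theorem psi_monic {N : ℕ} (hN : 0 < N) : (psi N).Monic := by
  obtain ⟨ι, _, α, δ, β, h, h1, h2, h3, h4, h5⟩ := modular_spec N hN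
  have hdeg : (∑ i ∈ Finset.range (mD N), C ((mP N i).map zF) * X ^ i : Fa[X][X]).degree <
      (mD N : ℕ) := by
    refine lt_of_le_of_lt (degree_sum_le _ _) ?_
    rw [Finset.sup_lt_iff (by exact WithBot.bot_lt_coe _)]
    intro i hi
    refine lt_of_le_of_lt (degree_C_mul_X_pow_le _ _) ?_
    exact_mod_cast Finset.mem_range.1 hi
  rw [psi, Finset.sum_range_succ, h3, Polynomial.map_one, C_1, one_mul, add_comm]
  exact monic_X_pow_add hdeg

section

variable {K L : Type} [Field K] [Algebra Fa K] [Field L] [Algebra Fa L]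

/-- isogenies -/
def Iso (x y : K) : Prop := ∃ N : ℕ, 0 < N ∧ ev2 (psi N) x y = 0

/-- special points -/
def Cm (x : K) : Prop := ∃ (τ : ℍ) (t : Fa), IsCM τ ∧ algebraMap Fa ℂ t = jj τ ∧
  x = algebraMap Fa K t

theorem psi_of_rel {A : M2} {τ w : ℍ} {N : ℕ} (hN : 0 < N) (hA : A.det = N)
    (h : N135.ZO.Rel A τ w) : ev2 (psi N) (jj τ) (jj w) = 0 := by
  obtain ⟨_, _, _, _, _, _, _, h4⟩ := psi_family hN
  exact h4 A τ w hA h

theorem rel_of_psi {N : ℕ} (hN : 0 < N) {τ : ℍ} {y : ℂ} (h : ev2 (psi N) (jj τ) y = 0) :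
    ∃ (A : M2) (w : ℍ), A.det = N ∧ N135.ZO.Rel A τ w ∧ jj w = y := by
  obtain ⟨ι, _, A, g, h1, h2, h3, -⟩ := psi_family hN
  rw [← eval_sp1, h3, eval_prod] at h
  obtain ⟨k, -, hk⟩ := Finset.prod_eq_zero_iff.1 h
  rw [eval_sub, eval_X, eval_C, sub_eq_zero] at hk
  exact ⟨A k, g k τ, h1 k, h2 k τ, hk.symm⟩

theorem psi_symm_C {N : ℕ} (hN : 0 < N) {x y : ℂ} (h : ev2 (psi N) x y = 0) :
    ev2 (psi N) y x = 0 := by
  obtain ⟨τ, rfl⟩ := jj_surj x
  obtain ⟨A, w, h1, h2, rfl⟩ := rel_of_psi hN h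
  exact psi_of_rel hN (by rw [det_adj, h1]) (rel_adj h2)

theorem psi_trans_C {N M : ℕ} (hN : 0 < N) (hM : 0 < M) {x y z : ℂ} (h : ev2 (psi N) x y = 0)
    (h' : ev2 (psi M) y z = 0) : ev2 (psi (M * N)) x z = 0 := by
  obtain ⟨τ, rfl⟩ := jj_surj x
  obtain ⟨A, w, h1, h2, rfl⟩ := rel_of_psi hN h
  obtain ⟨B, v, h3, h4, rfl⟩ := rel_of_psi hM h'
  exact psi_of_rel (A := B * A) (Nat.mul_pos hM hN) (by
    rw [det_mul', h1, h3]
    push_cast
    ring) (h2.mul h4)

theorem psi_refl_C (x : ℂ) : ev2 (psi 1) x x = 0 := by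
  obtain ⟨τ, rfl⟩ := jj_surj x
  exact psi_of_rel (A := 1) one_pos (by simp) (rel_one τ)

theorem psi_refl (x : K) : ev2 (psi 1) x x = 0 := by
  have h := transferC (ι := Fin 1) [] (mv2 (psi 1) 0 0) (fun x _ => by
    rw [aeval_mv2]
    exact psi_refl_C _) (fun _ => x) (by simp)
  rwa [aeval_mv2] at h

theorem psi_symm {N : ℕ} (hN : 0 < N) {x y : K} (h : ev2 (psi N) x y = 0) :
    ev2 (psi N) y x = 0 := by
  have h1 := transferC (ι := Fin 2) [mv2 (psi N) 0 1] (mv2 (psi N) 1 0) (fun x hx => by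
    rw [aeval_mv2]
    have h2 := hx _ List.mem_cons_self
    rw [aeval_mv2] at h2
    exact psi_symm_C hN h2) ![x, y] (by
      intro f hf
      rw [List.mem_singleton] at hf
      rw [hf, aeval_mv2]
      exact h)
  rwa [aeval_mv2] at h1

theorem psi_trans {N M : ℕ} (hN : 0 < N) (hM : 0 < M) {x y z : K} (h : ev2 (psi N) x y = 0)
    (h' : ev2 (psi M) y z = 0) : ev2 (psi (M * N)) x z = 0 := by
  have h1 := transferC (ι := Fin 3) [mv2 (psi N) 0 1, mv2 (psi M) 1 2] (mv2 (psi (M * N)) 0 2)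
    (fun x hx => by
    rw [aeval_mv2]
    have h2 := hx _ List.mem_cons_self
    have h3 := hx _ (List.mem_cons_of_mem _ List.mem_cons_self)
    rw [aeval_mv2] at h2 h3
    exact psi_trans_C hN hM h2 h3) ![x, y, z] (by
      intro f hf
      rcases List.mem_cons.1 hf with rfl | hf
      · rw [aeval_mv2]
        exact h
      · rw [List.mem_singleton] at hf
        rw [hf, aeval_mv2]
        exact h')
  rwa [aeval_mv2] at h1

theorem Iso.refl (x : K) : Iso x x := ⟨1, one_pos, psi_refl x⟩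

theorem Iso.symm {x y : K} (h : Iso x y) : Iso y x := by
  obtain ⟨N, hN, h⟩ := h
  exact ⟨N, hN, psi_symm hN h⟩

theorem Iso.trans {x y z : K} (h : Iso x y) (h' : Iso y z) : Iso x z := by
  obtain ⟨N, hN, h⟩ := h
  obtain ⟨M, hM, h'⟩ := h'
  exact ⟨M * N, Nat.mul_pos hM hN, psi_trans hN hM h h'⟩

/-- isogenous points are algebraic over each other -/
theorem ev2_alg {P : Fa[X][X]} (hP : P.Monic) {x y : K} (h : ev2 P x y = 0) (A : Subalgebra Fa K)
    (hx : x ∈ A) : IsAlgebraic A y := by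
  let φ : Fa[X] →+* A := eval₂RingHom (algebraMap Fa A) ⟨x, hx⟩
  refine ⟨P.map φ, (hP.map φ).ne_zero, ?_⟩
  rw [aeval_def, eval₂_map]
  have h1 : (algebraMap A K).comp φ = eval₂RingHom (algebraMap Fa K) x := by
    ext
    · simp [φ]
    · simp [φ]
  rw [h1]
  exact h

theorem Iso.alg {x y : K} (h : Iso x y) (A : Subalgebra Fa K) (hx : x ∈ A) :
    IsAlgebraic A y := by
  obtain ⟨N, hN, h⟩ := h
  exact ev2_alg (psi_monic hN) h A hx

theorem mem_range_of_alg {x : K} (h : IsAlgebraic Fa x) : ∃ t : Fa, x = algebraMap Fa K t := by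
  have hx : IsIntegral Fa x := h.isIntegral
  refine ⟨-(minpoly Fa x).coeff 0, ?_⟩
  have hq : (minpoly Fa x).leadingCoeff = 1 := minpoly.monic hx
  have h : (minpoly Fa x).degree = 1 :=
    IsAlgClosed.degree_eq_one_of_irreducible Fa (minpoly.irreducible hx)
  have h2 : Polynomial.aeval x (minpoly Fa x) = 0 := minpoly.aeval Fa x
  rw [Polynomial.eq_X_add_C_of_degree_eq_one h, hq, Polynomial.C_1, one_mul, Polynomial.aeval_add,
    Polynomial.aeval_X, Polynomial.aeval_C, add_eq_zero_iff_eq_neg] at h2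
  rw [map_neg]
  exact h2

theorem map_ev2 (φ : K →ₐ[Fa] L) (P : Fa[X][X]) (x y : K) : φ (ev2 P x y) = ev2 P (φ x) (φ y) := by
  rw [ev2, ev2]
  have h := hom_eval₂ P (eval₂RingHom (algebraMap Fa K) x) (φ : K →+* L) y
  rw [RingHom.coe_coe] at h
  rw [h]
  congr 1
  ext
  · simp
  · simp

end

/-- a point isogenous to a point with complex multiplication -/
theorem isCM_rel {A : M2} (hA : 0 < A.det) {τ w : ℍ} (h : N135.ZO.Rel A τ w) (hτ : IsCM τ) :
    IsCM w := by
  obtain ⟨a, b, c, ha, habc⟩ := hτ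
  have h1 := rel_adj h
  unfold N135.ZO.Rel N135.ZO.den N135.ZO.num at h1
  rw [Matrix.adjugate_fin_two] at h1
  simp only [Matrix.of_apply, Matrix.cons_val', Matrix.cons_val_zero, Matrix.cons_val_one,
    Matrix.cons_val_fin_one] at h1
  push_cast at h1
  obtain ⟨p, hp⟩ : ∃ p, p = A 0 0 := ⟨_, rfl⟩
  obtain ⟨q, hq⟩ : ∃ q, q = A 0 1 := ⟨_, rfl⟩
  obtain ⟨r, hr⟩ : ∃ r, r = A 1 0 := ⟨_, rfl⟩
  obtain ⟨s, hs⟩ : ∃ s, s = A 1 1 := ⟨_, rfl⟩
  rw [det_eq, ← hp, ← hq, ← hr, ← hs] at hA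
  rw [← hp, ← hq, ← hr, ← hs] at h1
  refine ⟨a * s ^ 2 - b * r * s + c * r ^ 2, -2 * a * s * q + b * (s * p + r * q) - 2 * c * p * r,
    a * q ^ 2 - b * p * q + c * p ^ 2, ?_, ?_⟩
  · intro h0
    by_cases hr0 : r = 0
    · rw [hr0] at h0 hA
      have h2 : a * s ^ 2 = 0 := by linear_combination h0
      rcases mul_eq_zero.1 h2 with h3 | h3
      · exact ha h3
      · rw [pow_eq_zero_iff (two_ne_zero)] at h3
        rw [h3] at hA
        simp at hA
    · have hr' : (r : ℂ) ≠ 0 := by exact_mod_cast hr0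
      have h2 : (a : ℂ) * s ^ 2 - b * r * s + c * r ^ 2 = 0 := by exact_mod_cast h0
      have h3 : ((r : ℂ) * τ + s) * (a * (r * τ) - a * s + b * r) = 0 := by
        linear_combination (r : ℂ) ^ 2 * habc - h2
      rcases mul_eq_zero.1 h3 with h4 | h4
      · have h5 := congrArg Complex.im h4
        simp at h5
        rcases h5 with h5 | h5
        · exact hr0 h5
        · exact τ.im_pos.ne' h5
      · have h5 := congrArg Complex.im h4
        simp at h5
        rcases h5 with h5 | h5 | h5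
        · exact ha h5
        · exact hr0 h5
        · exact τ.im_pos.ne' h5
  · push_cast
    linear_combination ((τ : ℂ) * (-(r : ℂ) * w + p) * (-a) - a * (s * w - q) - b * (-r * w + p)) * h1 +
      (-(r : ℂ) * w + p) ^ 2 * habc

/-- **The key lemma**: the factor of the modular polynomial prime to the diagonal meets the
diagonal only in points with complex multiplication. -/
theorem cm_of_R {N : ℕ} (hN : 0 < N) (τ : ℍ)
    (h : ev2 (psi N /ₘ (X - C X) ^ (rootMultiplicity X (psi N))) (jj τ) (jj τ) = 0) : IsCM τ := by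
  classical
  obtain ⟨ι, _, A, g, h1, h2, h3, -⟩ := psi_family hN
  obtain ⟨K0, hK0⟩ : ∃ K0 : Finset ι, K0 = Finset.univ.filter fun k => ∀ τ, jj (g k τ) = jj τ :=
    ⟨_, rfl⟩
  have hmem : ∀ k, k ∈ K0 ↔ ∀ τ, jj (g k τ) = jj τ := by
    intro k
    rw [hK0]
    simp
  obtain ⟨e, he⟩ : ∃ e, e = rootMultiplicity X (psi N) := ⟨_, rfl⟩
  rw [← he] at h
  have hle : K0.card ≤ e := by
    rw [he, le_rootMultiplicity_iff (psi_monic hN).ne_zero]
    have hq : ((X - C X : Fa[X][X]) ^ K0.card).Monic := (monic_X_sub_C _).pow _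
    rw [← modByMonic_eq_zero_iff_dvd hq]
    refine eq_zero_of_sp1 fun σ => ?_
    rw [sp1, map_modByMonic _ hq]
    have e1 : Polynomial.map (eval₂RingHom (algebraMap Fa ℂ) (jj σ)) ((X - C X) ^ K0.card) =
      (X - C (jj σ)) ^ K0.card := sp1_pow _ _
    have e2 : Polynomial.map (eval₂RingHom (algebraMap Fa ℂ) (jj σ)) (psi N) =
      ∏ k, (X - C (jj (g k σ))) := h3 σ
    rw [e1, e2, modByMonic_eq_zero_iff_dvd ((monic_X_sub_C _).pow _)]
    have e3 : (X - C (jj σ)) ^ K0.card = ∏ k ∈ K0, (X - C (jj (g k σ))) := by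
      rw [← Finset.prod_const]
      refine Finset.prod_congr rfl fun k hk => ?_
      rw [(hmem k).1 hk σ]
    rw [e3]
    exact Finset.prod_dvd_prod_of_subset _ _ _ (Finset.subset_univ _)
  -- the multiplicity at the given point
  have hdvd : (X - C (jj τ)) ^ (e + 1) ∣ ∏ k, (X - C (jj (g k τ))) := by
    rw [← h3 τ]
    have e1 : psi N = (X - C X) ^ e * (psi N /ₘ (X - C X) ^ e) := by
      rw [he]
      exact (pow_mul_divByMonic_rootMultiplicity_eq _ _).symm
    rw [e1, sp1_mul, sp1_pow, pow_succ]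
    refine mul_dvd_mul_left _ ?_
    rw [dvd_iff_isRoot, IsRoot.def, eval_sp1]
    exact h
  have hcard : e + 1 ≤ (Finset.univ.filter fun k => jj (g k τ) = jj τ).card := by
    have hne : (∏ k, (X - C (jj (g k τ)))) ≠ 0 :=
      (monic_prod_of_monic _ _ fun k _ => monic_X_sub_C _).ne_zero
    have e1 := (le_rootMultiplicity_iff hne).2 hdvd
    have e2 : (∏ k, (X - C (jj (g k τ)))) =
        ((Finset.univ.val.map fun k => jj (g k τ)).map fun a => X - C a).prod := by
      rw [Multiset.map_map]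
      rfl
    rw [← count_roots, e2, roots_multiset_prod_X_sub_C, Multiset.count_map] at e1
    refine e1.trans (le_of_eq ?_)
    rw [← Finset.filter_val, Finset.card_val]
    congr 1
    ext k
    simp [eq_comm]
  obtain ⟨k, hk1, hk2⟩ : ∃ k, jj (g k τ) = jj τ ∧ k ∉ K0 := by
    by_contra hcon
    push Not at hcon
    have e1 : (Finset.univ.filter fun k => jj (g k τ) = jj τ) ⊆ K0 := by
      intro k hk
      exact hcon k (Finset.mem_filter.1 hk).2
    have e2 := Finset.card_le_card e1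
    omega
  obtain ⟨M, hM, hM2⟩ := jj_inj hk1
  have hrel : N135.ZO.Rel (M * A k) τ τ := (h2 k τ).mul hM2
  have hdet : (M * A k).det = N := by rw [det_mul', hM, h1, one_mul]
  obtain ⟨B, hB⟩ : ∃ B, B = M * A k := ⟨_, rfl⟩
  rw [← hB] at hrel hdet
  unfold N135.ZO.Rel N135.ZO.den N135.ZO.num at hrel
  by_cases hc : B 1 0 = 0
  · -- scalar
    exfalso
    rw [hc] at hrel
    have h5 : ((B 1 1 - B 0 0 : ℤ) : ℂ) * τ - (B 0 1 : ℤ) = 0 := by
      push_cast
      linear_combination hrel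
    have h6 := congrArg Complex.im h5
    simp at h6
    have h7 : B 1 1 - B 0 0 = 0 := by
      rcases h6 with h6 | h6
      · have : ((B 1 1 - B 0 0 : ℤ) : ℝ) = 0 := by push_cast; exact h6
        exact_mod_cast this
      · exact absurd h6 τ.im_pos.ne'
    have h8 : B 0 1 = 0 := by
      rw [h7] at h5
      simpa using h5
    apply hk2
    rw [hmem]
    intro σ
    -- `M * A k` is scalar
    have h9 : N135.ZO.Rel B σ σ := by
      unfold N135.ZO.Rel N135.ZO.den N135.ZO.num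
      rw [hc, h8]
      have : B 1 1 = B 0 0 := by omega
      rw [this]
      push_cast
      ring
    have h10 : N135.ZO.Rel M.adjugate σ (g k σ) := by
      obtain ⟨v, hv⟩ := exists_rel (M := M.adjugate) (by rw [det_adj, hM]; norm_num) σ
      have h11 := h9.mul hv
      have h12 : M.adjugate * B = A k := by
        rw [hB, ← mul_assoc, Matrix.adjugate_mul, hM, one_smul, one_mul]
      rw [h12] at h11
      have h13 : v = g k σ := Rel.unique (by rw [h1]; exact_mod_cast hN) h11 (h2 k σ)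
      rw [← h13]
      exact hv
    exact N135.ZO.Rel.jj (by rw [det_adj, hM]) h10
  · refine ⟨B 1 0, B 1 1 - B 0 0, -B 0 1, hc, ?_⟩
    push_cast
    linear_combination hrel

section

variable {K L : Type} [Field K] [Algebra Fa K] [Field L] [Algebra Fa L]

theorem Cm.iso {x y : K} (hx : Cm x) (h : Iso x y) : Cm y := by
  obtain ⟨τ, t, hτ, ht, rfl⟩ := hx
  obtain ⟨s, rfl⟩ : ∃ s : Fa, y = algebraMap Fa K s := by
    apply mem_range_of_alg
    have h1 := h.alg (⊥ : Subalgebra Fa K) (Subalgebra.algebraMap_mem _ _)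
    exact Subalgebra.isAlgebraic_of_isAlgebraic_bot h1
  obtain ⟨N, hN, h⟩ := h
  have h1 : ev2 (psi N) t s = 0 := by
    apply (algebraMap Fa K).injective
    have := map_ev2 (Algebra.ofId Fa K) (psi N) t s
    rw [map_zero]
    exact this.trans h
  have h2 : ev2 (psi N) (jj τ) (algebraMap Fa ℂ s) = 0 := by
    rw [← ht]
    have := map_ev2 (Algebra.ofId Fa ℂ) (psi N) t s
    rw [h1, map_zero] at this
    exact this.symm
  obtain ⟨A, w, h3, h4, h5⟩ := rel_of_psi hN h2
  exact ⟨w, s, isCM_rel (by rw [h3]; exact_mod_cast hN) h4 hτ, h5.symm, rfl⟩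

/-- the cut property -/
theorem cut_cm {x y : K} {t : L} (hs : ∀ P : Fa[X][X], ev2 P x y = 0 → ev2 P t t = 0)
    (h : Iso x y) (hne : x ≠ y) : Cm t := by
  obtain ⟨N, hN, h⟩ := h
  have e1 : psi N = (X - C X) ^ (rootMultiplicity X (psi N)) *
      (psi N /ₘ (X - C X) ^ (rootMultiplicity X (psi N))) :=
    (pow_mul_divByMonic_rootMultiplicity_eq _ _).symm
  have h1 : ev2 (psi N /ₘ (X - C X) ^ (rootMultiplicity X (psi N))) x y = 0 := by
    rw [e1, ev2_mul, ev2_pow, ev2_X_sub] at h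
    exact (mul_eq_zero.1 h).resolve_left (pow_ne_zero _ (sub_ne_zero.2 (Ne.symm hne)))
  have h2 := hs _ h1
  obtain ⟨s, rfl⟩ : ∃ s : Fa, t = algebraMap Fa L s := by
    apply mem_range_of_alg
    rw [ev2_diag] at h2
    exact ⟨_, eval_divByMonic_pow_rootMultiplicity_ne_zero X (psi_monic hN).ne_zero, h2⟩
  obtain ⟨τ, hτ⟩ := jj_surj (algebraMap Fa ℂ s)
  refine ⟨τ, s, cm_of_R hN τ ?_, hτ.symm, rfl⟩
  have h3 : ev2 (psi N /ₘ (X - C X) ^ (rootMultiplicity X (psi N))) s s = 0 := by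
    apply (algebraMap Fa L).injective
    have := map_ev2 (Algebra.ofId Fa L) (psi N /ₘ (X - C X) ^ (rootMultiplicity X (psi N))) s s
    rw [map_zero]
    exact this.trans h2
  have := map_ev2 (Algebra.ofId Fa ℂ) (psi N /ₘ (X - C X) ^ (rootMultiplicity X (psi N))) s s
  rw [h3, map_zero] at this
  rw [hτ]
  exact this.symm

end

end Pool.Agent.N101.ZP
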