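import Pool.Agent.R948.Ht

/-!
# Points, specialisations and primes of polynomial rings
-/

set_option autoImplicit false
set_option linter.unusedSectionVars false
set_option linter.style.haveILetI false

namespace Pool.Agent.N101.ZP

open MvPolynomial Pool.Agent.R948

section

variable {F : Type} [Field F] {ι κ : Type} {K L M : Type} [Field K]
  [Field L] [Field M] [Algebra F K] [Algebra F L] [Algebra F M]

/-- specialisation of points -/
def Sp (F : Type) [Field F] {ι K L : Type} [Field K] [Field L] [Algebra F K] [Algebra F L]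
    (p : ι → K) (p' : ι → L) : Prop :=
  ∀ f : MvPolynomial ι F, aeval p f = 0 → aeval p' f = 0

theorem Sp.refl (p : ι → K) : Sp F p p := fun _ h => h

theorem Sp.trans {p : ι → K} {p' : ι → L} {p'' : ι → M} (h : Sp F p p') (h' : Sp F p' p'') :
    Sp F p p'' := fun f hf => h' f (h f hf)

theorem Sp.comp {p : ι → K} {p' : ι → L} (h : Sp F p p') (f : κ → ι) :
    Sp F (fun j => p (f j)) (fun j => p' (f j)) := by
  intro g hg
  have h1 := h (rename f g) (by rw [aeval_rename]; exact hg)
  rw [aeval_rename] at h1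
  exact h1

theorem Sp.td_le [Fintype ι] {p : ι → K} {p' : ι → L} (h : Sp F p p') : td F p' ≤ td F p :=
  td_le_of_ker F h

theorem Sp.eq {p : ι → K} {p' : ι → L} (h : Sp F p p') {a b : ι} (hab : p a = p b) :
    p' a = p' b := by
  have h1 := h (X a - X b) (by rw [map_sub, aeval_X, aeval_X, hab, sub_self])
  rw [map_sub, aeval_X, aeval_X] at h1
  exact sub_eq_zero.1 h1

theorem Sp.zero {p : ι → K} {p' : ι → L} (h : Sp F p p') {a : ι} (hab : p a = 0) :
    p' a = 0 := by
  have h1 := h (X a) (by rw [aeval_X, hab])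
  rw [aeval_X] at h1
  exact h1

theorem Sp.const {p : ι → K} {p' : ι → L} (h : Sp F p p') {a : ι} {t : F}
    (hab : p a = algebraMap F K t) : p' a = algebraMap F L t := by
  have h1 := h (X a - C t) (by rw [map_sub, aeval_X, aeval_C, hab, sub_self])
  rw [map_sub, aeval_X, aeval_C] at h1
  exact sub_eq_zero.1 h1

end

section

variable {F : Type} [Field F] {ι κ : Type} [Fintype ι] [Fintype κ] {K L M : Type} [Field K]
  [Field L] [Field M] [Algebra F K] [Algebra F L] [Algebra F M]

/-- primes of polynomial rings -/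
structure PP (F ι : Type) [Field F] where
  I : Ideal (MvPolynomial ι F)
  prime : I.IsPrime

namespace PP

instance (P : PP F ι) : P.I.IsPrime := P.prime

theorem ext' {P Q : PP F ι} (h : P.I = Q.I) : P = Q := by
  cases P
  cases Q
  simp only at h
  subst h
  rfl

/-- the field of a prime ideal -/
abbrev fld (P : PP F ι) : Type := FractionRing (MvPolynomial ι F ⧸ P.I)

/-- the generic point -/
noncomputable def pt (P : PP F ι) : ι → P.fld :=
  fun i => algebraMap (MvPolynomial ι F ⧸ P.I) P.fld (cp P.I i)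

theorem aeval_pt (P : PP F ι) (f : MvPolynomial ι F) :
    aeval P.pt f = algebraMap (MvPolynomial ι F ⧸ P.I) P.fld (Ideal.Quotient.mk P.I f) := by
  rw [← aeval_cp]
  have h : P.pt = fun i => algebraMap (MvPolynomial ι F ⧸ P.I) P.fld (cp P.I i) := rfl
  rw [h]
  exact aeval_algebraMap_apply _ _ _

theorem aeval_pt_eq_zero (P : PP F ι) (f : MvPolynomial ι F) :
    aeval P.pt f = 0 ↔ f ∈ P.I := by
  rw [aeval_pt, map_eq_zero_iff _ (IsFractionRing.injective _ _), Ideal.Quotient.eq_zero_iff_mem]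

theorem td_pt (P : PP F ι) : td F P.pt = tdP P.I :=
  le_antisymm (td_le_tdP P.I _ fun f hf => (P.aeval_pt_eq_zero f).2 hf)
    (tdP_le_td P.I _ fun f hf => (P.aeval_pt_eq_zero f).1 hf)

/-- the prime of a point -/
noncomputable def ofPt (F : Type) [Field F] {ι K : Type} [Field K] [Algebra F K] (z : ι → K) :
    PP F ι where
  I := RingHom.ker (aeval z : MvPolynomial ι F →ₐ[F] K)
  prime := RingHom.ker_isPrime _

theorem mem_ofPt (z : ι → K) (f : MvPolynomial ι F) :
    f ∈ (ofPt F z : PP F ι).I ↔ aeval z f = 0 := Iff.rfl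

theorem sp_ofPt (z : ι → K) : Sp F (ofPt F z).pt z := fun f hf => by
  rwa [aeval_pt_eq_zero, mem_ofPt] at hf

theorem sp_ofPt' (z : ι → K) : Sp F z (ofPt F z).pt := fun f hf => by
  rwa [aeval_pt_eq_zero, mem_ofPt]

theorem sp_iff (P : PP F ι) (z : ι → K) : Sp F P.pt z ↔ P.I ≤ (ofPt F z).I :=
  ⟨fun h f hf => h f ((P.aeval_pt_eq_zero f).2 hf), fun h f hf =>
    h ((P.aeval_pt_eq_zero f).1 hf)⟩

theorem sp_of_le {P Q : PP F ι} (h : P.I ≤ Q.I) : Sp F P.pt Q.pt := fun f hf => by
  rw [aeval_pt_eq_zero] at hf ⊢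
  exact h hf

theorem sp_le_iff {P Q : PP F ι} : Sp F P.pt Q.pt ↔ P.I ≤ Q.I :=
  ⟨fun h f hf => (Q.aeval_pt_eq_zero f).1 (h f ((P.aeval_pt_eq_zero f).2 hf)), sp_of_le⟩

end PP

/-- nonvanishing of some of the coordinates -/
def Nz (n : ι → Prop) (p : ι → K) : Prop := ∀ i, n i → p i ≠ 0

theorem Nz.of_sp {n : ι → Prop} {p : ι → K} {p' : ι → L} (h : Sp F p p') (hn : Nz n p') :
    Nz n p := fun i hi h0 => hn i hi (h.zero h0)

end

/-- **Rank theories**: sorts for the coordinates, and a rank for points. -/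
structure RT (F : Type) [Field F] where
  /-- the sorts of coordinates -/
  S : Type
  /-- the sorts of the coordinates which do not vanish -/
  nz : S → Prop
  /-- the rank -/
  rk : ∀ {K : Type} [Field K] [Algebra F K] {ι : Type} [Fintype ι], (ι → S) → (ι → K) → ℕ
  rk_card : ∀ {K : Type} [Field K] [Algebra F K] {ι : Type} [Fintype ι] (s : ι → S) (p : ι → K),
    rk s p ≤ Fintype.card ι
  rk_comp : ∀ {K : Type} [Field K] [Algebra F K] {ι κ : Type} [Fintype ι] [Fintype κ]
    (s : ι → S) (p : ι → K) (f : κ → ι), rk (fun j => s (f j)) (fun j => p (f j)) ≤ rk s p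
  rk_add : ∀ {K : Type} [Field K] [Algebra F K] {ι κ : Type} [Fintype ι] [Fintype κ]
    (s : ι ⊕ κ → S) (p : ι ⊕ κ → K), rk s p ≤ rk (fun i => s (Sum.inl i)) (fun i => p (Sum.inl i)) +
      rk (fun i => s (Sum.inr i)) (fun i => p (Sum.inr i))
  rk_spec : ∀ {K L : Type} [Field K] [Algebra F K] [Field L] [Algebra F L] {ι : Type} [Fintype ι]
    (s : ι → S) (p : ι → K) (p' : ι → L), Sp F p p' → Nz (fun i => nz (s i)) p' →
      rk s p' ≤ rk s p
  rk_rel : ∀ {K L : Type} [Field K] [Algebra F K] [Field L] [Algebra F L] {ι κ : Type} [Fintype ι]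
    [Fintype κ] (s : ι ⊕ κ → S) (p : ι ⊕ κ → K) (p' : ι ⊕ κ → L), Sp F p p' →
      Nz (fun i => nz (s i)) p' →
      rk s p' + rk (fun i => s (Sum.inl i)) (fun i => p (Sum.inl i)) ≤
      rk s p + rk (fun i => s (Sum.inl i)) (fun i => p' (Sum.inl i))
  rk_ext : ∀ {K : Type} [Field K] [Algebra F K] {ι κ : Type} [Fintype ι] [Fintype κ]
    (s : ι ⊕ κ → S) (p : ι ⊕ κ → K), Nz (fun i => nz (s i)) p →
      ∃ J : Finset κ, J.card + rk (fun i => s (Sum.inl i)) (fun i => p (Sum.inl i)) ≤ rk s p ∧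
      ∀ j, IsAlgebraic (Algebra.adjoin F (Set.range (fun i => p (Sum.inl i)) ∪
        (fun i => p (Sum.inr i)) '' (J : Set κ))) (p (Sum.inr j))
  rk_cut : ∀ {K L : Type} [Field K] [Algebra F K] [Field L] [Algebra F L] {ι : Type} [Fintype ι]
    (s : ι → S) (p : ι → K) (p' : ι → L), Sp F p p' → Nz (fun i => nz (s i)) p' →
      ∀ a b, s a = s b → p a ≠ p b → p' a = p' b → rk s p' + 1 ≤ rk s p

namespace RT

section

variable {F : Type} [Field F] (T : RT F) {ι κ : Type} [Fintype ι] [Fintype κ] {K L M : Type}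
  [Field K] [Field L] [Field M] [Algebra F K] [Algebra F L] [Algebra F M]

/-- admissible points -/
def Ok (s : ι → T.S) (p : ι → K) : Prop := Nz (fun i => T.nz (s i)) p

variable {T}

theorem Ok.pull {ι κ : Type} {s : ι → T.S} {s' : κ → T.S} {p : ι → K} (h : T.Ok s p) (f : κ → ι)
    (hf : ∀ j, s (f j) = s' j) : T.Ok s' (fun j => p (f j)) := by
  intro j hj
  refine h (f j) ?_
  change T.nz (s (f j))
  rw [hf]
  exact hj

theorem Ok.of_sp {s : ι → T.S} {p : ι → K} {p' : ι → L} (h : Sp F p p') (hn : T.Ok s p') :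
    T.Ok s p := Nz.of_sp h hn

theorem Ok.comp {s : ι → T.S} {p : ι → K} (h : T.Ok s p) (f : κ → ι) :
    T.Ok (fun j => s (f j)) (fun j => p (f j)) := fun j hj => h (f j) hj

variable (T)

theorem rk_eq (s : ι → T.S) (p : ι → K) (p' : ι → L) (h : Sp F p p') (h' : Sp F p' p)
    (hn : T.Ok s p') : T.rk s p = T.rk s p' :=
  le_antisymm (T.rk_spec s p' p h' (Ok.of_sp h hn)) (T.rk_spec s p p' h hn)

/-- the defect -/
noncomputable def df (k : Type) [Field k] [Algebra k K] (s : ι → T.S) (p : ι → K) : ℤ :=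
  T.rk s p - td k p

theorem df_eq (s : ι → T.S) (p : ι → K) (p' : ι → L) (h : Sp F p p') (h' : Sp F p' p)
    (hn : T.Ok s p') : T.df F s p = T.df F s p' := by
  rw [df, df, T.rk_eq s p p' h h' hn, le_antisymm h'.td_le h.td_le]

/-- forgetting coordinates does not increase the defect -/
theorem df_inl (s : ι ⊕ κ → T.S) (p : ι ⊕ κ → K) (hp : T.Ok s p) :
    T.df F (fun i => s (Sum.inl i)) (fun i => p (Sum.inl i)) ≤ T.df F s p := by
  classical
  obtain ⟨J, hJ, hJ2⟩ := T.rk_ext s p hp
  have h3 : Set.range p ⊆ (AlgebraicIndependent.matroid F K).closure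
      (Set.range (fun i => p (Sum.inl i)) ∪ (fun i => p (Sum.inr i)) '' (J : Set κ)) := by
    rintro _ ⟨i | j, rfl⟩
    · exact (AlgebraicIndependent.matroid F K).subset_closure _ (by simp) (Or.inl ⟨i, rfl⟩)
    · rw [AlgebraicIndependent.matroid_closure_eq]
      exact hJ2 j
  have h4 := (AlgebraicIndependent.matroid F K).eRk_mono h3
  rw [Matroid.eRk_closure_eq, ← td_spec] at h4
  have h5 := (AlgebraicIndependent.matroid F K).eRk_union_le_eRk_add_encard
    (Set.range (fun i => p (Sum.inl i))) ((fun i => p (Sum.inr i)) '' (J : Set κ))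
  rw [← td_spec] at h5
  have h6 : ((fun i => p (Sum.inr i)) '' (J : Set κ)).encard ≤ J.card := by
    refine (Set.encard_image_le _ _).trans ?_
    rw [Set.encard_coe_eq_coe_finsetCard]
  have h7 := h4.trans (h5.trans (add_le_add_right h6 _))
  have h8 : td F p ≤ td F (fun i => p (Sum.inl i)) + J.card := by exact_mod_cast h7
  rw [df, df]
  omega

/-- projections and specialisations -/
theorem df_proj (s : ι ⊕ κ → T.S) (p : ι ⊕ κ → K) (p' : ι ⊕ κ → L) (hs : Sp F p p')
    (hp : T.Ok s p') (ht : ∀ j, IsAlgebraic (Algebra.adjoin F (Set.range fun i => p (Sum.inl i)))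
      (p (Sum.inr j))) (h : T.df F s p ≤ T.df F s p') :
    T.df F (fun i => s (Sum.inl i)) (fun i => p (Sum.inl i)) ≤
      T.df F (fun i => s (Sum.inl i)) (fun i => p' (Sum.inl i)) := by
  have h1 := T.rk_rel s p p' hs hp
  have h4 : td F p ≤ td F (fun i => p (Sum.inl i)) := by
    refine td_le_of_alg F fun k => ?_
    rcases k with i | j
    · have h5 : p (Sum.inl i) ∈ Algebra.adjoin F (Set.range fun i => p (Sum.inl i)) :=
        Algebra.subset_adjoin ⟨i, rfl⟩
      exact isAlgebraic_algebraMap (A := K)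
        (⟨_, h5⟩ : Algebra.adjoin F (Set.range fun i => p (Sum.inl i)))
    · exact ht j
  have h5 : td F (fun i => p' (Sum.inl i)) ≤ td F p' := by
    refine td_le_of_alg F fun i => ?_
    have h6 : p' (Sum.inl i) ∈ Algebra.adjoin F (Set.range p') :=
      Algebra.subset_adjoin ⟨Sum.inl i, rfl⟩
    exact isAlgebraic_algebraMap (A := L) (⟨_, h6⟩ : Algebra.adjoin F (Set.range p'))
  rw [df, df] at h ⊢
  omega

end

end RT

end Pool.Agent.N101.ZP
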