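import Pool.Agent.N101.ZP.YDef
import Pool.Agent.R948.Var

/-!
# Subvarieties and special subvarieties of `Y(1)^n × G_m^k`

`Y(1)` is identified with the affine line over `ℂ` through the modular function `j`. The points of
`Y(1)^ι × G_m^κ` are the pairs `(x, u)` with `x : ι → ℂ` and `u : κ → ℂˣ`.
-/

set_option autoImplicit false

namespace Pool.Agent.N101.YG

open MvPolynomial

/-- The points of `Y(1)^ι × G_m^κ`. -/
abbrev Pts (ι κ : Type) : Type := (ι → ℂ) × (κ → ℂˣ)

variable {ι κ : Type} [Fintype ι] [Fintype κ]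

/-- The coordinates of a point. -/
def co (p : Pts ι κ) : ι ⊕ κ → ℂ := Sum.elim p.1 (fun i => (p.2 i : ℂ))

/-- The zero locus in `Y(1)^ι × G_m^κ` of a set of polynomials. -/
def zeros (S : Set (MvPolynomial (ι ⊕ κ) ℂ)) : Set (Pts ι κ) :=
  {p | ∀ f ∈ S, eval (co p) f = 0}

/-- Zariski closed subsets of `Y(1)^ι × G_m^κ`. -/
def ZClosed (A : Set (Pts ι κ)) : Prop := ∃ S : Set (MvPolynomial (ι ⊕ κ) ℂ), A = zeros S

/-- Subvarieties: irreducible Zariski closed subsets of `Y(1)^ι × G_m^κ`. -/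
structure Subvariety (A : Set (Pts ι κ)) : Prop where
  closed : ZClosed A
  nonempty : A.Nonempty
  irreducible : ∀ B C : Set (Pts ι κ), ZClosed B → ZClosed C → A ⊆ B ∪ C → A ⊆ B ∨ A ⊆ C

/-- The ideal of the polynomials vanishing on a subset of `Y(1)^ι × G_m^κ`. -/
def van (A : Set (Pts ι κ)) : Ideal (MvPolynomial (ι ⊕ κ) ℂ) where
  carrier := {f | ∀ p ∈ A, eval (co p) f = 0}
  zero_mem' := fun _ _ => map_zero _
  add_mem' := fun {f g} hf hg x hx => by rw [map_add, hf x hx, hg x hx, add_zero]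
  smul_mem' := fun f g hg x hx => by rw [smul_eq_mul, map_mul, hg x hx, mul_zero]

/-- The dimension of a subvariety: the transcendence degree of the ring of the restrictions of
the polynomial functions. -/
noncomputable def vdim (A : Set (Pts ι κ)) : ℕ :=
  Cardinal.toNat (Algebra.trdeg ℂ (MvPolynomial (ι ⊕ κ) ℂ ⧸ van A))

/-- Special subvarieties of `Y(1)^ι × G_m^κ`: the products of a special subvariety of `Y(1)^ι` and
a torsion coset of `G_m^κ`. -/
def Special (Z : Set (Pts ι κ)) : Prop :=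
  ∃ (Y : Set (ι → ℂ)) (T : Set (κ → ℂˣ)), Y1.Special Y ∧ R948.TorsionCoset T ∧ Z = Y ×ˢ T

/-- The defect of a subvariety: the least dimension of a special subvariety containing it minus its
dimension. -/
noncomputable def defect (A : Set (Pts ι κ)) : ℤ :=
  (sInf {d : ℕ | ∃ Z, Special Z ∧ A ⊆ Z ∧ vdim Z = d} : ℕ) - (vdim A : ℤ)

/-- `A` is an optimal subvariety for `V`: no larger subvariety of `V` has a defect which is at most
the defect of `A`. -/
def Optimal (A V : Set (Pts ι κ)) : Prop :=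
  Subvariety A ∧ A ⊆ V ∧ ∀ B, Subvariety B → A ⊂ B → B ⊆ V → ¬ defect B ≤ defect A

/-- The `M`-th power of the diagonal curve `{(x, u) : x = u}` in `Y(1) × G_m`, that is, of the graph
of the inclusion of `G_m` into the affine line. -/
def diagPow (M : ℕ) : Set (Pts (Fin M) (Fin M)) := {p | ∀ i, p.1 i = (p.2 i : ℂ)}

end Pool.Agent.N101.YG
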