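import Pool.Agent.N101.ZP.XJ

/-!
# The line `r + s = 1` from the diagonal
-/

set_option autoImplicit false
set_option linter.unusedSectionVars false
set_option linter.style.haveILetI false
set_option linter.unusedSimpArgs false

namespace Pool.Agent.N101.ZP

open UpperHalfPlane H294ZP Pool.Agent.N135.ZO MvPolynomial
open Pool.Agent.R948 (td cp mon un binom)

/-- the diagonal -/
noncomputable def diagC : Cond Fa Bool where
  sat y := y false = y true
  closed _ _ h hp := h.eq hp

/-- conditions which may be added to systems -/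
def XG {κ : Type} (s : κ → Bool) (G : Cond Fa κ) : Prop :=
  Good xRT (fun b : Bool => (b : xRT.S)) diagC (s : κ → xRT.S) G

section

variable {κ lam : Type}

theorem XG.comap {s : κ → Bool} {G : Cond Fa κ} (h : XG s G) (s' : lam → Bool) (f : κ → lam)
    (hf : ∀ i, s' (f i) = s i) : XG s' (G.comap f) :=
  Good.comap h _ f hf

theorem XG.and {s : κ → Bool} {G G' : Cond Fa κ} (h : XG s G) (h' : XG s G') : XG s (G.and G') :=
  Good.and h h'

theorem XG.congr {s : κ → Bool} {G G' : Cond Fa κ} (h : XG s G)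
    (h1 : ∀ (K : Type) [Field K] [Algebra Fa K] (y : κ → K), (∀ i, s i = true → y i ≠ 0) →
      (G'.sat y ↔ G.sat y)) : XG s G' :=
  Good.congr h (fun K _ _ y hy => h1 K y hy)

theorem XG.diag : XG (fun b : Bool => b) diagC := Good.base

theorem XG.of_spC [Fintype κ] {s : κ → Bool} {G : Cond Fa κ} (h : SpC xRT s G) : XG s G :=
  Good.of_spC h

theorem xrk_false [Fintype κ] {K : Type} [Field K] [Algebra Fa K] (y : κ → K) :
    xrk (fun _ => false) y = rkc (fun i => code false (y i)) := by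
  rw [xrk, rkt_one _ fun i => tu_false rfl _, add_zero]

theorem xrk_true [Fintype κ] {K : Type} [Field K] [Algebra Fa K] (y : κ → K) :
    xrk (fun _ => true) y = rkt (fun i => tu true (y i)) := by
  rw [xrk, rkc_zero, zero_add]
  intro i
  rw [code_none]
  exact fun h => absurd h.symm Bool.false_ne_true

/-- special conditions on the modular coordinates -/
theorem XG.mod [Fintype κ] (L : List (MvPolynomial κ Fa))
    (h : ∀ (K : Type) [Field K] [Algebra Fa K] (y : κ → K), (∀ f ∈ L, aeval y f = 0) →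
      rkc (fun i => code false (y i)) + L.length ≤ Fintype.card κ) :
    XG (fun _ => false) (Cond.pols L) := by
  refine XG.of_spC (spC_pols (T := xRT) (s := fun _ => false) _ fun K _ _ y _ hy => ?_)
  change xrk (fun _ => false) y + _ ≤ _
  rw [xrk_false]
  exact h K y hy

/-- special conditions on the torus coordinates -/
theorem XG.tor [Fintype κ] (b : κ → ℤ) (hb : b ≠ 0) (ξ : Fa) (N : ℕ) (hN : 0 < N)
    (hξ : ξ ^ N = 1) : XG (fun _ => true) (Cond.pols [binom ξ b]) := by
  refine XG.of_spC (spC_pols (T := xRT) (s := fun _ => true) _ fun K _ _ y hok hy => ?_)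
  change xrk (fun _ => true) y + _ ≤ _
  rw [xrk_true]
  have h1 := hy _ List.mem_cons_self
  have h2 : un (fun i => tu true (y i)) = y := by
    funext i
    exact tu_true rfl (hok i rfl)
  rw [← h2, R948.aeval_binom] at h1
  refine rkt_lt _ b hb N hN ?_
  apply Units.ext
  rw [Units.val_pow_eq_pow_val, h1, ← map_pow, hξ, map_one, Units.val_one]

/-- equality of modular coordinates -/
theorem XG.eqm : XG (fun _ : Fin 2 => false) (ZP.polZ (X 0 - X 1 : MvPolynomial (Fin 2) ℤ)) := by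
  refine (XG.mod [X 0 - X 1] fun K _ _ y hy => ?_).congr fun K _ _ y _ => ?_
  · have h2 := hy _ List.mem_cons_self
    rw [map_sub, aeval_X, aeval_X, sub_eq_zero] at h2
    have h3 := rkc_le_of (fun i => code false (y i)) (code false (y 0)) fun i => Or.inl (by
      fin_cases i
      · rfl
      · change code false (y 1) = _
        rw [h2])
    simp only [List.length_cons, List.length_nil, Fintype.card_fin]
    omega
  · simp [ZP.polZ, Cond.pols]

/-- constants on the modular curve -/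
theorem XG.cm {c : Fa} (hc : ∀ (K : Type) [Field K] [Algebra Fa K], Cm (algebraMap Fa K c)) :
    XG (fun _ : Fin 1 => false) (Cond.pols [X 0 - C c]) := by
  refine XG.mod _ fun K _ _ y hy => ?_
  have h2 := hy _ List.mem_cons_self
  rw [map_sub, aeval_X, aeval_C, sub_eq_zero] at h2
  have h3 := rkc_zero (fun i => code false (y i)) fun i => by
    have : i = 0 := Subsingleton.elim _ _
    rw [this, h2, code_none]
    exact fun _ => hc K
  simp only [List.length_cons, List.length_nil, Fintype.card_fin]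
  omega

theorem cm_zero {K : Type} [Field K] [Algebra Fa K] : Cm (algebraMap Fa K 0) :=
  ⟨rho, 0, ⟨1, 1, 1, one_ne_zero, by push_cast; linear_combination rho_eq⟩,
    by rw [map_zero, jj_rho], rfl⟩

theorem XG.zerom : XG (fun _ : Fin 1 => false) (ZP.polZ (X 0 : MvPolynomial (Fin 1) ℤ)) := by
  refine (XG.cm fun K _ _ => cm_zero).congr fun K _ _ y _ => ?_
  simp [ZP.polZ, Cond.pols]

/-- multiplication on the torus -/
theorem XG.mult : XG (fun _ : Fin 3 => true)
    (ZP.polZ (X 0 * X 1 - X 2 : MvPolynomial (Fin 3) ℤ)) := by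
  refine (XG.tor ![1, 1, -1] (fun h => ?_) 1 1 one_pos (one_pow 1)).congr fun K _ _ y _ => ?_
  · have := congrFun h 0
    simp at this
  · simp [ZP.polZ, Cond.pols, binom, Fin.prod_univ_succ]

theorem XG.onet : XG (fun _ : Fin 1 => true)
    (ZP.polZ (X 0 - 1 : MvPolynomial (Fin 1) ℤ)) := by
  refine (XG.tor ![1] (fun h => ?_) 1 1 one_pos (one_pow 1)).congr fun K _ _ y _ => ?_
  · have := congrFun h 0
    simp at this
  · simp [ZP.polZ, Cond.pols, binom, Fin.prod_univ_succ]

theorem XG.negt : XG (fun _ : Fin 2 => true)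
    (ZP.polZ (X 0 + X 1 : MvPolynomial (Fin 2) ℤ)) := by
  refine (XG.tor ![1, -1] (fun h => ?_) (-1) 2 two_pos (by norm_num)).congr fun K _ _ y _ => ?_
  · have := congrFun h 0
    simp at this
  · simp [ZP.polZ, Cond.pols, binom, Fin.prod_univ_succ]

theorem XG.prodt (m : ℕ) : XG (fun _ : Fin 5 => true)
    (ZP.polZ (X 0 * X 1 * X 2 - X 3 ^ 3 * X 4 ^ m : MvPolynomial (Fin 5) ℤ)) := by
  refine (XG.tor ![1, 1, 1, -3, -(m : ℤ)] (fun h => ?_) 1 1 one_pos (one_pow 1)).congr
    fun K _ _ y _ => ?_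
  · have := congrFun h 0
    simp at this
  · have h1 : ((3 : ℤ)).toNat = 3 := rfl
    simp [ZP.polZ, Cond.pols, binom, Fin.prod_univ_succ, h1, mul_assoc]

theorem XG.heq (D : HD) : XG (fun _ : Fin 4 => false)
    (Cond.pols (ZP.heq D.α D.β D.Q D.R)) := by
  refine XG.mod _ fun K _ _ y hy => ?_
  have h3 : rkc (fun i => code false (y i)) ≤ 1 := by
    refine rkc_le_of _ (code false (y 0)) fun i => Or.inl ?_
    by_cases hi : i = 0
    · rw [hi]
    · exact (code_eq_of_iso (D.iso y hy i hi)).symm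
  simp only [ZP.heq, List.length_cons, List.length_nil, Fintype.card_fin]
  omega

end

/-- the sorts of the auxiliary coordinates -/
def lsort : Fin 10 → Bool :=
  ![false, true, false, false, false, true, true, true, false, true]

/-- **The line.** -/
theorem XG.line : XG (fun _ : Fin 2 => true)
    (ZP.polZ (X 0 + X 1 - 1 : MvPolynomial (Fin 2) ℤ)) := by
  obtain ⟨D⟩ := exists_HD
  obtain ⟨m, hm, hR⟩ := D.exists_m
  let S : Fin 2 ⊕ Fin 10 → Bool := Sum.elim (fun _ => true) lsort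
  let fd : Fin 10 → Fin 10 → Bool → Fin 2 ⊕ Fin 10 := fun a b t => if t then Sum.inr b else Sum.inr a
  let G' : Cond Fa (Fin 2 ⊕ Fin 10) :=
    (diagC.comap (fd 0 1)).and ((diagC.comap (fd 2 5)).and ((diagC.comap (fd 3 6)).and
    ((diagC.comap (fd 4 7)).and ((diagC.comap (fd 8 9)).and
    (((Cond.pols [X 0 - C cc]).comap (![Sum.inr 8] : Fin 1 → Fin 2 ⊕ Fin 10)).and
    (((ZP.polZ (X 0 * X 1 - X 2)).comap
      (![Sum.inr 9, Sum.inl 0, Sum.inr 1] : Fin 3 → Fin 2 ⊕ Fin 10)).and
    (((Cond.pols (ZP.heq D.α D.β D.Q D.R)).comap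
      (![Sum.inr 0, Sum.inr 2, Sum.inr 3, Sum.inr 4] : Fin 4 → Fin 2 ⊕ Fin 10)).and
    ((ZP.polZ (X 0 * X 1 * X 2 - X 3 ^ 3 * X 4 ^ m)).comap
      (![Sum.inr 5, Sum.inr 6, Sum.inr 7, Sum.inr 9, Sum.inl 1] :
        Fin 5 → Fin 2 ⊕ Fin 10)))))))))
  have hG' : XG S G' := by
    refine (XG.diag.comap S _ ?_).and ((XG.diag.comap S _ ?_).and ((XG.diag.comap S _ ?_).and
      ((XG.diag.comap S _ ?_).and ((XG.diag.comap S _ ?_).and
      (((XG.cm fun K _ _ => cm_cc).comap S _ ?_).and ((XG.mult.comap S _ ?_).and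
      (((XG.heq D).comap S _ ?_).and ((XG.prodt m).comap S _ ?_))))))))
    all_goals decide
  have key : ∀ (K : Type) [Field K] [Algebra Fa K] (z : Fin 2 ⊕ Fin 10 → K), G'.sat z ↔
      z (Sum.inr 0) = z (Sum.inr 1) ∧ z (Sum.inr 2) = z (Sum.inr 5) ∧
      z (Sum.inr 3) = z (Sum.inr 6) ∧ z (Sum.inr 4) = z (Sum.inr 7) ∧
      z (Sum.inr 8) = z (Sum.inr 9) ∧ z (Sum.inr 8) = algebraMap Fa K cc ∧
      z (Sum.inr 9) * z (Sum.inl 0) = z (Sum.inr 1) ∧
      (∀ f ∈ ZP.heq D.α D.β D.Q D.R, aeval (fun j => z ((![Sum.inr 0, Sum.inr 2, Sum.inr 3,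
        Sum.inr 4] : Fin 4 → Fin 2 ⊕ Fin 10) j)) f = 0) ∧
      z (Sum.inr 5) * z (Sum.inr 6) * z (Sum.inr 7) = z (Sum.inr 9) ^ 3 * z (Sum.inl 1) ^ m := by
    intro K _ _ z
    have a1 : ((Cond.pols [X 0 - C cc]).comap (![Sum.inr 8] : Fin 1 → Fin 2 ⊕ Fin 10)).sat z ↔
        z (Sum.inr 8) = algebraMap Fa K cc := by
      simp [Cond.comap, Cond.pols, sub_eq_zero]
    have a2 : ((ZP.polZ (X 0 * X 1 - X 2)).comap
        (![Sum.inr 9, Sum.inl 0, Sum.inr 1] : Fin 3 → Fin 2 ⊕ Fin 10)).sat z ↔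
        z (Sum.inr 9) * z (Sum.inl 0) = z (Sum.inr 1) := by
      simp [Cond.comap, ZP.polZ, sub_eq_zero]
    have a3 : ((ZP.polZ (X 0 * X 1 * X 2 - X 3 ^ 3 * X 4 ^ m)).comap
        (![Sum.inr 5, Sum.inr 6, Sum.inr 7, Sum.inr 9, Sum.inl 1] :
          Fin 5 → Fin 2 ⊕ Fin 10)).sat z ↔
        z (Sum.inr 5) * z (Sum.inr 6) * z (Sum.inr 7) = z (Sum.inr 9) ^ 3 * z (Sum.inl 1) ^ m := by
      simp [Cond.comap, ZP.polZ, sub_eq_zero]
    rw [← a1, ← a2, ← a3]
    exact Iff.rfl
  have hc : ∀ (K : Type) [Field K] [Algebra Fa K], algebraMap Fa K cc ≠ 0 := fun K _ _ h =>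
    cc_ne ((map_eq_zero_iff _ (algebraMap Fa K).injective).1 h)
  refine Good.proj1 (T := xRT) (s := fun _ : Fin 2 => true) (s' := lsort) (G' := G') hG' ?_ ?_ ?_
  · intro K _ _ y hy hG
    have hsum : y 0 + y 1 = 1 := by
      have : aeval y (X 0 + X 1 - 1 : MvPolynomial (Fin 2) ℤ) = 0 := hG
      simpa [sub_eq_zero] using this
    have hy0 : y 0 ≠ 0 := hy 0 rfl
    have hy1 : y 1 ≠ 0 := hy 1 rfl
    have hch : CharZero K := charZero_of_injective_algebraMap (algebraMap Fa K).injective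
    have hch' : CharZero (AlgebraicClosure K) :=
      charZero_of_injective_algebraMap (algebraMap K (AlgebraicClosure K)).injective
    let φ : K →ₐ[Fa] AlgebraicClosure K := IsScalarTower.toAlgHom Fa K (AlgebraicClosure K)
    let c : AlgebraicClosure K := algebraMap Fa (AlgebraicClosure K) cc
    have hcne : c ≠ 0 := hc _
    have hφ0 : φ (y 0) ≠ 0 := (map_ne_zero φ).2 hy0
    have hφ1 : φ (y 1) ≠ 0 := (map_ne_zero φ).2 hy1
    have hsum' : φ (y 0) + φ (y 1) = 1 := by rw [← map_add, hsum, map_one]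
    obtain ⟨u, v, w, h1, h2, h3⟩ := exists_three
      ((c * φ (y 0)) ^ 2 + algebraMap Fa (AlgebraicClosure K) D.α * (c * φ (y 0)) +
        algebraMap Fa (AlgebraicClosure K) D.β) (Polynomial.aeval (c * φ (y 0)) D.Q)
      (Polynomial.aeval (c * φ (y 0)) D.R)
    have h4 : u * v * w = c ^ 3 * φ (y 1) ^ m := by
      rw [h3, hR, ← hsum']
      congr 2
      ring
    have h5 : u * v * w ≠ 0 := by
      rw [h4]
      exact mul_ne_zero (pow_ne_zero _ hcne) (pow_ne_zero _ hφ1)
    have hu : u ≠ 0 := fun h => h5 (by rw [h]; ring)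
    have hv : v ≠ 0 := fun h => h5 (by rw [h]; ring)
    have hw : w ≠ 0 := fun h => h5 (by rw [h]; ring)
    refine ⟨AlgebraicClosure K, inferInstance, inferInstance, φ,
      ![c * φ (y 0), c * φ (y 0), u, v, w, u, v, w, c, c], ?_, ?_⟩
    · intro j hj
      fin_cases j
      · exact absurd hj Bool.false_ne_true
      · exact mul_ne_zero hcne hφ0
      · exact absurd hj Bool.false_ne_true
      · exact absurd hj Bool.false_ne_true
      · exact absurd hj Bool.false_ne_true
      · exact hu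
      · exact hv
      · exact hw
      · exact absurd hj Bool.false_ne_true
      · exact hcne
    · rw [key]
      refine ⟨rfl, rfl, rfl, rfl, rfl, rfl, rfl, ?_, h4⟩
      rw [sat_heq]
      exact ⟨h1, h2, h3⟩
  · intro K L _ _ _ _ q z hq hqz hz hG
    have hsum : z (Sum.inl 0) + z (Sum.inl 1) = 1 := by
      have : aeval (fun i => z (Sum.inl i)) (X 0 + X 1 - 1 : MvPolynomial (Fin 2) ℤ) = 0 := hG
      simpa [sub_eq_zero] using this
    have hz1 : z (Sum.inl 1) ≠ 0 := hz (Sum.inl 1) rfl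
    have hq1 : q (Sum.inl 1) ≠ 0 := fun h => hz1 (hqz.zero h)
    obtain ⟨e1, e2, e3, e4, e5, e6, e7, e8, e9⟩ := (key K q).1 hq
    rw [sat_heq] at e8
    obtain ⟨-, -, e8⟩ := e8
    have e8' : q (Sum.inr 2) * q (Sum.inr 3) * q (Sum.inr 4) =
      Polynomial.aeval (q (Sum.inr 0)) D.R := e8
    have h1 : q (Sum.inr 9) = algebraMap Fa K cc := by rw [← e5, e6]
    have h2 : q (Sum.inr 0) = algebraMap Fa K cc * q (Sum.inl 0) := by rw [e1, ← e7, h1]
    rw [h2, hR, e2, e3, e4, e9, h1] at e8'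
    have h3 : q (Sum.inl 1) ^ m = (1 - q (Sum.inl 0)) ^ m :=
      mul_left_cancel₀ (pow_ne_zero 3 (hc K)) e8'
    have h4 : ((1 - q (Sum.inl 0)) / q (Sum.inl 1)) ^ m = 1 := by
      rw [div_pow, ← h3, div_self (pow_ne_zero _ hq1)]
    obtain ⟨ξ, -, hξ⟩ := R948.root_mem (F := Fa) hm h4
    rw [div_eq_iff hq1] at hξ
    have h5 := hqz (1 - X (Sum.inl 0) - C ξ * X (Sum.inl 1)) (by
      simp only [map_sub, map_one, map_mul, aeval_X, aeval_C]
      rw [hξ, sub_self])
    simp only [map_sub, map_one, map_mul, aeval_X, aeval_C] at h5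
    have h6 : algebraMap Fa L ξ = 1 := by
      have h7 : (1 - algebraMap Fa L ξ) * z (Sum.inl 1) = 0 := by
        linear_combination h5 + hsum
      rcases mul_eq_zero.1 h7 with h8 | h8
      · exact (sub_eq_zero.1 h8).symm
      · exact absurd h8 hz1
    have h7 : ξ = 1 := (algebraMap Fa L).injective (by rw [h6, map_one])
    rw [h7, map_one, one_mul] at hξ
    change aeval (fun i => q (Sum.inl i)) (X 0 + X 1 - 1 : MvPolynomial (Fin 2) ℤ) = 0
    simp only [map_sub, map_add, map_one, aeval_X]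
    rw [← hξ]
    ring
  · intro K _ _ q hq hG j
    obtain ⟨e1, e2, e3, e4, e5, e6, e7, e8, e9⟩ := (key K q).1 hG
    have hiso := fun i hi => D.iso _ e8 i hi
    have hmem : ∀ i, q (Sum.inl i) ∈ Algebra.adjoin Fa (Set.range fun i => q (Sum.inl i)) :=
      fun i => Algebra.subset_adjoin ⟨i, rfl⟩
    have h1 : q (Sum.inr 9) = algebraMap Fa K cc := by rw [← e5, e6]
    have hx1 : q (Sum.inr 1) ∈ Algebra.adjoin Fa (Set.range fun i => q (Sum.inl i)) := by
      rw [← e7, h1]
      exact Subalgebra.mul_mem _ (Subalgebra.algebraMap_mem _ _) (hmem 0)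
    have hx0 : q (Sum.inr 0) ∈ Algebra.adjoin Fa (Set.range fun i => q (Sum.inl i)) := by
      rw [e1]
      exact hx1
    have hal : ∀ x ∈ Algebra.adjoin Fa (Set.range fun i => q (Sum.inl i)),
        IsAlgebraic (Algebra.adjoin Fa (Set.range fun i => q (Sum.inl i))) x := fun x hx =>
      isAlgebraic_algebraMap (A := K) (⟨x, hx⟩ : Algebra.adjoin Fa _)
    have h2 := (hiso 1 (by decide)).alg _ hx0
    have h3 := (hiso 2 (by decide)).alg _ hx0
    have h4 := (hiso 3 (by decide)).alg _ hx0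
    fin_cases j
    · exact hal _ hx0
    · exact hal _ hx1
    · exact h2
    · exact h3
    · exact h4
    · change IsAlgebraic _ (q (Sum.inr 5))
      rw [← e2]
      exact h2
    · change IsAlgebraic _ (q (Sum.inr 6))
      rw [← e3]
      exact h3
    · change IsAlgebraic _ (q (Sum.inr 7))
      rw [← e4]
      exact h4
    · change IsAlgebraic _ (q (Sum.inr 8))
      rw [e6]
      exact hal _ (Subalgebra.algebraMap_mem _ _)
    · change IsAlgebraic _ (q (Sum.inr 9))
      rw [h1]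
      exact hal _ (Subalgebra.algebraMap_mem _ _)

end Pool.Agent.N101.ZP
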