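import Pool.Agent.N101.ZP.GateB
import Pool.Agent.N101.ZP.XRk

/-!
# The product of the three values of `j` at the 2-isogenous points
-/

set_option autoImplicit false
set_option linter.unusedSectionVars false
set_option linter.style.haveILetI false

namespace Pool.Agent.N101.ZP

open UpperHalfPlane H294ZP Polynomial Pool.Agent.N135.ZO ModularForm MatrixGroups
open Pool.Agent.R948 (td cp)

/-- the point `ρ = exp (2 π i / 3)` -/
noncomputable def rho : ℍ := ⟨⟨-1 / 2, Real.sqrt 3 / 2⟩, by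
  change 0 < Real.sqrt 3 / 2
  positivity⟩

theorem rho_eq : (rho : ℂ) ^ 2 + rho + 1 = 0 := by
  have h1 : Real.sqrt 3 * Real.sqrt 3 = 3 := Real.mul_self_sqrt (by norm_num)
  apply Complex.ext
  · simp only [rho, UpperHalfPlane.coe_mk, pow_two, Complex.add_re, Complex.mul_re, Complex.one_re,
      Complex.zero_re]
    nlinarith
  · simp only [rho, UpperHalfPlane.coe_mk, pow_two, Complex.add_im, Complex.mul_im, Complex.one_im,
      Complex.zero_im]
    ring

theorem rho_im : (rho : ℂ).im ≠ 0 := rho.im_pos.ne'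

/-- `ρ` is not rational -/
theorem rho_int {a b : ℤ} (h : (a : ℂ) * rho + b = 0) : a = 0 ∧ b = 0 := by
  have h1 := congrArg Complex.im h
  simp only [Complex.add_im, Complex.mul_im, Complex.intCast_re, Complex.intCast_im, zero_mul,
    add_zero, Complex.zero_im, mul_eq_zero] at h1
  have h2 : a = 0 := by
    rcases h1 with h1 | h1
    · exact_mod_cast h1
    · exact absurd h1 rho_im
  subst h2
  refine ⟨rfl, ?_⟩
  have : (b : ℂ) = 0 := by simpa using h
  exact_mod_cast this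

theorem E4_rho : E₄ rho = 0 := by
  let γ : SL(2, ℤ) := ⟨!![0, -1; 1, 1], by rw [Matrix.det_fin_two_of]; norm_num⟩
  have hden : denom γ rho = (rho : ℂ) + 1 := by
    rw [ModularGroup.denom_apply]
    simp [γ]
  have hne : (rho : ℂ) + 1 ≠ 0 := by
    rw [← hden]
    exact denom_ne_zero _ rho
  have h1 : γ • rho = rho := by
    apply UpperHalfPlane.ext
    rw [coe_specialLinearGroup_apply]
    have h2 : (rho : ℂ) = ((0 : ℤ) * rho + (-1 : ℤ)) / ((1 : ℤ) * rho + (1 : ℤ)) := by
      rw [eq_div_iff (by push_cast; rw [one_mul]; exact hne)]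
      push_cast
      linear_combination rho_eq
    conv_rhs => rw [h2]
    simp [γ]
  have h4 : E₄ (γ • rho) = (denom γ rho) ^ (4 : ℤ) * E₄ rho :=
    SlashInvariantForm.slash_action_eqn' E₄ (MonoidHom.mem_range.mpr ⟨γ, rfl⟩) rho
  rw [h1, hden] at h4
  have h5 : ((rho : ℂ) + 1) ^ (4 : ℤ) = -rho - 1 := by
    have : ((rho : ℂ) + 1) ^ (4 : ℤ) = ((rho : ℂ) + 1) ^ 4 := by norm_cast
    rw [this]
    linear_combination ((rho : ℂ) ^ 2 + 3 * rho + 2) * rho_eq
  rw [h5] at h4
  have h6 : ((rho : ℂ) + 2) * E₄ rho = 0 := by linear_combination h4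
  rcases mul_eq_zero.1 h6 with h7 | h7
  · exfalso
    have h8 := (rho_int (a := 1) (b := 2) (by push_cast; linear_combination h7)).2
    norm_num at h8
  · exact h7

theorem jj_rho : jj rho = 0 := by
  rw [jj, E4_rho]
  norm_num

/-- the point `2 ρ` -/
noncomputable def rho2 : ℍ := hh two_pos none rho

theorem rho2_eq : (rho2 : ℂ) = 2 * rho := by
  have h1 := hh_mul two_pos none rho
  simp only [ka, kd, kb] at h1
  push_cast at h1
  rw [rho2]
  linear_combination h1

theorem cm_rho2 : IsCM rho2 := ⟨1, 2, 4, one_ne_zero, by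
  rw [rho2_eq]
  push_cast
  linear_combination 4 * rho_eq⟩

/-- the value `j(2 ρ) = 54000` -/
noncomputable def cc : Fa := zF ⟨jj rho2, singular_modulus_integral rho2 cm_rho2⟩

theorem cc_eq : algebraMap Fa ℂ cc = jj rho2 := rfl

theorem cm_cc {K : Type} [Field K] [Algebra Fa K] : Cm (algebraMap Fa K cc) :=
  ⟨rho2, cc, cm_rho2, cc_eq, rfl⟩

theorem jk_rho (k : Option (Fin 2)) : jk k rho = jj rho2 := by
  rcases k with _ | b
  · rfl
  · have h1 := hh_mul two_pos (some b) rho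
    simp only [ka, kd, kb] at h1
    push_cast at h1
    rw [jk]
    fin_cases b
    · refine inv_jj 0 (-1) 1 2 (by norm_num) rho2 _ ?_
      rw [rho2_eq]
      push_cast
      simp only [Fin.zero_eta, Fin.val_zero, Nat.cast_zero, add_zero, one_mul] at h1 ⊢
      linear_combination (rho + 1) * h1 + rho_eq
    · refine inv_jj 0 (-1) 1 0 (by norm_num) rho2 _ ?_
      rw [rho2_eq]
      push_cast
      simp only [Fin.mk_one, Fin.val_one, Nat.cast_one, one_mul] at h1 ⊢
      linear_combination rho * h1 + rho_eq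

theorem cc_ne : cc ≠ 0 := by
  intro h0
  have h1 : jj rho2 = jj rho := by rw [← cc_eq, h0, map_zero, jj_rho]
  obtain ⟨M, hM, hM2⟩ := jj_inj h1.symm
  have h2 : (rho2 : ℂ) * ((M 1 0 : ℂ) * rho + (M 1 1 : ℂ)) =
    (M 0 0 : ℂ) * rho + (M 0 1 : ℂ) := hM2
  rw [rho2_eq] at h2
  have h3 : ((2 * M 1 1 - 2 * M 1 0 - M 0 0 : ℤ) : ℂ) * rho + ((- 2 * M 1 0 - M 0 1 : ℤ) : ℂ) = 0 := by
    push_cast
    linear_combination h2 - 2 * (M 1 0 : ℂ) * rho_eq
  obtain ⟨h4, h5⟩ := rho_int h3
  rw [det_eq] at hM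
  have h6 : M 0 0 = 2 * M 1 1 - 2 * M 1 0 := by omega
  have h7 : M 0 1 = -2 * M 1 0 := by omega
  rw [h6, h7] at hM
  have h8 : 2 * ((M 1 1 - M 1 0) * M 1 1 + M 1 0 * M 1 0) = 1 := by linear_combination hM
  omega

theorem jj_of_rel {C : M2} (hC : C.det = 2) {w : ℍ} (h : N135.ZO.Rel C rho w) :
    jj w = jj rho2 := by
  obtain ⟨k, C', hC'⟩ := factor Nat.prime_two C (by rw [hC]; exact dvd_rfl)
  have hdet : C'.det = 1 := by
    have h1 := congrArg Matrix.det hC'
    rw [det_mul', det_gk, hC] at h1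
    push_cast at h1
    omega
  obtain ⟨w', hw'⟩ := exists_rel (M := C') (by rw [hdet]; norm_num) (hh two_pos k rho)
  have h1 := (rel_hh two_pos k rho).mul hw'
  have h2 : w = w' := by
    refine N135.ZO.Rel.unique (M := C) (by rw [hC]; norm_num) h ?_
    rw [hC']
    exact h1
  rw [h2, N135.ZO.Rel.jj hdet hw']
  exact jk_rho k

section

variable (D : HD)

theorem HD.R_eval (τ : ℍ) : D.R.eval₂ (algebraMap Fa ℂ) (jj τ) =
    jk none τ * jk (some 0) τ * jk (some 1) τ := (D.h τ).2.2.symm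

theorem HD.R_zero : D.R.eval 0 = cc ^ 3 := by
  apply (algebraMap Fa ℂ).injective
  have h1 := D.R_eval rho
  rw [jj_rho, jk_rho, jk_rho, jk_rho] at h1
  rw [map_pow, cc_eq, ← Polynomial.eval₂_at_apply, map_zero, h1]
  ring

theorem HD.R_cc : D.R.eval cc = 0 := by
  apply (algebraMap Fa ℂ).injective
  have h1 := D.R_eval rho2
  have h2 : jk (some 0) rho2 = 0 := by
    rw [jk, ← jj_rho]
    congr 1
    apply UpperHalfPlane.ext
    have h1 := hh_mul two_pos (some 0) rho2
    simp only [ka, kd, kb] at h1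
    push_cast at h1
    rw [rho2_eq] at h1
    simp only [Fin.isValue, Fin.val_zero, Nat.cast_zero, add_zero, one_mul] at h1
    have h3 : (2 : ℂ) ≠ 0 := two_ne_zero
    apply mul_right_cancel₀ h3
    linear_combination h1
  rw [h2, mul_zero, zero_mul] at h1
  rw [← Polynomial.eval₂_at_apply, cc_eq, h1, map_zero]

theorem HD.R_root {x : Fa} (hx : D.R.eval x = 0) : x = cc := by
  obtain ⟨τ, hτ⟩ := jj_surj (algebraMap Fa ℂ x)
  have h1 := D.R_eval τ
  rw [hτ, Polynomial.eval₂_at_apply, hx, map_zero] at h1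
  have h2 : ∃ k, jk k τ = 0 := by
    rcases mul_eq_zero.1 h1.symm with h2 | h2
    · rcases mul_eq_zero.1 h2 with h3 | h3
      · exact ⟨_, h3⟩
      · exact ⟨_, h3⟩
    · exact ⟨_, h2⟩
  obtain ⟨k, hk⟩ := h2
  have h3 : jj rho = jj (hh two_pos k τ) := by
    rw [jj_rho]
    exact hk.symm
  obtain ⟨M, hM, hM2⟩ := jj_inj h3
  have h4 := (rel_adj (rel_hh two_pos k τ))
  have h5 := hM2.mul h4
  apply (algebraMap Fa ℂ).injective
  rw [← hτ, cc_eq]
  refine jj_of_rel ?_ h5
  rw [det_mul', det_adj, det_gk, hM]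
  norm_num

theorem HD.R_form : ∃ (a : Fa) (m : ℕ), 0 < m ∧ D.R = C a * (X - C cc) ^ m := by
  have hsp : D.R.Splits := IsAlgClosed.splits D.R
  have h0 : D.R ≠ 0 := by
    intro h0
    have h1 := D.R_zero
    rw [h0, eval_zero] at h1
    exact pow_ne_zero 3 cc_ne h1.symm
  have h1 := hsp.eq_prod_roots
  have h2 : D.R.roots = Multiset.replicate D.R.roots.card cc := by
    rw [Multiset.eq_replicate]
    refine ⟨rfl, fun x hx => D.R_root ?_⟩
    exact (mem_roots h0).1 hx
  rw [h2, Multiset.map_replicate, Multiset.prod_replicate] at h1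
  refine ⟨D.R.leadingCoeff, D.R.roots.card, ?_, h1⟩
  rw [Multiset.card_pos_iff_exists_mem]
  exact ⟨cc, (mem_roots h0).2 D.R_cc⟩

theorem HD.exists_m : ∃ m : ℕ, 0 < m ∧ ∀ (K : Type) [Field K] [Algebra Fa K] (r : K),
    aeval (algebraMap Fa K cc * r) D.R = algebraMap Fa K cc ^ 3 * (1 - r) ^ m := by
  obtain ⟨a, m, hm, hR⟩ := D.R_form
  refine ⟨m, hm, fun K _ _ r => ?_⟩
  have h1 := D.R_zero
  rw [hR, eval_mul, eval_C, eval_pow, eval_sub, eval_X, eval_C, zero_sub] at h1
  have h2 : (algebraMap Fa K cc * r - algebraMap Fa K cc) ^ m =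
      (-algebraMap Fa K cc) ^ m * (1 - r) ^ m := by
    rw [← mul_pow]
    congr 1
    ring
  rw [hR, map_mul, map_pow, map_sub, aeval_X, aeval_C, aeval_C, h2, ← map_pow, ← h1]
  rw [map_mul, map_pow, map_neg]
  ring

end

end Pool.Agent.N101.ZP
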