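import Pool.Agent.H294ZP.Stmts

/-!
# Subvarieties and special subvarieties of `Y(1)^n`

`Y(1)` is identified with the affine line over `ℂ` through the modular function `j`, and `Y(1)^ι`
with `ℂ^ι`.
-/

set_option autoImplicit false

namespace Pool.Agent.N101.Y1

open UpperHalfPlane MvPolynomial H294ZP

variable {ι : Type} [Fintype ι]

/-- The zero locus in `ℂ^ι` of a set of polynomials. -/
def zeros (S : Set (MvPolynomial ι ℂ)) : Set (ι → ℂ) := {x | ∀ f ∈ S, eval x f = 0}

/-- Zariski closed subsets of `ℂ^ι`. -/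
def ZClosed (A : Set (ι → ℂ)) : Prop := ∃ S : Set (MvPolynomial ι ℂ), A = zeros S

/-- Subvarieties: irreducible Zariski closed subsets of `ℂ^ι`. -/
structure Subvariety (A : Set (ι → ℂ)) : Prop where
  closed : ZClosed A
  nonempty : A.Nonempty
  irreducible : ∀ B C : Set (ι → ℂ), ZClosed B → ZClosed C → A ⊆ B ∪ C → A ⊆ B ∨ A ⊆ C

/-- The ideal of the polynomials vanishing on a subset of `ℂ^ι`. -/
def van (A : Set (ι → ℂ)) : Ideal (MvPolynomial ι ℂ) where
  carrier := {f | ∀ x ∈ A, eval x f = 0}
  zero_mem' := fun _ _ => map_zero _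
  add_mem' := fun {f g} hf hg x hx => by rw [map_add, hf x hx, hg x hx, add_zero]
  smul_mem' := fun f g hg x hx => by rw [smul_eq_mul, map_mul, hg x hx, mul_zero]

/-- The Zariski closure of a subset of `ℂ^ι`. -/
def zclosure (A : Set (ι → ℂ)) : Set (ι → ℂ) := zeros (van A : Set (MvPolynomial ι ℂ))

/-- The dimension of a subvariety: the transcendence degree of the ring of the restrictions of
the polynomial functions. -/
noncomputable def vdim (A : Set (ι → ℂ)) : ℕ :=
  Cardinal.toNat (Algebra.trdeg ℂ (MvPolynomial ι ℂ ⧸ van A))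

/-- Special subvarieties of `Y(1)^ι`: the Zariski closures of the images under
`(j, ..., j) : ℍ^ι → ℂ^ι` of the sets of the points `(z i)` such that, for each `i`, either `z i` is
a fixed point `w i` with complex multiplication, or `z i = g i • t k` with `k = c i`, where `g i` is
a fixed integral matrix of positive determinant and `t k` is a free parameter in `ℍ`. -/
def Special (A : Set (ι → ℂ)) : Prop :=
  ∃ (c : ι → Option ι) (g : ι → Matrix (Fin 2) (Fin 2) ℤ) (w : ι → ℍ),
    (∀ i, 0 < (g i).det) ∧ (∀ i, c i = none → IsCM (w i)) ∧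
    A = zclosure {x | ∃ t : ι → ℍ, ∀ i, ∃ z : ℍ, x i = jj z ∧ (c i = none → z = w i) ∧
      ∀ k, c i = some k →
        (z : ℂ) * ((g i 1 0 : ℂ) * t k + (g i 1 1 : ℂ)) = (g i 0 0 : ℂ) * t k + (g i 0 1 : ℂ)}

/-- The defect of a subvariety: the least dimension of a special subvariety containing it minus its
dimension. -/
noncomputable def defect (A : Set (ι → ℂ)) : ℤ :=
  (sInf {d : ℕ | ∃ Z, Special Z ∧ A ⊆ Z ∧ vdim Z = d} : ℕ) - (vdim A : ℤ)

/-- `A` is an optimal subvariety of `V`: no larger subvariety of `V` has a defect which is at most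
the defect of `A`. -/
def Optimal (A V : Set (ι → ℂ)) : Prop :=
  Subvariety A ∧ A ⊆ V ∧ ∀ B, Subvariety B → A ⊂ B → B ⊆ V → ¬ defect B ≤ defect A

/-- `W` is an irreducible component of `B`. -/
def IsComp (W B : Set (ι → ℂ)) : Prop :=
  Subvariety W ∧ W ⊆ B ∧ ∀ W', Subvariety W' → W ⊆ W' → W' ⊆ B → W' = W

/-- `W` is an atypical intersection of `Z` and `V` in `Y(1)^ι`: an irreducible component of
`Z ∩ V` whose dimension is larger than `dim Z + dim V - dim Y(1)^ι`. -/
def Atypical (W Z V : Set (ι → ℂ)) : Prop :=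
  IsComp W (Z ∩ V) ∧ vdim Z + vdim V < vdim W + Fintype.card ι

/-- The statement of the Zilber–Pink conjecture for a subvariety `V` of the Shimura variety
`Y(1)^ι`, in the form of the problem: if `Z n` are special subvarieties and `W n` is an atypical
intersection of `Z n` and `V`, then the union of the `W n` is contained in a finite union of proper
special subvarieties. -/
def ZilberPink (V : Set (ι → ℂ)) : Prop :=
  ∀ Z W : ℕ → Set (ι → ℂ), (∀ n, Special (Z n)) → (∀ n, Atypical (W n) (Z n) V) →
    ∃ T : Set (Set (ι → ℂ)), T.Finite ∧ (∀ S ∈ T, Special S ∧ S ≠ Set.univ) ∧ ⋃ n, W n ⊆ ⋃₀ T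

/-- The `M`-th power of the plane `x + y = z` in `Y(1)^3`. -/
def planePow (M : ℕ) : Set (Fin M × Fin 3 → ℂ) := {x | ∀ i, x (i, 0) + x (i, 1) = x (i, 2)}

end Pool.Agent.N101.Y1
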